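import Pool.Agent.Lib.MP_6e5bed_ag_GP.BoxC
import Pool.Agent.Lib.MP_6e5bed_ag_GG.SL

set_option autoImplicit false
set_option linter.unusedVariables false

/-!
# MP_6e5bed_ag, THEOREM G+: the cohomology of coherent one-sided sheaves is finite-dimensional
-/

noncomputable section

namespace Pool.Agent.MP_6e5bed_ag_GP

open Pool.Agent.MP_6e5bed_ag_NC Pool.Agent.MP_6e5bed_ag_NS
open Pool.Agent.MP_6e5bed_ag_PN hiding Ch
open Pool.Agent.MP_6e5bed_ag_GG
open scoped TensorProduct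

universe u v

variable {k : Type u} [Field k] {i j : Type} [Fintype i] [Fintype j]

/-! ### Pull-back along a morphism of sites -/

/-- Morphisms of sites. -/
structure SiM (S T : Site k) where
  f : S.P → T.P
  mono : ∀ {p q : S.P}, p ≤ q → f p ≤ f q
  β : ∀ p, S.B p →ₐ[k] T.B (f p)
  nat : ∀ {p q : S.P} (h : p ≤ q) (b : S.B p), T.r (mono h) (β p b) = β q (S.r h b)
  loc : ∀ {p q : S.P} {t : S.B p}, S.Loc p q t → T.Loc (f p) (f q) (β p t)

variable {S T : Site k}

/-- the pull-back of a sheaf -/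
def SiM.pull (φ : SiM S T) (M : Sh T) : Sh S where
  E := fun p => M.E (φ.f p)
  mod := fun p => Module.compHom (M.E (φ.f p)) (φ.β p : S.B p →+* T.B (φ.f p))
  tow := fun p => @IsScalarTower.mk k (S.B p) (M.E (φ.f p)) _
    (Module.compHom (M.E (φ.f p)) (φ.β p : S.B p →+* T.B (φ.f p))).toSMul _ (fun c r x => by
      change φ.β p (c • r) • x = c • (φ.β p r • x)
      rw [map_smul, smul_assoc])
  res := fun h => M.res (φ.mono h)
  res_smul := fun {p q} h b x => by
    change M.res (φ.mono h) (φ.β p b • x) = φ.β q (S.r h b) • M.res (φ.mono h) x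
    rw [M.res_smul, φ.nat]
  res_id := fun h x => M.res_id _ x
  res_res := fun h h' x => M.res_res _ _ x
  surj := fun {p q t} h y => by
    obtain ⟨n, x, hx⟩ := M.surj (φ.loc h) y
    refine ⟨n, x, ?_⟩
    change M.res _ x = φ.β q (S.r (S.le h) t ^ n) • y
    rw [map_pow, ← φ.nat, hx]
  inj := fun {p q t} h x hx => by
    obtain ⟨n, hn⟩ := M.inj (φ.loc h) x hx
    refine ⟨n, ?_⟩
    change φ.β p (t ^ n) • x = 0
    rw [map_pow, hn]

theorem SiM.pull_coh (φ : SiM S T) {M : Sh T} (hM : M.Coh)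
    (h : ∀ p, ∃ (n : ℕ) (s : Fin n → T.B (φ.f p)), ∀ x, ∃ r : Fin n → S.B p,
      x = ∑ m, φ.β p (r m) * s m) (hc : ∀ p (a b : S.B p), a * b = b * a) :
    (φ.pull M).Coh := by
  intro p
  obtain ⟨n, s, hs⟩ := h p
  let _ : CommRing (S.B p) := { (inferInstance : Ring (S.B p)) with mul_comm := hc p }
  exact fin_comp (R := S.B p) (B := T.B (φ.f p)) (M := M.E (φ.f p)) (hM _)
    (φ.β p : S.B p →+* T.B (φ.f p)) s hs

/-! ### The point -/

/-- the functions on the point -/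
def epsP (c : Set Unit) : RR k c →ₐ[k] k :=
  (AddMonoidAlgebra.lift k k (Unit → ℤ) (1 : Multiplicative (Unit → ℤ) →* k)).comp (RR k c).val

theorem epsP_rinc {c d : Set Unit} (h : c ⊆ d) (r : RR k c) :
    epsP (k := k) d (rinc h r) = epsP c r := rfl

theorem epsP_tt {c : Set Unit} (l : Unit) {g : Unit} (hg : g ∈ c) :
    epsP (k := k) c (tt k l hg) = 1 := by
  change AddMonoidAlgebra.lift k k (Unit → ℤ) (1 : Multiplicative (Unit → ℤ) →* k)
    (AddMonoidAlgebra.single (ex l g) 1) = 1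
  rw [AddMonoidAlgebra.lift_single]
  simp

/-- the functions on the product with the point -/
def bP (p : Ch i × Ch Unit) : obB k p →ₐ[k] RR k p.1.1 :=
  Algebra.TensorProduct.lift (AlgHom.id k _) ((Algebra.ofId k (RR k p.1.1)).comp (epsP p.2.1))
    (fun _ _ => Commute.all _ _)

theorem bP_tmul (p : Ch i × Ch Unit) (r : RR k p.1.1) (s : RR k p.2.1) :
    bP p (r ⊗ₜ[k] s) = r * algebraMap k _ (epsP p.2.1 s) := rfl

theorem bP_nat {p q : Ch i × Ch Unit} (h : p ≤ q) (b : obB k p) :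
    rinc h.1 (bP p b) = bP q (obr k h b) := by
  induction b using TensorProduct.induction_on with
  | zero => rw [map_zero, map_zero, map_zero, map_zero]
  | add x y hx hy => rw [map_add, map_add, hx, hy, map_add, map_add]
  | tmul r s =>
    rw [bP_tmul, obr_tmul, bP_tmul, map_mul, AlgHom.commutes, epsP_rinc]

theorem tt_selfR {c : Set i} {g : i} (hg : g ∈ c) : tt k g hg = 1 := by
  refine Subtype.ext ?_
  change mon k (ex g g) = 1
  unfold ex
  rw [sub_self]
  rfl

theorem bP_loc {p q : Ch i × Ch Unit} {t : obB k p} (h : obLoc k p q t) :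
    ∃ (l g : i) (hg : g ∈ p.1.1), q.1.1 ⊆ insert l p.1.1 ∧ bP p t = tt k l hg := by
  obtain ⟨h1, ⟨l, g, hg, h2, h3, rfl⟩ | ⟨l, g, hg, h2, h3, rfl⟩⟩ := h
  · refine ⟨l, g, hg, h2, ?_⟩
    unfold t1
    rw [bP_tmul, map_one, map_one, mul_one]
  · obtain ⟨g', hg'⟩ := p.1.2.1
    refine ⟨g', g', hg', fun x hx => Or.inr (h3 hx), ?_⟩
    unfold t2
    rw [bP_tmul, epsP_tt, map_one, mul_one, tt_selfR]

variable (A : CA k i)

/-- the product with the point -/
def lsP : SiM (ob k i Unit) (ls A) where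
  f := fun p => p.1
  mono := fun h => h.1
  β := fun p => (IsScalarTower.toAlgHom k (RR k p.1.1) (A.A p.1)).comp (bP p)
  nat := fun {p q} h b => by
    change A.res h.1 (algebraMap (RR k p.1.1) (A.A p.1) (bP p b)) =
      algebraMap (RR k q.1.1) (A.A q.1) (bP q (obr k h b))
    rw [A.res_R, bP_nat h]
  loc := fun {p q t} h => by
    obtain ⟨l, g, hg, h1, h2⟩ := bP_loc h
    refine ⟨h.1.1, l, g, hg, h1, ?_⟩
    exact congrArg (algebraMap (RR k p.1.1) (A.A p.1)) h2

/-- the product with the point -/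
def rsP : SiM (ob k i Unit) (rs A) where
  f := fun p => p.1
  mono := fun h => h.1
  β := fun p => (IsScalarTower.toAlgHom k (RR k p.1.1) (A.A p.1)ᵐᵒᵖ).comp (bP p)
  nat := fun {p q} h b => by
    change MulOpposite.op (A.res h.1 (algebraMap (RR k p.1.1) (A.A p.1) (bP p b))) =
      MulOpposite.op (algebraMap (RR k q.1.1) (A.A q.1) (bP q (obr k h b)))
    rw [A.res_R, bP_nat h]
  loc := fun {p q t} h => by
    obtain ⟨l, g, hg, h1, h2⟩ := bP_loc h
    refine ⟨h.1.1, l, g, hg, h1, ?_⟩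
    exact congrArg (fun z => MulOpposite.op (algebraMap (RR k p.1.1) (A.A p.1) z)) h2

variable {A}

private theorem gen_l (A : CA k i) (p : Ch i × Ch Unit) : ∃ (n : ℕ) (s : Fin n → A.A p.1),
    ∀ x : A.A p.1, ∃ r : Fin n → obB k p,
      x = ∑ m, algebraMap (RR k p.1.1) (A.A p.1) (bP p (r m)) * s m := by
  obtain ⟨n, s, hs⟩ := (Submodule.fg_iff_exists_fin_generating_family).1 (A.fin p.1).fg_top
  refine ⟨n, s, fun x => ?_⟩
  have hx : x ∈ Submodule.span (RR k p.1.1) (Set.range s) := by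
    rw [hs]
    exact Submodule.mem_top
  obtain ⟨c, hc⟩ := (Submodule.mem_span_range_iff_exists_fun _).1 hx
  refine ⟨fun m => (c m ⊗ₜ[k] 1 : obB k p), ?_⟩
  rw [← hc]
  refine Finset.sum_congr rfl fun m _ => ?_
  rw [bP_tmul, map_one, map_one, mul_one, Algebra.smul_def]

private theorem gen_r (A : CA k i) (p : Ch i × Ch Unit) : ∃ (n : ℕ) (s : Fin n → (A.A p.1)ᵐᵒᵖ),
    ∀ x : (A.A p.1)ᵐᵒᵖ, ∃ r : Fin n → obB k p,
      x = ∑ m, MulOpposite.op (algebraMap (RR k p.1.1) (A.A p.1) (bP p (r m))) * s m := by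
  obtain ⟨n, s, hs⟩ := gen_l A p
  refine ⟨n, fun m => MulOpposite.op (s m), fun x => ?_⟩
  obtain ⟨r, hr⟩ := hs x.unop
  refine ⟨r, MulOpposite.unop_injective ?_⟩
  have h1 : MulOpposite.unop (∑ m, MulOpposite.op
      (algebraMap (RR k p.1.1) (A.A p.1) (bP p (r m))) * MulOpposite.op (s m)) =
      ∑ m, MulOpposite.unop (MulOpposite.op
      (algebraMap (RR k p.1.1) (A.A p.1) (bP p (r m))) * MulOpposite.op (s m)) :=
    map_sum (MulOpposite.opAddEquiv (α := A.A p.1)).symm _ _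
  rw [h1, hr]
  refine Finset.sum_congr rfl fun m _ => ?_
  rw [MulOpposite.unop_mul, MulOpposite.unop_op, MulOpposite.unop_op, Algebra.commutes]

theorem lsP_coh {M : Sh (ls A)} (hM : M.Coh) : ((lsP A).pull M).Coh :=
  (lsP A).pull_coh hM (fun p => gen_l A p) (fun p a b => mul_comm (G := obB k p) a b)

theorem rsP_coh {M : Sh (rs A)} (hM : M.Coh) : ((rsP A).pull M).Coh :=
  (rsP A).pull_coh hM (fun p => gen_r A p) (fun p a b => mul_comm (G := obB k p) a b)

/-- The action on the Čech complex is by scalars. -/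
theorem cC_scal {ι : Type} {D : Type v} [CommRing D] [Algebra k D] {V : PC k ι} (P : PDA D V)
    (ε : D → k) (h : ∀ c r x, (P.a c).φ r x = ε r • x) : ∀ (L : List ι) (c : FS ι) (r : D)
      (x : ((cC V L).X c).V), (P.cC L c).φ r x = ε r • x
  | [], c, r, x => rfl
  | l :: L, c, r, x => by
    obtain ⟨⟨x0, x1⟩, ξ⟩ := x
    exact Prod.ext (Prod.ext (cC_scal P ε h L c r x0) (h _ r x1))
      (cC_scal P ε h L (c.ins l).fs r ξ)

theorem fgt_scal {D : Type v} [CommRing D] [Algebra k D] {X : Cx k} (a : DAct D X) (ε : D → k)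
    (h : ∀ r x, a.φ r x = ε r • x) (ha : a.FGt) : (DAct.triv X).FGt := by
  obtain ⟨n, s, h1, h2⟩ := ha
  refine ⟨n, s, h1, fun x hx => ?_⟩
  obtain ⟨r, hr⟩ := h2 x hx
  refine ⟨fun m => ε (r m), ?_⟩
  have h3 : ∑ m, (DAct.triv X).φ (ε (r m)) (s m) = ∑ m, a.φ (r m) (s m) :=
    Finset.sum_congr rfl fun m _ => (h (r m) (s m)).symm
  rw [h3]
  exact hr

variable (A)

/-- The cohomology of coherent left sheaves is finite-dimensional. -/
theorem finL : FinL A := by
  intro M hM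
  have h1 := fin3 (lsP_coh hM) (Ch.sgl ())
  have h2 : (DAct.triv ((cC (((lsP A).pull M).pc2.fst (Ch.sgl ())) (LL i)).X (FS.e i))).FGt := by
    refine fgt_scal _ (epsP (Ch.sgl ()).1) (fun r x => ?_) h1
    refine cC_scal _ (epsP (Ch.sgl ()).1) (fun c r x => ?_) (LL i) (FS.e i) r x
    change (algebraMap (RR k c.1) (A.A c) (bP (c, Ch.sgl ()) (1 ⊗ₜ[k] r)) : A.A c) •
      (show M.E c from x) = epsP (Ch.sgl ()).1 r • (show M.E c from x)
    rw [bP_tmul, one_mul, ← IsScalarTower.algebraMap_apply k (RR k c.1) (A.A c), algebraMap_smul]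
  exact (DAct.finCoh _).1 h2

/-- The cohomology of coherent right sheaves is finite-dimensional. -/
theorem finR : FinR A := by
  intro M hM
  have h1 := fin3 (rsP_coh hM) (Ch.sgl ())
  have h2 : (DAct.triv ((cC (((rsP A).pull M).pc2.fst (Ch.sgl ())) (LL i)).X (FS.e i))).FGt := by
    refine fgt_scal _ (epsP (Ch.sgl ()).1) (fun r x => ?_) h1
    refine cC_scal _ (epsP (Ch.sgl ()).1) (fun c r x => ?_) (LL i) (FS.e i) r x
    change (MulOpposite.op (algebraMap (RR k c.1) (A.A c) (bP (c, Ch.sgl ()) (1 ⊗ₜ[k] r))) :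
      (A.A c)ᵐᵒᵖ) • (show M.E c from x) = epsP (Ch.sgl ()).1 r • (show M.E c from x)
    rw [bP_tmul, one_mul, ← IsScalarTower.algebraMap_apply k (RR k c.1) (A.A c)]
    exact algebraMap_smul (A.A c)ᵐᵒᵖ (epsP (Ch.sgl ()).1 r) (show M.E c from x)
  exact (DAct.finCoh _).1 h2

end Pool.Agent.MP_6e5bed_ag_GP
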