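import Pool.Agent.Lib.MP_6e5bed_ag_GP.PRes

set_option autoImplicit false
set_option linter.unusedSectionVars false

/-!
# MP_6e5bed_ag, THEOREM G+: the condition HP for the sheaf of a graded algebra
-/

noncomputable section

namespace Pool.Agent.MP_6e5bed_ag_GP

open MvPolynomial
open Pool.Agent.MP_6e5bed_ag_Pn Pool.Agent.MP_6e5bed_ag_GG

universe u

variable {n : ℕ} {k : Type u} [Field k] {i : Type} [Fintype i] {A : CA k i} {m m' : Ch i}

/-- The dimension of a specialisation is not greater. -/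
theorem two_spc (σ : i ≃ Fin (n + 1)) {g : GD A m} {g' : GD A m'} (h : Spc g g')
    {w : Fin 2 → RF (PI g')} (hw : AlgebraicIndependent k w) :
    ∃ w : Fin 2 → RF (PI g), AlgebraicIndependent k w := by
  obtain ⟨j', hj'⟩ := m'.2.1
  obtain ⟨x, y, hxy⟩ := exists_pair (toF_gen (PI g') σ hj') hw
  obtain ⟨hm, hs⟩ := h
  let t : Fin 2 → RR k m'.1 := ![tt k (σ.symm x) hj', tt k (σ.symm y) hj']
  have h1 : (![toF (PI g') (tt k (σ.symm x) hj'), toF (PI g') (tt k (σ.symm y) hj')] :
      Fin 2 → RF (PI g')) = fun z => toF (PI g') (t z) := by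
    funext z
    fin_cases z <;> rfl
  rw [h1] at hxy
  refine ⟨fun z => toF (PI g) (rinc hm (t z)), ?_⟩
  rw [algebraicIndependent_iff] at hxy ⊢
  intro p hp
  refine hxy p ?_
  have h2 : aeval (fun z => toF (PI g) (rinc hm (t z))) p = toF (PI g) (rinc hm (aeval t p)) := by
    have h3 : aeval (fun z => toF (PI g) (rinc hm (t z))) =
        ((toF (PI g)).comp (rinc hm)).comp (aeval t) := by
      refine MvPolynomial.algHom_ext fun l => ?_
      rw [AlgHom.comp_apply, aeval_X, aeval_X]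
      rfl
    rw [h3]
    rfl
  have h4 : aeval (fun z => toF (PI g') (t z)) p = toF (PI g') (aeval t p) := by
    have h3 : aeval (fun z => toF (PI g') (t z)) = (toF (PI g')).comp (aeval t) := by
      refine MvPolynomial.algHom_ext fun l => ?_
      rw [AlgHom.comp_apply, aeval_X, aeval_X]
    rw [h3]
    rfl
  rw [h2, toF_eq_zero, mem_PI] at hp
  rw [h4, toF_eq_zero, mem_PI]
  exact hs _ hp

/-- The generic data are finite over the residue field. -/
theorem fin_gd (g : GD A m) (P : Ideal (RR k m.1)) [P.IsPrime] (hP : ∀ f, f ∈ P ↔ g.fn f = 0)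
    [Algebra (RF P) g.S] (hψ : ∀ f, algebraMap (RF P) g.S (toF P f) = g.fn f) :
    Module.Finite (RF P) g.S := by
  have := A.fin m
  obtain ⟨N, a, ha⟩ := Module.Finite.exists_fin (R := RR k m.1) (M := A.A m)
  refine ⟨⟨(Set.finite_range fun t => g.psi (a t)).toFinset, ?_⟩⟩
  rw [Set.Finite.coe_toFinset, eq_top_iff]
  intro s _
  obtain ⟨f, hf, b, hb⟩ := g.surj s
  have hb' : b ∈ Submodule.span (RR k m.1) (Set.range a) := by
    rw [ha]
    exact Submodule.mem_top
  obtain ⟨r, hr⟩ := (Submodule.mem_span_range_iff_exists_fun _).1 hb'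
  have h1 : g.fn f * s = ∑ t, g.fn (r t) * g.psi (a t) := by
    change g.psi (algebraMap _ _ f) * s = ∑ t, g.psi (algebraMap _ _ (r t)) * g.psi (a t)
    rw [← hb, ← hr, map_sum]
    refine Finset.sum_congr rfl fun t _ => ?_
    rw [Algebra.smul_def, map_mul]
  have h2 : toF P f ≠ 0 := fun h0 => hf ((hP f).1 ((toF_eq_zero P f).1 h0))
  have h3 : s = (toF P f)⁻¹ • ∑ t, toF P (r t) • g.psi (a t) := by
    have h4 : ∑ t, toF P (r t) • g.psi (a t) = toF P f • s := by
      rw [Algebra.smul_def, hψ, h1]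
      refine Finset.sum_congr rfl fun t _ => ?_
      rw [Algebra.smul_def, hψ]
    rw [h4, inv_smul_smul₀ h2]
  rw [h3]
  exact Submodule.smul_mem _ _ (Submodule.sum_mem _ fun t _ =>
    Submodule.smul_mem _ _ (Submodule.subset_span ⟨t, rfl⟩))

/-- The generic data over points of dimension at most one. -/
theorem inProd_of_not_two (σ : i ≃ Fin (n + 1)) (g : GD A m)
    (hn : ¬ ∃ w : Fin 2 → RF (PI g), AlgebraicIndependent k w) :
    InProd (algebraMap k (Subalgebra.center k g.S)) := by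
  obtain ⟨j, hj⟩ := m.2.1
  obtain ⟨ψ, hψ1, hψ2⟩ := exists_psiF g (PI g) (mem_PI g)
  let _ : Algebra (RF (PI g)) g.S := ψ.toRingHom.toAlgebra' hψ2
  have htow : IsScalarTower k (RF (PI g)) g.S :=
    IsScalarTower.of_algebraMap_eq fun c => (ψ.commutes c).symm
  have hfin : Module.Finite (RF (PI g)) g.S := fin_gd g (PI g) (mem_PI g) hψ1
  refine inProd_center (F := RF (PI g)) ?_
  let _ : Field (Subalgebra.center (RF (PI g)) g.S) := center_isField.toField
  have hZ : Algebra.IsAlgebraic (RF (PI g)) (Subalgebra.center (RF (PI g)) g.S) := inferInstance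
  refine InProd.curve (fun x => toF (PI g) (tt k (σ.symm x) hj)) (toF_gen (PI g) σ hj) ?_
  by_contra hcon
  push Not at hcon
  obtain ⟨⟨x, hx⟩, hcon⟩ := hcon
  obtain ⟨y, hy⟩ := hcon x hx
  exact hn ⟨_, pair_indep hx hy⟩

variable {Γ : Type u} [Ring Γ] [Algebra (MvPolynomial (Fin (n + 1)) k) Γ]

/-- THE CONDITION HP FOR THE SHEAF OF `Γ`, abstract form. -/
theorem hp_of_cenP (σ : i ≃ Fin (n + 1)) (A : CA k i)
    (hδ : ∀ (m : Ch i) (j : i) (hj : j ∈ m.1), ∃ δ : Γ →+* A.A m,
      (∀ y : A.A m, ∃ (u : RR k m.1) (γ : Γ), IsUnit u ∧ δ γ = u • y) ∧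
      ∀ p : MvPolynomial (Fin (n + 1)) k, δ (algebraMap _ Γ p) =
        algebraMap (RR k m.1) (A.A m) (aeval (fun x => tt k (σ.symm x) hj) p))
    (hinj : Function.Injective (algebraMap (MvPolynomial (Fin (n + 1)) k) Γ) →
      ∀ c : Ch i, Function.Injective (algebraMap (RR k c.1) (A.A c)))
    (h : CenP n k Γ) : HP A := by
  intro m g
  obtain ⟨j, hj⟩ := m.2.1
  obtain ⟨δ, hδ1, hδ2⟩ := hδ m j hj
  by_cases hw : ∃ w : Fin 2 → RF (PI g), AlgebraicIndependent k w
  · obtain ⟨w, hw⟩ := hw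
    rcases h (RF (PI g)) (ptF (PI g) σ hj) (isPt_ptF _ σ hj hw) with ⟨h1, h2⟩ | h1
    · exact Or.inl ⟨uni_gd g σ hj δ hδ1 hδ2 h1, hinj h2⟩
    · refine Or.inr fun m' g' hs => ?_
      obtain ⟨j', hj'⟩ := m'.2.1
      obtain ⟨δ', hδ1', hδ2'⟩ := hδ m' j' hj'
      by_cases hw' : ∃ w : Fin 2 → RF (PI g'), AlgebraicIndependent k w
      · obtain ⟨w', hw'⟩ := hw'
        refine inProd_gd g' σ hj' δ' hδ1' hδ2' (h1 _ _ (isPt_ptF _ σ hj' hw') ?_)
        intro d p hp h0
        obtain ⟨hm, hs⟩ := hs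
        rw [aeval_ptF, toF_eq_zero, mem_PI] at h0 ⊢
        refine hs _ ?_
        have h3 : rinc hm (aeval (fun x => tt k (σ.symm x) hj') p) =
            aeval (fun x => (tt k (σ.symm x) (hm hj') : RR k m.1)) p := by
          have h4 : aeval (fun x => (tt k (σ.symm x) (hm hj') : RR k m.1)) =
              (rinc hm).comp (aeval (fun x => (tt k (σ.symm x) hj' : RR k m'.1))) := by
            refine MvPolynomial.algHom_ext fun l => ?_
            rw [AlgHom.comp_apply, aeval_X, aeval_X]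
            rfl
          rw [h4]
          rfl
        rw [h3, aeval_tt_homog σ hj (hm hj') hp, g.fn_mul, h0, mul_zero]
      · exact inProd_of_not_two σ g' hw'
  · exact Or.inr fun m' g' hs => inProd_of_not_two σ g' fun ⟨w, hw'⟩ => hw (two_spc σ hs hw')

end Pool.Agent.MP_6e5bed_ag_GP
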