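import Pool.Agent.Lib.MP_6e5bed_ag_GG.TCa

set_option autoImplicit false
set_option linter.unusedVariables false
set_option linter.unusedSectionVars false

/-!
# MP_6e5bed_ag, THEOREM G+: the coordinate rings embed if `k[x]` embeds
-/

noncomputable section

namespace Pool.Agent.MP_6e5bed_ag_GP

open MvPolynomial Pool.Agent.MP_6e5bed_ag_Pn Pool.Agent.MP_6e5bed_ag_GG

universe u

variable {ν : ℕ} {k : Type u} [Field k] {i : Type} [Fintype i] [DecidableEq i]

variable (k) in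
/-- polynomials as Laurent polynomials -/
def evL (σ : i ≃ Fin (ν + 1)) : MvPolynomial (Fin (ν + 1)) k →ₐ[k] Lau k i :=
  aeval (fun x => mon k (Pi.single (σ.symm x) 1))

private theorem PInj_pow (e : i → ℤ) (n : ℕ) : mon k e ^ n = mon k (n • e) := by
  unfold mon
  rw [AddMonoidAlgebra.single_pow, one_pow]

private theorem PInj_sum {ι : Type} (s : Finset ι) (e : ι → i → ℤ) :
    ∏ x ∈ s, mon k (e x) = mon k (∑ x ∈ s, e x) := by
  classical
  induction s using Finset.induction_on with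
  | empty => rfl
  | insert a s ha ih => rw [Finset.prod_insert ha, Finset.sum_insert ha, ih, mon_mul]

theorem evL_mm (σ : i ≃ Fin (ν + 1)) (f : Fin (ν + 1) → ℕ) :
    evL k σ (mm k f) = mon k (fun j => (f (σ j) : ℤ)) := by
  unfold mm evL
  rw [map_prod]
  have h1 : ∀ x, aeval (fun x => mon k (Pi.single (σ.symm x) 1 : i → ℤ))
      ((X x : MvPolynomial (Fin (ν + 1)) k) ^ f x) =
      mon k (f x • (Pi.single (σ.symm x) 1 : i → ℤ)) := fun x => by
    rw [map_pow, aeval_X, PInj_pow]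
  rw [Finset.prod_congr rfl fun x _ => h1 x, PInj_sum]
  congr 1
  funext j
  rw [Finset.sum_apply, Finset.sum_eq_single_of_mem (σ j) (Finset.mem_univ _)]
  · rw [Equiv.symm_apply_apply, Pi.smul_apply, Pi.single_eq_same, nsmul_eq_mul, mul_one]
  · intro x _ hx
    have h2 : j ≠ σ.symm x := fun h => hx (by rw [h, Equiv.apply_symm_apply])
    rw [Pi.smul_apply, Pi.single_eq_of_ne h2, smul_zero]

variable {Γ : Type u} [Ring Γ] [Algebra k Γ]
  [Algebra (MvPolynomial (Fin (ν + 1)) k) Γ] [IsScalarTower k (MvPolynomial (Fin (ν + 1)) k) Γ]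
  {𝒢 : ℕ → Submodule k Γ}
  {B : Finset (Fin (ν + 1)) → Type u} [∀ I, Ring (B I)] [∀ I, Algebra k (B I)]
  {r : ∀ I J : Finset (Fin (ν + 1)), I ⊆ J → B I →ₐ[k] B J}
  {q : ∀ I : Finset (Fin (ν + 1)), ℕ → Γ → B I}

theorem rho_frac (h : IsGr ν 𝒢) (hq : IsSec 𝒢 r q) (σ : i ≃ Fin (ν + 1)) {c : Set i}
    (f : RR k c) : ∃ (N : ℕ) (p : MvPolynomial (Fin (ν + 1)) k),
      p • (1 : Γ) ∈ 𝒢 (N * (tf σ c).card) ∧ rho h hq σ c f = q (tf σ c) N (p • 1) ∧
      (f : Lau k i) * evL k σ (xp k (tf σ c) ^ N) = evL k σ p := by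
  have raise : ∀ (f : RR k c) (N M : ℕ) (p : MvPolynomial (Fin (ν + 1)) k),
      (p • (1 : Γ) ∈ 𝒢 (N * (tf σ c).card) ∧ rho h hq σ c f = q (tf σ c) N (p • 1) ∧
      (f : Lau k i) * evL k σ (xp k (tf σ c) ^ N) = evL k σ p) →
      ((xp k (tf σ c) ^ M * p) • (1 : Γ) ∈ 𝒢 ((N + M) * (tf σ c).card) ∧
      rho h hq σ c f = q (tf σ c) (N + M) ((xp k (tf σ c) ^ M * p) • 1) ∧
      (f : Lau k i) * evL k σ (xp k (tf σ c) ^ (N + M)) = evL k σ (xp k (tf σ c) ^ M * p)) := by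
    rintro f N M p ⟨h1, h2, h3⟩
    refine ⟨?_, ?_, ?_⟩
    · rw [mul_smul]
      exact xp_mem h h1
    · rw [mul_smul, hq.step_pow h M h1, h2]
    · rw [pow_add, map_mul, map_mul, ← h3]
      ring
  induction f using RR_ind with
  | hm e he =>
    refine ⟨Nb e, mm k (eo σ c e (Nb e)), Mq_mem h σ (nn_Nb he) he.1, rho_mon h hq σ he (nn_Nb he),
      ?_⟩
    rw [xp_mm, evL_mm, evL_mm, mon_mul]
    congr 1
    funext j
    rw [Pi.add_apply]
    by_cases hj : j ∈ c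
    · have h1 : σ.symm (σ j) ∈ c := by rwa [Equiv.symm_apply_apply]
      rw [eo_pos (nn_Nb he) h1, Equiv.symm_apply_apply, if_pos (mem_tf.2 h1)]
    · have h1 : σ.symm (σ j) ∉ c := by rwa [Equiv.symm_apply_apply]
      rw [eo_neg (nn_Nb he) h1, Equiv.symm_apply_apply, if_neg (fun hh => h1 (mem_tf.1 hh))]
      push_cast
      rw [add_zero]
  | h0 =>
    refine ⟨0, 0, ?_, ?_, ?_⟩
    · rw [zero_smul]
      exact Submodule.zero_mem _
    · rw [zero_smul, hq.q_zero, map_zero]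
    · rw [map_zero]
      exact zero_mul _
  | ha f g hf hg =>
    obtain ⟨N, p, hp⟩ := hf
    obtain ⟨M, p', hp'⟩ := hg
    obtain ⟨h1, h2, h3⟩ := raise f N M p hp
    obtain ⟨h1', h2', h3'⟩ := raise g M N p' hp'
    rw [Nat.add_comm M N] at h1' h2' h3'
    refine ⟨N + M, xp k (tf σ c) ^ M * p + xp k (tf σ c) ^ N * p', ?_, ?_, ?_⟩
    · rw [add_smul]
      exact Submodule.add_mem _ h1 h1'
    · rw [add_smul, hq.add _ _ _ _ h1 h1', map_add, h2, h2']
    · rw [map_add, ← h3, ← h3', ← add_mul]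
      rfl
  | hs s f hf =>
    obtain ⟨N, p, h1, h2, h3⟩ := hf
    refine ⟨N, C s * p, ?_, ?_, ?_⟩
    · rw [C_mul', smul_assoc]
      exact Submodule.smul_mem _ _ h1
    · rw [map_smul, h2, C_mul', smul_assoc, hq.q_smul h s h1]
    · rw [map_mul, ← h3, ← MvPolynomial.algebraMap_eq, AlgHom.commutes, ← Algebra.smul_def]
      change (s • (f : Lau k i)) * _ = _
      rw [smul_mul_assoc]

/-- THE COORDINATE RINGS EMBED. -/
theorem rho_inj (h : IsGr ν 𝒢) (hq : IsSec 𝒢 r q) (σ : i ≃ Fin (ν + 1)) (c : Set i)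
    (hi : Function.Injective (algebraMap (MvPolynomial (Fin (ν + 1)) k) Γ)) :
    Function.Injective (rho h hq σ c) := by
  rw [injective_iff_map_eq_zero]
  intro f hf
  obtain ⟨N, p, h1, h2, h3⟩ := rho_frac h hq σ f
  rw [hf] at h2
  obtain ⟨l, hl⟩ := hq.zero _ _ _ h1 h2.symm
  have h4 : xp k (tf σ c) ^ l * p = 0 := by
    refine (map_eq_zero_iff _ hi).1 ?_
    have h5 : (xp k (tf σ c) ^ l * p) • (1 : Γ) = 0 := by
      rw [mul_smul]
      exact hl
    rwa [Algebra.smul_def, mul_one] at h5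
  have h5 : xp k (tf σ c) ≠ 0 := by
    unfold xp
    exact Finset.prod_ne_zero_iff.2 fun x _ => X_ne_zero x
  have h6 : p = 0 := (mul_eq_zero.1 h4).resolve_left (pow_ne_zero _ h5)
  rw [h6, map_zero, xp_mm, evL_mm] at h3
  refine Subtype.ext ?_
  change (f : Lau k i) = 0
  have h7 : (f : Lau k i) * mon k (fun j => ((if σ j ∈ tf σ c then N else 0 : ℕ) : ℤ)) *
      mon k (-fun j => ((if σ j ∈ tf σ c then N else 0 : ℕ) : ℤ)) = f := by
    rw [mul_assoc, mon_mul, add_neg_cancel]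
    exact mul_one _
  rw [← h7, h3, zero_mul]

end Pool.Agent.MP_6e5bed_ag_GP
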