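import Pool.Agent.Lib.MP_6e5bed_ag_GP.PDef

set_option autoImplicit false

/-!
# The residue condition of THEOREM V+ (MP_6e5bed_ag)
-/

namespace Pool.Agent.MP_6e5bed_ag_Pn

open MvPolynomial

universe u v

section

variable {n : ℕ} {k F : Type u} [Field k] [Field F] [Algebra k F]

variable (k) in
/-- `a` is a point of the projective space of dimension `n` over `k` and `F` is its residue field:
one of the homogeneous coordinates `a_0, …, a_n` is `1`, and they generate `F` over `k`. -/
structure IsPoint (a : Fin (n + 1) → F) : Prop where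
  one : ∃ j, a j = 1
  gen : IntermediateField.adjoin k (Set.range a) = ⊤

/-- The `k`-algebra `Z` (`f` is the inclusion of the scalars) embeds over `k` into one of the
fields `M α`, in such a way that `M α` is finite over `Z`. -/
def InFam {ι : Type v} (M : ι → Type u) [∀ α, Field (M α)] [∀ α, Algebra k (M α)] {Z : Type u}
    [CommRing Z] (f : k →+* Z) : Prop :=
  ∃ (α : ι) (φ : Z →+* M α), φ.Finite ∧ ∀ x, φ (f x) = algebraMap k (M α) x

variable (k) (Γ : Type u) [Ring Γ] [Algebra (MvPolynomial (Fin (n + 1)) k) Γ] {ι : Type v}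
  (M : ι → Type u) [∀ α, Field (M α)] [∀ α, Algebra k (M α)]

/-- The centres of all simple quotients of the algebra `Γ ⊗ F` embed into the fields `M α`. -/
def ResFam (a : Fin (n + 1) → F) : Prop :=
  ∀ (Q : Type u) [Ring Q] [Algebra F Q] (π : Γ →+* Q), IsQuo k a π →
    InFam M ((algebraMap F (Subalgebra.center F Q)).comp (algebraMap k F))

end

/-- The residue condition: for every point of the projective space, either the condition `ResA`
holds and `k[x_0, …, x_n]` embeds into `Γ`, or the condition `ResFam` holds for all the points in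
the closure. -/
def CenFam (n : ℕ) (k Γ : Type u) [Field k] [Ring Γ] [Algebra (MvPolynomial (Fin (n + 1)) k) Γ]
    {ι : Type v} (M : ι → Type u) [∀ α, Field (M α)] [∀ α, Algebra k (M α)] : Prop :=
  ∀ (F : Type u) [Field F] [Algebra k F] (a : Fin (n + 1) → F), IsPoint k a →
    (ResA k Γ a ∧ Function.Injective (algebraMap (MvPolynomial (Fin (n + 1)) k) Γ)) ∨
    ∀ (F' : Type u) [Field F'] [Algebra k F'] (b : Fin (n + 1) → F'), IsPoint k b →
      IsSpc k a b → ResFam k Γ M b

end Pool.Agent.MP_6e5bed_ag_Pn
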