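import Pool.Agent.Lib.MP_6e5bed_ag_GP.CorV
import Pool.Agent.Lib.MP_6e5bed_ag_GP.PHp
import Pool.Agent.Lib.MP_6e5bed_ag_GP.PInj
import Pool.Agent.Lib.MP_6e5bed_ag_GP.VDef

set_option autoImplicit false
set_option linter.unusedSectionVars false

/-!
# MP_6e5bed_ag, THEOREM V+: the condition HPV for the sheaf of a graded algebra
-/

noncomputable section

namespace Pool.Agent.MP_6e5bed_ag_GP

open MvPolynomial
open Pool.Agent.MP_6e5bed_ag Pool.Agent.MP_6e5bed_ag_NC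
  Pool.Agent.MP_6e5bed_ag_PS Pool.Agent.MP_6e5bed_ag_GG Pool.Agent.MP_6e5bed_ag_Pn
open Pool.Agent.MP_6e5bed_ag_PN hiding Ch

universe u v

variable {n : ℕ} {k : Type u} [Field k] {i : Type} [Fintype i] {A : CA k i} {m m' : Ch i}
  {ι : Type v} {M : ι → Type u} [∀ α, Field (M α)] [∀ α, Algebra k (M α)]

/-- The property `InFam` depends only on the image of the scalars. -/
theorem inFam_center {F Q : Type u} [Field F] [Algebra k F] [Ring Q] [Algebra F Q]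
    [Algebra k Q] [IsScalarTower k F Q]
    (h : InFam M ((algebraMap F (Subalgebra.center F Q)).comp (algebraMap k F))) :
    InFam M (algebraMap k (Subalgebra.center k Q)) := by
  obtain ⟨α, φ, hφ, hk⟩ := h
  have hc : ∀ z : Subalgebra.center k Q, z.1 ∈ Subalgebra.center F Q := fun z =>
    Subalgebra.mem_center_iff.2 (Subalgebra.mem_center_iff.1 z.2)
  let e : Subalgebra.center k Q →+* Subalgebra.center F Q :=
    { toFun := fun z => ⟨z.1, hc z⟩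
      map_one' := rfl
      map_mul' := fun _ _ => rfl
      map_zero' := rfl
      map_add' := fun _ _ => rfl }
  have he : Function.Surjective e := fun z =>
    ⟨⟨z.1, Subalgebra.mem_center_iff.2 (Subalgebra.mem_center_iff.1 z.2)⟩, rfl⟩
  refine ⟨α, φ.comp e, hφ.comp (RingHom.Finite.of_surjective e he), fun x => ?_⟩
  rw [← hk x]
  refine congrArg φ (Subtype.ext ?_)
  exact IsScalarTower.algebraMap_apply k F Q x

variable {Γ : Type u} [Ring Γ] [Algebra (MvPolynomial (Fin (n + 1)) k) Γ]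

/-- From `ResFam` to `InFam` for the generic data. -/
theorem inFam_gd {g : GD A m} (σ : i ≃ Fin (n + 1)) {j : i} (hj : j ∈ m.1) (δ : Γ →+* A.A m)
    (hδ1 : ∀ y : A.A m, ∃ (u : RR k m.1) (γ : Γ), IsUnit u ∧ δ γ = u • y)
    (hδ2 : ∀ p : MvPolynomial (Fin (n + 1)) k, δ (algebraMap _ Γ p) =
      algebraMap (RR k m.1) (A.A m) (aeval (fun x => tt k (σ.symm x) hj) p))
    (h : ResFam k Γ M (ptF (PI g) σ hj)) : InFam M (algebraMap k (Subalgebra.center k g.S)) := by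
  obtain ⟨ψ, hψ1, hψ2⟩ := exists_psiF g (PI g) (mem_PI g)
  let _ : Algebra (RF (PI g)) g.S := ψ.toRingHom.toAlgebra' hψ2
  have htow : IsScalarTower k (RF (PI g)) g.S :=
    IsScalarTower.of_algebraMap_eq fun c => (ψ.commutes c).symm
  exact inFam_center (h g.S _ (isQuo_gd g σ hj δ hδ1 hδ2 (PI g) hψ1))

/-- THE CONDITION HPV FOR THE SHEAF OF `Γ`, abstract form. -/
theorem hpv_of_cenFam {Good : DGA k → Prop} (σ : i ≃ Fin (n + 1)) (A : CA k i)
    (hδ : ∀ (m : Ch i) (j : i) (hj : j ∈ m.1), ∃ δ : Γ →+* A.A m,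
      (∀ y : A.A m, ∃ (u : RR k m.1) (γ : Γ), IsUnit u ∧ δ γ = u • y) ∧
      ∀ p : MvPolynomial (Fin (n + 1)) k, δ (algebraMap _ Γ p) =
        algebraMap (RR k m.1) (A.A m) (aeval (fun x => tt k (σ.symm x) hj) p))
    (hinj : Function.Injective (algebraMap (MvPolynomial (Fin (n + 1)) k) Γ) →
      ∀ c : Ch i, Function.Injective (algebraMap (RR k c.1) (A.A c)))
    (hM : ∀ α : ι, ∃ X : XT k, X.Gen ∧ SPJ Good (TT X.ca) ∧ Nonempty (M α ≃ₐ[k] X.M))
    (h : CenFam n k Γ M) : HPV Good A := by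
  have key : ∀ {Z : Type u} [CommRing Z] [Algebra k Z], InFam M (algebraMap k Z) →
      XFin Good Z := by
    intro Z _ _ hZ
    obtain ⟨α, φ, hφ, hk⟩ := hZ
    obtain ⟨X, h1, h2, ⟨e⟩⟩ := hM α
    let φ' : Z →ₐ[k] M α := { φ with commutes' := hk }
    refine ⟨X, h1, h2, (e : M α →ₐ[k] X.M).comp φ', ?_⟩
    exact RingHom.Finite.comp (RingHom.Finite.of_surjective e.toRingEquiv.toRingHom e.surjective)
      (show (φ' : Z →+* M α).Finite from hφ)
  intro m g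
  obtain ⟨j, hj⟩ := m.2.1
  obtain ⟨δ, hδ1, hδ2⟩ := hδ m j hj
  rcases h (RF (PI g)) (ptF (PI g) σ hj) ⟨⟨σ j, ptF_one _ σ hj⟩, toF_gen _ σ hj⟩ with ⟨h1, h2⟩ | h1
  · exact Or.inl ⟨uni_gd g σ hj δ hδ1 hδ2 h1, hinj h2⟩
  · refine Or.inr fun m' g' hs => ?_
    obtain ⟨j', hj'⟩ := m'.2.1
    obtain ⟨δ', hδ1', hδ2'⟩ := hδ m' j' hj'
    refine key (inFam_gd σ hj' δ' hδ1' hδ2'
      (h1 _ _ ⟨⟨σ j', ptF_one _ σ hj'⟩, toF_gen _ σ hj'⟩ ?_))
    intro d p hp h0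
    obtain ⟨hm, hs⟩ := hs
    rw [aeval_ptF, toF_eq_zero, mem_PI] at h0 ⊢
    refine hs _ ?_
    have h3 : rinc hm (aeval (fun x => tt k (σ.symm x) hj') p) =
        aeval (fun x => (tt k (σ.symm x) (hm hj') : RR k m.1)) p := by
      have h4 : aeval (fun x => (tt k (σ.symm x) (hm hj') : RR k m.1)) =
          (rinc hm).comp (aeval (fun x => (tt k (σ.symm x) hj' : RR k m'.1))) := by
        refine MvPolynomial.algHom_ext fun l => ?_
        rw [AlgHom.comp_apply, aeval_X, aeval_X]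
        rfl
      rw [h4]
      rfl
    rw [h3, aeval_tt_homog σ hj (hm hj') hp, g.fn_mul, h0, mul_zero]

section

variable {ν : ℕ} {k Γ : Type u} [Field k] [Ring Γ] [Algebra k Γ]
  [Algebra (MvPolynomial (Fin (ν + 1)) k) Γ] [IsScalarTower k (MvPolynomial (Fin (ν + 1)) k) Γ]
  {𝒢 : ℕ → Submodule k Γ} {i : Type} [Fintype i] [DecidableEq i]
  {B : Finset (Fin (ν + 1)) → Type u} [∀ I, Ring (B I)] [∀ I, Algebra k (B I)]
  {r : ∀ I J : Finset (Fin (ν + 1)), I ⊆ J → B I →ₐ[k] B J}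
  {q : ∀ I : Finset (Fin (ν + 1)), ℕ → Γ → B I}
  {ι : Type v} {M : ι → Type u} [∀ α, Field (M α)] [∀ α, Algebra k (M α)]

/-- THE CONDITION HPV FOR THE SHEAF OF `Γ`. -/
theorem hpv_caOf {Good : DGA k → Prop} (h : IsGr ν 𝒢) (hq : IsSec 𝒢 r q) (σ : i ≃ Fin (ν + 1))
    (hM : ∀ α : ι, ∃ X : XT k, X.Gen ∧ SPJ Good (TT X.ca) ∧ Nonempty (M α ≃ₐ[k] X.M))
    (hc : CenFam ν k Γ M) : HPV Good (caOf h hq σ) := by
  refine hpv_of_cenFam σ (caOf h hq σ) (fun m j hj => ⟨(deh h hq σ hj).toRingHom, fun y => ?_,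
    fun p => deh_algebraMap h hq σ hj p⟩) (fun hi c => rho_inj h hq σ c.1 hi) hM hc
  obtain ⟨l, a, ha, rfl⟩ := hq.surj _ y
  refine ⟨⟨mon k (eu σ m.1 j l), mon_mem (isEx_eu σ hj l)⟩, a, ?_, ?_⟩
  · exact IsUnit.of_mul_eq_one _ ((mul_comm _ _).trans (mon_eu σ hj l))
  · exact (q_mul_eu h hq σ hj ha).symm

end

end Pool.Agent.MP_6e5bed_ag_GP
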