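import Pool.Agent.Lib.MP_6e5bed_ag_GP.BoxT
import Pool.Agent.Lib.MP_6e5bed_ag_GG.Cls
import Pool.Agent.Lib.MP_6e5bed_ag_GG.Cmp
import Pool.Agent.Lib.MP_6e5bed_ag_PN.ExtP
import Pool.Agent.Lib.MP_6e5bed_ag_CV.JSpan
import Pool.Agent.Lib.MP_6e5bed_ag_CV.ClsTors

set_option autoImplicit false
set_option linter.unusedVariables false

/-!
# MP_6e5bed_ag, THEOREM G+: the class of an external tensor product factors through the base field
-/

noncomputable section

namespace Pool.Agent.MP_6e5bed_ag_GP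

open Pool.Agent.MP_6e5bed_ag_NC Pool.Agent.MP_6e5bed_ag_NS
open Pool.Agent.MP_6e5bed_ag_PN hiding Ch
open Pool.Agent.MP_6e5bed_ag_GG
open scoped TensorProduct

universe u

variable {k : Type u} [Field k] {i j : Type} [Fintype i] [Fintype j]

section gen

variable {R R' : Type u} [Ring R] [Algebra k R] [Ring R'] [Algebra k R'] (P : KBi k R k)
  (Q : KBi k k R')

private def BoxC_X : Bim (ring k R) (base k) := res (DHom.id _) (DHom.unit (ring k k)) P.bim

private def BoxC_Y : Bim (base k) (ring k R') := res (DHom.unit (ring k k)) (DHom.id _) Q.bim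

private def BoxC_G : (tb (BoxC_X P) (BoxC_Y Q)).M →ₗ[k] P.M ⊗[k] Q.M :=
  tlift (M := BoxC_X P) (N := BoxC_Y Q) (TensorProduct.mk k P.M Q.M) (fun m b n => by
    have h1 := base_r (BoxC_X P) b m
    have h2 := base_l (BoxC_Y Q) b n
    rw [h1, h2]
    exact TensorProduct.smul_tmul (R := k) (R' := k) (M := P.M) (N := Q.M) b m n)

private theorem BoxC_G_tm (p : P.M) (q : Q.M) :
    BoxC_G P Q (tm (M := BoxC_X P) (N := BoxC_Y Q) p q) = p ⊗ₜ[k] q := tlift_tm _ _ _ _

private theorem BoxC_G_deg {n : ℤ} {x : (tb (BoxC_X P) (BoxC_Y Q)).M}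
    (h : (tb (BoxC_X P) (BoxC_Y Q)).dg.IsDeg n x) :
    (Dg.conc k (P.M ⊗[k] Q.M)).IsDeg (n + 0) (BoxC_G P Q x) := by
  refine tb_degMap (M := BoxC_X P) (N := BoxC_Y Q) (Z := Dg.conc k (P.M ⊗[k] Q.M))
    (BoxC_G P Q) ?_ h
  intro i j v w hv hw
  rw [BoxC_G_tm, add_zero]
  exact Dg.conc_bil (TensorProduct.mk k P.M Q.M) hv hw

private theorem BoxC_G_l (a : R) (m : (tb (BoxC_X P) (BoxC_Y Q)).M) :
    BoxC_G P Q ((tb (BoxC_X P) (BoxC_Y Q)).l a m) =
      LinearMap.rTensor Q.M (P.l a) (BoxC_G P Q m) := by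
  refine tb_ind (M := BoxC_X P) (N := BoxC_Y Q) (P := fun m =>
    BoxC_G P Q ((tb (BoxC_X P) (BoxC_Y Q)).l a m) =
      LinearMap.rTensor Q.M (P.l a) (BoxC_G P Q m)) ?_ ?_ ?_ m
  · simp only [map_zero]
  · intro x y hx hy
    simp only [map_add, hx, hy]
  · intro p q
    have h1 : (tb (BoxC_X P) (BoxC_Y Q)).l a (tm p q) = tm ((BoxC_X P).l a p) q :=
      tL_mk (BoxC_X P) (BoxC_Y Q) a p q
    rw [h1, BoxC_G_tm, BoxC_G_tm]
    exact (LinearMap.rTensor_tmul _ _ _ _).symm

private theorem BoxC_G_r (b : R') (m : (tb (BoxC_X P) (BoxC_Y Q)).M) :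
    BoxC_G P Q ((tb (BoxC_X P) (BoxC_Y Q)).r b m) =
      LinearMap.lTensor P.M (Q.r b) (BoxC_G P Q m) := by
  refine tb_ind (M := BoxC_X P) (N := BoxC_Y Q) (P := fun m =>
    BoxC_G P Q ((tb (BoxC_X P) (BoxC_Y Q)).r b m) =
      LinearMap.lTensor P.M (Q.r b) (BoxC_G P Q m)) ?_ ?_ ?_ m
  · simp only [map_zero]
  · intro x y hx hy
    simp only [map_add, hx, hy]
  · intro p q
    have h1 : (tb (BoxC_X P) (BoxC_Y Q)).r b (tm p q) = tm p ((BoxC_Y Q).r b q) :=
      tR_mk (BoxC_X P) (BoxC_Y Q) b p q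
    rw [h1, BoxC_G_tm, BoxC_G_tm]
    exact (LinearMap.lTensor_tmul _ _ _ _).symm

private theorem BoxC_G_d (m : (tb (BoxC_X P) (BoxC_Y Q)).M) :
    (0 : P.M ⊗[k] Q.M) = BoxC_G P Q ((tb (BoxC_X P) (BoxC_Y Q)).dg.d m) := by
  refine tb_ind (M := BoxC_X P) (N := BoxC_Y Q) (P := fun m =>
    (0 : P.M ⊗[k] Q.M) = BoxC_G P Q ((tb (BoxC_X P) (BoxC_Y Q)).dg.d m)) ?_ ?_ ?_ m
  · simp only [map_zero]
  · intro x y hx hy
    rw [map_add, map_add, ← hx, ← hy, add_zero]
  · intro p q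
    have h1 : (tb (BoxC_X P) (BoxC_Y Q)).dg.d (tm p q) =
        tm (M := BoxC_X P) (N := BoxC_Y Q) (0 : P.M) q +
          tm (M := BoxC_X P) (N := BoxC_Y Q) ((BoxC_X P).dg.s p) (0 : Q.M) :=
      tdg_d (BoxC_X P) (BoxC_Y Q) p q
    rw [h1, map_add, BoxC_G_tm, TensorProduct.zero_tmul, zero_add]
    exact ((BoxC_G_tm P Q _ _).trans (TensorProduct.tmul_zero _ _)).symm

private theorem BoxC_G_bij : Function.Bijective (BoxC_G P Q) := by
  obtain ⟨F, hF⟩ : ∃ F : P.M ⊗[k] Q.M →ₗ[k] (tb (BoxC_X P) (BoxC_Y Q)).M,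
      ∀ p q, F (p ⊗ₜ q) = (tm (M := BoxC_X P) (N := BoxC_Y Q) p q) :=
    ⟨(rel (BoxC_X P) (BoxC_Y Q)).mkQ, fun _ _ => rfl⟩
  have h1 : ∀ x, F (BoxC_G P Q x) = x := by
    intro x
    refine tb_ind (M := BoxC_X P) (N := BoxC_Y Q)
      (P := fun x => F (BoxC_G P Q x) = x) ?_ ?_ ?_ x
    · rw [map_zero, map_zero]
    · intro x y hx hy
      rw [map_add, map_add, hx, hy]
    · intro p q
      rw [BoxC_G_tm, hF]
  have h2 : ∀ x, BoxC_G P Q (F x) = x := by
    intro x
    refine TensorProduct.induction_on (motive := fun m : P.M ⊗[k] Q.M =>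
      BoxC_G P Q (F m) = m) x ?_ ?_ ?_
    · rw [map_zero, map_zero]
    · intro p q
      rw [hF, BoxC_G_tm]
    · intro x y hx hy
      rw [map_add, map_add, hx, hy]
  exact ⟨fun x y h => by rw [← h1 x, h, h1 y], fun y => ⟨F y, h2 y⟩⟩

end gen

section

variable {A : CA k i} {A' : CA k j}

/-- the sections of a left sheaf as a bimodule -/
def kbL (M : Sh (ls A)) (c : Ch i) : KBi k (A.A c) k where
  M := M.E c
  l := (Algebra.lsmul k k (M.E c) : A.A c →ₐ[k] Module.End k (M.E c)).toLinearMap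
  r := LinearMap.lsmul k (M.E c)
  l_one := fun x => one_smul (A.A c) x
  r_one := fun x => one_smul k x
  l_mul := fun a a' x => mul_smul a a' x
  r_mul := fun b b' x => by
    change (b * b') • x = b' • b • x
    rw [mul_comm, mul_smul]
  l_r := fun a b x => by
    change a • b • x = b • a • x
    rw [smul_algebra_smul_comm]

/-- the sections of a right sheaf as a bimodule -/
def kbR (N : Sh (rs A')) (c : Ch j) : KBi k k (A'.A c) where
  M := N.E c
  l := LinearMap.lsmul k (N.E c)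
  r := (Algebra.lsmul k k (N.E c) : (A'.A c)ᵐᵒᵖ →ₐ[k] Module.End k (N.E c)).toLinearMap ∘ₗ
    (MulOpposite.opLinearEquiv k).toLinearMap
  l_one := fun x => one_smul k x
  r_one := fun x => one_smul (A'.A c)ᵐᵒᵖ x
  l_mul := fun a a' x => mul_smul a a' x
  r_mul := fun b b' x => mul_smul (MulOpposite.op b') (MulOpposite.op b) x
  l_r := fun a b x => by
    change a • MulOpposite.op b • x = MulOpposite.op b • a • x
    rw [smul_algebra_smul_comm]

/-- A left sheaf as a presheaf of dg bimodules over `k` on the right. -/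
def pbl (M : Sh (ls A)) : PB A.pa (PA.con i (base k)) where
  M := fun c => res (DHom.id _) (DHom.unit (ring k k)) (kbL M c).bim
  ρ := fun {c d} h => gmk (A.pa.r h) (DHom.id (base k)) (M.res h)
    (X := res (DHom.id _) (DHom.unit (ring k k)) (kbL M c).bim)
    (Y := res (DHom.id _) (DHom.unit (ring k k)) (kbL M d).bim)
    (fun {n x} hx => by
      rw [add_zero]
      exact conc_map (M.res h) hx)
    (fun a x => by
      exact M.res_smul h a x)
    (fun b x => by
      exact (map_smul (M.res h) _ x))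
  dd := fun {c d} h => by
    exact gmk_dd _ _ _ _ _ _ (fun x => (map_zero (M.res h)).symm)
  ρ_id := fun h x => M.res_id h x
  ρ_ρ := fun h h' x => M.res_res h h' x

/-- A right sheaf as a presheaf of dg bimodules over `k` on the left. -/
def pbr (N : Sh (rs A')) : PB (PA.con j (base k)) A'.pa where
  M := fun c => res (DHom.unit (ring k k)) (DHom.id _) (kbR N c).bim
  ρ := fun {c d} h => gmk (DHom.id (base k)) (A'.pa.r h) (N.res h)
    (X := res (DHom.unit (ring k k)) (DHom.id _) (kbR N c).bim)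
    (Y := res (DHom.unit (ring k k)) (DHom.id _) (kbR N d).bim)
    (fun {n x} hx => by
      rw [add_zero]
      exact conc_map (N.res h) hx)
    (fun a x => by
      exact (map_smul (N.res h) _ x))
    (fun b x => by
      exact N.res_smul h (MulOpposite.op b) x)
  dd := fun {c d} h => by
    exact gmk_dd _ _ _ _ _ _ (fun x => (map_zero (N.res h)).symm)
  ρ_id := fun h x => N.res_id h x
  ρ_ρ := fun h h' x => N.res_res h h' x

private theorem BoxC_bl (M : Sh (ls A)) (N : Sh (rs A')) (a : Ch i) (b : Ch j) (c : A.A a)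
    (z : M.E a ⊗[k] N.E b) : LinearMap.rTensor (N.E b) ((kbL M a).l c) z =
      bxact M N (a, b) (c ⊗ₜ[k] 1) z := by
  have h1 : LinearMap.rTensor (N.E b) ((kbL M a).l c) = bxact M N (a, b) (c ⊗ₜ[k] 1) :=
    TensorProduct.ext' fun x y => by
      refine Eq.trans ?_ (bxact_tmul M N (a, b) c 1 x y).symm
      rw [one_smul]
      rfl
  exact LinearMap.congr_fun h1 z

private theorem BoxC_br (M : Sh (ls A)) (N : Sh (rs A')) (a : Ch i) (b : Ch j) (c : A'.A b)
    (z : M.E a ⊗[k] N.E b) : LinearMap.lTensor (M.E a) ((kbR N b).r c) z =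
      bxact M N (a, b) (1 ⊗ₜ[k] MulOpposite.op c) z := by
  have h1 : LinearMap.lTensor (M.E a) ((kbR N b).r c) =
      bxact M N (a, b) (1 ⊗ₜ[k] MulOpposite.op c) :=
    TensorProduct.ext' fun x y => by
      refine Eq.trans ?_ (bxact_tmul M N (a, b) 1 (MulOpposite.op c) x y).symm
      rw [one_smul]
      rfl
  exact LinearMap.congr_fun h1 z

/-- the map on a pair of charts -/
private def BoxC_f (M : Sh (ls A)) (N : Sh (rs A')) (a : Ch i) (b : Ch j) :
    GMap 0 ((PB.ext (pbl M) (pbr N)).M a b) ((box M N).bp.two.M a b) where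
  f := BoxC_G (kbL M a) (kbR N b)
  deg := fun h => BoxC_G_deg (kbL M a) (kbR N b) h
  map_l := fun c x => by
    rw [Dg.sp_zero]
    exact (BoxC_G_l (kbL M a) (kbR N b) c x).trans (BoxC_bl M N a b c _)
  map_r := fun c x =>
    (BoxC_G_r (kbL M a) (kbR N b) c x).trans (BoxC_br M N a b c _)

private theorem BoxC_nat (M : Sh (ls A)) (N : Sh (rs A')) {a a' : Ch i} {b b' : Ch j}
    (h : a ≤ a') (h' : b ≤ b') (x : (tb (BoxC_X (kbL M a)) (BoxC_Y (kbR N b))).M) :
    bxres M N (p := (a, b)) (q := (a', b')) ⟨h, h'⟩ (BoxC_G (kbL M a) (kbR N b) x) =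
      BoxC_G (kbL M a') (kbR N b') (((PB.ext (pbl M) (pbr N)).ρ h h').f x) := by
  refine tb_ind (M := BoxC_X (kbL M a)) (N := BoxC_Y (kbR N b)) (P := fun x =>
    bxres M N (p := (a, b)) (q := (a', b')) ⟨h, h'⟩ (BoxC_G (kbL M a) (kbR N b) x) =
      BoxC_G (kbL M a') (kbR N b') (((PB.ext (pbl M) (pbr N)).ρ h h').f x)) ?_ ?_ ?_ x
  · refine (congrArg _ (map_zero (BoxC_G (kbL M a) (kbR N b)))).trans ?_
    refine (map_zero (bxres M N (p := (a, b)) (q := (a', b')) ⟨h, h'⟩)).trans ?_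
    refine ((congrArg _ (map_zero ((PB.ext (pbl M) (pbr N)).ρ h h').f)).trans ?_).symm
    exact map_zero (BoxC_G (kbL M a') (kbR N b'))
  · intro x y hx hy
    refine (congrArg _ (map_add (BoxC_G (kbL M a) (kbR N b)) x y)).trans ?_
    refine (map_add (bxres M N (p := (a, b)) (q := (a', b')) ⟨h, h'⟩) _ _).trans ?_
    refine (congrArg₂ (· + ·) hx hy).trans ?_
    refine ((congrArg _ (map_add ((PB.ext (pbl M) (pbr N)).ρ h h').f x y)).trans ?_).symm
    exact map_add (BoxC_G (kbL M a') (kbR N b')) _ _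
  · intro p q
    refine (congrArg _ (BoxC_G_tm (kbL M a) (kbR N b) p q)).trans ?_
    refine Eq.trans ?_ (congrArg _ (PB.ext_ρ (pbl M) (pbr N) h h' p q)).symm
    exact (BoxC_G_tm (kbL M a') (kbR N b') (M.res h p) (N.res h' q)).symm

/-- the morphism of presheaves of bimodules -/
private def BoxC_H (M : Sh (ls A)) (N : Sh (rs A')) :
    PB2H (PB.ext (pbl M) (pbr N)) (box M N).bp.two where
  f := fun a b => BoxC_f M N a b
  dd := fun a b => LinearMap.ext fun x => by
    rw [GMap.dd_apply, sg_zero, one_smul, LinearMap.zero_apply, sub_eq_zero]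
    exact BoxC_G_d (kbL M a) (kbR N b) x
  nat := fun h h' x => BoxC_nat M N h h' x

private theorem BoxC_bij (M : Sh (ls A)) (N : Sh (rs A')) (a : Ch i) (b : Ch j) :
    Function.Bijective ((BoxC_H M N).f a b).f :=
  BoxC_G_bij (kbL M a) (kbR N b)

/-- The dg bimodule of `box M N` is the tensor product over `k` of the dg modules of `M` and `N`:
`ext_biso`, and on the charts `KBi.ext_bim`. -/
theorem box_biso (M : Sh (ls A)) (N : Sh (rs A')) :
    BIso (tb (cBR (pbl M) (LL i) (FS.e i)) (cBL (pbr N) (LL j) (FS.e j))) (box M N).bp.BB := by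
  exact (ext_biso (pbl M) (pbr N) (LL i) (FS.e i) (LL j) (FS.e j)).trans
    ((BoxC_H M N).biso (BoxC_bij M N) _ _ _ _)

end

/-- the dg modules of coherent left sheaves have finite-dimensional cohomology -/
def FinL (A : CA k i) : Prop := ∀ M : Sh (ls A), M.Coh → (cBR (pbl M) (LL i) (FS.e i)).dg.FinCoh

/-- the dg modules of coherent right sheaves have finite-dimensional cohomology -/
def FinR (A : CA k i) : Prop := ∀ N : Sh (rs A), N.Coh → (cBL (pbr N) (LL i) (FS.e i)).dg.FinCoh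

/-- THE CLASS OF AN EXTERNAL TENSOR PRODUCT IS ZERO modulo `JS Good`, if `k` is good
(`JS.tb_base`). -/
theorem cl_box {Good : DGA k → Prop} (hG : Good (base k)) {A : CA k i} (hF : FinBB A A)
    (hS : Smooth (TT A)) (hl : FinL A) (hr : FinR A) {M : Sh (ls A)} {N : Sh (rs A)}
    (hM : M.Coh) (hN : N.Coh) :
    (clf A A hF hS hS (bs_noe A A) (JS Good (TT A))).cl (box M N) = 0 := by
  have h1 := box_coh hM hN
  have hP : HasRes (cBR (pbl M) (LL i) (FS.e i)) :=
    HasRes.of_finCoh hS smooth_base _ (hl M hM)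
  have hQ : HasRes (cBL (pbr N) (LL i) (FS.e i)) :=
    HasRes.of_finCoh smooth_base hS _ (hr N hN)
  have h2 : HasRes (tb (cBR (pbl M) (LL i) (FS.e i)) (cBL (pbr N) (LL i) (FS.e i))) :=
    (hasRes_BB hF hS hS h1).iso (box_biso M N).symm
  have h3 := rcls_iso (box_biso M N) h2 (hasRes_BB hF hS hS h1)
  have h4 := JS.tb_base hG hP hQ h2
  rw [h3] at h4
  exact (clf_eq_zero hF hS hS _ _ h1).2 h4

/-- The same for the twists. -/
theorem cl_tw_box {Good : DGA k → Prop} (hG : Good (base k)) {A : CA k i} (hF : FinBB A A)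
    (hS : Smooth (TT A)) (hl : FinL A) (hr : FinR A) {M : Sh (ls A)} {N : Sh (rs A)}
    (hM : M.Coh) (hN : N.Coh) (p q : ℕ) :
    (clf A A hF hS hS (bs_noe A A) (JS Good (TT A))).cl (tw p q (box M N)) = 0 := by
  have h1 := (clf A A hF hS hS (bs_noe A A) (JS Good (TT A))).iso _ _ (twBox p q M N)
    (twBox_bij p q M N) (tw_coh p q (box_coh hM hN))
  rw [h1]
  exact cl_box hG hF hS hl hr (twl_coh p hM) (twr_coh q hN)

end Pool.Agent.MP_6e5bed_ag_GP
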