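import Pool.Agent.Lib.MP_6e5bed_ag_GP.Kb

set_option autoImplicit false
set_option linter.unusedVariables false

/-!
# MP_6e5bed_ag, THEOREM G+: the Koszul-Beilinson complex: the classes of the terms, the homology is
central
-/

noncomputable section

namespace Pool.Agent.MP_6e5bed_ag_GP

open Pool.Agent.MP_6e5bed_ag_GG
open scoped TensorProduct

universe u

variable {k : Type u} [Field k] {i : Type} [Fintype i] [DecidableEq i] {o : i → ℕ}
  {A A' : CA k i}

private theorem KbC_eop0 {J : Type} [Fintype J] [DecidableEq J] {o : J → ℕ} {R M : Type*}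
    [Ring R] [AddCommGroup M] [Module R M] (a : J → R) :
    eop (R := R) (M := M) o a (0 : Finset J → M) = 0 := by
  funext s
  refine Finset.sum_eq_zero fun l _ => ?_
  rw [Pi.zero_apply, smul_zero, smul_zero]

private theorem KbC_mem0 (p q : ℕ) (E : BS A A') {s : Ch i × Ch i} (x : Finset i → E.E s)
    (hx : Crd 0 x) : x ∈ (Zr o 0 p q E).N s :=
  (mem_Zr o).2 ⟨hx, dop_crd_zero (R := (bs A A').B s) (M := E.E s) o hx _⟩

private theorem KbC_memS (ho : Function.Injective o) {r : ℕ} (p q : ℕ) (E : BS A A')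
    {s : Ch i × Ch i} (x : Finset i → E.E s) (hx : Crd (r + 1) x) :
    dop (R := (bs A A').B s) (M := E.E s) o (fun l => crt A A' s (tt k l (gch_mem s.2))) x ∈
      (Zr o r p (q + 1) E).N s :=
  (mem_Zr o).2 ⟨hx.dop o _, dop_sq (R := (bs A A').B s) (M := E.E s) o ho _
    (fun l l' => crt_comm A A' s _ _) x⟩

/-- `Λ^(r+1) ⊗ E(-p, q) → Z_r(-p, q + 1)` is surjective, by the exterior multiplication with
`e_{g(c')}`: for `ω ∈ Zr r p (q + 1)` the element `e_g ∧ ω` is mapped to `ω`. -/
theorem iot_surj (ho : Function.Injective o) {r p q : ℕ} {E : BS A A'} {s : Ch i × Ch i}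
    {ω : Finset i → E.E s} (h : ω ∈ (Zr o r p (q + 1) E).N s) :
    ∃ η : Finset i → E.E s, Crd (r + 1) η ∧
      dop (R := (bs A A').B s) (M := E.E s) o (fun l => crt A A' s (tt k l (gch_mem s.2))) η =
        ω := by
  obtain ⟨h1, h2⟩ := (mem_Zr o).1 h
  refine ⟨eop (R := (bs A A').B s) (M := E.E s) o (fun l => if l = gch s.2 then 1 else 0) ω,
    h1.eop o _, ?_⟩
  have h3 := dop_eop (R := (bs A A').B s) (M := E.E s) o ho
    (fun l => crt A A' s (tt k l (gch_mem s.2))) (fun l => if l = gch s.2 then 1 else 0)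
    (fun l l' => crt_comm A A' s _ _) ω
  have h4 : ∑ l, crt A A' s (tt k l (gch_mem s.2)) * (if l = gch s.2 then 1 else 0) = 1 := by
    rw [Finset.sum_eq_single (gch s.2)]
    · rw [if_pos rfl, mul_one, tt_self, crt_one]
    · intro l _ hl
      rw [if_neg hl, mul_zero]
    · intro hl
      exact absurd (Finset.mem_univ _) hl
  rw [h2, KbC_eop0, add_zero, h4, one_smul] at h3
  exact h3

/-- The terms have class zero, if all twists of `E` have class zero. Induction on `r`:
`cl Z_(r+1)(-p, q) + cl Z_r(-p, q + 1) = cl (Λ^(r+1) ⊗ E(-p, q)) = 0`, `Z_0 = Λ^0 ⊗ E`. -/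
theorem cl_Zr (ho : Function.Injective o) {C : BS A A' → Prop} {V : Type*} [AddCommGroup V]
    (hC : SCls C) (cl : AddFn C V) {E : BS A A'} (hE : ∀ p q, C (tw p q E))
    (h0 : ∀ p q, cl.cl (tw p q E) = 0) (r p q : ℕ) : cl.cl (Zr o r p q E).sh = 0 := by
  induction r generalizing p q with
  | zero =>
    have h1 := cl_supp hC cl (fun s : Finset i => s.card = 0) (hE p q) (h0 p q)
    rw [← h1]
    refine cl.iso _ _ ((Zr o 0 p q E).incl.codRestr (supp (fun s : Finset i => s.card = 0)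
      (tw p q E)) (fun s x => x.2.1)) (fun (s : Ch i × Ch i) => ⟨fun x y hxy => ?_, ?_⟩)
      (hC.sub _ (scls_pi hC _ (hE p q)) _)
    · exact Subtype.ext (congrArg
        (fun z : (supp (fun s : Finset i => s.card = 0) (tw p q E)).sh.E s => z.1) hxy)
    · rintro ⟨x, hx⟩
      exact ⟨⟨x, KbC_mem0 p q E x hx⟩, rfl⟩
  | succ r ih =>
    have h1 := cl_supp hC cl (fun s : Finset i => s.card = r + 1) (hE p q) (h0 p q)
    let f : ShH (Zr o (r + 1) p q E).sh
        (supp (fun s : Finset i => s.card = r + 1) (tw p q E)).sh :=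
      (Zr o (r + 1) p q E).incl.codRestr _ (fun s x => x.2.1)
    let g : ShH (supp (fun s : Finset i => s.card = r + 1) (tw p q E)).sh
        (Zr o r p (q + 1) E).sh :=
      ((iot o p q E).comp (supp (fun s : Finset i => s.card = r + 1)
        (tw p q E)).incl).codRestr _ (fun (s : Ch i × Ch i) x => KbC_memS ho p q E x.1 x.2)
    have h2 := cl.ses hC (hC.sub _ (scls_pi hC _ (hE p q)) _) f g
      (fun s x y hxy => Subtype.ext (congrArg (fun z : (supp (fun s : Finset i =>
        s.card = r + 1) (tw p q E)).sh.E s => z.1) hxy))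
      (fun s y => ?_) (fun s x => ?_)
    · rw [h1, ih p (q + 1), add_zero] at h2
      exact h2.symm
    · obtain ⟨η, hη, hη'⟩ := iot_surj ho y.2
      exact ⟨⟨η, hη⟩, Subtype.ext hη'⟩
    · constructor
      · intro hx
        exact ⟨⟨x.1, (mem_Zr o).2 ⟨x.2, congrArg (fun z : (Zr o r p (q + 1) E).sh.E s => z.1)
          hx⟩⟩, rfl⟩
      · rintro ⟨y, rfl⟩
        exact Subtype.ext ((mem_Zr o).1 y.2).2

/-- The alternating sum of the classes of the homology bisheaves is zero. -/
theorem kb_euler (ho : Function.Injective o) {C : BS A A' → Prop} {V : Type*} [AddCommGroup V]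
    (hC : SCls C) (cl : AddFn C V) {E : BS A A'} (hE : ∀ p q, C (tw p q E))
    (h0 : ∀ p q, cl.cl (tw p q E) = 0) :
    ∑ r ∈ Finset.range (Fintype.card i + 1), (-1 : ℤ) ^ r • cl.cl ((kb ho E).H r) = 0 :=
  ShC.euler hC cl (kb ho E) (fun r => hC.sub _ (scls_pi hC _ (hE r 0)) _)
    (fun r => cl_Zr ho hC cl hE h0 r r 0) _ (fun s x => kb_zero ho E _ (Nat.lt_succ_self _) s x)

/-- THE HOMOLOGY IS CENTRAL. On the chart `(c, c')` with the chosen elements `γ`, `γ'` the operator
`η = e_m ∧ - (y_m / y_γ') e_γ' ∧` maps `Z_r` to `Z_(r+1)` (`dop_eop` with the family of the `y_l`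
gives `y_m / y_γ' - (y_m / y_γ') 1 = 0`), and with the differential `d` one has
`d η + η d = x_m / x_γ - (y_m / y_γ') (x_γ' / x_γ)`. -/
theorem kb_cen (ho : Function.Injective o) (E : BS A A') (r : ℕ) : Cen ((kb ho E).H r) := by
  refine cen_of_gch fun p m x => ?_
  obtain ⟨ω, hω, rfl⟩ := (kb ho E).cls_surj r x
  obtain ⟨h1, h2⟩ := (mem_Zr o).1 ω.2
  have h3 : dop (R := (bs A A').B p) (M := E.E p) o
      (fun l => cl1 A A' p (tt k l (gch_mem p.1))) ω.1 = 0 := by
    cases r with
    | zero => exact dop_crd_zero (R := (bs A A').B p) (M := E.E p) o h1 _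
    | succ r =>
      have h4 : ((kb ho E).d r).f p ω = 0 := ShH.mem_ker.1 hω
      exact congrArg (fun z : (Zr o r r 0 E).sh.E p => z.1) h4
  obtain ⟨β, hβ⟩ : ∃ β : i → (bs A A').B p, β = fun l => (if l = m then 1 else 0) -
      crt A A' p (tt k m (gch_mem p.2)) * (if l = gch p.2 then 1 else 0) := ⟨_, rfl⟩
  have hsum : ∀ a : i → (bs A A').B p, ∑ l, a l * β l =
      a m - a (gch p.2) * crt A A' p (tt k m (gch_mem p.2)) := by
    intro a
    rw [hβ]
    simp only [mul_sub, Finset.sum_sub_distrib, mul_ite, mul_one, mul_zero, Finset.sum_ite_eq',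
      Finset.mem_univ, if_true]
  have h5 := dop_eop (R := (bs A A').B p) (M := E.E p) o ho
    (fun l => crt A A' p (tt k l (gch_mem p.2))) β (fun l l' => crt_comm A A' p _ _) ω.1
  have h6 := dop_eop (R := (bs A A').B p) (M := E.E p) o ho
    (fun l => cl1 A A' p (tt k l (gch_mem p.1))) β (fun l l' => cl1_comm A A' p _ _) ω.1
  rw [h2, KbC_eop0, add_zero, hsum, tt_self, crt_one, one_mul, sub_self, zero_smul] at h5
  rw [h3, KbC_eop0, add_zero, hsum] at h6
  have h7 : (cl1 A A' p (tt k m (gch_mem p.1)) - cl1 A A' p (tt k (gch p.2) (gch_mem p.1)) *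
      crt A A' p (tt k m (gch_mem p.2))) • (kb ho E).cls r ω hω = 0 := by
    refine ((kb ho E).cls_smul r _ hω).trans (((kb ho E).cls_eq_zero r).2 ?_)
    exact ⟨⟨eop (R := (bs A A').B p) (M := E.E p) o β ω.1, (mem_Zr o).2 ⟨h1.eop o _, h5⟩⟩,
      Subtype.ext h6⟩
  rw [sub_smul, mul_smul, sub_eq_zero] at h7
  exact h7

end Pool.Agent.MP_6e5bed_ag_GP
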