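import Pool.Agent.Lib.MP_6e5bed_ag_GG.Theta

set_option autoImplicit false
set_option linter.unusedVariables false

/-!
# MP_6e5bed_ag, THEOREM G+: bimodules over a central simple algebra have central elements
-/

noncomputable section

namespace Pool.Agent.MP_6e5bed_ag_GP

open Pool.Agent.MP_6e5bed_ag_GG
open scoped TensorProduct

universe u

/-- A bimodule `V ≠ 0` over a central simple `L`-algebra `S` on which `L` acts from both sides in
the same way contains `v ≠ 0` with `s v = v s` for all `s`.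
Proof. `b_j` a basis of `S` over `L`. By `exists_dual` there are `p_ji, q_ji` with
`∑_i p_ji y q_ji = (b_j)^* y` for all `y`. Put `E_j v = ∑_i λ p_ji (ρ q_ji v)`. (1) `E_j v` is
central: `∑_i (s p_ji) ⊗ q_ji = ∑_i p_ji ⊗ (q_ji s)` in `S ⊗_L S` as both have the same image under
the injective `thQ` (`thQ_inj`), and `S ⊗_L S → End V`, `p ⊗ q ↦ λ p ∘ ρ q` is well defined.
(2) `1 ⊗ 1 = ∑_j ∑_i p_ji ⊗ (q_ji b_j)` (again `thQ_inj`, see `key` in `thP_bij`), so
`v = ∑_j ρ (b_j) (E_j v)`, and some `E_j v ≠ 0`. -/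
theorem exists_cen_elt (L S : Type u) [Field L] [Ring S] [Algebra L S] [Algebra.IsCentral L S]
    [IsSimpleRing S] [FiniteDimensional L S] {V : Type*} [AddCommGroup V]
    (lam : S →+* AddMonoid.End V) (rho : Sᵐᵒᵖ →+* AddMonoid.End V)
    (hc : ∀ s t v, lam s (rho t v) = rho t (lam s v))
    (hz : ∀ (z : L) (v : V), lam (algebraMap L S z) v =
      rho (MulOpposite.op (algebraMap L S z)) v) (v : V) (hv : v ≠ 0) :
    ∃ w : V, w ≠ 0 ∧ ∀ s, lam s w = rho (MulOpposite.op s) w := by
  classical
  choose n p q hpq using exists_dual L S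
  let b := Module.finBasis L S
  let f : S →+ S →+ AddMonoid.End V :=
    { toFun := fun x =>
        { toFun := fun y => (lam x) * (rho (MulOpposite.op y))
          map_zero' := by rw [MulOpposite.op_zero, map_zero, mul_zero]
          map_add' := fun y y' => by rw [MulOpposite.op_add, map_add, mul_add] }
      map_zero' := by
        refine AddMonoidHom.ext fun y => ?_
        change lam 0 * rho (MulOpposite.op y) = 0
        rw [map_zero, zero_mul]
      map_add' := fun x x' => by
        refine AddMonoidHom.ext fun y => ?_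
        change lam (x + x') * rho (MulOpposite.op y) =
          lam x * rho (MulOpposite.op y) + lam x' * rho (MulOpposite.op y)
        rw [map_add, add_mul] }
  have hrr : ∀ (x y : S) (v : V), rho (MulOpposite.op x) (rho (MulOpposite.op y) v) =
      rho (MulOpposite.op (y * x)) v := fun x y v => by
    rw [MulOpposite.op_mul, map_mul]
    rfl
  have hll : ∀ (x y : S) (v : V), lam x (lam y v) = lam (x * y) v := fun x y v => by
    rw [map_mul]
    rfl
  have hf : ∀ (r : L) (x y : S), f (r • x) y = f x (r • y) := by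
    intro r x y
    refine AddMonoidHom.ext fun v => ?_
    change lam (r • x) (rho (MulOpposite.op y) v) = lam x (rho (MulOpposite.op (r • y)) v)
    rw [Algebra.smul_def, Algebra.commutes, ← hll, hz, hrr, Algebra.smul_def, Algebra.commutes]
  let ev : S ⊗[L] S →+ AddMonoid.End V := TensorProduct.liftAddHom f hf
  have hev : ∀ (x y : S) (v : V), ev (x ⊗ₜ[L] y) v = lam x (rho (MulOpposite.op y) v) :=
    fun x y v => rfl
  have hsum : ∀ (m : ℕ) (g : Fin m → AddMonoid.End V) (v : V), (∑ i, g i) v = ∑ i, g i v :=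
    fun m g v => AddMonoidHom.finsetSum_apply _ _ _
  have hevs : ∀ (m : ℕ) (x y : Fin m → S) (v : V), ev (∑ i, x i ⊗ₜ[L] y i) v =
      ∑ i, lam (x i) (rho (MulOpposite.op (y i)) v) := by
    intro m x y v
    rw [map_sum, hsum]
    rfl
  obtain ⟨E, hE⟩ : ∃ E : Fin (Module.finrank L S) → V, ∀ j, E j =
      ∑ i, lam (p j i) (rho (MulOpposite.op (q j i)) v) := ⟨_, fun j => rfl⟩
  have hr : ∀ (j : Fin (Module.finrank L S)) (s : S), rho (MulOpposite.op s) (E j) =
      ev (∑ i, p j i ⊗ₜ[L] (q j i * s)) v := by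
    intro j s
    rw [hE, map_sum, hevs]
    refine Finset.sum_congr rfl fun i _ => ?_
    rw [← hc, hrr]
  have h1 : ∀ j s, lam s (E j) = rho (MulOpposite.op s) (E j) := by
    intro j s
    have h2 : ∑ i, (s * p j i) ⊗ₜ[L] q j i = ∑ i, p j i ⊗ₜ[L] (q j i * s) := by
      refine thQ_inj L S (LinearMap.ext fun y => ?_)
      rw [map_sum, map_sum, LinearMap.sum_apply, LinearMap.sum_apply]
      have h3 : ∀ i, thQ L S ((s * p j i) ⊗ₜ[L] q j i) y = s * (p j i * y * q j i) := fun i => by
        rw [thQ_tmul, mul_assoc, mul_assoc, mul_assoc]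
      have h4 : ∀ i, thQ L S (p j i ⊗ₜ[L] (q j i * s)) y = (p j i * y * q j i) * s := fun i => by
        rw [thQ_tmul, mul_assoc (p j i * y)]
      rw [Finset.sum_congr rfl fun i _ => h3 i, Finset.sum_congr rfl fun i _ => h4 i,
        ← Finset.mul_sum, ← Finset.sum_mul, hpq, Algebra.commutes]
    rw [hr, ← h2, hevs, hE, map_sum]
    refine Finset.sum_congr rfl fun i _ => ?_
    rw [hll]
  have key : ∑ j, ∑ i, p j i ⊗ₜ[L] (q j i * b j) = (1 : S) ⊗ₜ[L] (1 : S) := by
    refine thQ_inj L S (LinearMap.ext fun y => ?_)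
    rw [thQ_tmul, mul_one, one_mul, map_sum, LinearMap.sum_apply]
    have h1 : ∀ j, (thQ L S (∑ i, p j i ⊗ₜ[L] (q j i * b j))) y = b.coord j y • b j := by
      intro j
      rw [map_sum, LinearMap.sum_apply]
      have h2 : ∀ i, thQ L S (p j i ⊗ₜ[L] (q j i * b j)) y = p j i * y * q j i * b j :=
        fun i => by rw [thQ_tmul, mul_assoc (p j i * y)]
      rw [Finset.sum_congr rfl fun i _ => h2 i, ← Finset.sum_mul, hpq, ← Algebra.smul_def]
    rw [Finset.sum_congr rfl fun j _ => h1 j]
    exact b.sum_repr y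
  have h2 : v = ∑ j, rho (MulOpposite.op (b j)) (E j) := by
    have h3 : ev (∑ j, ∑ i, p j i ⊗ₜ[L] (q j i * b j)) v =
        ∑ j, rho (MulOpposite.op (b j)) (E j) := by
      rw [map_sum, hsum]
      exact Finset.sum_congr rfl fun j _ => (hr j (b j)).symm
    rw [← h3, key, hev, MulOpposite.op_one, map_one, map_one]
    rfl
  by_contra hcon
  push Not at hcon
  refine hv ?_
  rw [h2]
  refine Finset.sum_eq_zero fun j _ => ?_
  have h5 : E j = 0 := by
    by_contra h6
    obtain ⟨s, hs⟩ := hcon (E j) h6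
    exact hs (h1 j s)
  rw [h5, map_zero]

end Pool.Agent.MP_6e5bed_ag_GP
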