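import Pool.Agent.Lib.MP_6e5bed_ag_GP.UniC
import Pool.Agent.Lib.MP_6e5bed_ag_GP.UniB

set_option autoImplicit false
set_option linter.unusedVariables false

/-!
# MP_6e5bed_ag, THEOREM G+: the bimodule `S` is contained in every bimodule at the generic point
-/

noncomputable section

namespace Pool.Agent.MP_6e5bed_ag_GP

open Pool.Agent.MP_6e5bed_ag_GG
open scoped TensorProduct

universe u

variable {k : Type u} [Field k] {i : Type} [Fintype i] {A : CA k i} {m : Ch i}

/-- restriction of an action to a stable submodule -/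
private def UniD_res {R : Type*} [Ring R] {U : Type*} [AddCommGroup U] [Module k U]
    (V : Submodule k U) (ρ : R →+* Module.End k U) (h : ∀ a, ∀ x ∈ V, ρ a x ∈ V) :
    R →+* Module.End k V where
  toFun := fun a => (ρ a).restrict (h a)
  map_one' := LinearMap.ext fun x => Subtype.ext (by
    change ρ 1 (x : U) = x
    rw [map_one]
    rfl)
  map_mul' := fun a b => LinearMap.ext fun x => Subtype.ext (by
    change ρ (a * b) (x : U) = ρ a (ρ b x)
    rw [map_mul]
    rfl)
  map_zero' := LinearMap.ext fun x => Subtype.ext (by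
    change ρ 0 (x : U) = 0
    rw [map_zero]
    rfl)
  map_add' := fun a b => LinearMap.ext fun x => Subtype.ext (by
    change ρ (a + b) (x : U) = ρ a x + ρ b x
    rw [map_add]
    rfl)

private def UniD_op {R W : Type*} [Ring R] [Ring W] (τ : Rᵐᵒᵖ →+* W) : R →+* Wᵐᵒᵖ where
  toFun := fun a => MulOpposite.op (τ (MulOpposite.op a))
  map_one' := by rw [MulOpposite.op_one, map_one, MulOpposite.op_one]
  map_mul' := fun a b => by rw [MulOpposite.op_mul, map_mul, MulOpposite.op_mul]
  map_zero' := by rw [MulOpposite.op_zero, map_zero, MulOpposite.op_zero]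
  map_add' := fun a b => by rw [MulOpposite.op_add, map_add, MulOpposite.op_add]

private def UniD_un {R W : Type*} [Ring R] [Ring W] (τ : R →+* Wᵐᵒᵖ) : Rᵐᵒᵖ →+* W where
  toFun := fun a => (τ a.unop).unop
  map_one' := by rw [MulOpposite.unop_one, map_one, MulOpposite.unop_one]
  map_mul' := fun a b => by rw [MulOpposite.unop_mul, map_mul, MulOpposite.unop_mul]
  map_zero' := by rw [MulOpposite.unop_zero, map_zero, MulOpposite.unop_zero]
  map_add' := fun a b => by rw [MulOpposite.unop_add, map_add, MulOpposite.unop_add]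

private theorem UniD_comm (g : GD A m) {W : Type*} [Ring W] (σ : g.S →+* W) (c : W)
    (h : ∀ a, Commute (σ (g.psi a)) c) (s : g.S) : Commute (σ s) c := by
  obtain ⟨f, hf, a, ha⟩ := g.surj s
  obtain ⟨u, hu⟩ := (g.unit f hf).map σ
  have h1 : σ (g.psi a) = u * σ s := by rw [ha, map_mul, ← hu]
  have h2 : Commute (u : W) c := by
    rw [hu]
    exact h _
  have h3 : Commute (u * σ s) c := by
    rw [← h1]
    exact h a
  have h4 := (h2.units_inv_left).mul_left h3
  rwa [Units.inv_mul_cancel_left] at h4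

private theorem UniD_bij {g : GD A m} (B : GBi g) {V : Submodule k B.U} (hs : B.Stb V)
    (f : RR k m.1) (hf : g.fn f ≠ 0) (φ : Module.End k V)
    (hφ : ∀ x : V, ((φ x : V) : B.U) = B.lam (algebraMap (RR k m.1) (A.A m) f) x) :
    IsUnit φ := by
  rw [Module.End.isUnit_iff]
  refine ⟨fun x y h => ?_, fun y => ?_⟩
  · refine Subtype.ext ((B.bij f hf).1 ?_)
    rw [← hφ x, ← hφ y, h]
  · obtain ⟨x, hx⟩ := (B.bij f hf).2 (y : B.U)
    have h1 : x ∈ V := hs.div f hf x (by
      rw [hx]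
      exact y.2)
    exact ⟨⟨x, h1⟩, Subtype.ext ((hφ ⟨x, h1⟩).trans hx)⟩

private theorem UniD_two {g : GD A m} (B : GBi g) (hu : Uni g) {V : Submodule k B.U}
    (h0 : V ≠ ⊥) (hs : B.Stb V) (hm : ∀ V' ≤ V, V' ≠ ⊥ → B.Stb V' → V' = V) :
    ∃ (σ : g.S →+* Module.End k V) (τ : g.Sᵐᵒᵖ →+* Module.End k V),
      (∀ a (x : V), ((σ (g.psi a) x : V) : B.U) = B.lam a x) ∧
      (∀ a (x : V), ((τ (MulOpposite.op (g.psi a)) x : V) : B.U) =
        B.rho (MulOpposite.op a) x) ∧ ∀ s t, Commute (σ s) (τ t) := by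
  obtain ⟨σ, hσ⟩ := gd_lift g (UniD_res V (B.lam : A.A m →+* Module.End k B.U) hs.l)
    (fun a ha => by
      refine LinearMap.ext fun x => Subtype.ext ?_
      change B.lam a x = 0
      rw [B.zero a ha, LinearMap.zero_apply])
    (fun f hf => UniD_bij B hs f hf _ (fun x => rfl))
  obtain ⟨τ, hτ⟩ := gd_lift g (UniD_op (UniD_res V
      (B.rho : (A.A m)ᵐᵒᵖ →+* Module.End k B.U) hs.r))
    (fun a ha => by
      refine MulOpposite.unop_injective (LinearMap.ext fun x => Subtype.ext ?_)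
      exact B.rho_zero hu h0 hs hm a ha x x.2)
    (fun f hf => by
      have h1 : IsUnit (UniD_res V (B.rho : (A.A m)ᵐᵒᵖ →+* Module.End k B.U) hs.r
          (MulOpposite.op (algebraMap (RR k m.1) (A.A m) f))) :=
        UniD_bij B hs f hf _ (fun x => (B.cen f x).symm)
      exact h1.op)
  have e1 : ∀ a (x : V), ((σ (g.psi a) x : V) : B.U) = B.lam a x := fun a x => by
    rw [hσ a]
    rfl
  have e2 : ∀ a (x : V), ((UniD_un τ (MulOpposite.op (g.psi a)) x : V) : B.U) =
      B.rho (MulOpposite.op a) x := fun a x => by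
    change (((τ (g.psi a)).unop x : V) : B.U) = _
    rw [hτ a]
    rfl
  refine ⟨σ, UniD_un τ, e1, e2, fun s t => UniD_comm g σ _ (fun a => ?_) s⟩
  have h1 : Commute (τ t.unop) (MulOpposite.op (σ (g.psi a))) :=
    UniD_comm g τ _ (fun b => by
      rw [← MulOpposite.commute_unop]
      refine LinearMap.ext fun x => Subtype.ext ?_
      change ((UniD_un τ (MulOpposite.op (g.psi b)) (σ (g.psi a) x) : V) : B.U) =
        ((σ (g.psi a) (UniD_un τ (MulOpposite.op (g.psi b)) x) : V) : B.U)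
      rw [e2, e1, e1, e2]
      exact (B.comm a (MulOpposite.op b) x).symm) t.unop
  exact (MulOpposite.commute_unop.2 h1).symm

private theorem UniD_cen {g : GD A m} (B : GBi g) (hu : Uni g) {V : Submodule k B.U}
    (h0 : V ≠ ⊥) (hs : B.Stb V) (hm : ∀ V' ≤ V, V' ≠ ⊥ → B.Stb V' → V' = V)
    (σ : g.S →+* Module.End k V) (τ : g.Sᵐᵒᵖ →+* Module.End k V)
    (e1 : ∀ a (x : V), ((σ (g.psi a) x : V) : B.U) = B.lam a x)
    (e2 : ∀ a (x : V), ((τ (MulOpposite.op (g.psi a)) x : V) : B.U) =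
        B.rho (MulOpposite.op a) x) (hc : ∀ s t, Commute (σ s) (τ t)) (z : g.S)
    (hz : ∀ s, z * s = s * z) : σ z = τ (MulOpposite.op z) := by
  obtain ⟨v, hv, hv0⟩ := Submodule.exists_mem_ne_zero_of_ne_bot h0
  obtain ⟨e, f, h, hh, hf⟩ := hu.pi z hz
  have hnt : Nontrivial V := ⟨⟨⟨v, hv⟩, 0, fun hE => hv0 (congrArg Subtype.val hE)⟩⟩
  have hE : ExpChar (Module.End k V) (ringExpChar k) :=
    expChar_of_injective_algebraMap (algebraMap k (Module.End k V)).injective (ringExpChar k)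
  have eF : ∀ f : RR k m.1, σ (g.fn f) = τ (MulOpposite.op (g.fn f)) := fun f =>
    LinearMap.ext fun x => Subtype.ext ((e1 _ x).trans ((B.cen f x).trans (e2 _ x).symm))
  have hN : σ z ^ (ringExpChar k ^ e) = τ (MulOpposite.op z) ^ (ringExpChar k ^ e) := by
    refine ((g.unit h hh).map σ).mul_left_cancel ?_
    change σ (g.fn h) * _ = σ (g.fn h) * _
    have h1 : σ (g.fn h) * σ z ^ (ringExpChar k ^ e) = σ (g.fn f) := by
      rw [← map_pow, ← map_mul, hf]
    have h2 : τ (MulOpposite.op z) ^ (ringExpChar k ^ e) * σ (g.fn h) = σ (g.fn f) := by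
      rw [eF h, eF f, ← map_pow, ← map_mul, ← MulOpposite.op_pow, ← MulOpposite.op_mul, hf]
    rw [h1, ← h2]
    exact ((hc (g.fn h) (MulOpposite.op z)).pow_right _).eq.symm
  obtain ⟨δ, hδ⟩ : ∃ δ : Module.End k V, δ = σ z - τ (MulOpposite.op z) := ⟨_, rfl⟩
  have hδN : δ ^ (ringExpChar k ^ e) = 0 := by
    rw [hδ, sub_pow_expChar_pow_of_commute _ _ (hc z _), hN, sub_self]
  have c1 : ∀ s, Commute δ (σ s) := fun s => by
    rw [hδ]
    refine Commute.sub_left ?_ (hc s _).symm
    change σ z * σ s = σ s * σ z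
    rw [← map_mul, ← map_mul, hz s]
  have c2 : ∀ t, Commute δ (τ t) := fun t => by
    rw [hδ]
    refine Commute.sub_left (hc z t) ?_
    change τ _ * τ t = τ t * τ _
    rw [← map_mul, ← map_mul]
    congr 1
    exact MulOpposite.unop_injective (hz t.unop).symm
  have hK : LinearMap.ker δ ≠ ⊥ := by
    intro hb
    have hi : Function.Injective δ := LinearMap.ker_eq_bot.1 hb
    have h1 : (δ ^ (ringExpChar k ^ e)) ⟨v, hv⟩ = (δ ^ (ringExpChar k ^ e)) 0 := by
      rw [hδN, LinearMap.zero_apply, LinearMap.zero_apply]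
    rw [Module.End.pow_apply, Module.End.pow_apply] at h1
    exact hv0 (congrArg Subtype.val (hi.iterate _ h1))
  have mem : ∀ x, x ∈ (LinearMap.ker δ).map V.subtype ↔ ∃ hx : x ∈ V, δ ⟨x, hx⟩ = 0 := by
    intro x
    constructor
    · rintro ⟨y, hy, rfl⟩
      exact ⟨y.2, hy⟩
    · rintro ⟨hx, h1⟩
      exact ⟨⟨x, hx⟩, h1, rfl⟩
  have hV' : (LinearMap.ker δ).map V.subtype = V := by
    refine hm _ (Submodule.map_subtype_le V _) ?_ ⟨fun a x hx => ?_, fun b x hx => ?_,
      fun f hf x hx => ?_⟩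
    · obtain ⟨y, hy, hy0⟩ := Submodule.exists_mem_ne_zero_of_ne_bot hK
      intro hb
      have h1 : (y : B.U) ∈ (LinearMap.ker δ).map V.subtype := ⟨y, hy, rfl⟩
      rw [hb, Submodule.mem_bot] at h1
      exact hy0 (Subtype.ext h1)
    · obtain ⟨h1, h2⟩ := (mem x).1 hx
      refine (mem _).2 ⟨hs.l a x h1, ?_⟩
      have h3 : (⟨B.lam a x, hs.l a x h1⟩ : V) = σ (g.psi a) ⟨x, h1⟩ :=
        Subtype.ext (e1 a ⟨x, h1⟩).symm
      rw [h3]
      refine (LinearMap.congr_fun (c1 (g.psi a)).eq ⟨x, h1⟩).trans ?_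
      rw [Module.End.mul_apply, h2, map_zero]
    · obtain ⟨h1, h2⟩ := (mem x).1 hx
      refine (mem _).2 ⟨hs.r b x h1, ?_⟩
      have h3 : (⟨B.rho b x, hs.r b x h1⟩ : V) =
          τ (MulOpposite.op (g.psi b.unop)) ⟨x, h1⟩ := Subtype.ext (e2 b.unop ⟨x, h1⟩).symm
      rw [h3]
      refine (LinearMap.congr_fun (c2 (MulOpposite.op (g.psi b.unop))).eq ⟨x, h1⟩).trans ?_
      rw [Module.End.mul_apply, h2, map_zero]
    · obtain ⟨h1, h2⟩ := (mem _).1 hx
      have h4 : x ∈ V := hs.div f hf x h1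
      refine (mem _).2 ⟨h4, ?_⟩
      have h3 : (⟨_, h1⟩ : V) = σ (g.fn f) ⟨x, h4⟩ := Subtype.ext (e1 _ ⟨x, h4⟩).symm
      rw [h3] at h2
      have h5 : σ (g.fn f) (δ ⟨x, h4⟩) = σ (g.fn f) 0 := by
        rw [map_zero, ← h2]
        exact (LinearMap.congr_fun (c1 (g.fn f)).eq ⟨x, h4⟩).symm
      exact ((Module.End.isUnit_iff _).1 ((g.unit f hf).map σ)).1 h5
  have h1 : δ = 0 := LinearMap.ext fun x => by
    have h2 : (x : B.U) ∈ (LinearMap.ker δ).map V.subtype := by
      rw [hV']
      exact x.2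
    exact ((mem _).1 h2).2
  rw [hδ, sub_eq_zero] at h1
  exact h1

private theorem UniD_sc {g : GD A m} {U : Type*} [AddCommGroup U] [Module k U]
    (lam : A.A m →ₐ[k] Module.End k U) (σ : g.S →+* Module.End k U)
    (hσ : ∀ a, σ (g.psi a) = lam a) (c : k) (s : g.S) : σ (c • s) = c • σ s := by
  have h1 : c • s = g.psi (algebraMap k (A.A m) c) * s := by
    rw [Algebra.smul_def, g.psi.commutes]
  rw [h1, map_mul, hσ, lam.commutes, ← Algebra.smul_def]

/-- THE UNIQUENESS. A bimodule `B ≠ 0` at the generic point with `Uni g` contains `x ≠ 0` with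
`a x = x a` for all `a ∈ A_m`.
Proof. `V` a minimal sub-bimodule (`exists_min`). The right action of `A_m` on `V` kills the kernel
of `psi` (`rho_zero`), so both actions on `V` extend to `S` (`gd_lift`, for the right action the
opposite ring of the endomorphism ring). For `z` in the centre of `S` let `δ = z_left - z_right` on
`V`: it commutes with both actions; by `Uni.pi` `fn h * z ^ (p ^ e) = fn f`, and as
`z_left, z_right` commute and `p = ringExpChar k` is zero in `End V` (or `p = 1`),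
`δ ^ (p ^ e) = z_left ^ (p ^ e) - z_right ^ (p ^ e) = 0` (`sub_pow_expChar_pow`, `B.cen`). The kernel
of `δ` is a sub-bimodule and not zero, so it is `V` and `δ = 0`. Now `exists_cen_elt` with
`L` = the centre (`GD.fieldC`, `GD.central`, `GD.finite`). -/
theorem GBi.exists_elt {g : GD A m} (B : GBi g) (hu : Uni g) (hU : ∃ x : B.U, x ≠ 0) :
    ∃ x : B.U, x ≠ 0 ∧ ∀ a, B.lam a x = B.rho (MulOpposite.op a) x := by
  obtain ⟨V, h0, hs, hm⟩ := B.exists_min hU
  obtain ⟨σ, τ, e1, e2, hc⟩ := UniD_two B hu h0 hs hm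
  obtain ⟨L, fL, kL, LS, tw, hcen, hfin, -, -⟩ := g.exists_L
  obtain ⟨v, hv, hv0⟩ := Submodule.exists_mem_ne_zero_of_ne_bot h0
  obtain ⟨w, hw0, hw⟩ := exists_cen_elt L g.S (V := V)
    ((Module.toAddMonoidEnd (Module.End k V) V).comp σ)
    ((Module.toAddMonoidEnd (Module.End k V) V).comp τ)
    (fun s t v => LinearMap.congr_fun (hc s t).eq v)
    (fun z v => LinearMap.congr_fun (UniD_cen B hu h0 hs hm σ τ e1 e2 hc (algebraMap L g.S z)
      (fun s => Algebra.commutes z s)) v) ⟨v, hv⟩ (fun hE => hv0 (congrArg Subtype.val hE))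
  refine ⟨w, fun hE => hw0 (Subtype.ext hE), fun a => ?_⟩
  exact (e1 a w).symm.trans ((congrArg Subtype.val (hw (g.psi a))).trans (e2 a w))

/-- The element spans a copy of `S`: there is an injective additive map `j : S → U` with
`j (psi a * s) = a (j s)` and `j (s * psi a) = (j s) a`. (`j s = σ s x` with `σ` from `gd_lift`; the
kernel of `j` is a two-sided ideal of the simple ring `S` and does not contain `1`.) -/
theorem GBi.exists_map {g : GD A m} (B : GBi g) (hu : Uni g) (hU : ∃ x : B.U, x ≠ 0) :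
    ∃ j : g.S →ₗ[k] B.U, Function.Injective j ∧ (∀ a s, j (g.psi a * s) = B.lam a (j s)) ∧
      ∀ a s, j (s * g.psi a) = B.rho (MulOpposite.op a) (j s) := by
  obtain ⟨x, hx0, hx⟩ := B.exists_elt hu hU
  obtain ⟨σ, hσ⟩ := gd_lift g (B.lam : A.A m →+* Module.End k B.U) B.zero
    (fun f hf => (Module.End.isUnit_iff _).2 (B.bij f hf))
  have hσ' : ∀ a, σ (g.psi a) = B.lam a := fun a => hσ a
  have hc : ∀ b s, Commute (σ s) (B.rho b) := fun b s => UniD_comm g σ _ (fun a => by
    rw [hσ']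
    exact LinearMap.ext fun y => B.comm a b y) s
  let j : g.S →ₗ[k] B.U :=
    { toFun := fun s => σ s x
      map_add' := fun s t => by rw [map_add, LinearMap.add_apply]
      map_smul' := fun c s => by
        rw [UniD_sc B.lam σ hσ' c s, LinearMap.smul_apply, RingHom.id_apply] }
  have j1 : ∀ a s, j (g.psi a * s) = B.lam a (j s) := fun a s => by
    change σ (g.psi a * s) x = B.lam a (σ s x)
    rw [map_mul, hσ', Module.End.mul_apply]
  have j2 : ∀ a s, j (s * g.psi a) = B.rho (MulOpposite.op a) (j s) := fun a s => by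
    change σ (s * g.psi a) x = B.rho (MulOpposite.op a) (σ s x)
    rw [map_mul, hσ', Module.End.mul_apply, hx a]
    exact LinearMap.congr_fun (hc (MulOpposite.op a) s).eq x
  refine ⟨j, ?_, j1, j2⟩
  rw [← LinearMap.ker_eq_bot, Submodule.eq_bot_iff]
  intro s hs
  by_contra hs0
  have hl : ∀ t s : g.S, j s = 0 → j (t * s) = 0 := fun t s h => by
    change σ (t * s) x = 0
    rw [map_mul, Module.End.mul_apply]
    exact (congrArg (σ t) h).trans (map_zero _)
  have hr : ∀ s t : g.S, j s = 0 → j (s * t) = 0 := fun s t h => by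
    obtain ⟨f, hf, a, ha⟩ := g.surj t
    refine (B.bij f hf).1 ?_
    have h1 := j1 (algebraMap (RR k m.1) (A.A m) f) (s * t)
    have h2 : g.psi (algebraMap (RR k m.1) (A.A m) f) * (s * t) = s * g.psi a := by
      rw [ha, ← mul_assoc, ← mul_assoc]
      congr 1
      exact g.fn_comm f s
    rw [h2, j2, h, map_zero] at h1
    rw [← h1, map_zero]
  have := IsSimpleRing.one_mem_of_ne_zero_mem (TwoSidedIdeal.mk' {s : g.S | j s = 0}
    (map_zero j) (fun {s t} hs ht => by
      change j (s + t) = 0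
      rw [map_add, show j s = 0 from hs, show j t = 0 from ht, add_zero])
    (fun {s} hs => by
      change j (-s) = 0
      rw [map_neg, show j s = 0 from hs, neg_zero])
    (fun {t s} hs => hl t s hs) (fun {s t} hs => hr s t hs)) hs0
    ((TwoSidedIdeal.mem_mk' _ _ _ _ _ _ s).2 hs)
  rw [TwoSidedIdeal.mem_mk'] at this
  have h1 : σ 1 x = 0 := this
  rw [map_one] at h1
  exact hx0 h1

end Pool.Agent.MP_6e5bed_ag_GP
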