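import Pool.Agent.Lib.MP_6e5bed_ag_GP.ZcF
import Pool.Agent.Lib.MP_6e5bed_ag_GP.UniD

set_option autoImplicit false
set_option linter.unusedVariables false

/-!
# MP_6e5bed_ag, THEOREM G+: classes of central bisheaves are proportional to the rank
-/

noncomputable section

namespace Pool.Agent.MP_6e5bed_ag_GP

open Pool.Agent.MP_6e5bed_ag_GG
open scoped TensorProduct

universe u

variable {k : Type u} [Field k] {i : Type} [Fintype i] {A : CA k i} {m : Ch i}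

/-- A central bisheaf of positive rank contains a subsheaf which is comparable to the standard
bisheaf: `j : S → U` from `GBi.exists_map` for the bimodule `U` of `F`, `Z` the range of `Zc.map j`
and `N` its preimage under `toZ`. -/
theorem len_step {E : BS A A} (hR : Red E m) (hu : Uni hR.gd) {F : BS A A} (hF : F.Coh)
    (hc : Cen F) (ha : ann E ≤ ann F) (h0 : rkF hR.gd F ≠ 0) :
    ∃ (N : Sub F) (Z : BS A A) (φ₁ : ShH N.sh Z) (φ₂ : ShH (T0 hR.gd) Z),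
      (∀ (c' : Ch i) (x : N.sh.E (m, c')), φ₁.f (m, c') x = 0 → ∃ f : RR k m.1,
        algebraMap _ (A.A m) f ∉ ann E m ∧ cl1 A A (m, c') f • x = 0) ∧
      (∀ (c' : Ch i) (x : (T0 hR.gd).E (m, c')), φ₂.f (m, c') x = 0 → ∃ f : RR k m.1,
        algebraMap _ (A.A m) f ∉ ann E m ∧ cl1 A A (m, c') f • x = 0) ∧
      (∀ (c' : Ch i) (z : Z.E (m, c')), ∃ f : RR k m.1,
        algebraMap _ (A.A m) f ∉ ann E m ∧ ∃ x, φ₁.f (m, c') x = cl1 A A (m, c') f • z) ∧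
      ∀ (c' : Ch i) (z : Z.E (m, c')), ∃ f : RR k m.1,
        algebraMap _ (A.A m) f ∉ ann E m ∧ ∃ x, φ₂.f (m, c') x = cl1 A A (m, c') f • z := by
  have hU : ∃ x : (GBi.of hR hF hc ha).U, x ≠ 0 := by
    by_contra hcon
    push Not at hcon
    refine h0 ?_
    have := sec_fin hF hc m
    refine rkp_zero (pp hR.gd) (rkF_kill hR ha m) (fun x => ?_)
    obtain ⟨f, hf, hx⟩ := toZ_ker hR hF hc ha (c' := m) x (ZcE_ext fun h => hcon _)
    exact ⟨f, fun h => hf ((hR.gd_psi _).1 h), hx⟩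
  obtain ⟨j, hj, hj1, hj2⟩ := (GBi.of hR hF hc ha).exists_map hu hU
  let J : ShH (Zc (GBi.self hR.gd)) (Zc (GBi.of hR hF hc ha)) :=
    Zc.map (B := GBi.self hR.gd) j hj1 (fun b x => hj2 b.unop x)
  have hJ : J.Inj := fun p x y hxy => ZcE_ext fun h => hj (congrFun hxy ⟨h⟩)
  let T := toZ hR hF hc ha
  let N : Sub F := Sub.comap T J.range
  refine ⟨N, J.range.sh, (T.comp N.incl).codRestr J.range (fun p x => x.2),
    (J.comp (T0i hR.gd)).codRestr J.range (fun p x => ⟨_, rfl⟩), ?_, ?_, ?_, ?_⟩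
  · intro c' x hx
    obtain ⟨f, hf, h1⟩ := toZ_ker hR hF hc ha (c' := c') x.1 (congrArg Subtype.val hx)
    exact ⟨f, hf, Subtype.ext h1⟩
  · intro c' x hx
    have h1 : J.f (m, c') ((T0i hR.gd).f (m, c') x) = 0 := congrArg Subtype.val hx
    have h2 : x = 0 := T0i_inj hR.gd (m, c') (hJ (m, c') (by rw [h1, map_zero, map_zero]))
    refine ⟨1, ?_, ?_⟩
    · rw [map_one]
      exact hR.one
    · rw [h2, smul_zero]
  · intro c' z
    obtain ⟨f, hf, x, hx⟩ := toZ_surj hR hF hc ha (c' := c') z.1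
    refine ⟨f, hf, ⟨x, ?_⟩, Subtype.ext hx⟩
    change T.f (m, c') x ∈ J.range.N (m, c')
    rw [hx]
    exact (J.range.N (m, c')).smul_mem _ z.2
  · intro c' z
    obtain ⟨y, hy⟩ := z.2
    obtain ⟨f, hf, x, hx⟩ := T0i_surj hR.gd c' y
    refine ⟨f, (hR.gd_fn f).1 hf, x, Subtype.ext ?_⟩
    change J.f (m, c') ((T0i hR.gd).f (m, c') x) = cl1 A A (m, c') f • z.1
    rw [hx, map_smul, hy]

/-- the rank of sheaves which are comparable -/
theorem rkF_cmp {E : BS A A} (hR : Red E m) {F₁ F₂ Z : BS A A} (hF₁ : F₁.Coh) (hc₁ : Cen F₁)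
    (ha₁ : ann E ≤ ann F₁) (hF₂ : F₂.Coh) (hc₂ : Cen F₂) (ha₂ : ann E ≤ ann F₂)
    (φ₁ : ShH F₁ Z) (φ₂ : ShH F₂ Z)
    (k₁ : ∀ (c' : Ch i) (x : F₁.E (m, c')), φ₁.f (m, c') x = 0 → ∃ f : RR k m.1,
      algebraMap _ (A.A m) f ∉ ann E m ∧ cl1 A A (m, c') f • x = 0)
    (k₂ : ∀ (c' : Ch i) (x : F₂.E (m, c')), φ₂.f (m, c') x = 0 → ∃ f : RR k m.1,
      algebraMap _ (A.A m) f ∉ ann E m ∧ cl1 A A (m, c') f • x = 0)
    (s₁ : ∀ (c' : Ch i) (z : Z.E (m, c')), ∃ f : RR k m.1,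
      algebraMap _ (A.A m) f ∉ ann E m ∧ ∃ x, φ₁.f (m, c') x = cl1 A A (m, c') f • z)
    (s₂ : ∀ (c' : Ch i) (z : Z.E (m, c')), ∃ f : RR k m.1,
      algebraMap _ (A.A m) f ∉ ann E m ∧ ∃ x, φ₂.f (m, c') x = cl1 A A (m, c') f • z) :
    rkF hR.gd F₁ = rkF hR.gd F₂ := by
  have := sec_fin hF₁ hc₁ m
  have := sec_fin hF₂ hc₂ m
  have hp : ∀ f : RR k m.1, algebraMap _ (A.A m) f ∉ ann E m ↔ f ∉ pp hR.gd := fun f =>
    not_congr (hR.gd_psi _).symm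
  let L₁ : Sec F₁ m m →ₗ[RR k m.1] Sec Z m m :=
    { toFun := fun x => φ₁.f (m, m) x
      map_add' := fun x y => map_add _ _ _
      map_smul' := fun f x => (φ₁.f (m, m)).map_smul (cl1 A A (m, m) f) x }
  let L₂ : Sec F₂ m m →ₗ[RR k m.1] Sec Z m m :=
    { toFun := fun x => φ₂.f (m, m) x
      map_add' := fun x y => map_add _ _ _
      map_smul' := fun f x => (φ₂.f (m, m)).map_smul (cl1 A A (m, m) f) x }
  refine rkp_cmp (pp hR.gd) (rkF_kill hR ha₁ m) (rkF_kill hR ha₂ m) L₁ L₂ ?_ ?_ ?_ ?_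
  · intro x hx
    obtain ⟨f, hf, h⟩ := k₁ m x hx
    exact ⟨f, (hp f).1 hf, h⟩
  · intro x hx
    obtain ⟨f, hf, h⟩ := k₂ m x hx
    exact ⟨f, (hp f).1 hf, h⟩
  · intro z
    obtain ⟨f, hf, x, h⟩ := s₁ m z
    exact ⟨f, (hp f).1 hf, x, h⟩
  · intro z
    obtain ⟨f, hf, x, h⟩ := s₂ m z
    exact ⟨f, (hp f).1 hf, x, h⟩

/-- THE CLASSES OF CENTRAL BISHEAVES ARE PROPORTIONAL TO THE RANK. -/
theorem len {V : Type*} [AddCommGroup V] (cl : AddFn (fun F : BS A A => F.Coh ∧ Cen F) V)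
    {E : BS A A} (hR : Red E m) (hu : Uni hR.gd)
    (ih : ∀ F : BS A A, F.Coh ∧ Cen F → ann E < ann F → cl.cl F = 0) (F : BS A A)
    (hF : F.Coh ∧ Cen F) (ha : ann E ≤ ann F) :
    rkF hR.gd (T0 hR.gd) • cl.cl F = rkF hR.gd F • cl.cl (T0 hR.gd) := by
  have hC := scls_cen (A := A) (A' := A)
  obtain ⟨n, hn⟩ : ∃ n, rkF hR.gd F = n := ⟨_, rfl⟩
  induction n using Nat.strong_induction_on generalizing F with
  | _ n IH =>
  by_cases h0 : rkF hR.gd F = 0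
  · rw [h0, zero_smul, cl_tors hC cl hR.one hR.pr ih hF ha
      (fun c' x => rkF_zero hR hF.1 hF.2 ha h0 c' x), smul_zero]
  · obtain ⟨N, Z, φ₁, φ₂, k₁, k₂, s₁, s₂⟩ := len_step hR hu hF.1 hF.2 ha h0
    have hN := hC.sub F hF N
    have hT : (T0 hR.gd).Coh ∧ Cen (T0 hR.gd) := ⟨T0_coh _, T0_cen _⟩
    have e1 : cl.cl N.sh = cl.cl (T0 hR.gd) :=
      compare hC cl hR ih hN hT (ha.trans (ann_sub F N)) (ann_T0 hR) φ₁ φ₂ k₁ k₂ s₁ s₂
    have e2 : rkF hR.gd N.sh = rkF hR.gd (T0 hR.gd) :=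
      rkF_cmp hR hN.1 hN.2 (ha.trans (ann_sub F N)) hT.1 hT.2 (ann_T0 hR) φ₁ φ₂ k₁ k₂ s₁ s₂
    have e3 := rkF_add hR hF.1 hF.2 ha N
    have h1 := rkF_T0 hR
    have e4 := IH (rkF hR.gd N.quot) (by omega) N.quot (hC.quot F hF N)
      (ha.trans (ann_quot F N)) rfl
    rw [cl.add F hF N, smul_add, e4, e1, e3, e2, add_smul]

end Pool.Agent.MP_6e5bed_ag_GP
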