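import Pool.Agent.Lib.MP_6e5bed_ag_GG.Cls
import Pool.Agent.Lib.MP_6e5bed_ag_GG.GB
import Pool.Agent.Lib.MP_6e5bed_ag_GG.Gd
import Pool.Agent.Lib.MP_6e5bed_ag_GG.TDef

set_option autoImplicit false

/-!
# MP_6e5bed_ag, THEOREM G+: the condition on the generic data
-/

noncomputable section

namespace Pool.Agent.MP_6e5bed_ag_GP

open Pool.Agent.MP_6e5bed_ag Pool.Agent.MP_6e5bed_ag_NC Pool.Agent.MP_6e5bed_ag_NS
  Pool.Agent.MP_6e5bed_ag_GG
open Pool.Agent.MP_6e5bed_ag_PN hiding Ch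

universe u

variable {k : Type u} [Field k] {i : Type} [Fintype i] {A : CA k i} {m m' : Ch i}

/-- The point of `g'` is a specialisation of the point of `g`. -/
def Spc (g : GD A m) (g' : GD A m') : Prop :=
  ∃ h : m' ≤ m, ∀ f : RR k m'.1, g.fn (rinc h f) = 0 → g'.fn f = 0

/-- The centre of `S` is a purely inseparable extension of the field of fractions, and the
generic data are determined by the point. -/
structure Uni (g : GD A m) : Prop where
  pi : ∀ z : g.S, (∀ s, z * s = s * z) → ∃ (e : ℕ) (f h : RR k m.1), g.fn h ≠ 0 ∧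
    g.fn h * z ^ (ringExpChar k ^ e) = g.fn f
  uniq : ∀ g' : GD A m, (∀ f, g'.fn f = 0 ↔ g.fn f = 0) → ∀ a, g'.psi a = 0 ↔ g.psi a = 0

/-- The condition of THEOREM G+ for the coherent algebra `A`. -/
def HP (A : CA k i) : Prop :=
  ∀ (m : Ch i) (g : GD A m),
    (Uni g ∧ ∀ c : Ch i, Function.Injective (algebraMap (RR k c.1) (A.A c))) ∨
    ∀ (m' : Ch i) (g' : GD A m'), Spc g g' →
      MP_6e5bed_ag_Pn.InProd (algebraMap k (Subalgebra.center k g'.S))

variable (k) in
/-- the core theorem over the field `k` -/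
def CorP : Prop :=
  ∀ {i : Type} [Fintype i] (A : CA k i), HP A → ∀ hs : Smooth (TT A),
    (∀ W : SP k, IsCurve W.alg → KimuraFinite (U W)) →
    ∃ hp : Proper (TT A), KimuraFinite (U (⟨TT A, hs, hp⟩ : SP k))

end Pool.Agent.MP_6e5bed_ag_GP
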