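import Pool.Agent.Lib.MP_6e5bed_ag_GP.LatE
import Pool.Agent.Lib.MP_6e5bed_ag_GP.KbC
import Pool.Agent.Lib.MP_6e5bed_ag_GP.Len
import Pool.Agent.Lib.MP_6e5bed_ag_GP.PHd

set_option autoImplicit false
set_option linter.unusedVariables false

/-!
# MP_6e5bed_ag, THEOREM G+: the main step for central bisheaves
-/

noncomputable section

namespace Pool.Agent.MP_6e5bed_ag_GP

open Pool.Agent.MP_6e5bed_ag_GG
open scoped TensorProduct

universe u

variable {k : Type u} [Field k] {i : Type} [Fintype i] {A : CA k i} {m : Ch i}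

private theorem MainC_zero {V : Type*} [AddCommGroup V] [Module ℚ V] {z : ℤ} (hz : z ≠ 0) {v : V}
    (h : z • v = 0) : v = 0 := by
  have h1 : (z : ℚ) • v = 0 := by rw [Int.cast_smul_eq_zsmul, h]
  have h2 : (z : ℚ) ≠ 0 := Int.cast_ne_zero.2 hz
  rw [← one_smul ℚ v, ← inv_mul_cancel₀ h2, mul_smul, h1, smul_zero]

private theorem MainC_enum {j : Type} [Fintype j] (l : j) :
    ∃ (n : ℕ) (e : j ≃ Fin (n + 1)), e l = Fin.last n := by
  have : Nonempty j := ⟨l⟩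
  obtain ⟨n, hn⟩ : ∃ n, Fintype.card j = n + 1 :=
    ⟨Fintype.card j - 1, (Nat.succ_pred_eq_of_pos Fintype.card_pos).symm⟩
  let e : j ≃ Fin (n + 1) := Fintype.equivFinOfCardEq hn
  exact ⟨n, e.trans (Equiv.swap (e l) (Fin.last n)), Equiv.swap_apply_left _ _⟩

/-- THE MAIN STEP for central bisheaves at a point with `Uni`. -/
theorem main_cen {V : Type*} [AddCommGroup V] [Module ℚ V]
    (cl : AddFn (fun E : BS A A => E.Coh) V)
    (hbox : ∀ (p q : ℕ) (M : Sh (ls A)) (N : Sh (rs A)), M.Coh → N.Coh →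
      cl.cl (tw p q (box M N)) = 0)
    (hinj : ∀ c : Ch i, Function.Injective (algebraMap (RR k c.1) (A.A c)))
    {E : BS A A} (hE : E.Coh) (hc : Cen E) (hR : Red E m) (hu : Uni hR.gd)
    (ih : ∀ F : BS A A, F.Coh → Cen F → ann E < ann F → cl.cl F = 0) : cl.cl E = 0 := by
  classical
  obtain ⟨n, e, he⟩ := MainC_enum (gch m)
  let cl' : AddFn (fun F : BS A A => F.Coh ∧ Cen F) V :=
    ⟨cl.cl, fun E F f hf h => cl.iso E F f hf h.1, fun E h N => cl.add E h.1 N⟩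
  have h1 : ∀ F : BS A A, F.Coh → Cen F → ann E ≤ ann F →
      rkF hR.gd (T0 hR.gd) • cl.cl F = rkF hR.gd F • cl.cl (T0 hR.gd) := fun F hF hc ha =>
    len cl' hR hu (fun F hF h => ih F hF.1 hF.2 h) F ⟨hF, hc⟩ ha
  have h2 := kb_euler (eF_inj e) (scls_coh (bs_noe A A)) cl (E := blat hR.gd)
    (fun p q => tw_coh p q (blat_coh _))
    (fun p q => hbox p q (lat hR.gd) (rsSelf A) (lat_coh _) (rsSelf_coh A))
  have h3 := lat_euler hR.gd e he (hinj _)
  have h4 : ∀ r, rkp (pp hR.gd) (Sec ((kb (eF_inj e) (blat hR.gd)).H r) m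
      (Ch.sgl (gch m))) = rkF hR.gd ((kb (eF_inj e) (blat hR.gd)).H r) := fun r =>
    rkp_congr (pp hR.gd) ((kb_cen (eF_inj e) (blat hR.gd) r).eqv
      (Set.singleton_subset_iff.2 (gch_mem m)))
  have h5 : ∀ r, ((kb (eF_inj e) (blat hR.gd)).H r).Coh := fun r =>
    ShC.scls (scls_coh (bs_noe A A)) _ (kb_coh (eF_inj e) (blat_coh hR.gd) r)
  have h6 : (∑ r ∈ Finset.range (Fintype.card i + 1), (-1 : ℤ) ^ r *
      (rkp (pp hR.gd) (Sec ((kb (eF_inj e) (blat hR.gd)).H r) m (Ch.sgl (gch m))) : ℤ)) •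
        cl.cl (T0 hR.gd) = 0 := by
    rw [Finset.sum_smul]
    have h7 : ∀ r ∈ Finset.range (Fintype.card i + 1), ((-1 : ℤ) ^ r *
      (rkp (pp hR.gd) (Sec ((kb (eF_inj e) (blat hR.gd)).H r) m (Ch.sgl (gch m))) : ℤ)) •
        cl.cl (T0 hR.gd) = rkF hR.gd (T0 hR.gd) •
          ((-1 : ℤ) ^ r • cl.cl ((kb (eF_inj e) (blat hR.gd)).H r)) := by
      intro r _
      rw [mul_smul, h4 r, natCast_zsmul, smul_comm (rkF hR.gd (T0 hR.gd)),
        h1 _ (h5 r) (kb_cen _ _ r) ((ann_blat hR).trans (kb_ann _ _ r))]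
    rw [Finset.sum_congr rfl h7, ← Finset.smul_sum, h2, smul_zero]
  have h7 : cl.cl (T0 hR.gd) = 0 := MainC_zero (ne_of_gt h3) h6
  have h8 := h1 E hE hc le_rfl
  rw [h7, smul_zero, ← natCast_zsmul] at h8
  exact MainC_zero (Int.natCast_ne_zero.2 (ne_of_gt (rkF_T0 hR))) h8

end Pool.Agent.MP_6e5bed_ag_GP
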