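import Pool.Agent.Lib.MP_6e5bed_ag_GG.CoreG
import Pool.Agent.Lib.MP_6e5bed_ag_GP.BoxC
import Pool.Agent.Lib.MP_6e5bed_ag_GP.MainC

set_option autoImplicit false
set_option linter.unusedVariables false

/-!
# MP_6e5bed_ag, THEOREM G+: the core theorem
-/

noncomputable section

namespace Pool.Agent.MP_6e5bed_ag_GP

open CategoryTheory MonoidalCategory Pool.Agent.MP_6e5bed_ag Pool.Agent.MP_6e5bed_ag_NC
  Pool.Agent.MP_6e5bed_ag_NS Pool.Agent.MP_6e5bed_ag_PS Pool.Agent.MP_6e5bed_ag_GG
open Pool.Agent.MP_6e5bed_ag_PN hiding Ch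
open scoped TensorProduct

universe u

variable {k : Type u} [Field k] {i j : Type} [Fintype i] [Fintype j]

/-! ### X-data at one point -/

/-- From the condition on the centre at one point to X-data. -/
theorem exists_XD_pt [IsAlgClosed k] {A : CA k i} {m : Ch i} (g : GD A m)
    (h : MP_6e5bed_ag_Pn.InProd (algebraMap k (Subalgebra.center k g.S))) :
    ∃ (L : Type u) (_ : Field L) (_ : Algebra k L) (_ : Algebra L g.S)
      (_ : IsScalarTower k L g.S) (X : XD k) (_ : Algebra L X.M) (_ : IsScalarTower k L X.M),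
      Algebra.IsCentral L g.S ∧ Module.Finite L g.S ∧ Module.Finite L X.M ∧ XGood X := by
  obtain ⟨L, _, _, _, _, hcen, hfin, hess, hP⟩ := g.exists_L
  have hin : MP_6e5bed_ag_Pn.InProd (algebraMap k L) :=
    hP (fun Z _ _ => MP_6e5bed_ag_Pn.InProd (algebraMap k Z)) h
  obtain ⟨Ω, _, _, N, ψ, hN, -, -, hfinN⟩ := exists_isPF L hin
  obtain ⟨X, hX, ⟨e⟩⟩ := cell hN
  let φ : L →ₐ[k] X.M := (e.symm : N →ₐ[k] X.M).comp ψ
  let aL : Algebra L X.M := φ.toRingHom.toAlgebra
  have htow : IsScalarTower k L X.M := IsScalarTower.of_algebraMap_eq fun x => (φ.commutes x).symm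
  refine ⟨L, inferInstance, inferInstance, inferInstance, inferInstance, X, aL, htow, hcen, hfin,
    ?_, hX⟩
  let aN : Algebra L N := ψ.toRingHom.toAlgebra
  have h1 : Module.Finite L N := hfinN
  let f : N →ₗ[L] X.M :=
    { toFun := e.symm
      map_add' := map_add e.symm
      map_smul' := fun c x => by
        change e.symm (ψ c * x) = e.symm (ψ c) * e.symm x
        rw [map_mul] }
  exact Module.Finite.of_surjective f e.symm.surjective

/-! ### The bisheaves all of whose points have the centre in a product of curves -/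

/-- The generic data on the support of `E` have centres in products of curves. -/
def LD {A : CA k i} {A' : CA k j} (E : BS A A') : Prop :=
  ∀ (m' : Ch i) (g' : GD A m'), (∀ a ∈ ann E m', g'.psi a = 0) →
    MP_6e5bed_ag_Pn.InProd (algebraMap k (Subalgebra.center k g'.S))

theorem LD.mono {A : CA k i} {A' : CA k j} {E F : BS A A'} (h : LD E) (hle : ann E ≤ ann F) :
    LD F := fun m' g' hg => h m' g' fun a ha => hg a (hle m' ha)

/-- The coherent bisheaves with this property. -/
theorem scls_ld {A : CA k i} {A' : CA k j} : SCls (fun E : BS A A' => E.Coh ∧ LD E) where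
  coh := fun _ h => h.1
  sub := fun E h N => ⟨h.1.sub (bs_noe A A') N, h.2.mono (ann_sub E N)⟩
  quot := fun E h N => ⟨h.1.quot N, h.2.mono (ann_quot E N)⟩
  iso := fun _ _ f hf h => ⟨h.1.of_surj f (fun p => (hf p).2),
    h.2.mono (ann_of_surj f (fun p => (hf p).2))⟩
  pow := fun E h n => ⟨h.1.pow n, h.2.mono (ann_pow E n)⟩

/-- restriction of an additive function to a smaller class -/
def addRes {S : Site k} {C C' : Sh S → Prop} {V : Type*} [AddCommGroup V] (cl : AddFn C V)
    (h : ∀ E, C' E → C E) : AddFn C' V where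
  cl := cl.cl
  iso := fun E F f hf hE => cl.iso E F f hf (h E hE)
  add := fun E hE N => cl.add E (h E hE) N

/-- The class of a coherent bisheaf with `LD` is zero. -/
theorem cl_ld [IsAlgClosed k] {A : CA k i} {hF : FinBB A A} {hS : Smooth (TT A)} {E : BS A A}
    (hE : E.Coh) (hl : LD E) :
    (clf A A hF hS hS (bs_noe A A) (JS Gd (TT A))).cl E = 0 := by
  refine noeth (fun c => A.noe c) scls_ld
    (addRes (clf A A hF hS hS (bs_noe A A) (JS Gd (TT A))) (fun E h => h.1)) ?_ E ⟨hE, hl⟩
  intro E m hE hR ih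
  obtain ⟨L, _, _, _, _, X, _, _, _, _, _, hX⟩ := exists_XD_pt hR.gd
    (hE.2 m hR.gd fun a ha => (hR.gd_psi a).2 ha)
  exact main_pt (hF := hF) (hS := hS) le_rfl hE.1 hR
    (fun F hF' hlt => ih F ⟨hF', hE.2.mono hlt.le⟩ hlt) X hX.spjGd L
    (fun D => hqp hR.gd X L D)

/-! ### Central bisheaves -/

/-- The points of the support of a reduced bisheaf are specialisations of its generic point. -/
theorem spc_of_red {A : CA k i} {A' : CA k j} {E : BS A A'} {m : Ch i} (hR : Red E m)
    {m' : Ch i} (g' : GD A m') (hg : ∀ a ∈ ann E m', g'.psi a = 0) : Spc hR.gd g' := by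
  have h : m' ≤ m := by
    by_contra hc
    have h1 : (1 : A.A m') ∈ ann E m' := fun c' e => hR.z m' c' hc _
    have h2 := hg 1 h1
    rw [map_one] at h2
    exact g'.ne h2
  refine ⟨h, fun f hf => ?_⟩
  have h1 : algebraMap _ (A.A m) (rinc h f) ∈ ann E m := by
    by_contra hc
    exact (hR.gd_fn (rinc h f)).2 hc hf
  have h2 : algebraMap _ (A.A m') f ∈ ann E m' := by
    intro c' e
    refine hR.inj m' c' h _ ?_
    rw [E.res_lo, A.res_R]
    exact h1 c' _
  exact hg _ h2

/-- The class of a coherent central bisheaf is zero. -/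
theorem cl_cen [IsAlgClosed k] {A : CA k i} {hF : FinBB A A} {hS : Smooth (TT A)} (hP : HP A)
    (hl : FinL A) (hr : FinR A) {E : BS A A} (hE : E.Coh) (hc : Cen E) :
    (clf A A hF hS hS (bs_noe A A) (JS Gd (TT A))).cl E = 0 := by
  refine noeth (fun c => A.noe c) scls_cen
    (addRes (clf A A hF hS hS (bs_noe A A) (JS Gd (TT A))) (fun E h => h.1)) ?_ E ⟨hE, hc⟩
  intro E m hE hR ih
  rcases hP m hR.gd with ⟨hu, hinj⟩ | h
  · exact main_cen (clf A A hF hS hS (bs_noe A A) (JS Gd (TT A)))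
      (fun p q M N hM hN => cl_tw_box Gd.base hF hS hl hr hM hN p q) hinj hE.1 hE.2 hR hu
      (fun F hF' hc' hlt => ih F ⟨hF', hc'⟩ hlt)
  · exact cl_ld (hF := hF) (hS := hS) hE.1 fun m' g' hg => h m' g' (spc_of_red hR g' hg)

/-! ### The diagonal bisheaf -/

private theorem CorP_cl1 (A : CA k i) (p : Ch i × Ch i) (f : RR k p.1.1) (x : DgE A p) :
    DgE.of A ((cl1 A A p f • (show (dgS A).E p from x) : (dgS A).E p)) =
      algebraMap _ (A.A (un p)) (rinc (le_un1 p) f) * DgE.of A x := by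
  refine (DgE_tmul A p (algebraMap _ _ f) 1 x).trans ?_
  rw [MulOpposite.unop_one, map_one, mul_one, A.res_R]

private theorem CorP_crt (A : CA k i) (p : Ch i × Ch i) (f : RR k p.2.1) (x : DgE A p) :
    DgE.of A ((crt A A p f • (show (dgS A).E p from x) : (dgS A).E p)) =
      algebraMap _ (A.A (un p)) (rinc (le_un2 p) f) * DgE.of A x := by
  refine (DgE_tmul A p 1 (MulOpposite.op (algebraMap _ _ f)) x).trans ?_
  rw [MulOpposite.unop_op, map_one, one_mul, A.res_R, Algebra.commutes]

/-- The diagonal bisheaf is central. -/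
theorem cen_dgS (A : CA k i) : Cen (MP_6e5bed_ag_GG.dgS A) := by
  intro p γ hγ l hl m x
  refine DgE.of_inj ?_
  refine (CorP_cl1 A p _ x).trans ?_
  refine Eq.trans ?_ (CorP_cl1 A p _ _).symm
  refine Eq.trans ?_ (congrArg _ (CorP_crt A p _ x)).symm
  rw [← mul_assoc, ← map_mul]
  congr 2
  rw [mul_comm]
  exact (tt_tt m (le_un2 p hl) (le_un1 p hγ)).symm

/-! ### The core theorem -/

/-- THE CORE THEOREM of THEOREM G+, given the finiteness for one-sided sheaves. -/
theorem corP_of (k : Type u) [Field k] [IsAlgClosed k]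
    (hl : ∀ {i : Type} [Fintype i] (A : CA k i), FinL A)
    (hr : ∀ {i : Type} [Fintype i] (A : CA k i), FinR A) : CorP k := by
  intro i _ A hP hs hC
  have hF : FinBB A A := finBB
  refine ⟨proper_TT hF, kf_of_gd hC ⟨TT A, hs, proper_TT hF⟩ ?_⟩
  change K0Q.one hs ∈ JS Gd (TT A)
  rw [← rcls_dgS hF hs (hasRes_BB hF hs hs (dgS_coh A))]
  exact (clf_eq_zero hF hs hs (bs_noe A A) _ (dgS_coh A)).1
    (cl_cen hP (hl A) (hr A) (dgS_coh A) (cen_dgS A))

end Pool.Agent.MP_6e5bed_ag_GP
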