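import Pool.Agent.Lib.MP_6e5bed_ag_GV.CoreV
import Pool.Agent.Lib.MP_6e5bed_ag_GP.CorP

set_option autoImplicit false
set_option linter.unusedVariables false

/-!
# MP_6e5bed_ag, THEOREM V+: the core theorem (THEOREM V and THEOREM G+ together)
-/

noncomputable section

namespace Pool.Agent.MP_6e5bed_ag_GP

open CategoryTheory MonoidalCategory Pool.Agent.MP_6e5bed_ag Pool.Agent.MP_6e5bed_ag_NC
  Pool.Agent.MP_6e5bed_ag_NS Pool.Agent.MP_6e5bed_ag_PS Pool.Agent.MP_6e5bed_ag_GG
open Pool.Agent.MP_6e5bed_ag_PN hiding Ch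
open scoped TensorProduct

universe u

variable {k : Type u} [Field k] {i j : Type} [Fintype i] [Fintype j]

/-- The generic data on the support of `E` have centres in the function fields of the X-data. -/
def LV (Good : DGA k → Prop) {A : CA k i} {A' : CA k j} (E : BS A A') : Prop :=
  ∀ (m' : Ch i) (g' : GD A m'), (∀ a ∈ ann E m', g'.psi a = 0) →
    XFin Good (Subalgebra.center k g'.S)

theorem LV.mono {Good : DGA k → Prop} {A : CA k i} {A' : CA k j} {E F : BS A A'}
    (h : LV Good E) (hle : ann E ≤ ann F) : LV Good F :=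
  fun m' g' hg => h m' g' fun a ha => hg a (hle m' ha)

/-- The coherent bisheaves with this property. -/
theorem scls_lv {Good : DGA k → Prop} {A : CA k i} {A' : CA k j} :
    SCls (fun E : BS A A' => E.Coh ∧ LV Good E) where
  coh := fun _ h => h.1
  sub := fun E h N => ⟨h.1.sub (bs_noe A A') N, h.2.mono (ann_sub E N)⟩
  quot := fun E h N => ⟨h.1.quot N, h.2.mono (ann_quot E N)⟩
  iso := fun _ _ f hf h => ⟨h.1.of_surj f (fun p => (hf p).2),
    h.2.mono (ann_of_surj f (fun p => (hf p).2))⟩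
  pow := fun E h n => ⟨h.1.pow n, h.2.mono (ann_pow E n)⟩

/-- The class of a coherent bisheaf with `LV` is zero. -/
theorem cl_lv {Good : DGA k → Prop} {A : CA k i} {hF : FinBB A A} {hS : Smooth (TT A)}
    {E : BS A A} (hE : E.Coh) (hl : LV Good E) :
    (clf A A hF hS hS (bs_noe A A) (JS Good (TT A))).cl E = 0 := by
  refine noeth (fun c => A.noe c) scls_lv
    (addRes (clf A A hF hS hS (bs_noe A A) (JS Good (TT A))) (fun E h => h.1)) ?_ E ⟨hE, hl⟩
  intro E m hE hR ih
  obtain ⟨L, _, _, _, _, hcen, hfin, hess, hP⟩ := hR.gd.exists_L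
  obtain ⟨X, hG, hX, φ, hφ⟩ := hP (fun Z _ _ => XFin Good Z)
    (hE.2 m hR.gd fun a ha => (hR.gd_psi a).2 ha)
  let aL : Algebra L X.M := φ.toRingHom.toAlgebra
  have htow : IsScalarTower k L X.M :=
    IsScalarTower.of_algebraMap_eq fun x => (φ.commutes x).symm
  have hfL : Module.Finite L X.M := hφ
  exact main_xt (hF := hF) (hS := hS) le_rfl hE.1 hR
    (fun F hF' hlt => ih F ⟨hF', hE.2.mono hlt.le⟩ hlt) X hG hX L

/-- The condition of THEOREM V+ for the coherent algebra `A`. -/
def HPV (Good : DGA k → Prop) (A : CA k i) : Prop :=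
  ∀ (m : Ch i) (g : GD A m),
    (Uni g ∧ ∀ c : Ch i, Function.Injective (algebraMap (RR k c.1) (A.A c))) ∨
    ∀ (m' : Ch i) (g' : GD A m'), Spc g g' → XFin Good (Subalgebra.center k g'.S)

/-- The class of a coherent central bisheaf is zero. -/
theorem cl_cenV {Good : DGA k → Prop} (hb : Good (base k)) {A : CA k i} {hF : FinBB A A}
    {hS : Smooth (TT A)} (hP : HPV Good A) (hl : FinL A) (hr : FinR A) {E : BS A A}
    (hE : E.Coh) (hc : Cen E) :
    (clf A A hF hS hS (bs_noe A A) (JS Good (TT A))).cl E = 0 := by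
  refine noeth (fun c => A.noe c) scls_cen
    (addRes (clf A A hF hS hS (bs_noe A A) (JS Good (TT A))) (fun E h => h.1)) ?_ E ⟨hE, hc⟩
  intro E m hE hR ih
  rcases hP m hR.gd with ⟨hu, hinj⟩ | h
  · exact main_cen (clf A A hF hS hS (bs_noe A A) (JS Good (TT A)))
      (fun p q M N hM hN => cl_tw_box hb hF hS hl hr hM hN p q) hinj hE.1 hE.2 hR hu
      (fun F hF' hc' hlt => ih F ⟨hF', hc'⟩ hlt)
  · exact cl_lv (hF := hF) (hS := hS) hE.1 fun m' g' hg => h m' g' (spc_of_red hR g' hg)

/-- THE CORE THEOREM of THEOREM V+: the identity of the motive of the coherent algebra `A` factors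
through the motives of good dg algebras. -/
theorem one_mem_pv {Good : DGA k → Prop} (hb : Good (base k)) {A : CA k i} (hl : FinL A)
    (hr : FinR A) (hs : Smooth (TT A)) (hP : HPV Good A) : K0Q.one hs ∈ JS Good (TT A) := by
  have hF : FinBB A A := finBB
  rw [← rcls_dgS hF hs (hasRes_BB hF hs hs (dgS_coh A))]
  exact (clf_eq_zero hF hs hs (bs_noe A A) _ (dgS_coh A)).1
    (cl_cenV hb hP hl hr (dgS_coh A) (cen_dgS A))

end Pool.Agent.MP_6e5bed_ag_GP
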