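import Pool.Agent.Lib.MP_6e5bed_ag_GP.Tw
import Pool.Agent.Lib.MP_6e5bed_ag_GG.TLocS

set_option autoImplicit false
set_option linter.unusedVariables false

/-!
# MP_6e5bed_ag, THEOREM G+: one-sided sheaves and their external tensor products

`ls A` is the site of the charts with the algebras `A_c`, `rs A'` the site with the algebras
`A'_{c'}ᵒᵖ`; `box M N` is the bisheaf `M_c ⊗_k N_{c'}`.
-/

noncomputable section

namespace Pool.Agent.MP_6e5bed_ag_GP

open Pool.Agent.MP_6e5bed_ag_GG
open scoped TensorProduct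

universe u

variable {k : Type u} [Field k] {i j : Type} [Fintype i] [Fintype j]

/-- The site of the charts with the algebras `A_c`. -/
def ls (A : CA k i) : Site k where
  P := Ch i
  B := fun c => A.A c
  r := fun h => A.res h
  r_id := fun h b => A.res_id h b
  r_r := fun h h' b => A.res_res h h' b
  Loc := fun c d t => c ≤ d ∧ ∃ (l g : i) (hg : g ∈ c.1), d.1 ⊆ insert l c.1 ∧
    t = algebraMap (RR k c.1) (A.A c) (tt k l hg)
  le := fun h => h.1
  comm := fun {c d t} h b => by
    obtain ⟨_, l, g, hg, _, rfl⟩ := h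
    exact Algebra.commutes _ _

/-- The site of the charts with the algebras `A_cᵒᵖ`. -/
def rs (A : CA k j) : Site k where
  P := Ch j
  B := fun c => (A.A c)ᵐᵒᵖ
  r := fun h => AlgHom.op (A.res h)
  r_id := fun h b => MulOpposite.unop_injective (A.res_id h b.unop)
  r_r := fun h h' b => MulOpposite.unop_injective (A.res_res h h' b.unop)
  Loc := fun c d t => c ≤ d ∧ ∃ (l g : j) (hg : g ∈ c.1), d.1 ⊆ insert l c.1 ∧
    t = MulOpposite.op (algebraMap (RR k c.1) (A.A c) (tt k l hg))
  le := fun h => h.1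
  comm := fun {c d t} h b => by
    obtain ⟨_, l, g, hg, _, rfl⟩ := h
    refine MulOpposite.unop_injective ?_
    rw [MulOpposite.unop_mul, MulOpposite.unop_mul, MulOpposite.unop_op, Algebra.commutes]

theorem ls_noe (A : CA k i) : (ls A).Noe := fun c => A.noe c

theorem rs_noe (A : CA k j) : (rs A).Noe := fun c => A.noe_op c

instance lsMod {A : CA k i} (M : Sh (ls A)) (c : Ch i) : Module (A.A c) (M.E c) := M.mod c

instance lsTow {A : CA k i} (M : Sh (ls A)) (c : Ch i) : IsScalarTower k (A.A c) (M.E c) :=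
  M.tow c

instance rsMod {A : CA k j} (N : Sh (rs A)) (c : Ch j) : Module (A.A c)ᵐᵒᵖ (N.E c) := N.mod c

instance rsTow {A : CA k j} (N : Sh (rs A)) (c : Ch j) : IsScalarTower k (A.A c)ᵐᵒᵖ (N.E c) :=
  N.tow c

private theorem Box_op_pow (A : CA k j) (c : Ch j) (f : RR k c.1) (n : ℕ) (x : A.A c) :
    MulOpposite.op (algebraMap (RR k c.1) (A.A c) f) ^ n • x = f ^ n • x := by
  rw [← MulOpposite.op_pow, op_smul_eq_mul, ← map_pow, ← Algebra.commutes, ← Algebra.smul_def]

private theorem Box_lsmul_pow {B E : Type*} [Ring B] [Algebra k B] [AddCommGroup E] [Module k E]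
    [Module B E] [IsScalarTower k B E] (b : B) (n : ℕ) (x : E) :
    ((Algebra.lsmul k k E b : Module.End k E) ^ n) x = b ^ n • x := by
  rw [← map_pow]
  rfl

private theorem Box_loc {S : Site k} (E : Sh S) {p q : S.P} {t : S.B p} (h : S.Loc p q t) :
    LocP (E.res (S.le h)) (Algebra.lsmul k k (E.E p) t : Module.End k (E.E p))
      (Algebra.lsmul k k (E.E q) (S.r (S.le h) t) : Module.End k (E.E q)) where
  nat := fun x => E.res_smul _ _ _
  surj := fun y => by
    obtain ⟨n, x, hx⟩ := E.surj h y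
    exact ⟨n, x, by rw [hx, Box_lsmul_pow]⟩
  inj := fun x hx => by
    obtain ⟨n, hn⟩ := E.inj h x hx
    exact ⟨n, by rw [Box_lsmul_pow, hn]⟩

/-- the algebra itself as a right sheaf -/
def rsSelf (A : CA k j) : Sh (rs A) where
  E := fun c => A.A c
  mod := fun c => inferInstanceAs (Module (A.A c)ᵐᵒᵖ (A.A c))
  tow := fun c => inferInstanceAs (IsScalarTower k (A.A c)ᵐᵒᵖ (A.A c))
  res := fun h => (A.res h).toLinearMap
  res_smul := fun h b x => by
    change A.res h (x * b.unop) = A.res h x * A.res h b.unop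
    rw [map_mul]
  res_id := fun h x => A.res_id h x
  res_res := fun h h' x => A.res_res h h' x
  surj := fun {c d t} h y => by
    obtain ⟨hcd, l, g, hg, hd, rfl⟩ := h
    obtain ⟨n, x, hx⟩ := A.surj hcd hg l hd y
    refine ⟨n, x, ?_⟩
    change A.res hcd x =
      MulOpposite.op (A.res hcd (algebraMap (RR k c.1) (A.A c) (tt k l hg))) ^ n • y
    rw [A.res_R, rinc_tt, Box_op_pow, hx]
  inj := fun {c d t} h x hx => by
    obtain ⟨hcd, l, g, hg, hd, rfl⟩ := h
    obtain ⟨n, hn⟩ := A.inj hcd hg l hd x hx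
    exact ⟨n, (Box_op_pow A c (tt k l hg) n x).trans hn⟩

theorem rsSelf_coh (A : CA k j) : (rsSelf A).Coh := by
  intro c
  change Module.Finite (A.A c)ᵐᵒᵖ (A.A c)
  refine ⟨⟨{1}, ?_⟩⟩
  rw [Finset.coe_singleton, Submodule.eq_top_iff']
  intro x
  rw [Submodule.mem_span_singleton]
  exact ⟨MulOpposite.op x, by rw [op_smul_eq_mul, one_mul]⟩

section

variable {A : CA k i} {A' : CA k j} (M : Sh (ls A)) (N : Sh (rs A'))

/-- the sections of the external tensor product -/
def BxE (p : Ch i × Ch j) : Type u := M.E p.1 ⊗[k] N.E p.2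

instance (p : Ch i × Ch j) : AddCommGroup (BxE M N p) :=
  inferInstanceAs (AddCommGroup (M.E p.1 ⊗[k] N.E p.2))

instance (p : Ch i × Ch j) : Module k (BxE M N p) :=
  inferInstanceAs (Module k (M.E p.1 ⊗[k] N.E p.2))

/-- the left action -/
def bxl (p : Ch i × Ch j) : A.A p.1 →ₐ[k] Module.End k (M.E p.1 ⊗[k] N.E p.2) :=
  (Module.End.rTensorAlgHom k (M.E p.1) (N.E p.2)).comp
    (Algebra.lsmul k k (M.E p.1) : A.A p.1 →ₐ[k] Module.End k (M.E p.1))

/-- the right action -/
def bxr (p : Ch i × Ch j) : (A'.A p.2)ᵐᵒᵖ →ₐ[k] Module.End k (M.E p.1 ⊗[k] N.E p.2) :=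
  (Module.End.lTensorAlgHom k (N.E p.2) (M.E p.1)).comp
    (Algebra.lsmul k k (N.E p.2) : (A'.A p.2)ᵐᵒᵖ →ₐ[k] Module.End k (N.E p.2))

theorem bxl_tmul (p : Ch i × Ch j) (a : A.A p.1) (x : M.E p.1) (y : N.E p.2) :
    bxl M N p a (x ⊗ₜ[k] y) = (a • x) ⊗ₜ[k] y := rfl

theorem bxr_tmul (p : Ch i × Ch j) (b : (A'.A p.2)ᵐᵒᵖ) (x : M.E p.1) (y : N.E p.2) :
    bxr M N p b (x ⊗ₜ[k] y) = x ⊗ₜ[k] (b • y) := rfl

/-- the action of `A_c ⊗ A'_{c'}ᵒᵖ` -/
def bxact (p : Ch i × Ch j) : bsB A A' p →ₐ[k] Module.End k (M.E p.1 ⊗[k] N.E p.2) :=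
  Algebra.TensorProduct.lift (bxl M N p) (bxr M N p) (fun a b => by
    refine TensorProduct.ext' fun x y => ?_
    change bxl M N p a (bxr M N p b (x ⊗ₜ[k] y)) = bxr M N p b (bxl M N p a (x ⊗ₜ[k] y))
    rw [bxl_tmul, bxr_tmul, bxl_tmul, bxr_tmul])

theorem bxact_tmul (p : Ch i × Ch j) (a : A.A p.1) (b : (A'.A p.2)ᵐᵒᵖ) (x : M.E p.1)
    (y : N.E p.2) : bxact M N p (a ⊗ₜ[k] b) (x ⊗ₜ[k] y) = (a • x) ⊗ₜ[k] (b • y) := by
  unfold bxact
  rw [Algebra.TensorProduct.lift_tmul]
  rfl

instance (p : Ch i × Ch j) : Module (bsB A A' p) (BxE M N p) :=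
  Module.compHom (M.E p.1 ⊗[k] N.E p.2) (bxact M N p).toRingHom

theorem BxE_smul (p : Ch i × Ch j) (b : bsB A A' p) (x : BxE M N p) :
    b • x = bxact M N p b x := rfl

instance (p : Ch i × Ch j) : IsScalarTower k (bsB A A' p) (BxE M N p) :=
  ⟨fun c b x => by
    rw [BxE_smul, BxE_smul, map_smul]
    rfl⟩

/-- the restriction maps -/
def bxres {p q : Ch i × Ch j} (h : p ≤ q) : M.E p.1 ⊗[k] N.E p.2 →ₗ[k] M.E q.1 ⊗[k] N.E q.2 :=
  TensorProduct.map (M.res h.1) (N.res h.2)

private theorem Box_res_smul {p q : Ch i × Ch j} (h : p ≤ q) (b : bsB A A' p)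
    (x : M.E p.1 ⊗[k] N.E p.2) :
    bxres M N h (bxact M N p b x) = bxact M N q (bsr A A' h b) (bxres M N h x) := by
  induction b using TensorProduct.induction_on with
  | zero => simp only [map_zero, LinearMap.zero_apply]
  | add b c hb hc => simp only [map_add, LinearMap.add_apply, hb, hc]
  | tmul a b =>
    induction x using TensorProduct.induction_on with
    | zero => simp only [map_zero]
    | add x y hx hy => simp only [map_add, hx, hy]
    | tmul x y =>
      rw [bxact_tmul, bsr_tmul]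
      change M.res h.1 (a • x) ⊗ₜ[k] N.res h.2 (b • y) =
        bxact M N q (A.res h.1 a ⊗ₜ[k] MulOpposite.op (A'.res h.2 b.unop))
          (M.res h.1 x ⊗ₜ[k] N.res h.2 y)
      rw [bxact_tmul]
      exact congrArg₂ (fun u v => (u ⊗ₜ[k] v : M.E q.1 ⊗[k] N.E q.2)) (M.res_smul h.1 a x)
        (N.res_smul h.2 b y)

private theorem Box_res_id {p : Ch i × Ch j} (h : p ≤ p) (x : M.E p.1 ⊗[k] N.E p.2) :
    bxres M N h x = x := by
  induction x using TensorProduct.induction_on with
  | zero => simp only [map_zero]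
  | add x y hx hy => simp only [map_add, hx, hy]
  | tmul x y =>
    exact congrArg₂ (fun u v => (u ⊗ₜ[k] v : M.E p.1 ⊗[k] N.E p.2)) (M.res_id h.1 x)
      (N.res_id h.2 y)

private theorem Box_res_res {p q s : Ch i × Ch j} (h : p ≤ q) (h' : q ≤ s)
    (x : M.E p.1 ⊗[k] N.E p.2) :
    bxres M N h' (bxres M N h x) = bxres M N (h.trans h') x := by
  induction x using TensorProduct.induction_on with
  | zero => simp only [map_zero]
  | add x y hx hy => simp only [map_add, hx, hy]
  | tmul x y =>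
    exact congrArg₂ (fun u v => (u ⊗ₜ[k] v : M.E s.1 ⊗[k] N.E s.2)) (M.res_res h.1 h'.1 x)
      (N.res_res h.2 h'.2 y)

private theorem Box_main {p q : Ch i × Ch j} {t : bsB A A' p} (h : bsLoc A A' p q t) :
    LocP (bxres M N h.1) (bxact M N p t) (bxact M N q (bsr A A' h.1 t)) := by
  obtain ⟨c, c'⟩ := p
  obtain ⟨d, d'⟩ := q
  obtain ⟨hpq, ⟨l, g, hg, hd, hle, rfl⟩ | ⟨l, g, hg, hd, hle, rfl⟩⟩ := h
  · have e : c' = d' := le_antisymm hpq.2 hle
    subst e
    have hL : (ls A).Loc c d (algebraMap (RR k c.1) (A.A c) (tt k l hg)) :=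
      ⟨hpq.1, l, g, hg, hd, rfl⟩
    have h1 := (Box_loc M hL).rTensor (N.E c')
    have e1 : bxres M N hpq = LinearMap.rTensor (N.E c') (M.res ((ls A).le hL)) :=
      TensorProduct.ext' fun x y => by
        change M.res _ x ⊗ₜ[k] N.res _ y = M.res _ x ⊗ₜ[k] y
        rw [N.res_id]
    have e2 : bxact M N (c, c') (algebraMap (RR k c.1) (A.A c) (tt k l hg) ⊗ₜ[k] 1) =
        LinearMap.rTensor (N.E c') (Algebra.lsmul k k (M.E c)
          (algebraMap (RR k c.1) (A.A c) (tt k l hg)) : Module.End k (M.E c)) :=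
      TensorProduct.ext' fun x y => by
        refine (bxact_tmul M N (c, c') _ _ x y).trans ?_
        rw [one_smul]
        rfl
    have e3 : bxact M N (d, c') (bsr A A' hpq
        (algebraMap (RR k c.1) (A.A c) (tt k l hg) ⊗ₜ[k] 1)) =
        LinearMap.rTensor (N.E c') (Algebra.lsmul k k (M.E d) ((ls A).r ((ls A).le hL)
          (algebraMap (RR k c.1) (A.A c) (tt k l hg))) : Module.End k (M.E d)) :=
      TensorProduct.ext' fun x y => by
        refine (congrArg (fun z => bxact M N (d, c') z (x ⊗ₜ[k] y))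
          (bsr_tmul A A' hpq _ _)).trans ?_
        refine (bxact_tmul M N (d, c') _ _ x y).trans ?_
        rw [MulOpposite.unop_one, map_one, MulOpposite.op_one, one_smul]
        rfl
    rw [e2, e3]
    exact e1 ▸ h1
  · have e : c = d := le_antisymm hpq.1 hle
    subst e
    have hL : (rs A').Loc c' d' (MulOpposite.op (algebraMap (RR k c'.1) (A'.A c')
        (tt k l hg))) :=
      ⟨hpq.2, l, g, hg, hd, rfl⟩
    have h1 := (Box_loc N hL).lTensor (M.E c)
    have e1 : bxres M N hpq = LinearMap.lTensor (M.E c) (N.res ((rs A').le hL)) :=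
      TensorProduct.ext' fun x y => by
        change M.res _ x ⊗ₜ[k] N.res _ y = x ⊗ₜ[k] N.res _ y
        rw [M.res_id]
    have e2 : bxact M N (c, c') (1 ⊗ₜ[k] MulOpposite.op (algebraMap (RR k c'.1) (A'.A c')
        (tt k l hg))) =
        LinearMap.lTensor (M.E c) (Algebra.lsmul k k (N.E c')
          (MulOpposite.op (algebraMap (RR k c'.1) (A'.A c') (tt k l hg))) :
            Module.End k (N.E c')) :=
      TensorProduct.ext' fun x y => by
        refine (bxact_tmul M N (c, c') _ _ x y).trans ?_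
        rw [one_smul]
        rfl
    have e3 : bxact M N (c, d') (bsr A A' hpq
        (1 ⊗ₜ[k] MulOpposite.op (algebraMap (RR k c'.1) (A'.A c') (tt k l hg)))) =
        LinearMap.lTensor (M.E c) (Algebra.lsmul k k (N.E d') ((rs A').r ((rs A').le hL)
          (MulOpposite.op (algebraMap (RR k c'.1) (A'.A c') (tt k l hg)))) :
            Module.End k (N.E d')) :=
      TensorProduct.ext' fun x y => by
        refine (congrArg (fun z => bxact M N (c, d') z (x ⊗ₜ[k] y))
          (bsr_tmul A A' hpq _ _)).trans ?_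
        refine (bxact_tmul M N (c, d') _ _ x y).trans ?_
        rw [map_one, one_smul]
        rfl
    rw [e2, e3]
    exact e1 ▸ h1

private theorem Box_smul_pow {p : Ch i × Ch j} (b : bsB A A' p) (n : ℕ) (x : BxE M N p) :
    b ^ n • x = (bxact M N p b ^ n) x := by
  rw [BxE_smul, map_pow]

/-- THE EXTERNAL TENSOR PRODUCT `M_c ⊗_k N_{c'}`. The localisation properties: `LocS.rTensor` and
`LocS.lTensor` (one of the two charts does not change). -/
def box : BS A A' where
  E := BxE M N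
  mod := fun p => inferInstanceAs (Module (bsB A A' p) (BxE M N p))
  tow := fun p => inferInstanceAs (IsScalarTower k (bsB A A' p) (BxE M N p))
  res := fun h => bxres M N h
  res_smul := fun {p q} h b x => by
    exact Box_res_smul M N h b x
  res_id := fun {p} h x => by
    exact Box_res_id M N h x
  res_res := fun {p q s} h h' x => by
    exact Box_res_res M N h h' x
  surj := fun {p q t} h y => by
    obtain ⟨n, x, hx⟩ := (Box_main M N h).surj y
    exact ⟨n, x, hx.trans (Box_smul_pow M N (bsr A A' h.1 t) n y).symm⟩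
  inj := fun {p q t} h x hx => by
    obtain ⟨n, hn⟩ := (Box_main M N h).inj x hx
    exact ⟨n, (Box_smul_pow M N t n x).trans hn⟩

theorem box_res {p q : Ch i × Ch j} (h : p ≤ q) (x : M.E p.1) (y : N.E p.2) :
    (box M N).res h (x ⊗ₜ[k] y : M.E p.1 ⊗[k] N.E p.2) =
      (M.res h.1 x ⊗ₜ[k] N.res h.2 y : M.E q.1 ⊗[k] N.E q.2) := rfl

theorem box_lo (p : Ch i × Ch j) (a : A.A p.1) (x : M.E p.1) (y : N.E p.2) :
    lo A A' p a • (show (box M N).E p from (x ⊗ₜ[k] y : M.E p.1 ⊗[k] N.E p.2)) =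
      ((a • x) ⊗ₜ[k] y : M.E p.1 ⊗[k] N.E p.2) := by
  refine (bxact_tmul M N p a 1 x y).trans ?_
  rw [one_smul]

theorem box_ro (p : Ch i × Ch j) (b : (A'.A p.2)ᵐᵒᵖ) (x : M.E p.1) (y : N.E p.2) :
    ro A A' p b • (show (box M N).E p from (x ⊗ₜ[k] y : M.E p.1 ⊗[k] N.E p.2)) =
      (x ⊗ₜ[k] (b • y) : M.E p.1 ⊗[k] N.E p.2) := by
  refine (bxact_tmul M N p 1 b x y).trans ?_
  rw [one_smul]

variable {M N}

theorem box_coh (hM : M.Coh) (hN : N.Coh) : (box M N).Coh := by
  intro p
  obtain ⟨s, hs, hs'⟩ := Submodule.fg_def.1 (hM p.1).fg_top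
  obtain ⟨t, ht, ht'⟩ := Submodule.fg_def.1 (hN p.2).fg_top
  refine ⟨Submodule.fg_def.2 ⟨Set.image2
    (fun x y => (show (box M N).E p from (x ⊗ₜ[k] y : M.E p.1 ⊗[k] N.E p.2))) s t,
    hs.image2 _ ht, ?_⟩⟩
  rw [Submodule.eq_top_iff']
  have key : ∀ (x : M.E p.1) (y : N.E p.2),
      (show (box M N).E p from (x ⊗ₜ[k] y : M.E p.1 ⊗[k] N.E p.2)) ∈
        Submodule.span ((bs A A').B p) (Set.image2
          (fun x y => (show (box M N).E p from (x ⊗ₜ[k] y : M.E p.1 ⊗[k] N.E p.2))) s t) := by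
    intro x y
    have hx : x ∈ Submodule.span ((ls A).B p.1) s := by
      rw [hs']
      exact Submodule.mem_top
    have hy : y ∈ Submodule.span ((rs A').B p.2) t := by
      rw [ht']
      exact Submodule.mem_top
    induction hx using Submodule.span_induction with
    | mem x hx =>
      induction hy using Submodule.span_induction with
      | mem y hy => exact Submodule.subset_span ⟨x, hx, y, hy, rfl⟩
      | zero =>
        rw [TensorProduct.tmul_zero]
        exact zero_mem _
      | add y z _ _ hy hz =>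
        rw [TensorProduct.tmul_add]
        exact add_mem hy hz
      | smul b y _ hy =>
        have h1 := Submodule.smul_mem _ (ro A A' p b) hy
        rwa [box_ro] at h1
    | zero =>
      rw [TensorProduct.zero_tmul]
      exact zero_mem _
    | add x z _ _ hx hz =>
      rw [TensorProduct.add_tmul]
      exact add_mem hx hz
    | smul a x _ hx =>
      have h1 := Submodule.smul_mem _ (lo A A' p a) hx
      rwa [box_lo] at h1
  intro z
  refine TensorProduct.induction_on (motive := fun z : M.E p.1 ⊗[k] N.E p.2 =>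
    (show (box M N).E p from z) ∈ Submodule.span ((bs A A').B p) (Set.image2
      (fun x y => (show (box M N).E p from (x ⊗ₜ[k] y : M.E p.1 ⊗[k] N.E p.2))) s t))
    (show M.E p.1 ⊗[k] N.E p.2 from z) ?_ ?_ ?_
  · exact zero_mem _
  · exact key
  · exact fun x y hx hy => add_mem hx hy

end

end Pool.Agent.MP_6e5bed_ag_GP
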