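import Pool.Agent.Lib.MP_6e5bed_ag_GP.Box

set_option autoImplicit false
set_option linter.unusedVariables false

/-!
# MP_6e5bed_ag, THEOREM G+: twists of one-sided sheaves
-/

noncomputable section

namespace Pool.Agent.MP_6e5bed_ag_GP

open Pool.Agent.MP_6e5bed_ag_GG
open scoped TensorProduct

universe u

variable {k : Type u} [Field k] {i j : Type} [Fintype i] [Fintype j]

/-! ### Twists of one-sided sheaves -/

private theorem boxT_smul {S : Site k} (M : Sh S) {c d : S.P} (h : c ≤ d) (u : S.B d)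
    (hu : ∀ b, u * b = b * u) (b : S.B c) (x : M.E c) :
    u • M.res h (b • x) = S.r h b • u • M.res h x := by
  rw [M.res_smul, ← mul_smul, hu, mul_smul]

private theorem boxT_id {S : Site k} (M : Sh S) {c : S.P} (h : c ≤ c) (u : S.B c)
    (hu : u = 1) (x : M.E c) : u • M.res h x = x := by
  rw [M.res_id, hu, one_smul]

private theorem boxT_res {S : Site k} (M : Sh S) {c d e : S.P} (h : c ≤ d) (h' : d ≤ e)
    (u : S.B d) (v w : S.B e) (huv : v * S.r h' u = w) (x : M.E c) :
    v • M.res h' (u • M.res h x) = w • M.res (h.trans h') x := by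
  rw [M.res_smul, ← mul_smul, huv, M.res_res]

private theorem boxT_surj {S : Site k} (M : Sh S) {c d : S.P} {t : S.B c} (h : S.Loc c d t)
    (u v : S.B d) (hu : ∀ b, u * b = b * u) (huv : u * v = 1) (y : M.E d) :
    ∃ (n : ℕ) (x : M.E c), u • M.res (S.le h) x = S.r (S.le h) t ^ n • y := by
  obtain ⟨n, x, hx⟩ := M.surj h (v • y)
  refine ⟨n, x, ?_⟩
  rw [hx, ← mul_smul, ← mul_smul, hu, mul_assoc, huv, mul_one]

private theorem boxT_inj {S : Site k} (M : Sh S) {c d : S.P} {t : S.B c} (h : S.Loc c d t)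
    (u v : S.B d) (huv : v * u = 1) (x : M.E c) (hx : u • M.res (S.le h) x = 0) :
    ∃ n : ℕ, t ^ n • x = 0 := by
  refine M.inj h x ?_
  have h2 := congrArg (fun z => v • z) hx
  simp only [smul_zero] at h2
  rwa [← mul_smul, huv, one_smul] at h2

/-- the factor of the left twist -/
private def boxT_l (A : CA k i) (p : ℕ) {c d : Ch i} (h : c ≤ d) : A.A d :=
  algebraMap (RR k d.1) (A.A d) (tu h ^ p)

private def boxT_l' (A : CA k i) (p : ℕ) {c d : Ch i} (h : c ≤ d) : A.A d :=
  algebraMap (RR k d.1) (A.A d) (tv h ^ p)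

private theorem boxT_l_comm (A : CA k i) (p : ℕ) {c d : Ch i} (h : c ≤ d) (b : A.A d) :
    boxT_l A p h * b = b * boxT_l A p h :=
  Algebra.commutes (A := A.A d) _ b

private theorem boxT_l_mul (A : CA k i) (p : ℕ) {c d : Ch i} (h : c ≤ d) :
    boxT_l A p h * boxT_l' A p h = 1 := by
  change algebraMap (RR k d.1) (A.A d) (tu h ^ p) * algebraMap (RR k d.1) (A.A d) (tv h ^ p) = 1
  rw [← map_mul, ← mul_pow, tu_tv, one_pow, map_one]

private theorem boxT_l_one (A : CA k i) (p : ℕ) {c : Ch i} (h : c ≤ c) :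
    boxT_l A p h = 1 := by
  change algebraMap (RR k c.1) (A.A c) (tu h ^ p) = 1
  rw [tu_self, one_pow, map_one]

private theorem boxT_l_trans (A : CA k i) (p : ℕ) {c d e : Ch i} (h : c ≤ d) (h' : d ≤ e) :
    boxT_l A p h' * A.res h' (boxT_l A p h) = boxT_l A p (h.trans h') := by
  change algebraMap (RR k e.1) (A.A e) (tu h' ^ p) *
    A.res h' (algebraMap (RR k d.1) (A.A d) (tu h ^ p)) =
    algebraMap (RR k e.1) (A.A e) (tu (h.trans h') ^ p)
  rw [A.res_R, ← map_mul, map_pow, ← mul_pow, tu_tu]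

/-- the factor of the right twist -/
private def boxT_r (A : CA k j) (p : ℕ) {c d : Ch j} (h : c ≤ d) : (A.A d)ᵐᵒᵖ :=
  MulOpposite.op (algebraMap (RR k d.1) (A.A d) (tv h ^ p))

private def boxT_r' (A : CA k j) (p : ℕ) {c d : Ch j} (h : c ≤ d) : (A.A d)ᵐᵒᵖ :=
  MulOpposite.op (algebraMap (RR k d.1) (A.A d) (tu h ^ p))

private theorem boxT_r_comm (A : CA k j) (p : ℕ) {c d : Ch j} (h : c ≤ d) (b : (A.A d)ᵐᵒᵖ) :
    boxT_r A p h * b = b * boxT_r A p h := by
  refine MulOpposite.unop_injective ?_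
  exact (Algebra.commutes (A := A.A d) (tv h ^ p) (MulOpposite.unop b)).symm

private theorem boxT_r_mul (A : CA k j) (p : ℕ) {c d : Ch j} (h : c ≤ d) :
    boxT_r A p h * boxT_r' A p h = 1 := by
  refine MulOpposite.unop_injective ?_
  change algebraMap (RR k d.1) (A.A d) (tu h ^ p) * algebraMap (RR k d.1) (A.A d) (tv h ^ p) = 1
  rw [← map_mul, ← mul_pow, tu_tv, one_pow, map_one]

private theorem boxT_r_one (A : CA k j) (p : ℕ) {c : Ch j} (h : c ≤ c) :
    boxT_r A p h = 1 := by
  refine MulOpposite.unop_injective ?_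
  change algebraMap (RR k c.1) (A.A c) (tv h ^ p) = 1
  rw [tv_self, one_pow, map_one]

private theorem boxT_r_trans (A : CA k j) (p : ℕ) {c d e : Ch j} (h : c ≤ d) (h' : d ≤ e) :
    boxT_r A p h' * AlgHom.op (A.res h') (boxT_r A p h) = boxT_r A p (h.trans h') := by
  refine MulOpposite.unop_injective ?_
  change A.res h' (algebraMap (RR k d.1) (A.A d) (tv h ^ p)) *
    algebraMap (RR k e.1) (A.A e) (tv h' ^ p) =
    algebraMap (RR k e.1) (A.A e) (tv (h.trans h') ^ p)
  rw [A.res_R, ← map_mul, map_pow, ← mul_pow, tv_tv]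

section

variable {A : CA k i} {A' : CA k j}

/-- The twist `M(-p)` of a left sheaf. -/
def twl (p : ℕ) (M : Sh (ls A)) : Sh (ls A) where
  E := M.E
  grp := M.grp
  modk := M.modk
  mod := M.mod
  tow := M.tow
  res := fun {c d} h =>
    { toFun := fun x => algebraMap (RR k d.1) (A.A d) (tu h ^ p) • M.res h x
      map_add' := fun x y => by rw [map_add, smul_add]
      map_smul' := fun a x => by
        rw [map_smul, RingHom.id_apply, smul_algebra_smul_comm] }
  res_smul := fun {c d} h b x => by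
    exact boxT_smul M h (boxT_l A p h) (boxT_l_comm A p h) b x
  res_id := fun {c} h x => by
    exact boxT_id M h (boxT_l A p h) (boxT_l_one A p h) x
  res_res := fun {c d e} h h' x => by
    exact boxT_res M h h' (boxT_l A p h) (boxT_l A p h') _ (boxT_l_trans A p h h') x
  surj := fun {c d t} h y => by
    exact boxT_surj M h (boxT_l A p h.1) (boxT_l' A p h.1) (boxT_l_comm A p h.1)
      (boxT_l_mul A p h.1) y
  inj := fun {c d t} h x hx => by
    exact boxT_inj M h (boxT_l A p h.1) (boxT_l' A p h.1)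
      ((boxT_l_comm A p h.1 _).symm.trans (boxT_l_mul A p h.1)) x hx

/-- The twist `N(q)` of a right sheaf. -/
def twr (q : ℕ) (N : Sh (rs A')) : Sh (rs A') where
  E := N.E
  grp := N.grp
  modk := N.modk
  mod := N.mod
  tow := N.tow
  res := fun {c d} h =>
    { toFun := fun x => MulOpposite.op (algebraMap (RR k d.1) (A'.A d) (tv h ^ q)) • N.res h x
      map_add' := fun x y => by rw [map_add, smul_add]
      map_smul' := fun a x => by
        rw [map_smul, RingHom.id_apply, smul_algebra_smul_comm] }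
  res_smul := fun {c d} h b x => by
    exact boxT_smul N h (boxT_r A' q h) (boxT_r_comm A' q h) b x
  res_id := fun {c} h x => by
    exact boxT_id N h (boxT_r A' q h) (boxT_r_one A' q h) x
  res_res := fun {c d e} h h' x => by
    exact boxT_res N h h' (boxT_r A' q h) (boxT_r A' q h') _ (boxT_r_trans A' q h h') x
  surj := fun {c d t} h y => by
    exact boxT_surj N h (boxT_r A' q h.1) (boxT_r' A' q h.1) (boxT_r_comm A' q h.1)
      (boxT_r_mul A' q h.1) y
  inj := fun {c d t} h x hx => by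
    exact boxT_inj N h (boxT_r A' q h.1) (boxT_r' A' q h.1)
      ((boxT_r_comm A' q h.1 _).symm.trans (boxT_r_mul A' q h.1)) x hx

theorem twl_coh (p : ℕ) {M : Sh (ls A)} (h : M.Coh) : (twl p M).Coh := h

theorem twr_coh (q : ℕ) {N : Sh (rs A')} (h : N.Coh) : (twr q N).Coh := h

private theorem boxT_lin (p q : ℕ) (M : Sh (ls A)) (N : Sh (rs A')) {s t : Ch i × Ch j}
    (h : s ≤ t) : bxres (twl p M) (twr q N) h =
      (bxact M N t (twu A A' p q h)) ∘ₗ (bxres M N h) := by
  refine TensorProduct.ext' fun m n => ?_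
  have h1 : twu A A' p q h = (algebraMap (RR k t.1.1) (A.A t.1) (tu h.1 ^ p) ⊗ₜ[k]
      MulOpposite.op (algebraMap (RR k t.2.1) (A'.A t.2) (tv h.2 ^ q)) : bsB A A' t) :=
    lo_mul_ro A A' t _ _
  rw [h1]
  exact (bxact_tmul M N t _ _ (M.res h.1 m) (N.res h.2 n)).symm

private theorem boxT_nat (p q : ℕ) (M : Sh (ls A)) (N : Sh (rs A')) {s t : Ch i × Ch j}
    (h : s ≤ t) (x : BxE M N s) : bxres (twl p M) (twr q N) h x =
      bxact M N t (twu A A' p q h) (bxres M N h x) :=
  LinearMap.congr_fun (boxT_lin p q M N h) x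

/-- the twist of an external tensor product: the identity on the sections -/
def twBox (p q : ℕ) (M : Sh (ls A)) (N : Sh (rs A')) :
    ShH (tw p q (box M N)) (box (twl p M) (twr q N)) where
  f := fun s =>
    { toFun := fun x => x
      map_add' := fun _ _ => rfl
      map_smul' := fun _ _ => rfl }
  nat := fun {s t} h x => by
    exact boxT_nat p q M N h x

theorem twBox_bij (p q : ℕ) (M : Sh (ls A)) (N : Sh (rs A')) : (twBox p q M N).Bij :=
  fun _ => Function.bijective_id

end

end Pool.Agent.MP_6e5bed_ag_GP
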