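import Pool.Agent.Lib.MP_6e5bed_ag_GP.EfC

set_option autoImplicit false
set_option linter.unusedVariables false
set_option linter.unusedSectionVars false

/-!
# MP_6e5bed_ag, THEOREM G+: the Beilinson form of the Koszul complex

For two families `a, b : J → R` the complex `ker (dop b)` with the differential `dop a`; if
`a_γ = b_γ = 1` it is the Koszul complex of the `b_l - a_l`, `l ≠ γ`.
-/

noncomputable section

namespace Pool.Agent.MP_6e5bed_ag_GP

universe u v

variable {J : Type} [Fintype J] [DecidableEq J] (o : J → ℕ) {R : Type u} [CommRing R]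
  {M : Type v} [AddCommGroup M] [Module R M]

/-- the cycles -/
def Zk (a b : J → R) (r : ℕ) : Submodule R (Finset J → M) :=
  Cn J R M r ⊓ LinearMap.ker (dln o b) ⊓ LinearMap.ker (dln o a)

/-- the boundaries -/
def Bk (a b : J → R) (r : ℕ) : Submodule R (Finset J → M) :=
  (Cn J R M (r + 1) ⊓ LinearMap.ker (dln o b)).map (dln o a)

variable (M) in
/-- the homology -/
abbrev Hk (a b : J → R) (r : ℕ) : Type v :=
  Zk (M := M) o a b r ⧸ (Bk (M := M) o a b r).comap (Zk (M := M) o a b r).subtype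

section priv

variable {n : ℕ} (e : J ≃ Fin (n + 1))

/-- the order of `J` -/
private abbrev Br_o : J → ℕ := fun l => ((e l : Fin (n + 1)) : ℕ)

private theorem Br_o_inj : Function.Injective (Br_o e) := fun _ _ h => e.injective (Fin.ext h)

private def Br_i : Fin n ↪ J :=
  ⟨fun a => e.symm a.castSucc, fun _ _ h => Fin.castSucc_injective n (e.symm.injective h)⟩

/-- the largest element -/
private def Br_g : J := e.symm (Fin.last n)

private theorem Br_ne (a : Fin n) : Br_i e a ≠ Br_g e := fun h =>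
  (Fin.castSucc_lt_last a).ne (e.symm.injective h)

private theorem Br_ex (x : J) : (∃ a, x = Br_i e a) ∨ x = Br_g e := by
  rcases Fin.eq_castSucc_or_eq_last (e x) with ⟨a, h⟩ | h
  · left
    exact ⟨a, (e.symm_apply_apply x).symm.trans (congrArg e.symm h)⟩
  · right
    exact (e.symm_apply_apply x).symm.trans (congrArg e.symm h)

private def Br_up (s : Finset (Fin n)) : Finset J := s.map (Br_i e)

private def Br_dn (s : Finset J) : Finset (Fin n) := Finset.univ.filter fun a => Br_i e a ∈ s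

private theorem Br_last (s : Finset (Fin n)) : Br_g e ∉ Br_up e s := by
  unfold Br_up
  rw [Finset.mem_map]
  rintro ⟨a, -, h⟩
  exact Br_ne e a h

private theorem Br_mem (s : Finset (Fin n)) (a : Fin n) : Br_i e a ∈ Br_up e s ↔ a ∈ s := by
  unfold Br_up
  exact Finset.mem_map' _

private theorem Br_dn_up (s : Finset (Fin n)) : Br_dn e (Br_up e s) = s := by
  ext a
  unfold Br_dn
  rw [Finset.mem_filter, Br_mem]
  simp

private theorem Br_dn_in (s : Finset (Fin n)) : Br_dn e (insert (Br_g e) (Br_up e s)) = s := by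
  ext a
  unfold Br_dn
  rw [Finset.mem_filter, Finset.mem_insert, Br_mem]
  simp [Br_ne e a]

private theorem Br_cases (s : Finset J) :
    (Br_g e ∉ s ∧ s = Br_up e (Br_dn e s)) ∨
      (Br_g e ∈ s ∧ s = insert (Br_g e) (Br_up e (Br_dn e s))) := by
  have h1 : ∀ a : Fin n, Br_i e a ∈ Br_up e (Br_dn e s) ↔ Br_i e a ∈ s := by
    intro a
    rw [Br_mem]
    unfold Br_dn
    rw [Finset.mem_filter]
    simp
  by_cases h : Br_g e ∈ s
  · right
    refine ⟨h, ?_⟩
    ext x
    rcases Br_ex e x with ⟨a, rfl⟩ | rfl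
    · rw [Finset.mem_insert, h1]
      simp [Br_ne e a]
    · simp [h]
  · left
    refine ⟨h, ?_⟩
    ext x
    rcases Br_ex e x with ⟨a, rfl⟩ | rfl
    · rw [h1]
    · simp [h, Br_last]

private theorem Br_card (s : Finset (Fin n)) : (Br_up e s).card = s.card := Finset.card_map _

private theorem Br_card' (s : Finset (Fin n)) :
    (insert (Br_g e) (Br_up e s)).card = s.card + 1 := by
  rw [Finset.card_insert_of_notMem (Br_last e s), Br_card]

private theorem Br_ins (l : Fin n) (s : Finset (Fin n)) :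
    insert (Br_i e l) (Br_up e s) = Br_up e (insert l s) := by
  unfold Br_up
  rw [Finset.map_insert]

private theorem Br_compl (s : Finset (Fin n)) :
    Finset.univ \ Br_up e s = insert (Br_g e) (Br_up e (Finset.univ \ s)) := by
  ext x
  rcases Br_ex e x with ⟨a, rfl⟩ | rfl
  · rw [Finset.mem_insert, Br_mem, Finset.mem_sdiff, Finset.mem_sdiff, Br_mem]
    simp [Br_ne e a]
  · simp [Br_last]

private theorem Br_compl' (s : Finset (Fin n)) :
    Finset.univ \ insert (Br_g e) (Br_up e s) = Br_up e (Finset.univ \ s) := by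
  ext x
  rcases Br_ex e x with ⟨a, rfl⟩ | rfl
  · rw [Finset.mem_sdiff, Finset.mem_insert, Br_mem, Br_mem, Finset.mem_sdiff]
    simp [Br_ne e a]
  · simp [Br_last]

private theorem Br_sgn (l : Fin n) (s : Finset (Fin n)) :
    sgn (Br_o e) (Br_i e l) (Br_up e s) = sgn (oF n) l s := by
  unfold sgn Br_up
  rw [Finset.filter_map, Finset.card_map]
  congr 2
  refine Finset.filter_congr fun a _ => ?_
  show ((e (e.symm a.castSucc) : Fin (n + 1)) : ℕ) < ((e (e.symm l.castSucc) : Fin (n + 1)) : ℕ) ↔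
    (a : ℕ) < (l : ℕ)
  rw [Equiv.apply_symm_apply, Equiv.apply_symm_apply]
  exact Iff.rfl

private theorem Br_sgn' (l : Fin n) (s : Finset (Fin n)) :
    sgn (Br_o e) (Br_i e l) (insert (Br_g e) (Br_up e s)) = sgn (oF n) l s := by
  have h1 : ¬ Br_o e (Br_g e) < Br_o e (Br_i e l) := by
    have h1 := l.2
    show ¬ ((e (e.symm (Fin.last n)) : Fin (n + 1)) : ℕ) <
      ((e (e.symm l.castSucc) : Fin (n + 1)) : ℕ)
    rw [Equiv.apply_symm_apply, Equiv.apply_symm_apply, Fin.val_last, Fin.val_castSucc]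
    omega
  refine Eq.trans ?_ (Br_sgn e l s)
  unfold sgn
  rw [Finset.filter_insert, if_neg h1]

private theorem Br_sgn_last (s : Finset (Fin n)) :
    sgn (Br_o e) (Br_g e) (Br_up e s) = (-1) ^ s.card := by
  unfold sgn
  rw [Finset.filter_true_of_mem, Br_card]
  intro x hx
  rcases Br_ex e x with ⟨a, rfl⟩ | rfl
  · have h1 := a.2
    show ((e (e.symm a.castSucc) : Fin (n + 1)) : ℕ) <
      ((e (e.symm (Fin.last n)) : Fin (n + 1)) : ℕ)
    rw [Equiv.apply_symm_apply, Equiv.apply_symm_apply, Fin.val_last, Fin.val_castSucc]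
    exact h1
  · exact absurd hx (Br_last e s)

variable (R M) in
private def Br_p0 : (Finset J → M) →ₗ[R] (Finset (Fin n) → M) :=
  LinearMap.funLeft R M (Br_up e)

variable (R M) in
private def Br_p1 : (Finset J → M) →ₗ[R] (Finset (Fin n) → M) :=
  LinearMap.funLeft R M fun s => insert (Br_g e) (Br_up e s)

/-- the sign operator -/
private def Br_s (α : Finset (Fin n) → M) : Finset (Fin n) → M :=
  fun s => ((-1 : ℤ) ^ s.card) • α s

private theorem Br_ss (α : Finset (Fin n) → M) : Br_s (Br_s α) = α := by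
  funext s
  show ((-1 : ℤ) ^ s.card) • ((-1 : ℤ) ^ s.card) • α s = α s
  rw [smul_smul, ← mul_pow]
  norm_num

private theorem Br_s0 : Br_s (0 : Finset (Fin n) → M) = 0 := by
  funext s
  exact smul_zero _

private theorem Br_sneg (α : Finset (Fin n) → M) : Br_s (-α) = -Br_s α := by
  funext s
  exact smul_neg _ _

/-- the sign operator anticommutes with the contractions -/
private theorem Br_ds (T : Fin n → R) (α : Finset (Fin n) → M) :
    dop (oF n) T (Br_s α) = -Br_s (dop (oF n) T α) := by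
  funext s
  show ∑ l ∈ Finset.univ \ s, sgn (oF n) l s • T l • (((-1 : ℤ) ^ (insert l s).card) •
      α (insert l s)) =
    -(((-1 : ℤ) ^ s.card) • ∑ l ∈ Finset.univ \ s, sgn (oF n) l s • T l • α (insert l s))
  rw [Finset.smul_sum, ← Finset.sum_neg_distrib]
  refine Finset.sum_congr rfl fun l hl => ?_
  have hl' : l ∉ s := (Finset.mem_sdiff.1 hl).2
  rw [Finset.card_insert_of_notMem hl', pow_succ, mul_neg_one, neg_smul, smul_neg, smul_neg,
    smul_comm (T l) ((-1 : ℤ) ^ s.card), smul_comm (sgn (oF n) l s) ((-1 : ℤ) ^ s.card)]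

/-- the extension -/
private def Br_q (β α : Finset (Fin n) → M) : Finset J → M := fun s =>
  if Br_g e ∈ s then β (Br_dn e s) else α (Br_dn e s)

private theorem Br_p0q (β α : Finset (Fin n) → M) : Br_p0 R M e (Br_q e β α) = α := by
  funext s
  show (if Br_g e ∈ Br_up e s then _ else α (Br_dn e (Br_up e s))) = α s
  rw [if_neg (Br_last e s), Br_dn_up]

private theorem Br_p1q (β α : Finset (Fin n) → M) : Br_p1 R M e (Br_q e β α) = β := by
  funext s
  show (if Br_g e ∈ insert (Br_g e) (Br_up e s) then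
    β (Br_dn e (insert (Br_g e) (Br_up e s))) else _) = β s
  rw [if_pos (Finset.mem_insert_self _ _), Br_dn_in]

variable (R) in
private theorem Br_ext {ω ω' : Finset J → M} (h0 : Br_p0 R M e ω = Br_p0 R M e ω')
    (h1 : Br_p1 R M e ω = Br_p1 R M e ω') : ω = ω' := by
  funext s
  rcases Br_cases e s with ⟨-, h⟩ | ⟨-, h⟩
  · rw [h]
    exact congrFun h0 (Br_dn e s)
  · rw [h]
    exact congrFun h1 (Br_dn e s)

variable (T : J → R)

private theorem Br_p1d (ω : Finset J → M) :
    Br_p1 R M e (dop (Br_o e) T ω) =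
      dop (oF n) (fun a => T (Br_i e a)) (Br_p1 R M e ω) := by
  funext s
  show ∑ l ∈ Finset.univ \ insert (Br_g e) (Br_up e s),
      sgn (Br_o e) l (insert (Br_g e) (Br_up e s)) • T l •
        ω (insert l (insert (Br_g e) (Br_up e s))) =
    ∑ l ∈ Finset.univ \ s, sgn (oF n) l s • T (Br_i e l) •
      ω (insert (Br_g e) (Br_up e (insert l s)))
  rw [Br_compl']
  conv_lhs => rw [Br_up]
  rw [Finset.sum_map]
  refine Finset.sum_congr rfl fun l _ => ?_
  rw [Br_sgn', Finset.insert_comm, Br_ins]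

private theorem Br_p0d (hT : T (Br_g e) = 1) (ω : Finset J → M) :
    Br_p0 R M e (dop (Br_o e) T ω) =
      Br_s (Br_p1 R M e ω) + dop (oF n) (fun a => T (Br_i e a)) (Br_p0 R M e ω) := by
  funext s
  show ∑ l ∈ Finset.univ \ Br_up e s, sgn (Br_o e) l (Br_up e s) • T l •
        ω (insert l (Br_up e s)) =
    ((-1 : ℤ) ^ s.card) • ω (insert (Br_g e) (Br_up e s)) +
      ∑ l ∈ Finset.univ \ s, sgn (oF n) l s • T (Br_i e l) • ω (Br_up e (insert l s))
  rw [Br_compl, Finset.sum_insert (Br_last e _), Br_sgn_last, hT, one_smul]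
  congr 1
  conv_lhs => rw [Br_up]
  rw [Finset.sum_map]
  refine Finset.sum_congr rfl fun l _ => ?_
  rw [Br_sgn, Br_ins]

private theorem Br_crd0 {r : ℕ} {ω : Finset J → M} (h : Crd r ω) :
    Crd r (Br_p0 R M e ω) := fun s hs => h (Br_up e s) (by rw [Br_card]; exact hs)

variable (a b : J → R)

/-- the family of the differences -/
private def Br_c : Fin n → R := fun c => b (Br_i e c) - a (Br_i e c)

private theorem Br_dc (α : Finset (Fin n) → M) :
    dop (oF n) (Br_c e a b) α =
      dop (oF n) (fun c => b (Br_i e c)) α - dop (oF n) (fun c => a (Br_i e c)) α := by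
  funext s
  rw [Pi.sub_apply]
  show ∑ l ∈ Finset.univ \ s, sgn (oF n) l s • (b (Br_i e l) - a (Br_i e l)) •
      α (insert l s) =
    ∑ l ∈ Finset.univ \ s, sgn (oF n) l s • b (Br_i e l) • α (insert l s) -
      ∑ l ∈ Finset.univ \ s, sgn (oF n) l s • a (Br_i e l) • α (insert l s)
  rw [← Finset.sum_sub_distrib]
  refine Finset.sum_congr rfl fun l _ => ?_
  rw [sub_smul, smul_sub]

variable {a b}

/-- the upper part of an element of the kernel of `dop b` -/
private theorem Br_p1k (hb : b (Br_g e) = 1) {ω : Finset J → M}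
    (h : dop (Br_o e) b ω = 0) : Br_p1 R M e ω =
      -Br_s (dop (oF n) (fun c => b (Br_i e c)) (Br_p0 R M e ω)) := by
  have h1 := Br_p0d e b hb ω
  rw [h, map_zero] at h1
  have h2 : Br_s (Br_p1 R M e ω) = -dop (oF n) (fun c => b (Br_i e c)) (Br_p0 R M e ω) :=
    eq_neg_of_add_eq_zero_left h1.symm
  have h3 := congrArg Br_s h2
  rw [Br_ss, Br_sneg] at h3
  exact h3

/-- elements of the kernel of `dop b` are determined by the lower part -/
private theorem Br_det (hb : b (Br_g e) = 1) {ω ω' : Finset J → M}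
    (h : dop (Br_o e) b ω = 0) (h' : dop (Br_o e) b ω' = 0)
    (h0 : Br_p0 R M e ω = Br_p0 R M e ω') : ω = ω' := by
  refine Br_ext R e h0 ?_
  rw [Br_p1k e hb h, Br_p1k e hb h', h0]

/-- the differential, lower part -/
private theorem Br_p0a (ha : a (Br_g e) = 1) (hb : b (Br_g e) = 1) {ω : Finset J → M}
    (h : dop (Br_o e) b ω = 0) : Br_p0 R M e (dop (Br_o e) a ω) =
      -dop (oF n) (Br_c e a b) (Br_p0 R M e ω) := by
  rw [Br_p0d e a ha, Br_p1k e hb h, Br_sneg, Br_ss, Br_dc]
  abel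

/-- the extension of `α` -/
private def Br_x (b : J → R) (α : Finset (Fin n) → M) : Finset J → M :=
  Br_q e (-Br_s (dop (oF n) (fun c => b (Br_i e c)) α)) α

private theorem Br_p0x (α : Finset (Fin n) → M) : Br_p0 R M e (Br_x e b α) = α :=
  Br_p0q (R := R) e _ α

private theorem Br_dx (hb : b (Br_g e) = 1) (α : Finset (Fin n) → M) :
    dop (Br_o e) b (Br_x e b α) = 0 := by
  refine Br_ext R e ?_ ?_
  · rw [Br_p0d e b hb, Br_p0x, map_zero, Br_x, Br_p1q, Br_sneg, Br_ss, neg_add_cancel]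
  · rw [Br_p1d, map_zero, Br_x, Br_p1q, ← Br_sneg, Br_ds]
    have h1 : dop (oF n) (fun c => b (Br_i e c))
        (-dop (oF n) (fun c => b (Br_i e c)) α) =
        -dop (oF n) (fun c => b (Br_i e c)) (dop (oF n) (fun c => b (Br_i e c)) α) :=
      map_neg (dln (oF n) (fun c => b (Br_i e c))) _
    rw [h1, dop_sq (oF n) (oF_inj n) _ (fun _ _ => mul_comm _ _), neg_zero, Br_s0, neg_zero]

private theorem Br_crdx {r : ℕ} {α : Finset (Fin n) → M} (h : Crd r α) :
    Crd r (Br_x e b α) := by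
  intro s hs
  rcases Br_cases e s with ⟨h1, h2⟩ | ⟨h1, h2⟩
  · show (if Br_g e ∈ s then _ else α (Br_dn e s)) = 0
    rw [if_neg h1]
    refine h _ ?_
    rw [h2, Br_card] at hs
    exact hs
  · show (if Br_g e ∈ s then
      (-Br_s (dop (oF n) (fun c => b (Br_i e c)) α)) (Br_dn e s) else _) = 0
    rw [if_pos h1]
    have h3 : dop (oF n) (fun c => b (Br_i e c)) α (Br_dn e s) = 0 := by
      rw [h2, Br_card'] at hs
      cases r with
      | zero => rw [dop_crd_zero (oF n) h]; rfl
      | succ r => exact h.dop (oF n) _ _ (by omega)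
    show -(((-1 : ℤ) ^ (Br_dn e s).card) •
      dop (oF n) (fun c => b (Br_i e c)) α (Br_dn e s)) = 0
    rw [h3, smul_zero, neg_zero]

/-- the differential of the extension -/
private theorem Br_ax (ha : a (Br_g e) = 1) (hb : b (Br_g e) = 1) (α : Finset (Fin n) → M) :
    dop (Br_o e) a (Br_x e b α) = Br_x e b (-dop (oF n) (Br_c e a b) α) := by
  refine Br_det (R := R) e hb ?_ (Br_dx e hb _) ?_
  · rw [dop_dop (Br_o e) (Br_o_inj e) b a (fun _ _ => mul_comm _ _), Br_dx e hb]
    have h1 : dop (Br_o e) a (0 : Finset J → M) = 0 := map_zero (dln (Br_o e) a)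
    rw [h1, neg_zero]
  · rw [Br_p0a e ha hb (Br_dx e hb α), Br_p0x, Br_p0x]

private def Br_f (ha : a (Br_g e) = 1) (hb : b (Br_g e) = 1) (r : ℕ) :
    Zk (M := M) (Br_o e) a b r →ₗ[R] Zn (M := M) (oF n) (Br_c e a b) r :=
  (Br_p0 R M e).restrict fun ω hω => ⟨Br_crd0 e hω.1.1, by
    have h1 : dop (Br_o e) b ω = 0 := hω.1.2
    have h2 : dop (Br_o e) a ω = 0 := hω.2
    show dop (oF n) (Br_c e a b) (Br_p0 R M e ω) = 0
    rw [← neg_eq_zero, ← Br_p0a e ha hb h1, h2, map_zero]⟩

private theorem Br_f_bij (ha : a (Br_g e) = 1) (hb : b (Br_g e) = 1) (r : ℕ) :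
    Function.Bijective (Br_f (M := M) e ha hb r) := by
  constructor
  · intro z z' h
    apply Subtype.ext
    exact Br_det (R := R) e hb z.2.1.2 z'.2.1.2 (congrArg Subtype.val h)
  · intro z
    have h1 : dop (oF n) (Br_c e a b) z.1 = 0 := z.2.2
    have h2 : dop (Br_o e) a (Br_x e b z.1) = 0 := by
      rw [Br_ax e ha hb, h1, neg_zero]
      refine Br_det (R := R) e hb (Br_dx e hb _) (map_zero (dln (Br_o e) b)) ?_
      rw [Br_p0x, map_zero]
    exact ⟨⟨Br_x e b z.1, ⟨Br_crdx e z.2.1, Br_dx e hb z.1⟩, h2⟩,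
      Subtype.ext (Br_p0x (R := R) e z.1)⟩

private def Br_e (ha : a (Br_g e) = 1) (hb : b (Br_g e) = 1) (r : ℕ) :
    Zk (M := M) (Br_o e) a b r ≃ₗ[R] Zn (M := M) (oF n) (Br_c e a b) r :=
  LinearEquiv.ofBijective (Br_f e ha hb r) (Br_f_bij e ha hb r)

private theorem Br_map (ha : a (Br_g e) = 1) (hb : b (Br_g e) = 1) (r : ℕ) :
    ((Bk (M := M) (Br_o e) a b r).comap (Zk (M := M) (Br_o e) a b r).subtype).map
      ((Br_e (M := M) e ha hb r : Zk (M := M) (Br_o e) a b r ≃ₗ[R]
        Zn (M := M) (oF n) (Br_c e a b) r) : Zk (M := M) (Br_o e) a b r →ₗ[R]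
          Zn (M := M) (oF n) (Br_c e a b) r) =
    (Bn (M := M) (oF n) (Br_c e a b) r).comap
      (Zn (M := M) (oF n) (Br_c e a b) r).subtype := by
  ext z
  constructor
  · rintro ⟨w, ⟨ω, ⟨h1, h2⟩, h3⟩, h4⟩
    have h2' : dop (Br_o e) b ω = 0 := h2
    have h3' : dop (Br_o e) a ω = w.1 := h3
    have h4' : Br_p0 R M e w.1 = z.1 := congrArg Subtype.val h4
    refine ⟨-Br_p0 R M e ω, ?_, ?_⟩
    · intro s hs
      rw [Pi.neg_apply, Br_crd0 (R := R) e h1 s hs, neg_zero]
    · show dop (oF n) (Br_c e a b) (-Br_p0 R M e ω) = z.1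
      have h5 : dop (oF n) (Br_c e a b) (-Br_p0 R M e ω) =
          -dop (oF n) (Br_c e a b) (Br_p0 R M e ω) :=
        map_neg (dln (oF n) (Br_c e a b)) _
      rw [h5, ← Br_p0a e ha hb h2', h3', h4']
  · rintro ⟨η, h1, h2⟩
    have h2' : dop (oF n) (Br_c e a b) η = z.1 := h2
    obtain ⟨w, rfl⟩ := (Br_f_bij (M := M) e ha hb r).2 z
    refine ⟨w, ?_, rfl⟩
    refine ⟨Br_x e b (-η), ⟨?_, Br_dx e hb _⟩, ?_⟩
    · refine Br_crdx e ?_
      intro s hs
      rw [Pi.neg_apply, h1 s hs, neg_zero]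
    · show dop (Br_o e) a (Br_x e b (-η)) = w.1
      refine Br_det (R := R) e hb ?_ w.2.1.2 ?_
      · rw [Br_ax e ha hb, Br_dx e hb]
      · rw [Br_ax e ha hb, Br_p0x]
        have h5 : dop (oF n) (Br_c e a b) (-η) = -dop (oF n) (Br_c e a b) η :=
          map_neg (dln (oF n) (Br_c e a b)) _
        rw [h5, neg_neg, h2']
        rfl

end priv

/-- THE COMPARISON. `γ` is the largest element. `ω ↦ η`, `η s = ω s` for the `s` without `γ`. As
`dop b ω = 0` one has `sgn γ s • ω (s ∪ γ) = - (dop b' η) s` (`b'` the family without `γ`), so `ω`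
is determined by `η`, and `(dop a ω) s = (dop a' η) s - (dop b' η) s`; conversely `η` arbitrary of
degree `r` extends in this way to `ω` with `dop b ω = 0` (`dop b' (dop b' η) = 0`). The isomorphism
of complexes is up to the sign of the differential. -/
theorem hk_iso {n : ℕ} (e : J ≃ Fin (n + 1)) (γ : J) (he : e γ = Fin.last n) (a b : J → R)
    (ha : a γ = 1) (hb : b γ = 1) (r : ℕ) :
    Nonempty (Hk (fun l => ((e l : Fin (n + 1)) : ℕ)) M a b r ≃ₗ[R]
      Hn (oF n) M (fun c : Fin n => b (e.symm c.castSucc) - a (e.symm c.castSucc)) r) := by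
  have hγ : γ = Br_g e := (e.symm_apply_apply γ).symm.trans (congrArg e.symm he)
  rw [hγ] at ha hb
  exact ⟨Submodule.Quotient.equiv _ _ (Br_e (M := M) e ha hb r) (Br_map e ha hb r)⟩

end Pool.Agent.MP_6e5bed_ag_GP
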