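import Mathlib

set_option autoImplicit false

/-!
# MP_6e5bed_ag, THEOREM G+: exterior powers with coefficients, as functions on the finite subsets

`J` is finite, `o : J → ℕ` injective (an order on `J`, used for the signs only). `Λ ⊗ M` is
`Finset J → M`; for a family `a : J → R` of central elements `dop o a = ∑ a_l ∂_l` (contraction)
and `eop o a = ∑ a_l e_l ∧`. The relations: `dop a ∘ dop b = - dop b ∘ dop a`, `dop a ∘ dop a = 0`,
`dop a ∘ eop b + eop b ∘ dop a = ∑ a_l b_l`.
-/

noncomputable section

namespace Pool.Agent.MP_6e5bed_ag_GP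

universe u v w

variable {J : Type} [Fintype J] [DecidableEq J] (o : J → ℕ)

/-- the sign of `e_l ∧ e_s` -/
def sgn (l : J) (s : Finset J) : ℤ := (-1) ^ (s.filter (fun j => o j < o l)).card

/-- the sign of a transposition -/
private def Car_e (l l' : J) : ℤ := if o l' < o l then -1 else 1

private theorem Car_ep (ho : Function.Injective o) {l l' : J} (h : l ≠ l') :
    Car_e o l' l = -Car_e o l l' := by
  have h1 : o l ≠ o l' := fun h2 => h (ho h2)
  unfold Car_e
  rcases lt_or_gt_of_ne h1 with h2 | h2
  · rw [if_pos h2, if_neg (by omega)]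
  · rw [if_neg (by omega), if_pos h2, neg_neg]

private theorem Car_e2 (l l' : J) : Car_e o l l' * Car_e o l l' = 1 := by
  unfold Car_e
  split_ifs <;> norm_num

private theorem Car_ins (l : J) {l' : J} {s : Finset J} (h : l' ∉ s) :
    sgn o l (insert l' s) = Car_e o l l' * sgn o l s := by
  unfold sgn Car_e
  rw [Finset.filter_insert]
  split_ifs with h1
  · rw [Finset.card_insert_of_notMem (fun h2 => h (Finset.mem_filter.1 h2).1), pow_succ]
    ring
  · rw [one_mul]

private theorem Car_sq (l : J) (s : Finset J) : sgn o l s * sgn o l s = 1 := by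
  unfold sgn
  rw [← mul_pow]
  norm_num

section

variable {R : Type u} [Ring R] {M : Type v} [AddCommGroup M] [Module R M]

private theorem Car_smul (z₁ z₂ : ℤ) (a b : R) (x : M) :
    z₁ • a • z₂ • b • x = (z₁ * z₂) • (a * b) • x := by
  rw [smul_comm a z₂, smul_smul z₁ z₂, smul_smul a b]

end

section

variable {R : Type u} [Ring R] {M : Type v} [AddCommGroup M] [Module R M]

/-- the contraction `∑ a_l ∂_l` -/
def dop (a : J → R) (ω : Finset J → M) : Finset J → M := fun s =>
  ∑ l ∈ Finset.univ \ s, sgn o l s • a l • ω (insert l s)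

/-- the exterior multiplication with `∑ a_l e_l` -/
def eop (a : J → R) (ω : Finset J → M) : Finset J → M := fun s =>
  ∑ l ∈ s, sgn o l (s.erase l) • a l • ω (s.erase l)

theorem dop_add (a : J → R) (ω ω' : Finset J → M) : dop o a (ω + ω') = dop o a ω + dop o a ω' := by
  funext s
  simp only [dop, Pi.add_apply, smul_add, Finset.sum_add_distrib]

theorem eop_add (a : J → R) (ω ω' : Finset J → M) : eop o a (ω + ω') = eop o a ω + eop o a ω' := by
  funext s
  simp only [eop, Pi.add_apply, smul_add, Finset.sum_add_distrib]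

theorem dop_smul (a : J → R) (b : R) (hb : ∀ l, a l * b = b * a l) (ω : Finset J → M) :
    dop o a (b • ω) = b • dop o a ω := by
  funext s
  simp only [dop, Pi.smul_apply, Finset.smul_sum]
  refine Finset.sum_congr rfl fun l _ => ?_
  rw [smul_smul (a l) b, hb l, ← smul_smul b (a l), smul_comm b (sgn o l s)]

theorem eop_smul (a : J → R) (b : R) (hb : ∀ l, a l * b = b * a l) (ω : Finset J → M) :
    eop o a (b • ω) = b • eop o a ω := by
  funext s
  simp only [eop, Pi.smul_apply, Finset.smul_sum]
  refine Finset.sum_congr rfl fun l _ => ?_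
  rw [smul_smul (a l) b, hb l, ← smul_smul b (a l), smul_comm b (sgn o l (s.erase l))]

/-- multiples of the family -/
theorem dop_mul (a : J → R) (b : R) (hb : ∀ l, a l * b = b * a l) (ω : Finset J → M) :
    dop o (fun l => b * a l) ω = b • dop o a ω := by
  funext s
  simp only [dop, Pi.smul_apply, Finset.smul_sum]
  refine Finset.sum_congr rfl fun l _ => ?_
  rw [← smul_smul b (a l), smul_comm b (sgn o l s)]

private theorem Car_dd (a b : J → R) (ω : Finset J → M) (s : Finset J) :
    dop o a (dop o b ω) s = ∑ l ∈ Finset.univ \ s, ∑ l' ∈ Finset.univ \ insert l s,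
      (sgn o l s * Car_e o l' l * sgn o l' s) • (a l * b l') • ω (insert l' (insert l s)) := by
  rw [dop]
  refine Finset.sum_congr rfl fun l hl => ?_
  have hl' : l ∉ s := by
    rw [Finset.mem_sdiff] at hl
    exact hl.2
  rw [dop, Finset.smul_sum, Finset.smul_sum]
  refine Finset.sum_congr rfl fun l' _ => ?_
  rw [Car_smul, Car_ins o l' hl', mul_assoc]

/-- The contractions anticommute. -/
theorem dop_dop (ho : Function.Injective o) (a b : J → R) (hab : ∀ l l', a l * b l' = b l' * a l)
    (ω : Finset J → M) : dop o a (dop o b ω) = - dop o b (dop o a ω) := by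
  funext s
  rw [Pi.neg_apply, Car_dd, Car_dd, ← Finset.sum_neg_distrib]
  rw [Finset.sum_comm' (s := Finset.univ \ s) (t := fun l => Finset.univ \ insert l s)
    (t' := Finset.univ \ s) (s' := fun l' => Finset.univ \ insert l' s) (fun l l' => by
      simp only [Finset.mem_sdiff, Finset.mem_univ, true_and, Finset.mem_insert, not_or]
      constructor
      · rintro ⟨h1, h2, h3⟩
        exact ⟨⟨fun h => h2 h.symm, h1⟩, h3⟩
      · rintro ⟨⟨h1, h2⟩, h3⟩
        exact ⟨h2, fun h => h1 h.symm, h3⟩)]
  refine Finset.sum_congr rfl fun l' hl' => ?_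
  rw [← Finset.sum_neg_distrib]
  refine Finset.sum_congr rfl fun l hl => ?_
  have hne : l ≠ l' := by
    rintro rfl
    simp at hl
  rw [Finset.insert_comm l' l s, hab l l', Car_ep o ho hne, ← neg_smul]
  congr 1
  ring

/-- The square of a contraction is zero. -/
theorem dop_sq (ho : Function.Injective o) (a : J → R) (ha : ∀ l l', a l * a l' = a l' * a l)
    (ω : Finset J → M) : dop o a (dop o a ω) = 0 := by
  funext s
  rw [Pi.zero_apply, Car_dd, Finset.sum_sigma']
  refine Finset.sum_involution (fun p _ => ⟨p.2, p.1⟩) ?_ ?_ ?_ ?_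
  · rintro ⟨l, l'⟩ hp
    have hne : l ≠ l' := by
      rintro rfl
      simp at hp
    rw [Finset.insert_comm l' l s, ha l l', Car_ep o ho hne, ← add_smul]
    rw [show sgn o l s * -Car_e o l l' * sgn o l' s + sgn o l' s * Car_e o l l' * sgn o l s = 0 by
      ring, zero_smul]
  · rintro ⟨l, l'⟩ hp _ h
    have h1 : l' = l := congrArg Sigma.fst h
    rw [h1] at hp
    simp at hp
  · rintro ⟨l, l'⟩ hp
    simp only [Finset.mem_sigma, Finset.mem_sdiff, Finset.mem_univ, true_and, Finset.mem_insert,
      not_or] at hp ⊢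
    exact ⟨hp.2.2, fun h => hp.2.1 h.symm, hp.1⟩
  · rintro ⟨l, l'⟩ hp
    rfl

/-- The canonical anticommutation relation. -/
theorem dop_eop (ho : Function.Injective o) (a b : J → R) (hab : ∀ l l', a l * b l' = b l' * a l)
    (ω : Finset J → M) : dop o a (eop o b ω) + eop o b (dop o a ω) = (∑ l, a l * b l) • ω := by
  funext s
  have h1 : dop o a (eop o b ω) s = ∑ l ∈ Finset.univ \ s, (a l * b l) • ω s +
      ∑ l ∈ Finset.univ \ s, ∑ l' ∈ s, (sgn o l s * Car_e o l' l * sgn o l' (s.erase l')) •
        (a l * b l') • ω (insert l (s.erase l')) := by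
    rw [← Finset.sum_add_distrib, dop]
    refine Finset.sum_congr rfl fun l hl => ?_
    have hl' : l ∉ s := by
      rw [Finset.mem_sdiff] at hl
      exact hl.2
    rw [eop, Finset.sum_insert hl', Finset.erase_insert hl', smul_add, smul_add, Car_smul,
      Car_sq, one_smul, Finset.smul_sum, Finset.smul_sum]
    congr 1
    refine Finset.sum_congr rfl fun l' hl1 => ?_
    have hne : l ≠ l' := fun h => hl' (by rw [h]; exact hl1)
    rw [Finset.erase_insert_of_ne hne, Car_smul, Car_ins o l' (fun h =>
      hl' (Finset.mem_of_mem_erase h)), mul_assoc]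
  have h2 : eop o b (dop o a ω) s = ∑ l' ∈ s, (a l' * b l') • ω s +
      ∑ l' ∈ s, ∑ l ∈ Finset.univ \ s, (sgn o l' (s.erase l') * sgn o l (s.erase l')) •
        (a l * b l') • ω (insert l (s.erase l')) := by
    rw [← Finset.sum_add_distrib, eop]
    refine Finset.sum_congr rfl fun l' hl' => ?_
    have e1 : Finset.univ \ s.erase l' = insert l' (Finset.univ \ s) := by
      ext x
      simp only [Finset.mem_sdiff, Finset.mem_univ, true_and, Finset.mem_erase,
        Finset.mem_insert, not_and]
      by_cases hx : x = l'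
      · simp [hx]
      · simp [hx]
    rw [dop, e1, Finset.sum_insert (by simp [hl']), Finset.insert_erase hl', smul_add, smul_add,
      Car_smul, Car_sq, one_smul, Finset.smul_sum, Finset.smul_sum, ← hab l' l']
    congr 1
    refine Finset.sum_congr rfl fun l hl => ?_
    rw [Car_smul, ← hab l l']
  rw [Pi.add_apply, Pi.smul_apply, h1, h2, Finset.sum_comm (s := s), Finset.sum_smul,
    ← Finset.sum_sdiff (Finset.subset_univ s)]
  have h3 : ∑ l ∈ Finset.univ \ s, ∑ l' ∈ s,
      (sgn o l s * Car_e o l' l * sgn o l' (s.erase l')) •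
        (a l * b l') • ω (insert l (s.erase l')) =
      - ∑ l ∈ Finset.univ \ s, ∑ l' ∈ s, (sgn o l' (s.erase l') * sgn o l (s.erase l')) •
        (a l * b l') • ω (insert l (s.erase l')) := by
    rw [← Finset.sum_neg_distrib]
    refine Finset.sum_congr rfl fun l hl => ?_
    rw [← Finset.sum_neg_distrib]
    refine Finset.sum_congr rfl fun l' hl1 => ?_
    have hl' : l ∉ s := by
      rw [Finset.mem_sdiff] at hl
      exact hl.2
    have hne : l ≠ l' := fun h => hl' (by rw [h]; exact hl1)
    have e2 : sgn o l s = Car_e o l l' * sgn o l (s.erase l') := by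
      rw [← Car_ins o l (Finset.notMem_erase l' s), Finset.insert_erase hl1]
    rw [e2, Car_ep o ho hne, ← neg_smul]
    congr 1
    have e3 := Car_e2 o l l'
    linear_combination (-(sgn o l (s.erase l')) * sgn o l' (s.erase l')) * e3
  rw [h3]
  abel

/-- compatibility with a semilinear map -/
theorem dop_map {R' : Type w} [Ring R'] {M' : Type*} [AddCommGroup M'] [Module R' M']
    (f : M →+ M') (φ : R → R') (hf : ∀ (b : R) (x : M), f (b • x) = φ b • f x) (a : J → R)
    (ω : Finset J → M) :
    (fun s => f (dop o a ω s)) = dop o (fun l => φ (a l)) (fun s => f (ω s)) := by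
  funext s
  simp only [dop, map_sum, map_zsmul, hf]

/-- the functions which are supported on the subsets with `r` elements -/
def Crd (r : ℕ) (ω : Finset J → M) : Prop := ∀ s, s.card ≠ r → ω s = 0

theorem Crd.dop {r : ℕ} {ω : Finset J → M} (h : Crd (r + 1) ω) (a : J → R) :
    Crd r (dop o a ω) := by
  intro s hs
  refine Finset.sum_eq_zero fun l hl => ?_
  have hl' : l ∉ s := by
    rw [Finset.mem_sdiff] at hl
    exact hl.2
  rw [h (insert l s) (by rw [Finset.card_insert_of_notMem hl']; omega), smul_zero, smul_zero]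

theorem dop_crd_zero {ω : Finset J → M} (h : Crd 0 ω) (a : J → R) : dop o a ω = 0 := by
  funext s
  refine Finset.sum_eq_zero fun l hl => ?_
  have hl' : l ∉ s := by
    rw [Finset.mem_sdiff] at hl
    exact hl.2
  rw [h (insert l s) (by rw [Finset.card_insert_of_notMem hl']; omega), smul_zero, smul_zero]

theorem Crd.eop {r : ℕ} {ω : Finset J → M} (h : Crd r ω) (a : J → R) :
    Crd (r + 1) (eop o a ω) := by
  intro s hs
  refine Finset.sum_eq_zero fun l hl => ?_
  have h1 : 0 < s.card := Finset.card_pos.2 ⟨l, hl⟩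
  rw [h (s.erase l) (by rw [Finset.card_erase_of_mem hl]; omega), smul_zero, smul_zero]

end

end Pool.Agent.MP_6e5bed_ag_GP
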