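import Pool.Agent.Lib.MP_6e5bed_ag_GP.CorP
import Pool.Agent.Lib.MP_6e5bed_ag_GP.FinLR

set_option autoImplicit false

/-!
# MP_6e5bed_ag, THEOREM G+: the core theorem
-/

noncomputable section

namespace Pool.Agent.MP_6e5bed_ag_GP

universe u

/-- THE CORE THEOREM of THEOREM G+. -/
theorem corP (k : Type u) [Field k] [IsAlgClosed k] : CorP k :=
  corP_of k (fun A => finL A) (fun A => finR A)

end Pool.Agent.MP_6e5bed_ag_GP
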