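import Mathlib

set_option autoImplicit false

/-!
# MP_6e5bed_ag, THEOREM G+: the rank lemma for modules over `D[X]`
-/

noncomputable section

namespace Pool.Agent.MP_6e5bed_ag_GP

universe u

private def RL_P (D : Type u) [CommRing D] {M : Type u} [AddCommGroup M] [Module D M]
    (φ : M →ₗ[D] M) (r : ℕ) : Prop :=
  Module.Finite D (LinearMap.ker φ) ∧ Module.Finite D (M ⧸ LinearMap.range φ) ∧
    Module.finrank D (M ⧸ LinearMap.range φ) = r + Module.finrank D (LinearMap.ker φ)

private theorem RL_rk {D : Type u} [CommRing D] [IsDomain D] {A B C : Type u}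
    [AddCommGroup A] [Module D A] [AddCommGroup B] [Module D B] [AddCommGroup C] [Module D C]
    [Module.Finite D B] (f : A →ₗ[D] B) (g : B →ₗ[D] C) (h : Function.Exact f g) :
    Module.finrank D B = Module.finrank D (LinearMap.range f) +
      Module.finrank D (LinearMap.range g) := by
  have h1 := Submodule.finrank_quotient_add_finrank (R := D) (LinearMap.ker g)
  have h2 : Module.finrank D (B ⧸ LinearMap.ker g) = Module.finrank D (LinearMap.range g) :=
    LinearEquiv.finrank_eq g.quotKerEquivRange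
  rw [h2, LinearMap.exact_iff.mp h] at h1
  omega

private theorem RL_add {D : Type u} [CommRing D] [IsDomain D] [IsNoetherianRing D]
    {M₁ M₂ M₃ : Type u} [AddCommGroup M₁] [Module D M₁] [AddCommGroup M₂] [Module D M₂]
    [AddCommGroup M₃] [Module D M₃] (φ₁ : M₁ →ₗ[D] M₁) (φ₂ : M₂ →ₗ[D] M₂) (φ₃ : M₃ →ₗ[D] M₃)
    (i : M₁ →ₗ[D] M₂) (p : M₂ →ₗ[D] M₃) (hi : Function.Injective i) (hp : Function.Surjective p)
    (hip : Function.Exact i p) (h₁ : i ∘ₗ φ₁ = φ₂ ∘ₗ i) (h₂ : p ∘ₗ φ₂ = φ₃ ∘ₗ p) (r₁ r₃ : ℕ)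
    (H₁ : RL_P D φ₁ r₁) (H₃ : RL_P D φ₃ r₃) : RL_P D φ₂ (r₁ + r₃) := by
  obtain ⟨k1, c1, e1⟩ := H₁
  obtain ⟨k3, c3, e3⟩ := H₃
  have g₁ : ∀ x, i (φ₁ x) = φ₂ (i x) := fun x => LinearMap.congr_fun h₁ x
  have g₂ : ∀ x, p (φ₂ x) = φ₃ (p x) := fun x => LinearMap.congr_fun h₂ x
  have hpi : ∀ x, p (i x) = 0 := fun x => hip.apply_apply_eq_zero x
  -- the maps
  obtain ⟨F0, hF0⟩ : ∃ F0 : LinearMap.ker φ₁ →ₗ[D] LinearMap.ker φ₂, ∀ x, (F0 x : M₂) = i x :=
    ⟨i.restrict (p := LinearMap.ker φ₁) (q := LinearMap.ker φ₂) (fun x hx => by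
      rw [LinearMap.mem_ker] at hx ⊢
      rw [← g₁, hx, map_zero]), fun x => rfl⟩
  obtain ⟨F, hF⟩ : ∃ F : LinearMap.ker φ₂ →ₗ[D] LinearMap.ker φ₃, ∀ x, (F x : M₃) = p x :=
    ⟨p.restrict (p := LinearMap.ker φ₂) (q := LinearMap.ker φ₃) (fun x hx => by
      rw [LinearMap.mem_ker] at hx ⊢
      rw [← g₂, hx, map_zero]), fun x => rfl⟩
  obtain ⟨G, hG⟩ : ∃ G : (M₁ ⧸ LinearMap.range φ₁) →ₗ[D] (M₂ ⧸ LinearMap.range φ₂),
      ∀ x, G ((LinearMap.range φ₁).mkQ x) = (LinearMap.range φ₂).mkQ (i x) :=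
    ⟨Submodule.mapQ _ _ i (by
      rintro x ⟨y, rfl⟩
      exact ⟨i y, (g₁ y).symm⟩), fun x => rfl⟩
  obtain ⟨G', hG'⟩ : ∃ G' : (M₂ ⧸ LinearMap.range φ₂) →ₗ[D] (M₃ ⧸ LinearMap.range φ₃),
      ∀ x, G' ((LinearMap.range φ₂).mkQ x) = (LinearMap.range φ₃).mkQ (p x) :=
    ⟨Submodule.mapQ _ _ p (by
      rintro x ⟨y, rfl⟩
      exact ⟨p y, (g₂ y).symm⟩), fun x => rfl⟩
  -- exactness
  have x1 : Function.Injective F0 := by
    intro x y hxy
    apply Subtype.ext
    apply hi
    rw [← hF0, ← hF0, hxy]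
  have x2 : Function.Exact F0 F := by
    intro y
    constructor
    · intro hy
      have h3 : p y = 0 := by rw [← hF, hy]; rfl
      obtain ⟨x, hx⟩ := (hip y).mp h3
      have h4 : x ∈ LinearMap.ker φ₁ := by
        rw [LinearMap.mem_ker]
        apply hi
        rw [g₁, hx, map_zero]
        exact y.2
      exact ⟨⟨x, h4⟩, Subtype.ext ((hF0 _).trans hx)⟩
    · rintro ⟨x, rfl⟩
      apply Subtype.ext
      rw [hF, hF0, hpi]
      rfl
  have x5 : Function.Exact G G' := by
    intro y
    obtain ⟨y, rfl⟩ := Submodule.mkQ_surjective _ y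
    constructor
    · intro hy
      rw [hG', Submodule.mkQ_apply, Submodule.Quotient.mk_eq_zero] at hy
      obtain ⟨z, hz⟩ := hy
      obtain ⟨w, rfl⟩ := hp z
      have h3 : p (y - φ₂ w) = 0 := by rw [map_sub, g₂, hz, sub_self]
      obtain ⟨x, hx⟩ := (hip _).mp h3
      refine ⟨(LinearMap.range φ₁).mkQ x, ?_⟩
      rw [hG, hx, map_sub, sub_eq_self, Submodule.mkQ_apply, Submodule.Quotient.mk_eq_zero]
      exact ⟨w, rfl⟩
    · rintro ⟨x, hx⟩
      obtain ⟨x, rfl⟩ := Submodule.mkQ_surjective _ x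
      rw [← hx, hG, hG', hpi, map_zero]
  have x6 : Function.Surjective G' := by
    intro z
    obtain ⟨z, rfl⟩ := Submodule.mkQ_surjective _ z
    obtain ⟨y, rfl⟩ := hp z
    exact ⟨(LinearMap.range φ₂).mkQ y, hG' y⟩
  have e2 : Function.Exact (LinearMap.ker φ₂).subtype φ₂ := LinearMap.exact_subtype_ker_map φ₂
  have e3' : Function.Exact (LinearMap.ker φ₃).subtype φ₃ := LinearMap.exact_subtype_ker_map φ₃
  have q1 : Function.Exact φ₁ (LinearMap.range φ₁).mkQ := LinearMap.exact_map_mkQ_range φ₁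
  have q2 : Function.Exact φ₂ (LinearMap.range φ₂).mkQ := LinearMap.exact_map_mkQ_range φ₂
  have x3 := SnakeLemma.exact_δ'_right φ₁ φ₂ φ₃ i p hip i p hip h₁ h₂
    (LinearMap.ker φ₂).subtype e2 (LinearMap.ker φ₃).subtype e3' (LinearMap.range φ₁).mkQ q1
    hp hi F (by ext x; exact (hF x).symm) (Submodule.subtype_injective _)
  have x4 := SnakeLemma.exact_δ'_left φ₁ φ₂ φ₃ i p hip i p hip h₁ h₂
    (LinearMap.ker φ₃).subtype e3' (LinearMap.range φ₁).mkQ q1 (LinearMap.range φ₂).mkQ q2
    hp hi G (by ext x; exact hG x) (Submodule.mkQ_surjective _)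
  generalize SnakeLemma.δ' φ₁ φ₂ φ₃ i p hip i p hip h₁ h₂ (LinearMap.ker φ₃).subtype e3'
    (LinearMap.range φ₁).mkQ q1 hp hi = δ at x3 x4
  -- finiteness
  have n1 : IsNoetherian D (LinearMap.ker φ₂) :=
    isNoetherian_of_range_eq_ker F0 F (LinearMap.exact_iff.mp x2).symm
  have n2 : IsNoetherian D (M₂ ⧸ LinearMap.range φ₂) :=
    isNoetherian_of_range_eq_ker G G' (LinearMap.exact_iff.mp x5).symm
  have f1 : Module.Finite D (LinearMap.ker φ₂) := Module.IsNoetherian.finite D _
  have f2 : Module.Finite D (M₂ ⧸ LinearMap.range φ₂) := Module.IsNoetherian.finite D _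
  refine ⟨f1, f2, ?_⟩
  -- ranks
  have r2 := RL_rk F0 F x2
  have r3 := RL_rk F δ x3
  have r4 := RL_rk δ G x4
  have r5 := RL_rk G G' x5
  have r1 : Module.finrank D (LinearMap.range F0) = Module.finrank D (LinearMap.ker φ₁) :=
    (LinearEquiv.finrank_eq (LinearEquiv.ofInjective F0 x1)).symm
  have r6 : Module.finrank D (LinearMap.range G') =
      Module.finrank D (M₃ ⧸ LinearMap.range φ₃) := by
    rw [LinearMap.range_eq_top.mpr x6]
    exact finrank_top D _
  omega

open Polynomial in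
private def RL_mul (D : Type u) [CommRing D] (N : Type u) [AddCommGroup N] [Module D N]
    [Module D[X] N] [IsScalarTower D D[X] N] (a : D) : N →ₗ[D] N :=
  (LinearMap.lsmul D[X] N (X - C a)).restrictScalars D

open Polynomial in
private theorem RL_apply (D : Type u) [CommRing D] (N : Type u) [AddCommGroup N] [Module D N]
    [Module D[X] N] [IsScalarTower D D[X] N] (a : D) (x : N) :
    RL_mul D N a x = (X - C a : D[X]) • x := rfl

private theorem RL_frk0 {R M : Type u} [CommRing R] [AddCommGroup M] [Module R M] (d : R)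
    (hd : d ≠ 0) (h : ∀ x : M, d • x = 0) : Module.finrank R M = 0 := by
  have h1 : Module.rank R M = 0 := rank_eq_zero_iff.mpr fun x => ⟨d, hd, h x⟩
  rw [Module.finrank, h1]
  exact Cardinal.zero_toNat

open Polynomial in
private theorem RL_base {D : Type u} [CommRing D] [IsDomain D] [IsNoetherianRing D] (N : Type u)
    [AddCommGroup N] [Module D N] [Module D[X] N] [IsScalarTower D D[X] N] (a : D) (p : Ideal D[X])
    (hp : p.IsPrime) (e : N ≃ₗ[D[X]] D[X] ⧸ p) :
    RL_P D (RL_mul D N a) (Module.finrank D[X] N) := by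
  obtain ⟨n0, hn0⟩ : ∃ n0, e n0 = 1 := ⟨e.symm 1, e.apply_symm_apply 1⟩
  have hs1 : ∀ g : D[X], g • (1 : D[X] ⧸ p) = Ideal.Quotient.mk p g := by
    intro g
    change Ideal.Quotient.mk p (g • 1) = _
    rw [smul_eq_mul, mul_one]
  have hgen : ∀ x : N, ∃ g : D[X], x = g • n0 := by
    intro x
    obtain ⟨g, hg⟩ := Ideal.Quotient.mk_surjective (e x)
    refine ⟨g, e.injective ?_⟩
    rw [map_smul, hn0, ← hg, hs1]
  have hann : ∀ g : D[X], g • n0 = 0 ↔ g ∈ p := by
    intro g
    rw [← e.map_eq_zero_iff, map_smul, hn0, hs1]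
    exact Ideal.Quotient.eq_zero_iff_mem
  have hC : ∀ (d : D) (x : N), (C d : D[X]) • x = d • x := fun d x =>
    algebraMap_smul D[X] d x
  have hdiv : ∀ g : D[X], ∃ h : D[X], g • n0 = g.eval a • n0 + (X - C a : D[X]) • (h • n0) := by
    intro g
    obtain ⟨h, hh⟩ := X_sub_C_dvd_sub_C_eval (a := a) (p := g)
    refine ⟨h, ?_⟩
    rw [← hC, ← mul_smul, ← add_smul, ← hh]
    congr 1
    ring
  have hkill : ∀ g ∈ p, ∀ x : N, g • x = 0 := by
    intro g hg x
    obtain ⟨k, rfl⟩ := hgen x
    rw [← mul_smul, hann]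
    exact p.mul_mem_right k hg
  by_cases hf : (X - C a : D[X]) ∈ p
  · -- `φ = 0`
    have h0 : ∀ x, RL_mul D N a x = 0 := fun x => by
      rw [RL_apply]
      exact hkill _ hf x
    have hker : LinearMap.ker (RL_mul D N a) = ⊤ := by
      rw [eq_top_iff]
      intro x _
      exact h0 x
    have hrg : LinearMap.range (RL_mul D N a) = ⊥ := by
      rw [eq_bot_iff]
      rintro _ ⟨x, rfl⟩
      rw [h0]
      exact Submodule.zero_mem _
    have hfin : Module.Finite D N := by
      refine ⟨⟨{n0}, ?_⟩⟩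
      rw [eq_top_iff]
      intro x _
      obtain ⟨g, rfl⟩ := hgen x
      obtain ⟨h, hh⟩ := hdiv g
      rw [hh, hkill _ hf, add_zero, Finset.coe_singleton]
      exact Submodule.smul_mem _ _ (Submodule.mem_span_singleton_self n0)
    have hz : Module.finrank D[X] N = 0 :=
      RL_frk0 (X - C a : D[X]) (X_sub_C_ne_zero a) (hkill _ hf)
    refine ⟨?_, ?_, ?_⟩
    · rw [hker]
      infer_instance
    · infer_instance
    · rw [hz, zero_add, LinearEquiv.finrank_eq (Submodule.quotEquivOfEqBot _ hrg), hker]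
      exact (finrank_top D N).symm
  · -- `φ` is injective
    have hker : LinearMap.ker (RL_mul D N a) = ⊥ := by
      rw [eq_bot_iff]
      intro x hx
      rw [LinearMap.mem_ker, RL_apply] at hx
      obtain ⟨g, rfl⟩ := hgen x
      rw [← mul_smul, hann] at hx
      rcases hp.mem_or_mem hx with h | h
      · exact absurd h hf
      · rw [Submodule.mem_bot, hann]
        exact h
    have hkf : Module.Finite D (LinearMap.ker (RL_mul D N a)) := by
      rw [hker]
      infer_instance
    have hkr : Module.finrank D (LinearMap.ker (RL_mul D N a)) = 0 := by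
      rw [hker]
      exact finrank_bot D N
    have hrange : ∀ x : N, (X - C a : D[X]) • x ∈ LinearMap.range (RL_mul D N a) := fun x =>
      ⟨x, rfl⟩
    have hcg : ∀ y : N ⧸ LinearMap.range (RL_mul D N a), ∃ d : D,
        y = d • (LinearMap.range (RL_mul D N a)).mkQ n0 := by
      intro y
      obtain ⟨x, rfl⟩ := Submodule.mkQ_surjective _ y
      obtain ⟨g, rfl⟩ := hgen x
      obtain ⟨h, hh⟩ := hdiv g
      refine ⟨g.eval a, ?_⟩
      rw [hh, map_add, map_smul, add_eq_left, Submodule.mkQ_apply, Submodule.Quotient.mk_eq_zero]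
      exact hrange _
    have hcf : Module.Finite D (N ⧸ LinearMap.range (RL_mul D N a)) := by
      refine ⟨⟨{(LinearMap.range (RL_mul D N a)).mkQ n0}, ?_⟩⟩
      rw [eq_top_iff]
      intro x _
      obtain ⟨d, rfl⟩ := hcg x
      rw [Finset.coe_singleton]
      exact Submodule.smul_mem _ _ (Submodule.mem_span_singleton_self _)
    refine ⟨hkf, hcf, ?_⟩
    rw [hkr, add_zero]
    by_cases hp0 : p = ⊥
    · -- `N = D[X]`
      have h1 : Module.finrank D[X] N = 1 := by
        rw [LinearEquiv.finrank_eq e, LinearEquiv.finrank_eq (Submodule.quotEquivOfEqBot p hp0)]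
        exact Module.finrank_self D[X]
      rw [h1]
      have hinj : Function.Injective (LinearMap.toSpanSingleton D
          (N ⧸ LinearMap.range (RL_mul D N a)) ((LinearMap.range (RL_mul D N a)).mkQ n0)) := by
        rw [← LinearMap.ker_eq_bot, eq_bot_iff]
        intro d hd
        rw [LinearMap.mem_ker, LinearMap.toSpanSingleton_apply, ← map_smul, Submodule.mkQ_apply,
          Submodule.Quotient.mk_eq_zero] at hd
        obtain ⟨x, hx⟩ := hd
        obtain ⟨g, rfl⟩ := hgen x
        rw [RL_apply, ← hC, ← mul_smul, ← sub_eq_zero, ← sub_smul, hann, hp0,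
          Submodule.mem_bot] at hx
        have h2 := congrArg (Polynomial.eval a) hx
        rw [eval_sub, eval_mul, eval_sub, eval_X, eval_C, sub_self, zero_mul, eval_C, zero_sub,
          eval_zero, neg_eq_zero] at h2
        exact h2
      have hsurj : Function.Surjective (LinearMap.toSpanSingleton D
          (N ⧸ LinearMap.range (RL_mul D N a)) ((LinearMap.range (RL_mul D N a)).mkQ n0)) := by
        intro y
        obtain ⟨d, rfl⟩ := hcg y
        exact ⟨d, rfl⟩
      rw [← LinearEquiv.finrank_eq (LinearEquiv.ofBijective _ ⟨hinj, hsurj⟩)]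
      exact Module.finrank_self D
    · -- both ranks are `0`
      obtain ⟨g, hg, hg0⟩ := Submodule.exists_mem_ne_zero_of_ne_bot hp0
      rw [RL_frk0 g hg0 (hkill g hg)]
      obtain ⟨q, hq1, hq2⟩ := exists_eq_pow_rootMultiplicity_mul_and_not_dvd g hg0 a
      have hqp : q ∈ p := by
        rw [hq1] at hg
        rcases hp.mem_or_mem hg with h | h
        · exact absurd (hp.mem_of_pow_mem _ h) hf
        · exact h
      have hqa : q.eval a ≠ 0 := fun h => hq2 (dvd_iff_isRoot.mpr h)
      refine RL_frk0 (q.eval a) hqa ?_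
      intro y
      obtain ⟨d, rfl⟩ := hcg y
      obtain ⟨h, hh⟩ := hdiv q
      rw [hkill q hqp] at hh
      have h3 : q.eval a • (LinearMap.range (RL_mul D N a)).mkQ n0 = 0 := by
        rw [← map_smul, Submodule.mkQ_apply, Submodule.Quotient.mk_eq_zero,
          eq_neg_of_add_eq_zero_left hh.symm]
        exact Submodule.neg_mem _ (hrange _)
      rw [smul_comm, h3, smul_zero]

open Polynomial in
private theorem RL_sub {D : Type u} [CommRing D] [IsDomain D] [IsNoetherianRing D] (N : Type u)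
    [AddCommGroup N] [Module D N] [Module D[X] N] [IsScalarTower D D[X] N] [Subsingleton N]
    (a : D) : RL_P D (RL_mul D N a) (Module.finrank D[X] N) := by
  have h1 : Module.finrank D[X] N = 0 := Module.finrank_zero_of_subsingleton
  refine ⟨inferInstance, inferInstance, ?_⟩
  rw [h1, Module.finrank_zero_of_subsingleton, Module.finrank_zero_of_subsingleton]

open Polynomial in
private theorem RL_ex {D : Type u} [CommRing D] [IsDomain D] [IsNoetherianRing D]
    (N₁ N₂ N₃ : Type u) [AddCommGroup N₁] [Module D N₁] [Module D[X] N₁] [IsScalarTower D D[X] N₁]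
    [AddCommGroup N₂] [Module D N₂] [Module D[X] N₂] [IsScalarTower D D[X] N₂]
    [AddCommGroup N₃] [Module D N₃] [Module D[X] N₃] [IsScalarTower D D[X] N₃]
    [Module.Finite D[X] N₂] (a : D) (f : N₁ →ₗ[D[X]] N₂) (g : N₂ →ₗ[D[X]] N₃)
    (hf : Function.Injective f) (hg : Function.Surjective g) (hfg : Function.Exact f g)
    (H₁ : RL_P D (RL_mul D N₁ a) (Module.finrank D[X] N₁))
    (H₃ : RL_P D (RL_mul D N₃ a) (Module.finrank D[X] N₃)) :
    RL_P D (RL_mul D N₂ a) (Module.finrank D[X] N₂) := by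
  have hr : Module.finrank D[X] N₂ = Module.finrank D[X] N₁ + Module.finrank D[X] N₃ := by
    rw [RL_rk f g hfg, ← LinearEquiv.finrank_eq (LinearEquiv.ofInjective f hf),
      LinearMap.range_eq_top.mpr hg, finrank_top]
  rw [hr]
  refine RL_add (RL_mul D N₁ a) (RL_mul D N₂ a) (RL_mul D N₃ a) (f.restrictScalars D)
    (g.restrictScalars D) hf hg hfg ?_ ?_ _ _ H₁ H₃
  · ext x
    exact map_smul f _ x
  · ext x
    exact map_smul g _ x

open Polynomial in
private theorem RL_all {D : Type u} [CommRing D] [IsDomain D] [IsNoetherianRing D] (H : Type u)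
    [AddCommGroup H] [Module D H] [Module D[X] H] [IsScalarTower D D[X] H]
    [hH : Module.Finite D[X] H] (a : D) : RL_P D (RL_mul D H a) (Module.finrank D[X] H) := by
  suffices h : ∀ (m : Module D H) (_ : IsScalarTower D D[X] H),
      RL_P D (RL_mul D H a) (Module.finrank D[X] H) from h _ _
  refine IsNoetherianRing.induction_on_isQuotientEquivQuotientPrime D[X] hH
    (motive := fun N [AddCommGroup N] [Module D[X] N] [Module.Finite D[X] N] =>
      ∀ (m : Module D N) (_ : IsScalarTower D D[X] N),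
      RL_P D (RL_mul D N a) (Module.finrank D[X] N)) ?_ ?_ ?_
  · intro N _ _ _ _ m t
    exact RL_sub N a
  · intro N _ _ _ p e m t
    exact RL_base N a p.1 p.2 e
  · intro N₁ _ _ _ N₂ _ _ _ N₃ _ _ _ f g hf hg hfg H₁ H₃ m t
    have t1 : @IsScalarTower D D[X] N₁ _ _ (Module.compHom N₁ (C : D →+* D[X])).toSMul := by
      refine @IsScalarTower.mk _ _ _ _ _ (Module.compHom N₁ (C : D →+* D[X])).toSMul ?_
      intro d q x
      change (d • q) • x = (C d : D[X]) • q • x
      rw [smul_eq_C_mul, mul_smul]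
    have t3 : @IsScalarTower D D[X] N₃ _ _ (Module.compHom N₃ (C : D →+* D[X])).toSMul := by
      refine @IsScalarTower.mk _ _ _ _ _ (Module.compHom N₃ (C : D →+* D[X])).toSMul ?_
      intro d q x
      change (d • q) • x = (C d : D[X]) • q • x
      rw [smul_eq_C_mul, mul_smul]
    exact @RL_ex D _ _ _ N₁ N₂ N₃ _ (Module.compHom N₁ (C : D →+* D[X])) _ t1 _ m _ t _
      (Module.compHom N₃ (C : D →+* D[X])) _ t3 _ a f g hf hg hfg (H₁ _ t1) (H₃ _ t3)

/-- THE RANK LEMMA. `D` a Noetherian domain, `H` a finitely generated module over `D[X]`,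
`f = X - a`: the kernel and the cokernel of `f` on `H` are finitely generated over `D` and the
difference of their ranks is the rank of `H` over `D[X]`.
Proof. Finiteness: `D[X] ⧸ (X - a) = D`. Both sides are additive in `H` (snake lemma, additivity of
the rank over a domain), so by `IsNoetherianRing.induction_on_isQuotientEquivQuotientPrime` one may
take `H = D[X] ⧸ q` for a prime `q`. `q = 0`: `ker f = 0`, `H ⧸ fH = D`. `f ∈ q`: `f` is zero on `H`
and `H` is torsion over `D[X]` (`f ≠ 0` kills it). `f ∉ q`, `q ≠ 0`: `ker f = 0`; take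
`0 ≠ g ∈ q` and divide by the highest power of `X - a`: as `q` is prime one gets `g ∈ q` with
`g(a) ≠ 0`, and `g(a)` kills `H ⧸ fH`. -/
theorem rank_lemma {D : Type u} [CommRing D] [IsDomain D] [IsNoetherianRing D] (H : Type u)
    [AddCommGroup H] [Module D H] [Module (Polynomial D) H] [IsScalarTower D (Polynomial D) H]
    [Module.Finite (Polynomial D) H] (a : D) :
    Module.Finite D
      (LinearMap.ker (LinearMap.lsmul (Polynomial D) H (Polynomial.X - Polynomial.C a))) ∧
    Module.Finite D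
      (H ⧸ LinearMap.range (LinearMap.lsmul (Polynomial D) H (Polynomial.X - Polynomial.C a))) ∧
    Module.finrank D
      (H ⧸ LinearMap.range (LinearMap.lsmul (Polynomial D) H (Polynomial.X - Polynomial.C a))) =
    Module.finrank (Polynomial D) H + Module.finrank D
      (LinearMap.ker (LinearMap.lsmul (Polynomial D) H (Polynomial.X - Polynomial.C a))) := by
  obtain ⟨h1, h2, h3⟩ := RL_all H a
  have e1 : LinearMap.ker (RL_mul D H a) ≃ₗ[D]
      LinearMap.ker (LinearMap.lsmul (Polynomial D) H (Polynomial.X - Polynomial.C a)) :=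
    { toFun := fun x => ⟨x.1, x.2⟩
      invFun := fun x => ⟨x.1, x.2⟩
      left_inv := fun _ => rfl
      right_inv := fun _ => rfl
      map_add' := fun _ _ => rfl
      map_smul' := fun _ _ => rfl }
  have e2 : (H ⧸ LinearMap.range (RL_mul D H a)) ≃ₗ[D]
      (H ⧸ LinearMap.range
        (LinearMap.lsmul (Polynomial D) H (Polynomial.X - Polynomial.C a))) :=
    Submodule.Quotient.restrictScalarsEquiv D (LinearMap.range
        (LinearMap.lsmul (Polynomial D) H (Polynomial.X - Polynomial.C a)))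
  refine ⟨Module.Finite.equiv e1, Module.Finite.equiv e2, ?_⟩
  rw [← LinearEquiv.finrank_eq e1, ← LinearEquiv.finrank_eq e2]
  exact h3

end Pool.Agent.MP_6e5bed_ag_GP
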