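import Pool.Agent.Lib.MP_6e5bed_ag_GP.EfC
import Pool.Agent.Lib.MP_6e5bed_ag_GP.RL

set_option autoImplicit false
set_option linter.unusedVariables false

/-!
# MP_6e5bed_ag, THEOREM G+: the Euler characteristic of the Koszul homology over a domain
-/

noncomputable section

namespace Pool.Agent.MP_6e5bed_ag_GP

open MvPolynomial

universe u

section tr

variable {D : Type u} [CommRing D] {R₁ R₂ : Type u} [CommRing R₁] [CommRing R₂] [Algebra D R₁]
  [Algebra D R₂]

private def Ef_quot {H₁ H₂ : Type u} [AddCommGroup H₁] [AddCommGroup H₂] [Module D H₁]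
    [Module D H₂] [Module R₁ H₁] [Module R₂ H₂] [IsScalarTower D R₁ H₁] [IsScalarTower D R₂ H₂]
    (P₁ : Submodule R₁ H₁) (P₂ : Submodule R₂ H₂) (ζ : H₁ ≃ₗ[D] H₂)
    (h : ∀ x, x ∈ P₁ ↔ ζ x ∈ P₂) : (H₁ ⧸ P₁) ≃ₗ[D] (H₂ ⧸ P₂) :=
  (Submodule.Quotient.restrictScalarsEquiv D P₁).symm ≪≫ₗ
    Submodule.Quotient.equiv (P₁.restrictScalars D) (P₂.restrictScalars D) ζ (by
      ext y
      constructor
      · rintro ⟨x, hx, rfl⟩
        exact (h x).1 hx
      · intro hy
        refine ⟨ζ.symm y, (h _).2 ?_, ζ.apply_symm_apply y⟩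
        rw [ζ.apply_symm_apply]
        exact hy) ≪≫ₗ
    Submodule.Quotient.restrictScalarsEquiv D P₂

variable {M : Type u} [AddCommGroup M] [Module D M] [Module R₁ M] [Module R₂ M]
  [IsScalarTower D R₁ M] [IsScalarTower D R₂ M]

private def Ef_sub (P₁ : Submodule R₁ M) (P₂ : Submodule R₂ M) (h : ∀ x, x ∈ P₁ ↔ x ∈ P₂) :
    P₁ ≃ₗ[D] P₂ where
  toFun z := ⟨z.1, (h _).1 z.2⟩
  invFun z := ⟨z.1, (h _).2 z.2⟩
  map_add' _ _ := rfl
  map_smul' _ _ := rfl
  left_inv _ := rfl
  right_inv _ := rfl

private theorem Ef_dop {J : Type} [Fintype J] [DecidableEq J] (o : J → ℕ) (e : R₁ →+* R₂)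
    (he : ∀ (b : R₁) (m : M), e b • m = b • m) (T : J → R₁) (ω : Finset J → M) :
    dop o (fun a => e (T a)) ω = dop o T ω := by
  funext s
  simp only [dop, he]

private theorem Ef_tr {J : Type} [Fintype J] [DecidableEq J] (o : J → ℕ) (e : R₁ →+* R₂)
    (he : ∀ (b : R₁) (m : M), e b • m = b • m) (T : J → R₁) (r : ℕ) :
    Nonempty (Hn o M T r ≃ₗ[D] Hn o M (fun a => e (T a)) r) := by
  have h1 : ∀ x : Finset J → M, x ∈ Zn (M := M) o T r ↔ x ∈ Zn (M := M) o (fun a => e (T a)) r := by
    intro x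
    constructor
    · rintro ⟨h1, h2⟩
      exact ⟨h1, (Ef_dop o e he T x).trans h2⟩
    · rintro ⟨h1, h2⟩
      exact ⟨h1, (Ef_dop o e he T x).symm.trans h2⟩
  have h2 : ∀ x : Finset J → M, x ∈ Bn (M := M) o T r ↔ x ∈ Bn (M := M) o (fun a => e (T a)) r := by
    intro x
    constructor
    · rintro ⟨y, hy, rfl⟩
      exact ⟨y, hy, Ef_dop o e he T y⟩
    · rintro ⟨y, hy, rfl⟩
      exact ⟨y, hy, (Ef_dop o e he T y).symm⟩
  exact ⟨Ef_quot _ _ (Ef_sub _ _ h1) (fun x => h2 x.1)⟩

end tr

section rk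

variable {D : Type u} [CommRing D] [IsDomain D] [IsNoetherianRing D] {R : Type u} [CommRing R]
  [Algebra D R] [Algebra (Polynomial D) R]
  (H : Type u) [AddCommGroup H] [Module D H] [Module (Polynomial D) H] [Module R H]
  [IsScalarTower D R H] [IsScalarTower (Polynomial D) R H] [IsScalarTower D (Polynomial D) H]

private theorem Ef_rank [Module.Finite (Polynomial D) H] (a : D) (t : R)
    (ht : t = algebraMap (Polynomial D) R (Polynomial.X - Polynomial.C a)) :
    Module.Finite D (LinearMap.ker (LinearMap.lsmul R H t)) ∧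
    Module.Finite D (H ⧸ LinearMap.range (LinearMap.lsmul R H t)) ∧
    Module.finrank D (H ⧸ LinearMap.range (LinearMap.lsmul R H t)) =
      Module.finrank (Polynomial D) H +
        Module.finrank D (LinearMap.ker (LinearMap.lsmul R H t)) := by
  have h0 : ∀ x : H, LinearMap.lsmul R H t x =
      LinearMap.lsmul (Polynomial D) H (Polynomial.X - Polynomial.C a) x := by
    intro x
    rw [LinearMap.lsmul_apply, LinearMap.lsmul_apply, ht, algebraMap_smul]
  obtain ⟨h1, h2, h3⟩ := rank_lemma H a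
  have e1 : (LinearMap.ker (LinearMap.lsmul (Polynomial D) H
      (Polynomial.X - Polynomial.C a))) ≃ₗ[D] LinearMap.ker (LinearMap.lsmul R H t) :=
    Ef_sub _ _ (fun x => by rw [LinearMap.mem_ker, LinearMap.mem_ker, h0])
  have e2 : (H ⧸ LinearMap.range (LinearMap.lsmul (Polynomial D) H
      (Polynomial.X - Polynomial.C a))) ≃ₗ[D] (H ⧸ LinearMap.range (LinearMap.lsmul R H t)) :=
    Ef_quot _ _ (LinearEquiv.refl D H) (fun x => by
      rw [LinearMap.mem_range, LinearEquiv.refl_apply, LinearMap.mem_range]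
      constructor
      · rintro ⟨y, hy⟩
        exact ⟨y, (h0 y).trans hy⟩
      · rintro ⟨y, hy⟩
        exact ⟨y, (h0 y).symm.trans hy⟩)
  refine ⟨Module.Finite.equiv e1, Module.Finite.equiv e2, ?_⟩
  rw [← e1.finrank_eq, ← e2.finrank_eq, h3]

private theorem Ef_seq {A₁ A₂ A₃ : Type u} [AddCommGroup A₁] [AddCommGroup A₂] [AddCommGroup A₃]
    [Module D A₁] [Module D A₂] [Module D A₃] [Module.Finite D A₁] [Module.Finite D A₃]
    (f : A₁ →ₗ[D] A₂) (g : A₂ →ₗ[D] A₃) (hf : Function.Injective f) (hg : Function.Surjective g)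
    (hfg : Function.Exact f g) : Module.Finite D A₂ ∧
      Module.finrank D A₂ = Module.finrank D A₁ + Module.finrank D A₃ := by
  have h1 : LinearMap.range f = LinearMap.ker g := (LinearMap.exact_iff.1 hfg).symm
  have : IsNoetherian D A₂ := isNoetherian_of_range_eq_ker f g h1
  refine ⟨inferInstance, ?_⟩
  have h2 := Submodule.finrank_quotient_add_finrank (LinearMap.ker g)
  rw [(LinearMap.quotKerEquivOfSurjective g hg).finrank_eq, ← h1,
    LinearMap.finrank_range_of_inj hf] at h2
  rw [← h2, add_comm]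

variable {M : Type u} [AddCommGroup M] [Module D M] [Module (Polynomial D) M] [Module R M]
  [IsScalarTower D R M] [IsScalarTower (Polynomial D) R M] [IsScalarTower D (Polynomial D) M]

private theorem Ef_step {n : ℕ} (T : Fin (n + 1) → R) (a : D)
    (ht : T (Fin.last n) = algebraMap (Polynomial D) R (Polynomial.X - Polynomial.C a))
    (hfin : ∀ r, Module.Finite (Polynomial D) (Hn (oF n) M (fun a => T a.castSucc) r)) :
    (∀ r, Module.Finite D (Hn (oF (n + 1)) M T r)) ∧
    ∑ r ∈ Finset.range (n + 1 + 1), (-1 : ℤ) ^ r *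
      (Module.finrank D (Hn (oF (n + 1)) M T r) : ℤ) =
    ∑ r ∈ Finset.range (n + 1), (-1 : ℤ) ^ r *
      (Module.finrank (Polynomial D) (Hn (oF n) M (fun a => T a.castSucc) r) : ℤ) := by
  have hr := fun r => Ef_rank (D := D) (R := R) (Hn (oF n) M (fun a => T a.castSucc) r) a
    (T (Fin.last n)) ht
  have h0 : Module.Finite D (Hn (oF (n + 1)) M T 0) ∧ Module.finrank D (Hn (oF (n + 1)) M T 0) =
      Module.finrank D (Hn (oF n) M (fun a => T a.castSucc) 0 ⧸ LinearMap.range
        (LinearMap.lsmul R (Hn (oF n) M (fun a => T a.castSucc) 0) (T (Fin.last n)))) := by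
    obtain ⟨ψ⟩ := cone_zero M T
    have := (hr 0).2.1
    exact ⟨Module.Finite.equiv (ψ.restrictScalars D), (ψ.restrictScalars D).finrank_eq.symm⟩
  have h1 : ∀ r, Module.Finite D (Hn (oF (n + 1)) M T (r + 1)) ∧
      Module.finrank D (Hn (oF (n + 1)) M T (r + 1)) =
      Module.finrank D (Hn (oF n) M (fun a => T a.castSucc) (r + 1) ⧸ LinearMap.range
        (LinearMap.lsmul R (Hn (oF n) M (fun a => T a.castSucc) (r + 1)) (T (Fin.last n)))) +
      Module.finrank D (LinearMap.ker (LinearMap.lsmul R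
        (Hn (oF n) M (fun a => T a.castSucc) r) (T (Fin.last n)))) := by
    intro r
    obtain ⟨f, g, hf, hg, hfg⟩ := cone_succ M T r
    have := (hr (r + 1)).2.1
    have := (hr r).1
    exact Ef_seq (f.restrictScalars D) (g.restrictScalars D) hf hg hfg
  refine ⟨fun r => ?_, ?_⟩
  · cases r with
    | zero => exact h0.1
    | succ r => exact (h1 r).1
  · obtain ⟨c, hc⟩ : ∃ c : ℕ → ℤ, ∀ r, c r = (Module.finrank D
        (Hn (oF n) M (fun a => T a.castSucc) r ⧸ LinearMap.range
        (LinearMap.lsmul R (Hn (oF n) M (fun a => T a.castSucc) r) (T (Fin.last n)))) : ℤ) :=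
      ⟨_, fun _ => rfl⟩
    obtain ⟨κ, hκ⟩ : ∃ κ : ℕ → ℤ, ∀ r, κ r = (Module.finrank D (LinearMap.ker
        (LinearMap.lsmul R (Hn (oF n) M (fun a => T a.castSucc) r) (T (Fin.last n)))) : ℤ) :=
      ⟨_, fun _ => rfl⟩
    obtain ⟨ρ, hρ⟩ : ∃ ρ : ℕ → ℤ, ∀ r, ρ r = (Module.finrank (Polynomial D)
        (Hn (oF n) M (fun a => T a.castSucc) r) : ℤ) := ⟨_, fun _ => rfl⟩
    obtain ⟨η, hη⟩ : ∃ η : ℕ → ℤ, ∀ r, η r = (Module.finrank D
        (Hn (oF (n + 1)) M T r) : ℤ) := ⟨_, fun _ => rfl⟩
    have e1 : ∀ r, c r = ρ r + κ r := by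
      intro r
      rw [hc, hκ, hρ]
      exact_mod_cast (hr r).2.2
    have e2 : η 0 = c 0 := by
      rw [hη, hc]
      exact_mod_cast h0.2
    have e3 : ∀ r, η (r + 1) = c (r + 1) + κ r := by
      intro r
      rw [hη, hc, hκ]
      exact_mod_cast (h1 r).2
    have e4 : c (n + 1) = 0 := by
      rw [hc]
      have h2 : Subsingleton (Hn (oF n) M (fun a => T a.castSucc) (n + 1)) :=
        ⟨fun x y => (Hn_zero M _ _ (Nat.lt_succ_self n) x).trans
          (Hn_zero M _ _ (Nat.lt_succ_self n) y).symm⟩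
      have h3 : Subsingleton (Hn (oF n) M (fun a => T a.castSucc) (n + 1) ⧸ LinearMap.range
          (LinearMap.lsmul R (Hn (oF n) M (fun a => T a.castSucc) (n + 1)) (T (Fin.last n)))) :=
        (Submodule.mkQ_surjective _).subsingleton
      have h4 := Module.finrank_zero_of_subsingleton (R := D) (M :=
        (Hn (oF n) M (fun a => T a.castSucc) (n + 1) ⧸ LinearMap.range
          (LinearMap.lsmul R (Hn (oF n) M (fun a => T a.castSucc) (n + 1)) (T (Fin.last n)))))
      exact_mod_cast h4
    have key : ∀ m : ℕ, ∑ r ∈ Finset.range (m + 1), (-1 : ℤ) ^ r * η r =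
        ∑ r ∈ Finset.range m, (-1 : ℤ) ^ r * ρ r + (-1 : ℤ) ^ m * c m := by
      intro m
      induction m with
      | zero => simp [e2]
      | succ m ih =>
        rw [Finset.sum_range_succ, ih, Finset.sum_range_succ _ m, e3, e1 m, pow_succ]
        ring
    have h5 := key (n + 1)
    rw [e4, mul_zero, add_zero] at h5
    simp only [hη, hρ] at h5
    exact h5

end rk

private theorem Ef_zero {D : Type u} [CommRing D] {R : Type u} [CommRing R] [Algebra D R]
    {M : Type u} [AddCommGroup M] [Module D M] [Module R M] [IsScalarTower D R M]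
    (T : Fin 0 → R) : Nonempty (M ≃ₗ[D] Hn (oF 0) M T 0) := by
  have hdop : ∀ ω : Finset (Fin 0) → M, dop (oF 0) T ω = 0 := by
    intro ω
    funext s
    exact Finset.sum_eq_zero fun l _ => l.elim0
  have hmem : ∀ ω : Finset (Fin 0) → M, ω ∈ Zn (M := M) (oF 0) T 0 := by
    intro ω
    refine ⟨fun s hs => absurd ?_ hs, hdop ω⟩
    rw [Finset.card_eq_zero]
    exact Subsingleton.elim _ _
  obtain ⟨ζ, hζ⟩ : ∃ ζ : M →ₗ[D] Zn (M := M) (oF 0) T 0, ∀ m, (ζ m).1 = fun _ => m :=
    ⟨{ toFun := fun m => ⟨fun _ => m, hmem _⟩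
       map_add' := fun _ _ => rfl
       map_smul' := fun _ _ => rfl }, fun _ => rfl⟩
  refine ⟨LinearEquiv.ofBijective (((Bn (M := M) (oF 0) T 0).comap
    (Zn (M := M) (oF 0) T 0).subtype).mkQ.restrictScalars D ∘ₗ ζ) ⟨?_, ?_⟩⟩
  · rw [injective_iff_map_eq_zero]
    intro m hm
    rw [LinearMap.comp_apply, LinearMap.restrictScalars_apply, Submodule.mkQ_apply,
      Submodule.Quotient.mk_eq_zero, Submodule.mem_comap] at hm
    obtain ⟨ω, -, hω⟩ := hm
    have h1 : (ζ m).1 = 0 := hω.symm.trans (hdop ω)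
    rw [hζ] at h1
    exact congrFun h1 ∅
  · intro y
    obtain ⟨z, rfl⟩ := Submodule.mkQ_surjective _ y
    refine ⟨z.1 ∅, ?_⟩
    rw [LinearMap.comp_apply, LinearMap.restrictScalars_apply]
    congr 1
    apply Subtype.ext
    rw [hζ]
    funext s
    rw [Subsingleton.elim s ∅]

private theorem Ef_base (D : Type u) [CommRing D] [IsDomain D] [IsNoetherianRing D]
    (M : Type u) [AddCommGroup M] [Module D M] [Module (MvPolynomial (Fin 0) D) M]
    [IsScalarTower D (MvPolynomial (Fin 0) D) M] [Module.Finite (MvPolynomial (Fin 0) D) M]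
    (T : Fin 0 → MvPolynomial (Fin 0) D) (x : M)
    (hx : ∀ P : MvPolynomial (Fin 0) D, P • x = 0 → P = 0) :
    (∀ r, Module.Finite D (Hn (oF 0) M T r)) ∧
    0 < ∑ r ∈ Finset.range (0 + 1), (-1 : ℤ) ^ r *
      (Module.finrank D (Hn (oF 0) M T r) : ℤ) := by
  obtain ⟨ψ⟩ := Ef_zero (D := D) (M := M) T
  have h1 : Module.Finite D (MvPolynomial (Fin 0) D) :=
    Module.Finite.equiv (MvPolynomial.isEmptyAlgEquiv D (Fin 0)).symm.toLinearEquiv
  have h2 : Module.Finite D M := Module.Finite.trans (MvPolynomial (Fin 0) D) M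
  refine ⟨fun r => ?_, ?_⟩
  · cases r with
    | zero => exact Module.Finite.equiv ψ
    | succ r =>
      have h3 : Subsingleton (Hn (oF 0) M T (r + 1)) :=
        ⟨fun x y => (Hn_zero M _ _ (Nat.succ_pos r) x).trans
          (Hn_zero M _ _ (Nat.succ_pos r) y).symm⟩
      infer_instance
  · rw [zero_add, Finset.sum_range_one, pow_zero, one_mul, ← ψ.finrank_eq]
    have h3 : Function.Injective (LinearMap.toSpanSingleton D M x) := by
      rw [injective_iff_map_eq_zero]
      intro d hd
      rw [LinearMap.toSpanSingleton_apply] at hd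
      have h4 := hx (algebraMap D (MvPolynomial (Fin 0) D) d) (by rw [algebraMap_smul, hd])
      rw [MvPolynomial.algebraMap_eq, MvPolynomial.C_eq_zero] at h4
      exact h4
    have h4 := LinearMap.finrank_le_finrank_of_injective h3
    rw [Module.finrank_self] at h4
    exact_mod_cast h4

private theorem Ef_iso (n : ℕ) (D : Type u) [CommRing D] :
    ∃ e : MvPolynomial (Fin (n + 1)) D ≃ₐ[D] MvPolynomial (Fin n) (Polynomial D),
      (∀ a : Fin n, e (X a.castSucc) = X a) ∧ e (X (Fin.last n)) = C Polynomial.X ∧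
      ∀ d : D, e (C d) = C (Polynomial.C d) := by
  refine ⟨(MvPolynomial.renameEquiv D finSuccEquivLast).trans
    (MvPolynomial.optionEquivRight D (Fin n)), fun a => ?_, ?_, fun d => ?_⟩
  · rw [AlgEquiv.trans_apply, MvPolynomial.renameEquiv_apply, MvPolynomial.rename_X,
      finSuccEquivLast_castSucc, MvPolynomial.optionEquivRight_X_some]
  · rw [AlgEquiv.trans_apply, MvPolynomial.renameEquiv_apply, MvPolynomial.rename_X,
      finSuccEquivLast_last, MvPolynomial.optionEquivRight_X_none]
  · rw [AlgEquiv.trans_apply, MvPolynomial.renameEquiv_apply, MvPolynomial.rename_C,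
      MvPolynomial.optionEquivRight_C]

/-- THE EULER CHARACTERISTIC OF THE KOSZUL HOMOLOGY. `D` a Noetherian domain, `M` a finitely
generated module over `D[X_1, …, X_n]` with an element `x` which is not torsion, `T_a = X_a - α_a`.
Then the Koszul homology modules are finitely generated over `D` and the alternating sum of their
ranks is positive (it is the rank of `M` over `D[X_1, …, X_n]`).
Proof. Induction on `n`. `n = 0`: `H_0 = M`. `n + 1`: by `MvPolynomial.optionEquivRight` and
`finSuccEquivLast` the module `M` is a finitely generated module over `D'[X_1, …, X_n]` with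
`D' = D[X]`, `X` acting as the last variable, and `x` is not torsion. So the homology `H'_r` of the
first `n` operators (the same groups) is finitely generated over `D'` and the alternating sum of the
ranks over `D'` is positive. The last operator acts on `H'_r` as `X - α ∈ D'`. By `cone_zero`,
`cone_succ` and additivity of the rank over `D`:
`rank H_r = rank coker (X - α on H'_r) + rank ker (X - α on H'_{r-1})`, and by `rank_lemma`
`rank_D coker - rank_D ker = rank_{D'} H'_r`. -/
theorem koszul_euler (n : ℕ) : ∀ (D : Type u) [CommRing D] [IsDomain D] [IsNoetherianRing D]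
    (M : Type u) [AddCommGroup M] [Module D M] [Module (MvPolynomial (Fin n) D) M]
    [IsScalarTower D (MvPolynomial (Fin n) D) M] [Module.Finite (MvPolynomial (Fin n) D) M]
    (α : Fin n → D) (x : M) (hx : ∀ P : MvPolynomial (Fin n) D, P • x = 0 → P = 0),
    (∀ r, Module.Finite D (Hn (oF n) M (fun a => (X a - C (α a) : MvPolynomial (Fin n) D)) r)) ∧
    0 < ∑ r ∈ Finset.range (n + 1), (-1 : ℤ) ^ r *
      (Module.finrank D (Hn (oF n) M (fun a => (X a - C (α a) : MvPolynomial (Fin n) D)) r) : ℤ) := by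
  induction n with
  | zero =>
    intro D _ _ _ M _ _ _ _ _ α x hx
    exact Ef_base D M _ x hx
  | succ n ih =>
    intro D _ _ _ M _ _ _ _ _ α x hx
    obtain ⟨e, he1, he2, he3⟩ := Ef_iso n D
    letI i1 : Module (MvPolynomial (Fin n) (Polynomial D)) M := Module.compHom M
      (e.symm : MvPolynomial (Fin n) (Polynomial D) →+* MvPolynomial (Fin (n + 1)) D)
    letI i2 : Module (Polynomial D) M := Module.compHom M
      ((e.symm : MvPolynomial (Fin n) (Polynomial D) →+* MvPolynomial (Fin (n + 1)) D).comp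
        (C : Polynomial D →+* MvPolynomial (Fin n) (Polynomial D)))
    have hs : ∀ (p : MvPolynomial (Fin n) (Polynomial D)) (m : M), p • m = e.symm p • m :=
      fun _ _ => rfl
    have hs' : ∀ (p : Polynomial D) (m : M),
        p • m = e.symm (C p : MvPolynomial (Fin n) (Polynomial D)) • m := fun _ _ => rfl
    have t1 : IsScalarTower (Polynomial D) (MvPolynomial (Fin n) (Polynomial D)) M :=
      ⟨fun p q m => by rw [hs, hs', hs, MvPolynomial.smul_eq_C_mul, map_mul, mul_smul]⟩
    have t2 : IsScalarTower D (MvPolynomial (Fin n) (Polynomial D)) M :=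
      ⟨fun d q m => by rw [hs, hs, map_smul, smul_assoc]⟩
    have t3 : IsScalarTower D (Polynomial D) M :=
      ⟨fun d p m => by
        have h1 : (C (d • p) : MvPolynomial (Fin n) (Polynomial D)) = d • C p := by
          rw [← MvPolynomial.algebraMap_eq, Algebra.algebraMap_eq_smul_one,
            Algebra.algebraMap_eq_smul_one, smul_assoc]
        rw [hs', hs', h1, map_smul, smul_assoc]⟩
    letI i3 : Algebra (MvPolynomial (Fin (n + 1)) D) (MvPolynomial (Fin n) (Polynomial D)) :=
      (e : MvPolynomial (Fin (n + 1)) D →+* MvPolynomial (Fin n) (Polynomial D)).toAlgebra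
    have t4 : IsScalarTower (MvPolynomial (Fin (n + 1)) D)
        (MvPolynomial (Fin n) (Polynomial D)) M :=
      ⟨fun b q m => by
        have h1 : b • q = e b * q := Algebra.smul_def b q
        rw [h1, hs, hs, map_mul, e.symm_apply_apply, mul_smul]⟩
    have fin : Module.Finite (MvPolynomial (Fin n) (Polynomial D)) M :=
      Module.Finite.of_restrictScalars_finite (MvPolynomial (Fin (n + 1)) D) _ M
    have ihh := ih (Polynomial D) M (fun a => Polynomial.C (α a.castSucc)) x (fun P hP => by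
      rw [hs] at hP
      have h1 := hx _ hP
      exact (map_eq_zero_iff e.symm e.symm.injective).1 h1)
    obtain ⟨T, hT⟩ : ∃ T : Fin (n + 1) → MvPolynomial (Fin n) (Polynomial D),
      T = fun a => e (X a - C (α a)) := ⟨_, rfl⟩
    have hTc : (fun a : Fin n => T a.castSucc) =
        fun a => X a - C (Polynomial.C (α a.castSucc)) := by
      funext a
      rw [hT]
      show e (X a.castSucc - C (α a.castSucc)) = _
      rw [map_sub, he1, he3]
    have hTl : T (Fin.last n) = algebraMap (Polynomial D) (MvPolynomial (Fin n) (Polynomial D))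
        (Polynomial.X - Polynomial.C (α (Fin.last n))) := by
      rw [hT]
      show e (X (Fin.last n) - C (α (Fin.last n))) = _
      rw [map_sub e, he2, he3, MvPolynomial.algebraMap_eq, map_sub]
    have hst := Ef_step (D := D) (M := M) T (α (Fin.last n)) hTl (by
      rw [hTc]
      exact ihh.1)
    have htr : ∀ r, Nonempty (Hn (oF (n + 1)) M
        (fun a => (X a - C (α a) : MvPolynomial (Fin (n + 1)) D)) r ≃ₗ[D]
          Hn (oF (n + 1)) M T r) := by
      intro r
      rw [hT]
      exact Ef_tr (oF (n + 1))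
        (e : MvPolynomial (Fin (n + 1)) D →+* MvPolynomial (Fin n) (Polynomial D))
        (fun b m => by
          rw [hs]
          exact congrArg (· • m) (e.symm_apply_apply b)) _ r
    refine ⟨fun r => ?_, ?_⟩
    · obtain ⟨ψ⟩ := htr r
      have := hst.1 r
      exact Module.Finite.equiv ψ.symm
    · have h1 : ∀ r ∈ Finset.range (n + 1 + 1), (-1 : ℤ) ^ r * (Module.finrank D (Hn (oF (n + 1)) M
          (fun a => (X a - C (α a) : MvPolynomial (Fin (n + 1)) D)) r) : ℤ) =
          (-1 : ℤ) ^ r * (Module.finrank D (Hn (oF (n + 1)) M T r) : ℤ) := by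
        intro r _
        obtain ⟨ψ⟩ := htr r
        rw [ψ.finrank_eq]
      rw [Finset.sum_congr rfl h1, hst.2, hTc]
      exact ihh.2

end Pool.Agent.MP_6e5bed_ag_GP
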