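import Pool.Agent.Lib.MP_6e5bed_ag_GP.Car

set_option autoImplicit false
set_option linter.unusedVariables false

/-!
# MP_6e5bed_ag, THEOREM G+: Koszul homology

`Hn o T r` is the homology of degree `r` of the Koszul complex of the family `T : J → R` on the
module `M`; the chains are the functions `Finset J → M`, the differential is `dop o T`.
-/

noncomputable section

namespace Pool.Agent.MP_6e5bed_ag_GP

universe u v

section

variable {J : Type} [Fintype J] [DecidableEq J] (o : J → ℕ) {R : Type u} [CommRing R]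
  {M : Type v} [AddCommGroup M] [Module R M]

/-- the differential as a linear map -/
def dln (T : J → R) : (Finset J → M) →ₗ[R] (Finset J → M) where
  toFun := dop o T
  map_add' := dop_add o T
  map_smul' := fun b ω => dop_smul o T b (fun _ => mul_comm _ _) ω

theorem dln_apply (T : J → R) (ω : Finset J → M) : dln o T ω = dop o T ω := rfl

/-- the chains of degree `r` -/
def Cn (J : Type) [Fintype J] (R : Type u) [CommRing R] (M : Type v) [AddCommGroup M] [Module R M]
    (r : ℕ) : Submodule R (Finset J → M) where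
  carrier := {ω | Crd r ω}
  zero_mem' := fun _ _ => rfl
  add_mem' := fun {x y} hx hy s hs => by
    rw [Pi.add_apply, hx s hs, hy s hs, add_zero]
  smul_mem' := fun b x hx s hs => by
    rw [Pi.smul_apply, hx s hs, smul_zero]

/-- the cycles of degree `r` -/
def Zn (T : J → R) (r : ℕ) : Submodule R (Finset J → M) := Cn J R M r ⊓ LinearMap.ker (dln o T)

/-- the boundaries of degree `r` -/
def Bn (T : J → R) (r : ℕ) : Submodule R (Finset J → M) := (Cn J R M (r + 1)).map (dln o T)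

variable (M) in
/-- The Koszul homology. -/
abbrev Hn (T : J → R) (r : ℕ) : Type v :=
  Zn (M := M) o T r ⧸ (Bn (M := M) o T r).comap (Zn (M := M) o T r).subtype

end

/-- the order of `Fin n` -/
abbrev oF (n : ℕ) : Fin n → ℕ := fun a => (a : ℕ)

theorem oF_inj (n : ℕ) : Function.Injective (oF n) := fun _ _ h => Fin.ext h

section priv

variable {R : Type u} [CommRing R] {M : Type v} [AddCommGroup M] [Module R M] {n : ℕ}

/-- the subset `s` of `Fin n` as a subset of `Fin (n + 1)` -/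
private def EfC_up (s : Finset (Fin n)) : Finset (Fin (n + 1)) := s.map Fin.castSuccEmb

private def EfC_dn (s : Finset (Fin (n + 1))) : Finset (Fin n) :=
  Finset.univ.filter fun a => a.castSucc ∈ s

private theorem EfC_last (s : Finset (Fin n)) : Fin.last n ∉ EfC_up s := by
  unfold EfC_up
  rw [Finset.mem_map]
  rintro ⟨a, -, h⟩
  exact (Fin.castSucc_lt_last a).ne h

private theorem EfC_mem (s : Finset (Fin n)) (a : Fin n) : a.castSucc ∈ EfC_up s ↔ a ∈ s := by
  unfold EfC_up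
  rw [Finset.mem_map]
  constructor
  · rintro ⟨b, hb, h⟩
    have h1 : b = a := Fin.castSucc_injective n h
    rwa [h1] at hb
  · intro h
    exact ⟨a, h, rfl⟩

private theorem EfC_dn_up (s : Finset (Fin n)) : EfC_dn (EfC_up s) = s := by
  ext a
  unfold EfC_dn
  rw [Finset.mem_filter, EfC_mem]
  simp

private theorem EfC_dn_in (s : Finset (Fin n)) : EfC_dn (insert (Fin.last n) (EfC_up s)) = s := by
  ext a
  unfold EfC_dn
  rw [Finset.mem_filter, Finset.mem_insert, EfC_mem]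
  have h : a.castSucc ≠ Fin.last n := (Fin.castSucc_lt_last a).ne
  simp [h]

private theorem EfC_cases (s : Finset (Fin (n + 1))) :
    (Fin.last n ∉ s ∧ s = EfC_up (EfC_dn s)) ∨
      (Fin.last n ∈ s ∧ s = insert (Fin.last n) (EfC_up (EfC_dn s))) := by
  have h1 : ∀ a : Fin n, a.castSucc ∈ EfC_up (EfC_dn s) ↔ a.castSucc ∈ s := by
    intro a
    rw [EfC_mem]
    unfold EfC_dn
    rw [Finset.mem_filter]
    simp
  by_cases h : Fin.last n ∈ s
  · right
    refine ⟨h, ?_⟩
    ext x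
    rcases Fin.eq_castSucc_or_eq_last x with ⟨a, rfl⟩ | rfl
    · rw [Finset.mem_insert, h1]
      have h2 : a.castSucc ≠ Fin.last n := (Fin.castSucc_lt_last a).ne
      simp [h2]
    · simp [h]
  · left
    refine ⟨h, ?_⟩
    ext x
    rcases Fin.eq_castSucc_or_eq_last x with ⟨a, rfl⟩ | rfl
    · rw [h1]
    · simp [h, EfC_last]

private theorem EfC_card (s : Finset (Fin n)) : (EfC_up s).card = s.card := Finset.card_map _

private theorem EfC_card' (s : Finset (Fin n)) :
    (insert (Fin.last n) (EfC_up s)).card = s.card + 1 := by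
  rw [Finset.card_insert_of_notMem (EfC_last s), EfC_card]

private theorem EfC_ins (l : Fin n) (s : Finset (Fin n)) :
    insert l.castSucc (EfC_up s) = EfC_up (insert l s) := by
  unfold EfC_up
  rw [Finset.map_insert]
  rfl

private theorem EfC_compl (s : Finset (Fin n)) :
    Finset.univ \ EfC_up s = insert (Fin.last n) (EfC_up (Finset.univ \ s)) := by
  ext x
  rcases Fin.eq_castSucc_or_eq_last x with ⟨a, rfl⟩ | rfl
  · have h2 : a.castSucc ≠ Fin.last n := (Fin.castSucc_lt_last a).ne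
    rw [Finset.mem_insert, EfC_mem, Finset.mem_sdiff, Finset.mem_sdiff, EfC_mem]
    simp [h2]
  · simp [EfC_last]

private theorem EfC_compl' (s : Finset (Fin n)) :
    Finset.univ \ insert (Fin.last n) (EfC_up s) = EfC_up (Finset.univ \ s) := by
  ext x
  rcases Fin.eq_castSucc_or_eq_last x with ⟨a, rfl⟩ | rfl
  · have h2 : a.castSucc ≠ Fin.last n := (Fin.castSucc_lt_last a).ne
    rw [Finset.mem_sdiff, Finset.mem_insert, EfC_mem, EfC_mem, Finset.mem_sdiff]
    simp [h2]
  · simp [EfC_last]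

private theorem EfC_sgn (l : Fin n) (s : Finset (Fin n)) :
    sgn (oF (n + 1)) l.castSucc (EfC_up s) = sgn (oF n) l s := by
  unfold sgn EfC_up
  rw [Finset.filter_map, Finset.card_map]
  rfl

private theorem EfC_sgn' (l : Fin n) (s : Finset (Fin n)) :
    sgn (oF (n + 1)) l.castSucc (insert (Fin.last n) (EfC_up s)) = sgn (oF n) l s := by
  have h1 : ¬ oF (n + 1) (Fin.last n) < oF (n + 1) l.castSucc := by
    have h1 := l.2
    show ¬ ((Fin.last n : Fin (n + 1)) : ℕ) < (l.castSucc : ℕ)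
    rw [Fin.val_last, Fin.val_castSucc]
    omega
  refine Eq.trans ?_ (EfC_sgn l s)
  unfold sgn
  rw [Finset.filter_insert, if_neg h1]

private theorem EfC_sgn_last (s : Finset (Fin n)) :
    sgn (oF (n + 1)) (Fin.last n) (EfC_up s) = (-1) ^ s.card := by
  unfold sgn
  rw [Finset.filter_true_of_mem, EfC_card]
  intro x hx
  rcases Fin.eq_castSucc_or_eq_last x with ⟨a, rfl⟩ | rfl
  · have h1 := a.2
    show (a.castSucc : ℕ) < ((Fin.last n : Fin (n + 1)) : ℕ)
    rw [Fin.val_last, Fin.val_castSucc]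
    exact h1
  · exact absurd hx (EfC_last s)

variable (R M) in
private def EfC_p0 : (Finset (Fin (n + 1)) → M) →ₗ[R] (Finset (Fin n) → M) :=
  LinearMap.funLeft R M EfC_up

variable (R M) in
private def EfC_p1 : (Finset (Fin (n + 1)) → M) →ₗ[R] (Finset (Fin n) → M) :=
  LinearMap.funLeft R M fun s => insert (Fin.last n) (EfC_up s)

variable (R M) in
private def EfC_i0 : (Finset (Fin n) → M) →ₗ[R] (Finset (Fin (n + 1)) → M) where
  toFun α := fun s => if Fin.last n ∈ s then 0 else α (EfC_dn s)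
  map_add' := fun α β => by
    funext s
    by_cases h : Fin.last n ∈ s
    · simp [h]
    · simp [h]
  map_smul' := fun b α => by
    funext s
    by_cases h : Fin.last n ∈ s
    · simp [h]
    · simp [h]

variable (R M) in
private def EfC_i1 : (Finset (Fin n) → M) →ₗ[R] (Finset (Fin (n + 1)) → M) where
  toFun α := fun s => if Fin.last n ∈ s then α (EfC_dn s) else 0
  map_add' := fun α β => by
    funext s
    by_cases h : Fin.last n ∈ s
    · simp [h]
    · simp [h]
  map_smul' := fun b α => by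
    funext s
    by_cases h : Fin.last n ∈ s
    · simp [h]
    · simp [h]

private theorem EfC_p0i0 (α : Finset (Fin n) → M) : EfC_p0 R M (EfC_i0 R M α) = α := by
  funext s
  show (if Fin.last n ∈ EfC_up s then 0 else α (EfC_dn (EfC_up s))) = α s
  rw [if_neg (EfC_last s), EfC_dn_up]

private theorem EfC_p1i0 (α : Finset (Fin n) → M) : EfC_p1 R M (EfC_i0 R M α) = 0 := by
  funext s
  show (if Fin.last n ∈ insert (Fin.last n) (EfC_up s) then 0 else _) = (0 : M)
  rw [if_pos (Finset.mem_insert_self _ _)]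

private theorem EfC_p0i1 (α : Finset (Fin n) → M) : EfC_p0 R M (EfC_i1 R M α) = 0 := by
  funext s
  show (if Fin.last n ∈ EfC_up s then α (EfC_dn (EfC_up s)) else 0) = 0
  rw [if_neg (EfC_last s)]

private theorem EfC_p1i1 (α : Finset (Fin n) → M) : EfC_p1 R M (EfC_i1 R M α) = α := by
  funext s
  show (if Fin.last n ∈ insert (Fin.last n) (EfC_up s) then
    α (EfC_dn (insert (Fin.last n) (EfC_up s))) else 0) = α s
  rw [if_pos (Finset.mem_insert_self _ _), EfC_dn_in]

variable (R) in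
private theorem EfC_ext {ω ω' : Finset (Fin (n + 1)) → M} (h0 : EfC_p0 R M ω = EfC_p0 R M ω')
    (h1 : EfC_p1 R M ω = EfC_p1 R M ω') : ω = ω' := by
  funext s
  rcases EfC_cases s with ⟨-, h⟩ | ⟨-, h⟩
  · rw [h]
    exact congrFun h0 (EfC_dn s)
  · rw [h]
    exact congrFun h1 (EfC_dn s)

/-- the sign -/
private def EfC_e (r : ℕ) : ℤ := (-1) ^ r

private theorem EfC_ee (r : ℕ) : EfC_e r * EfC_e r = 1 := by
  unfold EfC_e
  rw [← mul_pow]
  norm_num

variable (T : Fin (n + 1) → R)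

private theorem EfC_p1d (ω : Finset (Fin (n + 1)) → M) :
    EfC_p1 R M (dop (oF (n + 1)) T ω) =
      dop (oF n) (fun a => T a.castSucc) (EfC_p1 R M ω) := by
  funext s
  show ∑ l ∈ Finset.univ \ insert (Fin.last n) (EfC_up s),
      sgn (oF (n + 1)) l (insert (Fin.last n) (EfC_up s)) • T l •
        ω (insert l (insert (Fin.last n) (EfC_up s))) =
    ∑ l ∈ Finset.univ \ s, sgn (oF n) l s • T l.castSucc •
      ω (insert (Fin.last n) (EfC_up (insert l s)))
  rw [EfC_compl']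
  unfold EfC_up
  rw [Finset.sum_map]
  refine Finset.sum_congr rfl fun l _ => ?_
  show sgn (oF (n + 1)) l.castSucc (insert (Fin.last n) (EfC_up s)) • T l.castSucc •
    ω (insert l.castSucc (insert (Fin.last n) (EfC_up s))) = _
  rw [EfC_sgn', Finset.insert_comm, EfC_ins]
  rfl

private theorem EfC_p0d (ω : Finset (Fin (n + 1)) → M) (s : Finset (Fin n)) :
    EfC_p0 R M (dop (oF (n + 1)) T ω) s =
      EfC_e s.card • T (Fin.last n) • EfC_p1 R M ω s +
        dop (oF n) (fun a => T a.castSucc) (EfC_p0 R M ω) s := by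
  show ∑ l ∈ Finset.univ \ EfC_up s, sgn (oF (n + 1)) l (EfC_up s) • T l •
        ω (insert l (EfC_up s)) =
    EfC_e s.card • T (Fin.last n) • ω (insert (Fin.last n) (EfC_up s)) +
      ∑ l ∈ Finset.univ \ s, sgn (oF n) l s • T l.castSucc • ω (EfC_up (insert l s))
  rw [EfC_compl, Finset.sum_insert (EfC_last _), EfC_sgn_last]
  congr 1
  unfold EfC_up
  rw [Finset.sum_map]
  refine Finset.sum_congr rfl fun l _ => ?_
  show sgn (oF (n + 1)) l.castSucc (EfC_up s) • T l.castSucc •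
    ω (insert l.castSucc (EfC_up s)) = _
  rw [EfC_sgn, EfC_ins]
  rfl

private theorem EfC_crd0 {r : ℕ} {ω : Finset (Fin (n + 1)) → M} (h : Crd r ω) :
    Crd r (EfC_p0 R M ω) := fun s hs => h (EfC_up s) (by rw [EfC_card]; exact hs)

private theorem EfC_crd1 {r : ℕ} {ω : Finset (Fin (n + 1)) → M} (h : Crd (r + 1) ω) :
    Crd r (EfC_p1 R M ω) := fun s hs =>
  h (insert (Fin.last n) (EfC_up s)) (by rw [EfC_card']; omega)

private theorem EfC_crd1z {ω : Finset (Fin (n + 1)) → M} (h : Crd 0 ω) :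
    EfC_p1 R M ω = 0 := by
  funext s
  exact h (insert (Fin.last n) (EfC_up s)) (by rw [EfC_card']; omega)

private theorem EfC_crdi0 {r : ℕ} {α : Finset (Fin n) → M} (h : Crd r α) :
    Crd r (EfC_i0 R M α) := by
  intro s hs
  rcases EfC_cases s with ⟨h1, h2⟩ | ⟨h1, h2⟩
  · show (if Fin.last n ∈ s then 0 else α (EfC_dn s)) = 0
    rw [if_neg h1]
    refine h _ ?_
    rw [h2, EfC_card] at hs
    exact hs
  · show (if Fin.last n ∈ s then 0 else α (EfC_dn s)) = 0
    rw [if_pos h1]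

private theorem EfC_crdi1 {r : ℕ} {α : Finset (Fin n) → M} (h : Crd r α) :
    Crd (r + 1) (EfC_i1 R M α) := by
  intro s hs
  rcases EfC_cases s with ⟨h1, h2⟩ | ⟨h1, h2⟩
  · show (if Fin.last n ∈ s then α (EfC_dn s) else 0) = 0
    rw [if_neg h1]
  · show (if Fin.last n ∈ s then α (EfC_dn s) else 0) = 0
    rw [if_pos h1]
    refine h _ ?_
    rw [h2, EfC_card'] at hs
    omega

/-- the differential of a chain of degree `r + 1`, lower part -/
private theorem EfC_p0dr {r : ℕ} {ω : Finset (Fin (n + 1)) → M} (h : Crd (r + 1) ω) :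
    EfC_p0 R M (dop (oF (n + 1)) T ω) =
      EfC_e r • T (Fin.last n) • EfC_p1 R M ω +
        dop (oF n) (fun a => T a.castSucc) (EfC_p0 R M ω) := by
  funext s
  rw [EfC_p0d, Pi.add_apply, Pi.smul_apply, Pi.smul_apply]
  congr 1
  by_cases hs : s.card = r
  · rw [hs]
  · rw [EfC_crd1 (R := R) h s hs, smul_zero, smul_zero, smul_zero]

private theorem EfC_p0di0 (α : Finset (Fin n) → M) :
    dop (oF (n + 1)) T (EfC_i0 R M α) =
      EfC_i0 R M (dop (oF n) (fun a => T a.castSucc) α) := by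
  refine EfC_ext R ?_ ?_
  · funext s
    rw [EfC_p0d, EfC_p1i0, EfC_p0i0, EfC_p0i0, Pi.zero_apply, smul_zero, smul_zero, zero_add]
  · rw [EfC_p1d, EfC_p1i0, EfC_p1i0]
    funext s
    show ∑ l ∈ Finset.univ \ s, sgn (oF n) l s • T l.castSucc • (0 : M) = 0
    simp

private theorem EfC_di1 {r : ℕ} {α : Finset (Fin n) → M} (h : Crd r α)
    (hd : dop (oF n) (fun a => T a.castSucc) α = 0) :
    dop (oF (n + 1)) T (EfC_i1 R M α) = EfC_i0 R M (EfC_e r • T (Fin.last n) • α) := by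
  refine EfC_ext R ?_ ?_
  · rw [EfC_p0dr T (EfC_crdi1 h), EfC_p1i1, EfC_p0i1, EfC_p0i0]
    have h0 : dop (oF n) (fun a => T a.castSucc) (0 : Finset (Fin n) → M) = 0 :=
      map_zero (dln (oF n) (fun a => T a.castSucc))
    rw [h0, add_zero]
  · rw [EfC_p1d, EfC_p1i1, hd, EfC_p1i0]

private theorem EfC_mk {J : Type} [Fintype J] [DecidableEq J] {o : J → ℕ} {T : J → R} {r : ℕ}
    (z : Zn (M := M) o T r) : (Submodule.Quotient.mk z : Hn o M T r) = 0 ↔
      ∃ η : Finset J → M, Crd (r + 1) η ∧ dop o T η = z.1 := by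
  rw [Submodule.Quotient.mk_eq_zero]
  exact Iff.rfl

private def EfC_iZ (r : ℕ) : Zn (M := M) (oF n) (fun a => T a.castSucc) r →ₗ[R]
    Zn (M := M) (oF (n + 1)) T r :=
  (EfC_i0 R M).restrict fun α hα => ⟨EfC_crdi0 hα.1, by
    have h1 : dop (oF n) (fun a => T a.castSucc) α = 0 := hα.2
    show dop (oF (n + 1)) T (EfC_i0 R M α) = 0
    rw [EfC_p0di0, h1, map_zero]⟩

private def EfC_iH (r : ℕ) : Hn (oF n) M (fun a => T a.castSucc) r →ₗ[R]
    Hn (oF (n + 1)) M T r :=
  Submodule.mapQ _ _ (EfC_iZ T r) fun z hz => by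
    obtain ⟨η, h1, h2⟩ := hz
    exact ⟨EfC_i0 R M η, EfC_crdi0 h1, (EfC_p0di0 T η).trans (congrArg _ h2)⟩

private theorem EfC_iH_t (r : ℕ) :
    LinearMap.range (LinearMap.lsmul R (Hn (oF n) M (fun a => T a.castSucc) r)
      (T (Fin.last n))) ≤ LinearMap.ker (EfC_iH (M := M) T r) := by
  rintro _ ⟨x, rfl⟩
  obtain ⟨z, rfl⟩ := Submodule.Quotient.mk_surjective _ x
  rw [LinearMap.mem_ker, LinearMap.lsmul_apply, ← Submodule.Quotient.mk_smul]
  refine (EfC_mk (EfC_iZ T r (T (Fin.last n) • z))).2 ?_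
  refine ⟨EfC_e r • EfC_i1 R M z.1, ?_, ?_⟩
  · intro s hs
    rw [Pi.smul_apply, EfC_crdi1 z.2.1 s hs, smul_zero]
  · have h1 : dop (oF (n + 1)) T (EfC_e r • EfC_i1 R M z.1) =
        EfC_e r • dop (oF (n + 1)) T (EfC_i1 R M z.1) :=
      map_zsmul (dln (oF (n + 1)) T) (EfC_e r) (EfC_i1 R M z.1)
    rw [h1, EfC_di1 T z.2.1 z.2.2, ← map_zsmul, smul_smul, EfC_ee, one_smul]
    rfl

private def EfC_f (r : ℕ) : (Hn (oF n) M (fun a => T a.castSucc) r ⧸
      LinearMap.range (LinearMap.lsmul R (Hn (oF n) M (fun a => T a.castSucc) r)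
        (T (Fin.last n)))) →ₗ[R] Hn (oF (n + 1)) M T r :=
  Submodule.liftQ _ (EfC_iH T r) (EfC_iH_t T r)

private theorem EfC_f_inj (r : ℕ) : Function.Injective (EfC_f (M := M) T r) := by
  rw [injective_iff_map_eq_zero]
  intro x hx
  obtain ⟨y, rfl⟩ := Submodule.Quotient.mk_surjective _ x
  obtain ⟨z, rfl⟩ := Submodule.Quotient.mk_surjective _ y
  have h1 : (Submodule.Quotient.mk (EfC_iZ T r z) : Hn (oF (n + 1)) M T r) = 0 := hx
  rw [EfC_mk] at h1
  obtain ⟨η, h2, h3⟩ := h1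
  have h4 : dop (oF (n + 1)) T η = EfC_i0 R M z.1 := h3
  have h5 := EfC_p1d (R := R) T η
  rw [h4, EfC_p1i0] at h5
  have h6 := EfC_p0dr T h2
  rw [h4, EfC_p0i0] at h6
  rw [Submodule.Quotient.mk_eq_zero]
  obtain ⟨w, hw⟩ : ∃ w : Zn (M := M) (oF n) (fun a => T a.castSucc) r,
      w.1 = EfC_e r • EfC_p1 R M η := by
    refine ⟨⟨EfC_e r • EfC_p1 R M η, ?_, ?_⟩, rfl⟩
    · intro s hs
      rw [Pi.smul_apply, EfC_crd1 (R := R) h2 s hs, smul_zero]
    · show dln (oF n) (fun a => T a.castSucc) (EfC_e r • EfC_p1 R M η) = 0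
      rw [map_zsmul, dln_apply, ← h5, smul_zero]
  refine ⟨Submodule.Quotient.mk w, ?_⟩
  rw [LinearMap.lsmul_apply, ← Submodule.Quotient.mk_smul, ← sub_eq_zero,
    ← Submodule.Quotient.mk_sub, EfC_mk]
  refine ⟨-EfC_p0 R M η, ?_, ?_⟩
  · intro s hs
    rw [Pi.neg_apply, EfC_crd0 (R := R) h2 s hs, neg_zero]
  · have h7 : dop (oF n) (fun a => T a.castSucc) (-EfC_p0 R M η) =
        -dop (oF n) (fun a => T a.castSucc) (EfC_p0 R M η) :=
      map_neg (dln (oF n) (fun a => T a.castSucc)) (EfC_p0 R M η)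
    have h8 : (T (Fin.last n) • w - z).1 = T (Fin.last n) • w.1 - z.1 := rfl
    rw [h7, h8, hw, h6, smul_comm]
    abel

private theorem EfC_f_mk (r : ℕ) (z : Zn (M := M) (oF n) (fun a => T a.castSucc) r) :
    EfC_f (M := M) T r (Submodule.Quotient.mk (Submodule.Quotient.mk z)) =
      Submodule.Quotient.mk (EfC_iZ T r z) := rfl

private def EfC_pZ (r : ℕ) : Zn (M := M) (oF (n + 1)) T (r + 1) →ₗ[R]
    Zn (M := M) (oF n) (fun a => T a.castSucc) r :=
  (EfC_p1 R M).restrict fun ω hω => ⟨EfC_crd1 hω.1, by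
    have h1 : dop (oF (n + 1)) T ω = 0 := hω.2
    show dop (oF n) (fun a => T a.castSucc) (EfC_p1 R M ω) = 0
    rw [← EfC_p1d, h1, map_zero]⟩

private def EfC_pH (r : ℕ) : Hn (oF (n + 1)) M T (r + 1) →ₗ[R]
    Hn (oF n) M (fun a => T a.castSucc) r :=
  Submodule.mapQ _ _ (EfC_pZ T r) fun z hz => by
    obtain ⟨η, h1, h2⟩ := hz
    exact ⟨EfC_p1 R M η, EfC_crd1 h1, (EfC_p1d T η).symm.trans (congrArg _ h2)⟩

private theorem EfC_pH_t (r : ℕ) (x : Hn (oF (n + 1)) M T (r + 1)) :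
    EfC_pH (M := M) T r x ∈ LinearMap.ker (LinearMap.lsmul R (Hn (oF n) M (fun a => T a.castSucc) r)
      (T (Fin.last n))) := by
  obtain ⟨z, rfl⟩ := Submodule.Quotient.mk_surjective _ x
  rw [LinearMap.mem_ker, LinearMap.lsmul_apply]
  refine (EfC_mk (T (Fin.last n) • EfC_pZ T r z)).2 ?_
  refine ⟨-(EfC_e r • EfC_p0 R M z.1), ?_, ?_⟩
  · intro s hs
    rw [Pi.neg_apply, Pi.smul_apply, EfC_crd0 (R := R) z.2.1 s hs, smul_zero, neg_zero]
  · have h1 : dop (oF n) (fun a => T a.castSucc) (-(EfC_e r • EfC_p0 R M z.1)) =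
        -(EfC_e r • dop (oF n) (fun a => T a.castSucc) (EfC_p0 R M z.1)) := by
      have h2 := map_neg (dln (oF n) (fun a => T a.castSucc)) (EfC_e r • EfC_p0 R M z.1)
      rw [map_zsmul] at h2
      exact h2
    have h3 := EfC_p0dr T z.2.1
    have h4 : dop (oF (n + 1)) T z.1 = 0 := z.2.2
    rw [h4, map_zero] at h3
    have h5 : dop (oF n) (fun a => T a.castSucc) (EfC_p0 R M z.1) =
        -(EfC_e r • T (Fin.last n) • EfC_p1 R M z.1) := (neg_eq_of_add_eq_zero_right h3.symm).symm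
    rw [h1, h5, smul_neg, neg_neg, smul_smul, EfC_ee, one_smul]
    rfl

private def EfC_g (r : ℕ) : Hn (oF (n + 1)) M T (r + 1) →ₗ[R]
    LinearMap.ker (LinearMap.lsmul R (Hn (oF n) M (fun a => T a.castSucc) r)
      (T (Fin.last n))) :=
  (EfC_pH T r).codRestrict _ (EfC_pH_t T r)

private theorem EfC_g_surj (r : ℕ) : Function.Surjective (EfC_g (M := M) T r) := by
  rintro ⟨x, hx⟩
  obtain ⟨z, rfl⟩ := Submodule.Quotient.mk_surjective _ x
  rw [LinearMap.mem_ker, LinearMap.lsmul_apply] at hx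
  obtain ⟨γ, h1, h2⟩ := (EfC_mk (T (Fin.last n) • z)).1 hx
  have h2' : dop (oF n) (fun a => T a.castSucc) γ = T (Fin.last n) • z.1 := h2
  obtain ⟨ω, hω⟩ : ∃ ω, ω = EfC_i0 R M (-(EfC_e r • γ)) + EfC_i1 R M z.1 := ⟨_, rfl⟩
  have hc : Crd (r + 1) ω := by
    intro s hs
    have h3 : Crd (r + 1) (-(EfC_e r • γ)) := by
      intro s hs
      rw [Pi.neg_apply, Pi.smul_apply, h1 s hs, smul_zero, neg_zero]
    rw [hω, Pi.add_apply, EfC_crdi0 h3 s hs, EfC_crdi1 z.2.1 s hs, add_zero]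
  have hp0 : EfC_p0 R M ω = -(EfC_e r • γ) := by
    rw [hω, map_add, EfC_p0i0, EfC_p0i1, add_zero]
  have hp1 : EfC_p1 R M ω = z.1 := by
    rw [hω, map_add, EfC_p1i0, EfC_p1i1, zero_add]
  have hd : dop (oF (n + 1)) T ω = 0 := by
    refine EfC_ext R ?_ ?_
    · have h3 : dop (oF n) (fun a => T a.castSucc) (-(EfC_e r • γ)) =
          -(EfC_e r • dop (oF n) (fun a => T a.castSucc) γ) := by
        have h2 := map_neg (dln (oF n) (fun a => T a.castSucc)) (EfC_e r • γ)
        rw [map_zsmul] at h2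
        exact h2
      rw [EfC_p0dr T hc, hp0, hp1, h3, h2', add_neg_cancel, map_zero]
    · have h3 : dop (oF n) (fun a => T a.castSucc) z.1 = 0 := z.2.2
      rw [EfC_p1d, hp1, h3, map_zero]
  refine ⟨Submodule.Quotient.mk ⟨ω, hc, hd⟩, ?_⟩
  apply Subtype.ext
  show (Submodule.Quotient.mk (EfC_pZ T r ⟨ω, hc, hd⟩) :
    Hn (oF n) M (fun a => T a.castSucc) r) = Submodule.Quotient.mk z
  congr 1
  exact Subtype.ext hp1

private theorem EfC_exact (r : ℕ) :
    Function.Exact (EfC_f (M := M) T (r + 1)) (EfC_g (M := M) T r) := by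
  intro x
  obtain ⟨z, rfl⟩ := Submodule.Quotient.mk_surjective _ x
  constructor
  · intro h
    have h1 : (Submodule.Quotient.mk (EfC_pZ T r z) :
        Hn (oF n) M (fun a => T a.castSucc) r) = 0 := congrArg Subtype.val h
    obtain ⟨γ, h2, h3⟩ := (EfC_mk (EfC_pZ T r z)).1 h1
    have h3' : dop (oF n) (fun a => T a.castSucc) γ = EfC_p1 R M z.1 := h3
    obtain ⟨ω, hω⟩ : ∃ ω, ω = z.1 - dop (oF (n + 1)) T (EfC_i1 R M γ) := ⟨_, rfl⟩
    have hp1 : EfC_p1 R M ω = 0 := by
      rw [hω, map_sub, EfC_p1d, EfC_p1i1, h3', sub_self]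
    have hi : ω = EfC_i0 R M (EfC_p0 R M ω) := by
      refine EfC_ext R ?_ ?_
      · rw [EfC_p0i0]
      · rw [hp1, EfC_p1i0]
    have hc : Crd (r + 1) ω := by
      intro s hs
      rw [hω, Pi.sub_apply, z.2.1 s hs, (EfC_crdi1 (R := R) h2).dop (oF (n + 1)) T s hs, sub_zero]
    have hd : dop (oF (n + 1)) T ω = 0 := by
      have h4 : dop (oF (n + 1)) T ω = dop (oF (n + 1)) T z.1 -
          dop (oF (n + 1)) T (dop (oF (n + 1)) T (EfC_i1 R M γ)) := by
        rw [hω]
        exact map_sub (dln (oF (n + 1)) T) _ _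
      have h5 : dop (oF (n + 1)) T z.1 = 0 := z.2.2
      rw [h4, h5, dop_sq (oF (n + 1)) (oF_inj (n + 1)) T (fun _ _ => mul_comm _ _), sub_zero]
    have hα : dop (oF n) (fun a => T a.castSucc) (EfC_p0 R M ω) = 0 := by
      have h4 := EfC_p0di0 (R := R) T (EfC_p0 R M ω)
      rw [← hi, hd] at h4
      have h5 := congrArg (EfC_p0 R M) h4
      rw [EfC_p0i0, map_zero] at h5
      exact h5.symm
    refine ⟨Submodule.Quotient.mk (Submodule.Quotient.mk
      ⟨EfC_p0 R M ω, EfC_crd0 hc, hα⟩), ?_⟩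
    rw [EfC_f_mk, ← sub_eq_zero, ← Submodule.Quotient.mk_sub, EfC_mk]
    refine ⟨-EfC_i1 R M γ, ?_, ?_⟩
    · intro s hs
      rw [Pi.neg_apply, EfC_crdi1 h2 s hs, neg_zero]
    · have h4 : dop (oF (n + 1)) T (-EfC_i1 R M γ) = -dop (oF (n + 1)) T (EfC_i1 R M γ) :=
        map_neg (dln (oF (n + 1)) T) _
      rw [h4]
      show _ = EfC_i0 R M (EfC_p0 R M ω) - z.1
      rw [← hi, hω]
      abel
  · rintro ⟨y, hy⟩
    obtain ⟨y, rfl⟩ := Submodule.Quotient.mk_surjective _ y
    obtain ⟨α, rfl⟩ := Submodule.Quotient.mk_surjective _ y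
    rw [← hy, EfC_f_mk]
    apply Subtype.ext
    show (Submodule.Quotient.mk (EfC_pZ T r (EfC_iZ T (r + 1) α)) :
      Hn (oF n) M (fun a => T a.castSucc) r) = 0
    have h1 : EfC_pZ T r (EfC_iZ T (r + 1) α) = 0 := Subtype.ext (EfC_p1i0 (R := R) α.1)
    rw [h1]
    exact Submodule.Quotient.mk_zero _

private theorem EfC_f_surj : Function.Surjective (EfC_f (M := M) T 0) := by
  intro x
  obtain ⟨z, rfl⟩ := Submodule.Quotient.mk_surjective _ x
  have h1 := EfC_crd1z (R := R) z.2.1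
  have hi : z.1 = EfC_i0 R M (EfC_p0 R M z.1) := by
    refine EfC_ext R ?_ ?_
    · rw [EfC_p0i0]
    · rw [h1, EfC_p1i0]
  have hc : Crd 0 (EfC_p0 R M z.1) := EfC_crd0 z.2.1
  refine ⟨Submodule.Quotient.mk (Submodule.Quotient.mk
    ⟨EfC_p0 R M z.1, hc, dop_crd_zero (oF n) hc _⟩), ?_⟩
  rw [EfC_f_mk]
  congr 1
  exact Subtype.ext hi.symm

end priv

section cone

variable {R : Type u} [CommRing R] (M : Type v) [AddCommGroup M] [Module R M]

/-- THE CONE, degree zero: `H_0` of `n + 1` operators is the cokernel of the last operator on the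
`H_0` of the first `n` operators. -/
theorem cone_zero {n : ℕ} (T : Fin (n + 1) → R) :
    Nonempty ((Hn (oF n) M (fun a => T a.castSucc) 0 ⧸
      LinearMap.range (LinearMap.lsmul R (Hn (oF n) M (fun a => T a.castSucc) 0)
        (T (Fin.last n)))) ≃ₗ[R] Hn (oF (n + 1)) M T 0) := by
  exact ⟨LinearEquiv.ofBijective (EfC_f T 0) ⟨EfC_f_inj T 0, EfC_f_surj T⟩⟩

/-- THE CONE, degree `r + 1`. The subsets of `Fin (n + 1)` are the subsets `s` of `Fin n` and the
`s ∪ {n}`. For `ω` put `ω_0 s = ω s`, `ω_1 s = ω (s ∪ {n})`. As `n` is the largest element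
`(dω)_0 s = (d ω_0) s + (-1)^(card s) T_n ω_1 s`, `(dω)_1 = d ω_1`. Hence the exact sequence
`0 → coker (T_n on H_{r+1}) → H_{r+1} → ker (T_n on H_r) → 0`, `[ω] ↦ [ω_1]` (up to sign). -/
theorem cone_succ {n : ℕ} (T : Fin (n + 1) → R) (r : ℕ) :
    ∃ (f : (Hn (oF n) M (fun a => T a.castSucc) (r + 1) ⧸
        LinearMap.range (LinearMap.lsmul R (Hn (oF n) M (fun a => T a.castSucc) (r + 1))
          (T (Fin.last n)))) →ₗ[R] Hn (oF (n + 1)) M T (r + 1))
      (g : Hn (oF (n + 1)) M T (r + 1) →ₗ[R]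
        LinearMap.ker (LinearMap.lsmul R (Hn (oF n) M (fun a => T a.castSucc) r)
          (T (Fin.last n)))),
      Function.Injective f ∧ Function.Surjective g ∧ Function.Exact f g := by
  exact ⟨EfC_f T (r + 1), EfC_g T r, EfC_f_inj T (r + 1), EfC_g_surj T r, EfC_exact T r⟩

/-- the Koszul homology of degree larger than `n` is zero -/
theorem Hn_zero {n : ℕ} (T : Fin n → R) (r : ℕ) (hr : n < r) (x : Hn (oF n) M T r) : x = 0 := by
  obtain ⟨z, rfl⟩ := Submodule.Quotient.mk_surjective _ x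
  have h1 : z = 0 := by
    apply Subtype.ext
    funext s
    refine z.2.1 s ?_
    have h2 := Finset.card_le_univ s
    rw [Fintype.card_fin] at h2
    omega
  rw [h1]
  exact Submodule.Quotient.mk_zero _

end cone

end Pool.Agent.MP_6e5bed_ag_GP
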