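import Pool.Agent.Lib.MP_6e5bed_ag_GP.Box
import Pool.Agent.Lib.MP_6e5bed_ag_GG.GD

set_option autoImplicit false
set_option linter.unusedVariables false

/-!
# MP_6e5bed_ag, THEOREM G+: the lattice of the generic data

For generic data `g` of `A` at the chart `m` the left sheaf `lat g` has the sections
`A_c ⧸ ker (A_c → S)` for `c ≤ m` and zero otherwise.
-/

noncomputable section

namespace Pool.Agent.MP_6e5bed_ag_GP

open Pool.Agent.MP_6e5bed_ag_GG
open scoped TensorProduct

universe u

variable {k : Type u} [Field k] {i : Type} [Fintype i] {A : CA k i} {m : Ch i}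

private theorem LatD_pow (A : CA k i) (c : Ch i) (f : RR k c.1) (n : ℕ) (x : A.A c) :
    (algebraMap (RR k c.1) (A.A c) f) ^ n * x = f ^ n • x := by
  rw [← map_pow, ← Algebra.smul_def]

/-- the algebra itself as a left sheaf -/
def lsSelf (A : CA k i) : Sh (ls A) where
  E := fun c => A.A c
  mod := fun c => inferInstanceAs (Module (A.A c) (A.A c))
  tow := fun c => inferInstanceAs (IsScalarTower k (A.A c) (A.A c))
  res := fun h => (A.res h).toLinearMap
  res_smul := fun {c d} h b x => by
    change A.res h ((show A.A c from b) * x) = A.res h (show A.A c from b) * A.res h x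
    rw [map_mul]
  res_id := fun h x => A.res_id h x
  res_res := fun h h' x => A.res_res h h' x
  surj := fun {c d t} h y => by
    obtain ⟨hcd, l, g, hg, hd, rfl⟩ := h
    obtain ⟨n, x, hx⟩ := A.surj hcd hg l hd y
    refine ⟨n, x, ?_⟩
    change A.res hcd x = (A.res hcd (algebraMap (RR k c.1) (A.A c) (tt k l hg))) ^ n * y
    rw [A.res_R, rinc_tt, LatD_pow, hx]
  inj := fun {c d t} h x hx => by
    obtain ⟨hcd, l, g, hg, hd, rfl⟩ := h
    obtain ⟨n, hn⟩ := A.inj hcd hg l hd x hx
    exact ⟨n, (LatD_pow A c (tt k l hg) n x).trans hn⟩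

theorem lsSelf_coh (A : CA k i) : (lsSelf A).Coh := fun c =>
  inferInstanceAs (Module.Finite (A.A c) (A.A c))

/-- the kernel of `A_c → S` for `c ≤ m`, everything otherwise -/
def latI (g : GD A m) (c : Ch i) : Ideal (A.A c) where
  carrier := {a | ∀ h : c ≤ m, g.psi (A.res h a) = 0}
  zero_mem' := fun h => by rw [map_zero, map_zero]
  add_mem' := fun {a b} ha hb h => by rw [map_add, map_add, ha h, hb h, add_zero]
  smul_mem' := fun a b hb h => by
    rw [smul_eq_mul, map_mul, map_mul, hb h, mul_zero]

theorem mem_latI {g : GD A m} {c : Ch i} {a : A.A c} :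
    a ∈ latI g c ↔ ∀ h : c ≤ m, g.psi (A.res h a) = 0 := Iff.rfl

/-- the subsheaf -/
def latS (g : GD A m) : Sub (lsSelf A) where
  N := fun c => latI g c
  mono := fun {c d} h x hx hd => by
    change g.psi (A.res hd (A.res h x)) = 0
    rw [A.res_res]
    exact hx (h.trans hd)
  sat := fun {c d t} h x hx => by
    obtain ⟨hcd, l, w, hw, hd, rfl⟩ := h
    by_cases hm : c ≤ m
    · by_cases hl : l ∈ m.1
      · have hdm : d ≤ m := fun z hz => by
          rcases hd hz with h1 | h1
          · rw [h1]
            exact hl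
          · exact hm h1
        refine ⟨0, fun h1 => ?_⟩
        have h2 : g.psi (A.res hdm (A.res hcd x)) = 0 := hx hdm
        rw [A.res_res] at h2
        refine (congrArg (fun z => g.psi (A.res h1 z)) ?_).trans h2
        exact (LatD_pow A c (tt k l hw) 0 x).trans (by rw [pow_zero, one_smul])
      · refine ⟨1, fun h1 => ?_⟩
        have h3 : A.res h1 (algebraMap (RR k c.1) (A.A c) (tt k l hw)) =
            algebraMap (RR k m.1) (A.A m) (tt k l (h1 hw)) := by
          rw [A.res_R, rinc_tt]
        change g.psi (A.res h1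
          ((algebraMap (RR k c.1) (A.A c) (tt k l hw)) ^ 1 * (show A.A c from x))) = 0
        rw [pow_one, map_mul, map_mul, h3, g.zero (h1 hw) l hl, zero_mul]
    · exact ⟨0, fun h1 => absurd h1 hm⟩

/-- THE LATTICE. -/
def lat (g : GD A m) : Sh (ls A) := (latS g).quot

theorem lat_coh (g : GD A m) : (lat g).Coh := (lsSelf_coh A).quot _

/-- `A_c ⧸ ker (A_c → S)` and the right module `A` -/
def blat (g : GD A m) : BS A A := box (lat g) (rsSelf A)

theorem blat_coh (g : GD A m) : (blat g).Coh := box_coh (lat_coh g) (rsSelf_coh A)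

private theorem LatD_res {E : BS A A} {c : Ch i} (h : c ≤ m) {a : A.A c} (ha : a ∈ ann E c) :
    A.res h a ∈ ann E m := by
  rw [mem_ann]
  intro c' e
  obtain ⟨u, y, hu, hy⟩ := E.gen1 h e
  have h2 := E.res_lo (p := (c, c')) (q := (m, c')) ⟨h, le_rfl⟩ a y
  rw [mem_ann.1 ha c' y, map_zero, hy] at h2
  have h3 : cl1 A A (m, c') u • lo A A (m, c') (A.res h a) • e = 0 := by
    rw [← mul_smul, cl1_comm, mul_smul]
    exact h2.symm
  exact E.unit_smul (p := (m, c')) (u := u) hu (x := lo A A (m, c') (A.res h a) • e) h3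

/-- The annihilators of a reduced bisheaf kill the lattice: `a ∈ ann E c`, `c ≤ m`, implies
`res a ∈ ann E m` (`Sh.gen1`: the sections over `(m, c')` come from `(c, c')` up to units), so
`psi (res (a b)) = 0` for all `b`; for `c` not contained in `m` the sections are zero. -/
theorem ann_blat {E : BS A A} (hR : Red E m) : ann E ≤ ann (blat hR.gd) := by
  intro c a ha c' e
  have key : ∀ (x : (lat hR.gd).E c) (y : A.A c'),
      lo A A (c, c') a • (show (blat hR.gd).E (c, c') from
        (x ⊗ₜ[k] y : (lat hR.gd).E c ⊗[k] (rsSelf A).E c')) = 0 := by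
    intro x y
    refine (box_lo (lat hR.gd) (rsSelf A) (c, c') a x y).trans ?_
    have h1 : a • x = 0 := by
      obtain ⟨b, rfl⟩ := (latI hR.gd c).mkQ_surjective x
      have h2 : (a * b : A.A c) ∈ latI hR.gd c := fun h => by
        rw [map_mul, map_mul, (hR.gd_psi _).2 (LatD_res h ha), zero_mul]
      exact (Submodule.Quotient.mk_eq_zero _).2 h2
    rw [h1, TensorProduct.zero_tmul]
    rfl
  refine TensorProduct.induction_on (motive := fun z : (lat hR.gd).E c ⊗[k] (rsSelf A).E c' =>
    lo A A (c, c') a • (show (blat hR.gd).E (c, c') from z) = 0)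
    (show (lat hR.gd).E c ⊗[k] (rsSelf A).E c' from e) ?_ ?_ ?_
  · have h1 := key 0 0
    rw [TensorProduct.zero_tmul] at h1
    exact h1
  · exact key
  · intro x y hx hy
    refine (smul_add _ _ _).trans ?_
    rw [hx, hy, add_zero]

/-- The prime ideal of the generic data. -/
def pp (g : GD A m) : Ideal (RR k m.1) where
  carrier := {f | g.fn f = 0}
  zero_mem' := by
    change g.psi _ = 0
    rw [map_zero, map_zero]
  add_mem' := fun {a b} ha hb => by
    change g.psi (algebraMap _ _ (a + b)) = 0
    rw [map_add, map_add]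
    have h1 : g.psi (algebraMap _ _ a) = 0 := ha
    have h2 : g.psi (algebraMap _ _ b) = 0 := hb
    rw [h1, h2, add_zero]
  smul_mem' := fun a b hb => by
    change g.fn (a * b) = 0
    rw [g.fn_mul]
    have h1 : g.fn b = 0 := hb
    rw [h1, mul_zero]

theorem mem_pp {g : GD A m} {f : RR k m.1} : f ∈ pp g ↔ g.fn f = 0 := Iff.rfl

instance pp_prime (g : GD A m) : (pp g).IsPrime := by
  refine ⟨fun h => ?_, fun {a b} hab => ?_⟩
  · have h1 : (1 : RR k m.1) ∈ pp g := by
      rw [h]
      exact Submodule.mem_top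
    rw [mem_pp, g.fn_one] at h1
    exact g.ne h1
  · rw [mem_pp, g.fn_mul] at hab
    refine g.pr (g.fn a) (g.fn b) (fun z => ?_)
    rw [g.fn_comm, mul_assoc, hab, mul_zero]

end Pool.Agent.MP_6e5bed_ag_GP
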