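import Pool.Agent.Lib.MP_6e5bed_ag_GG.ShA

set_option autoImplicit false

/-!
# MP_6e5bed_ag, THEOREM G+: functions on a finite type with values in a sheaf, complexes of sheaves
-/

noncomputable section

namespace Pool.Agent.MP_6e5bed_ag_GP

open Pool.Agent.MP_6e5bed_ag_GG

universe u

variable {k : Type u} [Field k] {S : Site k} {E F G : Sh S}

/-- The functions on the finite type `J` with values in a sheaf. -/
def pi (J : Type) [Fintype J] (E : Sh S) : Sh S where
  E := fun p => J → E.E p
  res := fun {p q} h => LinearMap.pi (fun i => E.res h ∘ₗ LinearMap.proj i)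
  res_smul := fun h b x => funext fun i => E.res_smul h b (x i)
  res_id := fun h x => funext fun i => E.res_id h (x i)
  res_res := fun h h' x => funext fun i => E.res_res h h' (x i)
  surj := fun {p q t} h y => by
    choose m z hz using fun i : J => E.surj h (y i)
    refine ⟨∑ i, m i, fun i : J => (t ^ (∑ j, m j - m i) • z i : E.E p),
      funext fun i => ?_⟩
    change E.res (S.le h) (t ^ (∑ j, m j - m i) • z i) = S.r (S.le h) t ^ (∑ j, m j) • y i
    rw [E.res_pow, hz, ← mul_smul, ← pow_add,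
      Nat.sub_add_cancel (Finset.single_le_sum (fun _ _ => Nat.zero_le _) (Finset.mem_univ i))]
  inj := fun {p q t} h x hx => by
    choose m hm using fun i : J => E.inj h (x i) (congrFun hx i)
    refine ⟨∑ i, m i, funext fun i => ?_⟩
    change t ^ (∑ j, m j) • x i = 0
    have h1 : ∑ j, m j = (∑ j, m j - m i) + m i :=
      (Nat.sub_add_cancel (Finset.single_le_sum (fun _ _ => Nat.zero_le _)
        (Finset.mem_univ i))).symm
    rw [h1, pow_add, mul_smul, hm, smul_zero]

theorem pi_res {J : Type} [Fintype J] {p q : S.P} (h : p ≤ q) (x : (pi J E).E p) (l : J) :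
    ((pi J E).res h x : J → E.E q) l = E.res h ((x : J → E.E p) l) := rfl

theorem pi_coh {J : Type} [Fintype J] (h : E.Coh) : (pi J E).Coh := by
  intro p
  have := h p
  exact (inferInstance : Module.Finite (S.B p) (J → E.E p))

/-- The subsheaf of the functions which vanish outside of `P`. -/
def supp {J : Type} [Fintype J] (P : J → Prop) (E : Sh S) : Sub (pi J E) where
  N := fun p =>
    { carrier := {ω | ∀ l, ¬ P l → (ω : J → E.E p) l = 0}
      zero_mem' := fun _ _ => rfl
      add_mem' := fun {x y} hx hy l hl => by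
        change (x : J → E.E p) l + (y : J → E.E p) l = 0
        rw [hx l hl, hy l hl, add_zero]
      smul_mem' := fun b x hx l hl => by
        change b • (x : J → E.E p) l = 0
        rw [hx l hl, smul_zero] }
  mono := fun {p q} h x hx l hl => by
    change E.res h ((x : J → E.E p) l) = 0
    rw [hx l hl, map_zero]
  sat := fun {p q t} h x hx => by
    classical
    choose! n hn using fun (l : J) (hl : ¬ P l) => E.inj h ((x : J → E.E p) l) (hx l hl)
    refine ⟨∑ l, n l, fun l hl => ?_⟩
    change t ^ (∑ j, n j) • (x : J → E.E p) l = 0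
    have h1 : ∑ j, n j = (∑ j, n j - n l) + n l :=
      (Nat.sub_add_cancel (Finset.single_le_sum (fun _ _ => Nat.zero_le _)
        (Finset.mem_univ l))).symm
    rw [h1, pow_add, mul_smul, hn l hl, smul_zero]

theorem mem_supp {J : Type} [Fintype J] {P : J → Prop} {p : S.P} {x : (pi J E).E p} :
    x ∈ (supp P E).N p ↔ ∀ l, ¬ P l → (x : J → E.E p) l = 0 := Iff.rfl

section

variable {C : Sh S → Prop} {V : Type*} [AddCommGroup V]

/-- the class contains `pi J E` -/
theorem scls_pi (hC : SCls C) (J : Type) [Fintype J] (hE : C E) : C (pi J E) := by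
  classical
  let e : J ≃ Fin (Fintype.card J) := Fintype.equivFin J
  let f : ShH (E.pow (Fintype.card J)) (pi J E) :=
    { f := fun p => LinearMap.pi (fun l => LinearMap.proj (e l))
      nat := fun _ _ => rfl }
  refine hC.iso _ _ f (fun p => ⟨fun x y hxy => ?_, fun x => ?_⟩)
    (hC.pow E hE (Fintype.card J))
  · refine funext fun i => ?_
    have h1 : (x : Fin (Fintype.card J) → E.E p) (e (e.symm i)) =
        (y : Fin (Fintype.card J) → E.E p) (e (e.symm i)) := congrFun hxy (e.symm i)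
    rwa [e.apply_symm_apply] at h1
  · refine ⟨fun i => (x : J → E.E p) (e.symm i), funext fun l => ?_⟩
    change (x : J → E.E p) (e.symm (e l)) = (x : J → E.E p) l
    rw [e.symm_apply_apply]

/-- The class of `supp P E` is a multiple of the class of `E`. -/
theorem cl_supp (hC : SCls C) (cl : AddFn C V) {J : Type} [Fintype J] (P : J → Prop) (hE : C E)
    (h0 : cl.cl E = 0) : cl.cl (supp P E).sh = 0 := by
  classical
  let n : ℕ := Fintype.card {l // P l}
  let e : {l // P l} ≃ Fin n := Fintype.equivFin {l // P l}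
  let g : ShH (E.pow n) (pi J E) :=
    { f := fun p => LinearMap.pi (fun l =>
        if h : P l then LinearMap.proj (e ⟨l, h⟩) else 0)
      nat := fun {p q} h x => by
        refine funext fun l => ?_
        change E.res h ((if h : P l then LinearMap.proj (e ⟨l, h⟩) else 0 :
          (Fin n → E.E p) →ₗ[S.B p] E.E p) x) = (if h : P l then LinearMap.proj (e ⟨l, h⟩)
          else 0 : (Fin n → E.E q) →ₗ[S.B q] E.E q) ((E.pow n).res h x)
        by_cases hl : P l
        · rw [dif_pos hl, dif_pos hl]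
          rfl
        · rw [dif_neg hl, dif_neg hl]
          exact map_zero _ }
  have hg1 : ∀ (p : S.P) (x : (E.pow n).E p) (l : J) (hl : P l),
      (g.f p x : J → E.E p) l = (x : Fin n → E.E p) (e ⟨l, hl⟩) := by
    intro p x l hl
    change (if h : P l then LinearMap.proj (e ⟨l, h⟩) else 0 :
      (Fin n → E.E p) →ₗ[S.B p] E.E p) x = _
    rw [dif_pos hl]
    rfl
  have hg2 : ∀ (p : S.P) (x : (E.pow n).E p) (l : J) (hl : ¬ P l),
      (g.f p x : J → E.E p) l = 0 := by
    intro p x l hl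
    change (if h : P l then LinearMap.proj (e ⟨l, h⟩) else 0 :
      (Fin n → E.E p) →ₗ[S.B p] E.E p) x = _
    rw [dif_neg hl]
    rfl
  let f : ShH (E.pow n) (supp P E).sh :=
    g.codRestr (supp P E) (fun p x => mem_supp.2 (fun l hl => hg2 p x l hl))
  have hf : f.Bij := by
    intro p
    constructor
    · intro x y hxy
      have h1 : g.f p x = g.f p y := congrArg Subtype.val hxy
      refine funext fun i => ?_
      have h2 := hg1 p x (e.symm i).1 (e.symm i).2
      have h3 := hg1 p y (e.symm i).1 (e.symm i).2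
      rw [Subtype.coe_eta, e.apply_symm_apply] at h2 h3
      rw [← h2, ← h3, h1]
    · rintro ⟨x, hx⟩
      refine ⟨fun i => (x : J → E.E p) (e.symm i).1, Subtype.ext (funext fun l => ?_)⟩
      change (g.f p (fun i => (x : J → E.E p) (e.symm i).1) : J → E.E p) l =
        (x : J → E.E p) l
      by_cases hl : P l
      · rw [hg1 p _ l hl]
        change (x : J → E.E p) (e.symm (e ⟨l, hl⟩)).1 = _
        rw [e.symm_apply_apply]
      · rw [hg2 p _ l hl, mem_supp.1 hx l hl]
  rw [← cl.iso _ _ f hf (hC.pow E hE n), cl.pow hC hE n, h0, smul_zero]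

end

/-! ### Complexes of sheaves -/

/-- A complex of sheaves. -/
structure ShC (S : Site k) where
  K : ℕ → Sh S
  d : ∀ r, ShH (K (r + 1)) (K r)
  dd : ∀ (r : ℕ) (p : S.P) (x : (K (r + 2)).E p), (d r).f p ((d (r + 1)).f p x) = 0

/-- The cycles. -/
def ShC.Z (X : ShC S) : ∀ r : ℕ, Sub (X.K r)
  | 0 => Sub.top _
  | r + 1 => (X.d r).ker

/-- The homology. -/
def ShC.H (X : ShC S) (r : ℕ) : Sh S := (Sub.restr (X.Z r) (X.d r).range).quot

/-- the class of a cycle -/
def ShC.cls (X : ShC S) (r : ℕ) {p : S.P} (x : (X.K r).E p) (hx : x ∈ (X.Z r).N p) :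
    (X.H r).E p := (Sub.restr (X.Z r) (X.d r).range).proj.f p ⟨x, hx⟩

theorem ShC.cls_surj (X : ShC S) (r : ℕ) {p : S.P} (y : (X.H r).E p) :
    ∃ (x : (X.K r).E p) (hx : x ∈ (X.Z r).N p), y = X.cls r x hx := by
  obtain ⟨⟨x, hx⟩, rfl⟩ := (Sub.restr (X.Z r) (X.d r).range).proj_surj p y
  exact ⟨x, hx, rfl⟩

theorem ShC.cls_eq_zero (X : ShC S) (r : ℕ) {p : S.P} {x : (X.K r).E p}
    {hx : x ∈ (X.Z r).N p} : X.cls r x hx = 0 ↔ ∃ y, (X.d r).f p y = x :=
  (Sub.restr (X.Z r) (X.d r).range).proj_eq_zero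

theorem ShC.cls_smul (X : ShC S) (r : ℕ) {p : S.P} (b : S.B p) {x : (X.K r).E p}
    (hx : x ∈ (X.Z r).N p) :
    b • X.cls r x hx = X.cls r (b • x) (((X.Z r).N p).smul_mem b hx) := rfl

theorem ShC.cls_add (X : ShC S) (r : ℕ) {p : S.P} {x y : (X.K r).E p}
    (hx : x ∈ (X.Z r).N p) (hy : y ∈ (X.Z r).N p) :
    X.cls r x hx + X.cls r y hy = X.cls r (x + y) (((X.Z r).N p).add_mem hx hy) := rfl

theorem ShC.cls_res (X : ShC S) (r : ℕ) {p q : S.P} (h : p ≤ q) {x : (X.K r).E p}
    (hx : x ∈ (X.Z r).N p) :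
    (X.H r).res h (X.cls r x hx) = X.cls r ((X.K r).res h x) ((X.Z r).mono h hx) := rfl

/-- the homology belongs to a class of sheaves which is closed under subsheaves and quotients -/
theorem ShC.scls {C : Sh S → Prop} (hC : SCls C) (X : ShC S) {r : ℕ} (h : C (X.K r)) :
    C (X.H r) := hC.quot _ (hC.sub _ h _) _

/-- THE EULER CHARACTERISTIC. If the terms have class zero, then the alternating sum of the
classes of the homology sheaves is zero: `cl Z_r = cl B_r + cl H_r`, `cl K_r = cl Z_r + cl B_{r-1}`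
with `B_r = range d_r`, and `B_N = 0`. -/
theorem ShC.euler {C : Sh S → Prop} {V : Type*} [AddCommGroup V] (hC : SCls C) (cl : AddFn C V)
    (X : ShC S) (hX : ∀ r, C (X.K r)) (h0 : ∀ r, cl.cl (X.K r) = 0) (N : ℕ)
    (hN : ∀ (p : S.P) (x : (X.K (N + 1)).E p), x = 0) :
    ∑ r ∈ Finset.range (N + 1), (-1 : ℤ) ^ r • cl.cl (X.H r) = 0 := by
  -- the boundaries are cycles
  have hBZ : ∀ (r : ℕ) (p : S.P) (x : (X.K r).E p), x ∈ (X.d r).range.N p →
      x ∈ (X.Z r).N p := by
    intro r p x hx
    obtain ⟨y, rfl⟩ := ShH.mem_range.1 hx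
    cases r with
    | zero => exact Submodule.mem_top
    | succ r => exact ShH.mem_ker.2 (X.dd r p y)
  -- cycles, boundaries and homology
  have h1 : ∀ r, cl.cl (X.Z r).sh = cl.cl (X.d r).range.sh + cl.cl (X.H r) := by
    intro r
    have hZ : C (X.Z r).sh := hC.sub _ (hX r) _
    rw [cl.add _ hZ (Sub.restr (X.Z r) (X.d r).range)]
    congr 1
    let f : ShH (Sub.restr (X.Z r) (X.d r).range).sh (X.d r).range.sh :=
      ((X.Z r).incl.comp (Sub.restr (X.Z r) (X.d r).range).incl).codRestr (X.d r).range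
        (fun _ x => x.2)
    refine cl.iso _ _ f (fun p => ⟨fun x y hxy => ?_, ?_⟩) (hC.sub _ hZ _)
    · exact Subtype.ext (Subtype.ext (congrArg (fun z : (X.d r).range.sh.E p => z.1) hxy))
    · rintro ⟨x, hx⟩
      exact ⟨⟨⟨x, hBZ r p x hx⟩, hx⟩, rfl⟩
  have h2 : ∀ r, cl.cl (X.Z (r + 1)).sh = - cl.cl (X.d r).range.sh := by
    intro r
    have h3 := cl.add _ (hX (r + 1)) (X.d r).ker
    have h4 := cl.iso _ _ (X.d r).quotKer (X.d r).quotKer_bij (hC.quot _ (hX (r + 1)) _)
    rw [h0, h4] at h3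
    exact eq_neg_of_add_eq_zero_left h3.symm
  have h3 : cl.cl (X.Z 0).sh = 0 := by
    have h4 : cl.cl (Sub.top (X.K 0)).sh = cl.cl (X.K 0) :=
      cl.iso _ _ (Sub.top (X.K 0)).incl (fun p => ⟨Sub.incl_inj _ p, fun x =>
        ⟨⟨x, Submodule.mem_top⟩, rfl⟩⟩) (hC.sub _ (hX 0) _)
    exact h4.trans (h0 0)
  have h4 : ∀ n : ℕ, ∑ r ∈ Finset.range (n + 1), (-1 : ℤ) ^ r • cl.cl (X.H r) =
      - ((-1 : ℤ) ^ n • cl.cl (X.d n).range.sh) := by
    intro n
    induction n with
    | zero =>
      rw [Finset.sum_range_one, pow_zero, one_smul, one_smul]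
      have h5 := h1 0
      rw [h3] at h5
      exact eq_neg_of_add_eq_zero_right h5.symm
    | succ n ih =>
      rw [Finset.sum_range_succ, ih]
      have h5 := h1 (n + 1)
      rw [h2] at h5
      have h6 : cl.cl (X.H (n + 1)) = - cl.cl (X.d n).range.sh -
          cl.cl (X.d (n + 1)).range.sh := by
        rw [h5]
        abel
      rw [h6, pow_succ, smul_sub, smul_neg, mul_neg_one, neg_smul, neg_smul, neg_neg]
      abel
  rw [h4 N]
  have h5 : cl.cl (X.d N).range.sh = 0 := by
    refine cl.zero hC (hC.sub _ (hX N) _) (fun p => ⟨fun x y => ?_⟩)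
    obtain ⟨x', hx'⟩ := ShH.mem_range.1 x.2
    obtain ⟨y', hy'⟩ := ShH.mem_range.1 y.2
    refine Subtype.ext ?_
    rw [← hx', ← hy', hN p x', hN p y']
  rw [h5, smul_zero, neg_zero]

end Pool.Agent.MP_6e5bed_ag_GP
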