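import Pool.Agent.Lib.MP_6e5bed_ag_GG.IC
import Pool.Agent.Lib.MP_6e5bed_ag_GG.Noe
import Pool.Agent.Lib.MP_6e5bed_ag_GP.Pi
import Pool.Agent.Lib.MP_6e5bed_ag_GP.Car

set_option autoImplicit false
set_option linter.unusedVariables false

/-!
# MP_6e5bed_ag, THEOREM G+: twists of bisheaves, central bisheaves

`gch c` is a chosen element of the chart `c`. The twist `tw p q E` is `E(-p, q)`: the sections on
`(c, c')` are those of `E`, the section `x` stands for `x_{g(c)}^(-p) y_{g(c')}^q x`.
-/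

noncomputable section

namespace Pool.Agent.MP_6e5bed_ag_GP

open Pool.Agent.MP_6e5bed_ag_GG
open scoped TensorProduct

universe u

variable {k : Type u} [Field k] {i j : Type} [Fintype i] [Fintype j]

/-- a chosen element of a chart -/
def gch (c : Ch i) : i := c.2.1.some

omit [Fintype i] in
theorem gch_mem (c : Ch i) : gch c ∈ c.1 := c.2.1.some_mem

omit [Fintype i] in
theorem gch_sgl (l : i) : gch (Ch.sgl l) = l := gch_mem (Ch.sgl l)

theorem tt_self {c : Set i} {g : i} (hg : g ∈ c) : tt k g hg = 1 := by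
  refine Subtype.ext ?_
  change mon k (ex g g) = 1
  unfold ex
  rw [sub_self]
  rfl

/-- `(x_l / x_g) (x_g / x_h) = x_l / x_h` -/
theorem tt_tt {c : Set i} (l : i) {g h : i} (hg : g ∈ c) (hh : h ∈ c) :
    tt k l hg * tt k g hh = tt k l hh := by
  refine Subtype.ext ?_
  change mon k (ex l g) * mon k (ex g h) = mon k (ex l h)
  rw [mon_mul]
  congr 1
  unfold ex
  abel

section

variable (A : CA k i) (A' : CA k j)

/-- the functions on the second space -/
def crt (p : Ch i × Ch j) (f : RR k p.2.1) : (bs A A').B p :=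
  ro A A' p (MulOpposite.op (algebraMap (RR k p.2.1) (A'.A p.2) f))

theorem crt_mul (p : Ch i × Ch j) (f g : RR k p.2.1) :
    crt A A' p (f * g) = crt A A' p f * crt A A' p g := by
  unfold crt
  rw [map_mul, ← Algebra.commutes g, MulOpposite.op_mul, map_mul]

theorem crt_one (p : Ch i × Ch j) : crt A A' p 1 = 1 := by
  unfold crt
  rw [map_one, MulOpposite.op_one, map_one]

theorem crt_pow (p : Ch i × Ch j) (f : RR k p.2.1) (n : ℕ) :
    crt A A' p (f ^ n) = crt A A' p f ^ n := by
  induction n with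
  | zero => rw [pow_zero, pow_zero, crt_one]
  | succ n ih => rw [pow_succ, pow_succ, crt_mul, ih]

/-- the functions on the second space are central -/
theorem crt_comm (p : Ch i × Ch j) (f : RR k p.2.1) (x : (bs A A').B p) :
    crt A A' p f * x = x * crt A A' p f := by
  induction x using bs_induction with
  | h0 => rw [mul_zero, zero_mul]
  | h1 a b =>
    unfold crt
    rw [← mul_assoc, ro_mul_lo, mul_assoc, mul_assoc, ← map_mul, ← map_mul]
    congr 2
    refine MulOpposite.unop_injective ?_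
    rw [MulOpposite.unop_mul, MulOpposite.unop_mul, MulOpposite.unop_op, Algebra.commutes]
  | h2 x y hx hy => rw [mul_add, add_mul, hx, hy]

theorem crt_r {p q : Ch i × Ch j} (h : p ≤ q) (f : RR k p.2.1) :
    (bs A A').r h (crt A A' p f) = crt A A' q (rinc h.2 f) := by
  unfold crt
  rw [ro_r, MulOpposite.unop_op, A'.res_R]

/-- `x_{g(d)} / x_{g(c)}` on the smaller open set -/
def tu {c d : Ch i} (h : c ≤ d) : RR k d.1 := tt k (gch d) (h (gch_mem c))

/-- `x_{g(c)} / x_{g(d)}` on the smaller open set -/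
def tv {c d : Ch i} (_ : c ≤ d) : RR k d.1 := tt k (gch c) (gch_mem d)

theorem tu_self (c : Ch i) (h : c ≤ c) : tu (k := k) h = 1 := tt_self _

theorem tv_self (c : Ch i) (h : c ≤ c) : tv (k := k) h = 1 := tt_self _

theorem tu_tu {c d e : Ch i} (h : c ≤ d) (h' : d ≤ e) :
    tu (k := k) h' * rinc h' (tu h) = tu (h.trans h') :=
  tt_tt (gch e) (h' (gch_mem d)) (h' (h (gch_mem c)))

theorem tv_tv {c d e : Ch i} (h : c ≤ d) (h' : d ≤ e) :
    rinc h' (tv (k := k) h) * tv h' = tv (h.trans h') :=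
  tt_tt (gch c) (h' (gch_mem d)) (gch_mem e)

theorem tu_tv {c d : Ch i} (h : c ≤ d) : tu (k := k) h * tv h = 1 :=
  (tt_tt (gch d) (h (gch_mem c)) (gch_mem d)).trans (tt_self _)

/-- the factor of the twist -/
def twu (p q : ℕ) {s t : Ch i × Ch j} (h : s ≤ t) : (bs A A').B t :=
  cl1 A A' t (tu h.1 ^ p) * crt A A' t (tv h.2 ^ q)

theorem twu_comm (p q : ℕ) {s t : Ch i × Ch j} (h : s ≤ t) (b : (bs A A').B t) :
    twu A A' p q h * b = b * twu A A' p q h := by
  unfold twu
  rw [mul_assoc, crt_comm, ← mul_assoc, cl1_comm, mul_assoc]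

theorem twu_self (p q : ℕ) (s : Ch i × Ch j) (h : s ≤ s) : twu A A' p q h = 1 := by
  unfold twu
  rw [tu_self, tv_self, one_pow, one_pow, cl1_one, crt_one, one_mul]

theorem twu_twu (p q : ℕ) {s t v : Ch i × Ch j} (h : s ≤ t) (h' : t ≤ v) :
    twu A A' p q h' * (bs A A').r h' (twu A A' p q h) = twu A A' p q (h.trans h') := by
  unfold twu
  rw [map_mul, cl1_r, crt_r, mul_assoc, ← mul_assoc (crt A A' v _), crt_comm, mul_assoc,
    ← mul_assoc, ← cl1_mul, ← crt_mul, map_pow, map_pow, ← mul_pow, ← mul_pow, tu_tu,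
    mul_comm (tv h'.2), tv_tv]

/-- the factor of the twist is invertible -/
theorem twu_unit (p q : ℕ) {s t : Ch i × Ch j} (h : s ≤ t) :
    ∃ v : (bs A A').B t, v * twu A A' p q h = 1 ∧ ∀ b, v * b = b * v := by
  refine ⟨cl1 A A' t (tv h.1 ^ p) * crt A A' t (tu h.2 ^ q), ?_, fun b => ?_⟩
  · unfold twu
    rw [mul_assoc, ← mul_assoc (crt A A' t _), crt_comm, mul_assoc, ← mul_assoc, ← cl1_mul,
      ← crt_mul, ← mul_pow, ← mul_pow, mul_comm (tv h.1), tu_tv, tu_tv, one_pow, one_pow,
      cl1_one, crt_one, one_mul]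
  · rw [mul_assoc, crt_comm, ← mul_assoc, cl1_comm, mul_assoc]

end

section

variable {A : CA k i} {A' : CA k j}

/-- The twist `E(-p, q)`. -/
def tw (p q : ℕ) (E : BS A A') : BS A A' where
  E := E.E
  grp := E.grp
  modk := E.modk
  mod := E.mod
  tow := E.tow
  res := fun {s t} h =>
    { toFun := fun x => twu A A' p q h • E.res h x
      map_add' := fun x y => by rw [map_add, smul_add]
      map_smul' := fun c x => by
        rw [map_smul, RingHom.id_apply, smul_algebra_smul_comm] }
  res_smul := fun {s t} h b x => by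
    change twu A A' p q h • E.res h (b • x) = (bs A A').r h b • twu A A' p q h • E.res h x
    rw [E.res_smul, ← mul_smul, twu_comm, mul_smul]
  res_id := fun {s} h x => by
    change twu A A' p q h • E.res h x = x
    rw [E.res_id, twu_self, one_smul]
  res_res := fun {s t v} h h' x => by
    change twu A A' p q h' • E.res h' (twu A A' p q h • E.res h x) =
      twu A A' p q (h.trans h') • E.res (h.trans h') x
    rw [E.res_smul, ← mul_smul, twu_twu, E.res_res]
  surj := fun {s t a} h y => by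
    obtain ⟨v, hv, hv'⟩ := twu_unit A A' p q ((bs A A').le h)
    obtain ⟨n, x, hx⟩ := E.surj h (v • y)
    refine ⟨n, x, ?_⟩
    change twu A A' p q ((bs A A').le h) • E.res ((bs A A').le h) x = _
    rw [hx, ← mul_smul, ← mul_smul, twu_comm, mul_assoc, twu_comm, hv, mul_one]
  inj := fun {s t a} h x hx => by
    obtain ⟨v, hv, hv'⟩ := twu_unit A A' p q ((bs A A').le h)
    have h1 : twu A A' p q ((bs A A').le h) • E.res ((bs A A').le h) x = 0 := hx
    refine E.inj h x ?_
    have h2 := congrArg (fun z => v • z) h1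
    simp only [smul_zero] at h2
    rwa [← mul_smul, hv, one_smul] at h2

theorem tw_res (p q : ℕ) (E : BS A A') {s t : Ch i × Ch j} (h : s ≤ t) (x : E.E s) :
    (tw p q E).res h x = twu A A' p q h • E.res h x := rfl

theorem tw_coh (p q : ℕ) {E : BS A A'} (h : E.Coh) : (tw p q E).Coh := h

end

/-! ### Central bisheaves -/

section

variable {A A' : CA k i}

/-- A bisheaf is central if the coordinates of the two spaces act in the same way:
`x_j / x_γ = (x_l / x_γ) (y_j / y_l)` on the chart `(c, c')`, `γ ∈ c`, `l ∈ c'`. -/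
def Cen (E : BS A A') : Prop := ∀ (p : Ch i × Ch i) {γ : i} (hγ : γ ∈ p.1.1) {l : i}
  (hl : l ∈ p.2.1) (m : i) (x : E.E p),
  cl1 A A' p (tt k m hγ) • x = cl1 A A' p (tt k l hγ) • crt A A' p (tt k m hl) • x

/-- It is enough to have the relations for the chosen elements. -/
theorem cen_of_gch {E : BS A A'} (h : ∀ (p : Ch i × Ch i) (m : i) (x : E.E p),
    cl1 A A' p (tt k m (gch_mem p.1)) • x =
      cl1 A A' p (tt k (gch p.2) (gch_mem p.1)) • crt A A' p (tt k m (gch_mem p.2)) • x) :
    Cen E := by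
  have key : ∀ (p : Ch i × Ch i) {γ : i} (hγ : γ ∈ p.1.1) (m : i) (x : E.E p),
      cl1 A A' p (tt k m hγ) • x =
        cl1 A A' p (tt k (gch p.2) hγ) • crt A A' p (tt k m (gch_mem p.2)) • x := by
    intro p γ hγ m x
    rw [← tt_tt m (gch_mem p.1) hγ, ← tt_tt (gch p.2) (gch_mem p.1) hγ,
      mul_comm (tt k m (gch_mem p.1)), mul_comm (tt k (gch p.2) (gch_mem p.1)), cl1_mul, cl1_mul,
      mul_smul, mul_smul, h]
  intro p γ hγ l hl m x
  rw [key p hγ m, key p hγ l, ← mul_smul (crt A A' p (tt k l (gch_mem p.2))), ← crt_mul,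
    mul_comm (tt k l (gch_mem p.2)), tt_tt m hl (gch_mem p.2)]

theorem Cen.sub {E : BS A A'} (h : Cen E) (N : Sub E) : Cen N.sh := by
  intro p γ hγ l hl m x
  exact Subtype.ext (h p hγ hl m x.1)

theorem Cen.quot {E : BS A A'} (h : Cen E) (N : Sub E) : Cen N.quot := by
  intro p γ hγ l hl m x
  obtain ⟨x, rfl⟩ := (N.N p).mkQ_surjective x
  exact congrArg (N.N p).mkQ (h p hγ hl m x)

theorem Cen.pow {E : BS A A'} (h : Cen E) (n : ℕ) : Cen (E.pow n) := by
  intro p γ hγ l hl m x
  exact funext fun r => h p hγ hl m (x r)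

theorem Cen.of_surj {E F : BS A A'} (h : Cen E) (f : ShH E F) (hf : f.Surj) : Cen F := by
  intro p γ hγ l hl m x
  obtain ⟨y, rfl⟩ := hf p x
  rw [← map_smul, ← map_smul, ← map_smul, h p hγ hl m y]

/-- On a central bisheaf, `x_l / x_γ` is invertible for `l ∈ c'`. -/
theorem Cen.inv {E : BS A A'} (h : Cen E) (p : Ch i × Ch i) {γ : i} (hγ : γ ∈ p.1.1) {l : i}
    (hl : l ∈ p.2.1) (x : E.E p) :
    cl1 A A' p (tt k l hγ) • crt A A' p (tt k γ hl) • x = x := by
  rw [← h p hγ hl γ x, tt_self, cl1_one, one_smul]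

/-- On a chart `(c, c')` with a common element the two actions of the `x_m / x_γ` agree. -/
theorem Cen.comm {E : BS A A'} (h : Cen E) (p : Ch i × Ch i) {γ : i} (hγ : γ ∈ p.1.1)
    (hγ' : γ ∈ p.2.1) (m : i) (x : E.E p) :
    cl1 A A' p (tt k m hγ) • x = crt A A' p (tt k m hγ') • x := by
  rw [h p hγ hγ' m x, tt_self, cl1_one, one_smul]

private theorem Tw_step {S : Site k} (E : Sh S) {p q : S.P} {t v : S.B p} (h : S.Loc p q t)
    (hp : ∀ x : E.E p, v • t • x = x)
    (hq : ∀ y : E.E q, S.r (S.le h) v • S.r (S.le h) t • y = y) :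
    Function.Bijective (E.res (S.le h)) := by
  have k1 : ∀ (n : ℕ) (z : E.E p), t ^ n • z = 0 → z = 0 := by
    intro n
    induction n with
    | zero =>
      intro z hz
      rwa [pow_zero, one_smul] at hz
    | succ n ih =>
      intro z hz
      rw [pow_succ', mul_smul] at hz
      refine ih z ?_
      have h1 := hp (t ^ n • z)
      rw [hz, smul_zero] at h1
      exact h1.symm
  have k2 : ∀ (n : ℕ) (y : E.E q) (x : E.E p), E.res (S.le h) x = S.r (S.le h) t ^ n • y →
      ∃ x', E.res (S.le h) x' = y := by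
    intro n
    induction n with
    | zero =>
      intro y x hx
      exact ⟨x, by rw [hx, pow_zero, one_smul]⟩
    | succ n ih =>
      intro y x hx
      refine ih y (v • x) ?_
      rw [E.res_smul, hx, pow_succ', mul_smul, hq]
  constructor
  · intro x x' hxx
    obtain ⟨n, hn⟩ := E.inj h (x - x') (by rw [map_sub, hxx, sub_self])
    exact sub_eq_zero.1 (k1 n _ hn)
  · intro y
    obtain ⟨n, x, hx⟩ := E.surj h y
    exact k2 n y x hx

/-- The restriction `E_{c,c'} → E_{c,d'}` of a central bisheaf is bijective for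
`c' ≤ d' ≤ c ∪ c'`: surjectivity and injectivity of the localisation, and the inverted
functions act invertibly (`Cen.inv`). -/
theorem Cen.res_bij {E : BS A A'} (h : Cen E) {c c' d' : Ch i} (h1 : c' ≤ d')
    (h2 : d'.1 ⊆ c.1 ∪ c'.1) :
    Function.Bijective (E.res (p := (c, c')) (q := (c, d')) ⟨le_rfl, h1⟩) := by
  refine Ch.induction_ge (m := c') (Pr := fun d h1 => d.1 ⊆ c.1 ∪ c'.1 →
    Function.Bijective (E.res (p := (c, c')) (q := (c, d)) ⟨le_rfl, h1⟩)) ?_ ?_ d' h1 h2
  · intro _
    refine ⟨fun x y hxy => ?_, fun y => ⟨y, E.res_id _ y⟩⟩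
    rw [E.res_id, E.res_id] at hxy
    exact hxy
  · intro d e hd l he hl ih he2
    obtain ⟨g, hg⟩ := c'.2.1
    have hle : l ∈ e.1 := by
      rw [hl]
      exact Set.mem_insert _ _
    have ih' := ih (Set.Subset.trans he he2)
    have hL : (bs A A').Loc (c, d) (c, e) (crt A A' (c, d) (tt k l (hd hg))) :=
      ⟨⟨le_rfl, he⟩, Or.inr ⟨l, g, hd hg, hl.le, le_rfl, rfl⟩⟩
    have hB : Function.Bijective (E.res (p := (c, d)) (q := (c, e)) ⟨le_rfl, he⟩) := by
      rcases he2 hle with hlc | hlc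
      · refine Tw_step E (v := cl1 A A' (c, d) (tt k g hlc)) hL (fun x => ?_) (fun x => ?_)
        · exact h.inv (c, d) hlc (hd hg) x
        · rw [cl1_r, crt_r]
          exact h.inv (c, e) hlc (he (hd hg)) x
      · refine Tw_step E (v := crt A A' (c, d) (tt k g (hd hlc))) hL (fun x => ?_) (fun x => ?_)
        · rw [← mul_smul, ← crt_mul, tt_mul, crt_one, one_smul]
        · rw [← mul_smul, ← map_mul, ← crt_mul, tt_mul, crt_one, map_one, one_smul]
    have hc := hB.comp ih'
    refine (congrArg Function.Bijective (funext fun x => ?_)).mp hc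
    exact E.res_res (p := (c, c')) (q := (c, d)) (s := (c, e)) ⟨le_rfl, hd⟩ ⟨le_rfl, he⟩ x

/-- The coherent central bisheaves. -/
theorem scls_cen : SCls (fun E : BS A A' => E.Coh ∧ Cen E) := by
  exact
    { coh := fun _ h => h.1
      sub := fun _ h N => ⟨h.1.sub (bs_noe A A') N, h.2.sub N⟩
      quot := fun _ h N => ⟨h.1.quot N, h.2.quot N⟩
      iso := fun _ _ f hf h => ⟨h.1.of_surj f (fun p => (hf p).2),
        h.2.of_surj f (fun p => (hf p).2)⟩
      pow := fun _ h n => ⟨h.1.pow n, h.2.pow n⟩ }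

end

end Pool.Agent.MP_6e5bed_ag_GP
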