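import Pool.Agent.Lib.MP_6e5bed_ag_GP.UniC
import Pool.Agent.Lib.MP_6e5bed_ag_GP.LatD
import Pool.Agent.Lib.MP_6e5bed_ag_GP.Tw

set_option autoImplicit false
set_option linter.unusedVariables false

/-!
# MP_6e5bed_ag, THEOREM G+: the bimodules of central bisheaves at the generic point
-/

noncomputable section

namespace Pool.Agent.MP_6e5bed_ag_GP

open Pool.Agent.MP_6e5bed_ag_GG
open scoped TensorProduct

universe u

variable {k : Type u} [Field k] {i : Type} [Fintype i] {A : CA k i} {m : Ch i}

/-- On the chart `(c, c)` of a central bisheaf the functions act in the same way from both sides: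
`Cen.comm` for the generators (`rgen_adjoin`). -/
theorem Cen.fun {F : BS A A} (h : Cen F) (c : Ch i) (f : RR k c.1) (x : F.E (c, c)) :
    cl1 A A (c, c) f • x = crt A A (c, c) f • x := by
  have hf : f ∈ Algebra.adjoin k (rgen k c.1) := by
    rw [rgen_adjoin c.2.1]
    exact Algebra.mem_top
  revert x
  induction hf using Algebra.adjoin_induction with
  | mem f hf =>
    obtain ⟨l, g, hg, rfl⟩ := hf
    intro x
    exact h.comm (c, c) hg hg l x
  | algebraMap r =>
    intro x
    congr 1
    unfold cl1 crt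
    have e1 : algebraMap (RR k c.1) (A.A c) (algebraMap k (RR k c.1) r) =
        algebraMap k (A.A c) r := (IsScalarTower.algebraMap_apply k (RR k c.1) (A.A c) r).symm
    have e2 : (MulOpposite.op (algebraMap k (A.A c) r) : (A.A c)ᵐᵒᵖ) =
        algebraMap k (A.A c)ᵐᵒᵖ r := rfl
    refine (congrArg (lo A A (c, c)) e1).trans (Eq.trans ?_
      (congrArg (fun z => ro A A (c, c) (MulOpposite.op z)) e1).symm)
    refine Eq.trans (AlgHom.commutes _ _) ?_
    refine Eq.trans ?_ (congrArg (ro A A (c, c)) e2).symm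
    exact (AlgHom.commutes _ _).symm
  | add f g _ _ hf hg =>
    intro x
    have e1 : cl1 A A (c, c) (f + g) = cl1 A A (c, c) f + cl1 A A (c, c) g := by
      unfold cl1
      rw [map_add, map_add]
    have e2 : crt A A (c, c) (f + g) = crt A A (c, c) f + crt A A (c, c) g := by
      unfold crt
      rw [map_add, MulOpposite.op_add, map_add]
    rw [e1, e2, add_smul, add_smul, hf, hg]
  | mul f g _ _ hf hg =>
    intro x
    rw [cl1_mul, crt_mul, mul_smul, mul_smul, hg, hf]

/-- The sections of a coherent central bisheaf over `(c, c)` are a finite module over `R_c`: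
`bsB (c, c) = A_c ⊗ A_cᵒᵖ` is finite over `R_c ⊗ R_c` (`rB_span`), and the two actions of `R_c`
agree (`Cen.fun`). -/
theorem sec_fin {F : BS A A} (hF : F.Coh) (h : Cen F) (c : Ch i) :
    Module.Finite (RR k c.1) (Sec F c c) := by
  let _ : Module (bsB A A (c, c)) (F.E (c, c)) := F.mod (c, c)
  have h1 : Module.Finite (bsB A A (c, c)) (F.E (c, c)) := hF (c, c)
  obtain ⟨N, y, hy⟩ := Module.Finite.exists_fin (R := bsB A A (c, c)) (M := F.E (c, c))
  obtain ⟨n, n', s, hs⟩ := rB_span A A (c, c)
  obtain ⟨G, hG⟩ : ∃ G : (Fin n × Fin n') × Fin N → Sec F c c,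
      ∀ q, G q = (s q.1 • y q.2 : F.E (c, c)) := ⟨_, fun _ => rfl⟩
  obtain ⟨S, hS⟩ : ∃ S : Submodule (RR k c.1) (Sec F c c),
      S = Submodule.span (RR k c.1) (Set.range G) := ⟨_, rfl⟩
  have key : ∀ (ρ : RR k c.1 ⊗[k] RR k c.1) (z : F.E (c, c)), (show Sec F c c from z) ∈ S →
      (show Sec F c c from (rB A A (c, c) ρ • z : F.E (c, c))) ∈ S := by
    intro ρ z hz
    induction ρ using TensorProduct.induction_on with
    | zero =>
      have e : (rB A A (c, c) 0 • z : F.E (c, c)) = 0 := by
        rw [map_zero]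
        exact zero_smul (bsB A A (c, c)) z
      rw [e]
      exact S.zero_mem
    | tmul r r' =>
      have e : (rB A A (c, c) (r ⊗ₜ[k] r') • z : F.E (c, c)) =
          cl1 A A (c, c) r • cl1 A A (c, c) r' • z := by
        rw [h.fun c r' z, ← mul_smul]
        congr 1
        exact (lo_mul_ro A A (c, c) _ _).symm
      rw [e]
      exact S.smul_mem r (S.smul_mem r' hz)
    | add ρ ρ' h h' =>
      have e : (rB A A (c, c) (ρ + ρ') • z : F.E (c, c)) =
          rB A A (c, c) ρ • z + rB A A (c, c) ρ' • z := by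
        rw [map_add]
        exact add_smul (R := bsB A A (c, c)) _ _ z
      rw [e]
      exact S.add_mem h h'
  refine ⟨Submodule.fg_def.2 ⟨Set.range G, Set.finite_range _, eq_top_iff.2 fun x _ => ?_⟩⟩
  rw [← hS]
  have hx : (show F.E (c, c) from x) ∈ Submodule.span (bsB A A (c, c)) (Set.range y) := by
    rw [hy]
    exact Submodule.mem_top
  obtain ⟨b, hb⟩ := (Submodule.mem_span_range_iff_exists_fun _).1 hx
  have hb' : x = ∑ t, (show Sec F c c from (b t • y t : F.E (c, c))) := hb.symm
  rw [hb']
  refine S.sum_mem fun t _ => ?_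
  obtain ⟨r, hr⟩ := hs (b t)
  have e : (show Sec F c c from (b t • y t : F.E (c, c))) =
      ∑ q, (show Sec F c c from (rB A A (c, c) (r q) • (s q • y t : F.E (c, c)) : F.E (c, c))) := by
    refine (congrArg (fun z : bsB A A (c, c) => (z • y t : F.E (c, c))) hr).trans ?_
    refine (Finset.sum_smul (R := bsB A A (c, c)) (M := F.E (c, c))).trans ?_
    exact Finset.sum_congr rfl fun q _ => mul_smul (α := bsB A A (c, c)) _ _ (y t)
  rw [e]
  refine S.sum_mem fun q _ => key _ _ ?_
  rw [hS]
  exact Submodule.subset_span ⟨(q, t), hG (q, t)⟩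

/-- the restriction of the sections of a central bisheaf over `(m, c')`, `c' ≤ m`, to `(m, m)` -/
def Cen.eqv {F : BS A A} (h : Cen F) {c' : Ch i} (hc : c' ≤ m) :
    Sec F m c' ≃ₗ[RR k m.1] Sec F m m :=
  LinearEquiv.ofBijective (rend F m hc) (h.res_bij hc Set.subset_union_left)

/-- the actions on the sections over `(m, m)` localised at the generic point, as `k`-algebra maps -/
def gbl (F : BS A A) (m : Ch i) (Sg : Submonoid (RR k m.1)) :
    (bs A A).B (m, m) →ₐ[k] Module.End k (LV F m Sg m) where
  toFun b := (LV.act F m Sg m b).restrictScalars k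
  map_one' := LinearMap.ext fun v => by
    rw [map_one]
    rfl
  map_mul' := fun b b' => LinearMap.ext fun v => by
    rw [map_mul]
    rfl
  map_zero' := LinearMap.ext fun v => by
    rw [map_zero]
    rfl
  map_add' := fun b b' => LinearMap.ext fun v => by
    rw [map_add]
    rfl
  commutes' := fun c => LinearMap.ext fun v => LV.act_algebraMap c v

theorem gbl_apply (F : BS A A) (m : Ch i) (Sg : Submonoid (RR k m.1)) (b : (bs A A).B (m, m))
    (v : LV F m Sg m) : gbl F m Sg b v = LV.act F m Sg m b v := rfl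

/-- THE BIMODULE OF A CENTRAL BISHEAF at the generic point of a reduced bisheaf. -/
def GBi.of {E : BS A A} (hR : Red E m) {F : BS A A} (hF : F.Coh) (hc : Cen F)
    (ha : ann E ≤ ann F) : GBi hR.gd where
  U := LV F m hR.sg m
  lam := (gbl F m hR.sg).comp (lo A A (m, m))
  rho := (gbl F m hR.sg).comp (ro A A (m, m))
  comm := by
    intro a b x
    change gbl F m hR.sg (lo A A (m, m) a) (gbl F m hR.sg (ro A A (m, m) b) x) =
      gbl F m hR.sg (ro A A (m, m) b) (gbl F m hR.sg (lo A A (m, m) a) x)
    rw [← Module.End.mul_apply, ← Module.End.mul_apply, ← map_mul, ← map_mul, ro_mul_lo]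
  zero := by
    intro a h0
    have h1 : a ∈ ann F m := ha m ((hR.gd_psi a).1 h0)
    refine LinearMap.ext fun v => ?_
    change LV.act F m hR.sg m (lo A A (m, m) a) v = 0
    obtain ⟨s, hs, x, hx⟩ := LV.surj v
    refine LV.inj hs ?_
    rw [← map_smul, hx, LV.act_ι, smul_zero]
    have h2 : bend F m m (lo A A (m, m) a) x = 0 := h1 m x
    rw [h2, map_zero]
  bij := by
    intro f hf
    have hs : f ∈ hR.sg := hR.mem_sg.2 ((hR.gd_fn f).1 hf)
    have e : ∀ v : LV F m hR.sg m, ((gbl F m hR.sg).comp (lo A A (m, m)))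
        (algebraMap (RR k m.1) (A.A m) f) v = f • v := fun v => LV.act_cl1 f v
    constructor
    · intro v w hvw
      have h1 : f • v = f • w := (e v).symm.trans (hvw.trans (e w))
      exact LV.inj hs h1
    · intro v
      obtain ⟨w, hw⟩ := LV.div hs v
      exact ⟨w, (e w).trans hw⟩
  cen := by
    intro f x
    have h1 : LV.act F m hR.sg m (cl1 A A (m, m) f) = LV.act F m hR.sg m (crt A A (m, m) f) := by
      refine LV.ext fun x => ?_
      rw [LV.act_ι, LV.act_ι]
      exact congrArg (LV.ι F m hR.sg m) (hc.fun m f x)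
    exact LinearMap.congr_fun h1 x
  fin := by
    have := sec_fin hF hc m
    obtain ⟨n, y, hy⟩ := Module.Finite.exists_fin (R := RR k m.1) (M := Sec F m m)
    refine ⟨n, fun t => LV.ι F m hR.sg m (y t), fun v => ?_⟩
    obtain ⟨s, hs, x, hx⟩ := LV.surj (show LV F m hR.sg m from v)
    refine ⟨s, (hR.gd_fn s).2 (hR.mem_sg.1 hs), ?_⟩
    have hxs : x ∈ Submodule.span (RR k m.1) (Set.range y) := by
      rw [hy]
      exact Submodule.mem_top
    obtain ⟨r, hr⟩ := (Submodule.mem_span_range_iff_exists_fun _).1 hxs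
    refine ⟨fun t => algebraMap (RR k m.1) (A.A m) (r t), ?_⟩
    refine (LV.act_cl1 s (show LV F m hR.sg m from v)).trans (hx.trans ?_)
    rw [← hr, map_sum]
    refine Finset.sum_congr rfl fun t _ => ?_
    rw [map_smul]
    exact (LV.act_cl1 (r t) _).symm

/-- the bimodule `S` -/
def GBi.self (g : GD A m) : GBi g where
  U := g.S
  lam := (Algebra.lmul k g.S).comp g.psi
  rho := {
    toFun := fun b => LinearMap.mulRight k (g.psi b.unop)
    map_one' := LinearMap.ext fun x => by
      rw [MulOpposite.unop_one, map_one]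
      exact mul_one x
    map_mul' := fun a b => LinearMap.ext fun x => by
      rw [MulOpposite.unop_mul, map_mul]
      exact (mul_assoc x _ _).symm
    map_zero' := LinearMap.ext fun x => by
      rw [MulOpposite.unop_zero, map_zero]
      exact mul_zero x
    map_add' := fun a b => LinearMap.ext fun x => by
      rw [MulOpposite.unop_add, map_add]
      exact mul_add x _ _
    commutes' := fun c => LinearMap.ext fun x => by
      change x * g.psi (algebraMap k (A.A m) c) = c • x
      rw [AlgHom.commutes, ← Algebra.commutes, Algebra.smul_def] }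
  comm := fun a b x => (mul_assoc _ _ _).symm
  zero := fun a ha => LinearMap.ext fun x => by
    change g.psi a * x = 0
    rw [ha, zero_mul]
  bij := by
    intro f hf
    obtain ⟨u, hu⟩ := g.unit f hf
    have e : ∀ x : g.S, ((Algebra.lmul k g.S).comp g.psi)
        (algebraMap (RR k m.1) (A.A m) f) x = (u : g.S) * x := fun x => by
      rw [hu]
      rfl
    constructor
    · intro x y hxy
      have h1 : (u : g.S) * x = (u : g.S) * y := (e x).symm.trans (hxy.trans (e y))
      exact (Units.mul_right_inj u).1 h1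
    · intro y
      exact ⟨((u⁻¹ : g.Sˣ) : g.S) * y, (e _).trans (Units.mul_inv_cancel_left u y)⟩
  cen := fun f x => g.fn_comm f x
  fin := by
    refine ⟨1, fun _ => (1 : g.S), fun x => ?_⟩
    obtain ⟨f, hf, a, ha⟩ := g.surj x
    refine ⟨f, hf, fun _ => a, ?_⟩
    rw [Fin.sum_univ_one]
    change g.psi (algebraMap (RR k m.1) (A.A m) f) * (show g.S from x) = g.psi a * 1
    rw [mul_one, ha]

theorem GBi.self_lam (g : GD A m) (a : A.A m) (s : (GBi.self g).U) :
    (GBi.self g).lam a s = (g.psi a * (show g.S from s) : g.S) := rfl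

theorem GBi.self_rho (g : GD A m) (a : A.A m) (s : (GBi.self g).U) :
    (GBi.self g).rho (MulOpposite.op a) s = ((show g.S from s) * g.psi a : g.S) := rfl

end Pool.Agent.MP_6e5bed_ag_GP
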