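import Pool.Agent.Lib.MP_6e5bed_ag_GG.GB

set_option autoImplicit false
set_option linter.unusedVariables false

/-!
# MP_6e5bed_ag, THEOREM G+: generic data of a prime ideal, the universal property
-/

noncomputable section

namespace Pool.Agent.MP_6e5bed_ag_GP

open Pool.Agent.MP_6e5bed_ag_GG
open scoped TensorProduct

universe u

variable {k : Type u} [Field k] {i : Type} [Fintype i] {A : CA k i} {m : Ch i}

private theorem GdQ_comm {W : Type*} [Ring W] (ρ : A.A m →+* W) (f : RR k m.1) (a : A.A m) :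
    ρ (algebraMap (RR k m.1) (A.A m) f) * ρ a = ρ a * ρ (algebraMap (RR k m.1) (A.A m) f) := by
  rw [← map_mul, ← map_mul, Algebra.commutes]

/-- THE UNIVERSAL PROPERTY of the generic data: a ring homomorphism from `A_m` which kills the
kernel of `psi` and makes the functions `f`, `fn f ≠ 0`, invertible extends to `S`.
Proof: for `s` choose `f`, `a` with `fn f ≠ 0`, `psi a = fn f * s` and put
`σ s = ρ(f)⁻¹ * ρ a`; it does not depend on the choices. -/
theorem gd_lift (g : GD A m) {W : Type*} [Ring W] (ρ : A.A m →+* W)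
    (h0 : ∀ a, g.psi a = 0 → ρ a = 0)
    (hu : ∀ f : RR k m.1, g.fn f ≠ 0 → IsUnit (ρ (algebraMap (RR k m.1) (A.A m) f))) :
    ∃ σ : g.S →+* W, ∀ a, σ (g.psi a) = ρ a := by
  classical
  -- the relation which characterises the value
  have hex : ∀ s : g.S, ∃ w : W, ∃ f : RR k m.1, g.fn f ≠ 0 ∧ ∃ a, g.psi a = g.fn f * s ∧
      ρ (algebraMap (RR k m.1) (A.A m) f) * w = ρ a := by
    intro s
    obtain ⟨f, hf, a, ha⟩ := g.surj s
    obtain ⟨v, hv⟩ := (hu f hf).exists_right_inv
    refine ⟨v * ρ a, f, hf, a, ha, ?_⟩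
    rw [← mul_assoc, hv, one_mul]
  have huniq : ∀ (s : g.S) (w : W) (f : RR k m.1) (a : A.A m), g.fn f ≠ 0 →
      g.psi a = g.fn f * s → ρ (algebraMap (RR k m.1) (A.A m) f) * w = ρ a →
      ∀ (f' : RR k m.1) (a' : A.A m), g.psi a' = g.fn f' * s →
        ρ (algebraMap (RR k m.1) (A.A m) f') * w = ρ a' := by
    intro s w f a hf ha hw f' a' ha'
    refine (hu f hf).mul_left_cancel ?_
    have e1 : ρ (algebraMap (RR k m.1) (A.A m) f * a' - algebraMap (RR k m.1) (A.A m) f' * a)
        = 0 := by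
      refine h0 _ ?_
      rw [map_sub, map_mul, map_mul, ha, ha']
      change g.fn f * (g.fn f' * s) - g.fn f' * (g.fn f * s) = 0
      rw [← mul_assoc, ← mul_assoc, ← g.fn_mul, ← g.fn_mul, mul_comm f f', sub_self]
    rw [map_sub, map_mul, map_mul, sub_eq_zero] at e1
    rw [e1, ← hw, ← mul_assoc, ← mul_assoc, GdQ_comm ρ f']
  choose σ hσ using hex
  have key : ∀ (s : g.S) (f' : RR k m.1) (a' : A.A m), g.psi a' = g.fn f' * s →
      ρ (algebraMap (RR k m.1) (A.A m) f') * σ s = ρ a' := by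
    intro s f' a' ha'
    obtain ⟨f, hf, a, ha, hw⟩ := hσ s
    exact huniq s (σ s) f a hf ha hw f' a' ha'
  have hpsi : ∀ a, σ (g.psi a) = ρ a := by
    intro a
    have h := key (g.psi a) 1 a (by rw [g.fn_one, one_mul])
    rwa [map_one, map_one, one_mul] at h
  have hadd : ∀ s t, σ (s + t) = σ s + σ t := by
    intro s t
    obtain ⟨f, hf, a, ha, hw⟩ := hσ s
    obtain ⟨f', hf', a', ha', hw'⟩ := hσ t
    refine (hu f hf).mul_left_cancel ((hu f' hf').mul_left_cancel ?_)
    have h := key (s + t) (f' * f)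
      (algebraMap (RR k m.1) (A.A m) f' * a + algebraMap (RR k m.1) (A.A m) f * a') (by
        rw [map_add, map_mul, map_mul, ha, ha', g.fn_mul, mul_add]
        change g.fn f' * (g.fn f * s) + g.fn f * (g.fn f' * t) = _
        have hc : g.fn f' * g.fn f = g.fn f * g.fn f' := by
          rw [← g.fn_mul, ← g.fn_mul, mul_comm]
        rw [← mul_assoc, ← mul_assoc, hc])
    rw [map_mul, map_mul, map_add, map_mul, map_mul, mul_assoc] at h
    rw [h, mul_add, mul_add, hw, ← hw', ← mul_assoc, ← mul_assoc,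
      GdQ_comm ρ f' (algebraMap (RR k m.1) (A.A m) f)]
  have hmul : ∀ s t, σ (s * t) = σ s * σ t := by
    intro s t
    obtain ⟨f, hf, a, ha, hw⟩ := hσ s
    obtain ⟨f', hf', a', ha', hw'⟩ := hσ t
    refine (hu f hf).mul_left_cancel ((hu f' hf').mul_left_cancel ?_)
    have h := key (s * t) (f' * f) (a * a') (by
        rw [map_mul, ha, ha', g.fn_mul]
        have hc : g.fn f' * s = s * g.fn f' := g.fn_comm f' s
        have hc' : g.fn f' * g.fn f = g.fn f * g.fn f' := by
          rw [← g.fn_mul, ← g.fn_mul, mul_comm]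
        rw [hc', mul_assoc, mul_assoc, ← mul_assoc s, ← hc]
        simp only [mul_assoc])
    rw [map_mul, map_mul, map_mul, mul_assoc] at h
    rw [h, ← mul_assoc (ρ (algebraMap (RR k m.1) (A.A m) f)) (σ s), hw, ← mul_assoc,
      GdQ_comm ρ f', mul_assoc, hw']
  exact ⟨{ toFun := σ
           map_one' := by rw [← map_one g.psi, hpsi, map_one]
           map_mul' := hmul
           map_zero' := by rw [← map_zero g.psi, hpsi, map_zero]
           map_add' := hadd }, hpsi⟩

/-- the functions which are inverted -/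
private def GdQ_sg (Q : Ideal (A.A m)) (h1 : (1 : A.A m) ∉ Q)
    (hp : ∀ a b : A.A m, (∀ x, a * x * b ∈ Q) → a ∈ Q ∨ b ∈ Q) : Submonoid (RR k m.1) where
  carrier := {f | algebraMap (RR k m.1) (A.A m) f ∉ Q}
  one_mem' := by
    change algebraMap (RR k m.1) (A.A m) 1 ∉ Q
    rwa [map_one]
  mul_mem' := by
    intro f f' hf hf' h
    rcases hp _ _ (fun x => by
      have e : algebraMap (RR k m.1) (A.A m) f * x * algebraMap (RR k m.1) (A.A m) f' =
          x * algebraMap (RR k m.1) (A.A m) (f * f') := by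
        rw [Algebra.commutes f x, mul_assoc, map_mul]
      rw [e]
      exact Q.mul_mem_left x h) with h3 | h3
    · exact hf h3
    · exact hf' h3

private theorem GdQ_mem {Q : Ideal (A.A m)} {h1 : (1 : A.A m) ∉ Q}
    {hp : ∀ a b : A.A m, (∀ x, a * x * b ∈ Q) → a ∈ Q ∨ b ∈ Q} {f : RR k m.1} :
    f ∈ GdQ_sg Q h1 hp ↔ algebraMap (RR k m.1) (A.A m) f ∉ Q := Iff.rfl

/-- Every prime two-sided ideal `Q` of `A_m` which contains the `x_l / x_γ`, `γ ∈ m`, `l ∉ m`, is the
kernel of `psi` for generic data: `S = Σ⁻¹ (A_m ⧸ Q)`, `Σ` the functions which are not in `Q`.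
Proof. As in `GG/GC.lean`, `GG/GD.lean`: `X = A_m ⧸ Q` (a left module), `Y` its localisation
`LocalizedModule Σ X` over `R_m`, `S` the subalgebra of those `φ ∈ End_{R_m} Y` for which there are
`s ∈ Σ`, `a ∈ A_m` with `s φ = (left multiplication by a)`. -/
theorem gd_of_prime (Q : Ideal (A.A m)) (h2 : ∀ a ∈ Q, ∀ b, a * b ∈ Q) (h1 : (1 : A.A m) ∉ Q)
    (hp : ∀ a b : A.A m, (∀ x, a * x * b ∈ Q) → a ∈ Q ∨ b ∈ Q)
    (ht : ∀ {γ : i} (hγ : γ ∈ m.1) (l : i), l ∉ m.1 →
      algebraMap (RR k m.1) (A.A m) (tt k l hγ) ∈ Q) :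
    ∃ g : GD A m, ∀ a, g.psi a = 0 ↔ a ∈ Q := by
  have : Q.IsTwoSided := ⟨fun b ha => h2 _ ha b⟩
  let Sg := GdQ_sg Q h1 hp
  let W := LocalizedModule Sg (A.A m ⧸ Q)
  let _ : Algebra k W := Algebra.compHom W (algebraMap k (RR k m.1))
  let ψ0 : A.A m →+* W :=
    { toFun := fun a => LocalizedModule.mk (Ideal.Quotient.mk Q a) 1
      map_one' := by
        rw [map_one, OreLocalization.one_def]
      map_mul' := fun a b => by
        rw [LocalizedModule.mk_mul_mk, map_mul, mul_one]
      map_zero' := by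
        rw [map_zero]
        exact LocalizedModule.zero_mk 1
      map_add' := fun a b => by
        rw [LocalizedModule.mk_add_mk, map_add, one_smul, one_smul, mul_one] }
  let ψ : A.A m →ₐ[k] W :=
    { ψ0 with
      commutes' := fun c => by
        change LocalizedModule.mk (Ideal.Quotient.mk Q (algebraMap k (A.A m) c)) 1 =
          algebraMap (RR k m.1) W (algebraMap k (RR k m.1) c)
        rw [IsScalarTower.algebraMap_apply k (RR k m.1) (A.A m)]
        rfl }
  have hψ : ∀ a, ψ a = LocalizedModule.mk (Ideal.Quotient.mk Q a) 1 := fun a => rfl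
  have hker : ∀ (a : A.A m) (s : Sg), (LocalizedModule.mk (Ideal.Quotient.mk Q a) s : W) = 0 ↔
      a ∈ Q := by
    intro a s
    rw [← LocalizedModule.zero_mk (1 : Sg), LocalizedModule.mk_eq]
    constructor
    · rintro ⟨t, ht'⟩
      rw [one_smul, smul_zero, smul_zero] at ht'
      have h3 : Ideal.Quotient.mk Q (algebraMap (RR k m.1) (A.A m) t.1 * a) = 0 := by
        rw [← ht', map_mul]
        change _ = t.1 • Ideal.Quotient.mk Q a
        rw [Algebra.smul_def]
        rfl
      rw [Ideal.Quotient.eq_zero_iff_mem] at h3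
      rcases hp _ _ (fun x => by
        have e : algebraMap (RR k m.1) (A.A m) t.1 * x * a =
            x * (algebraMap (RR k m.1) (A.A m) t.1 * a) := by
          rw [Algebra.commutes t.1 x, mul_assoc]
        rw [e]
        exact Q.mul_mem_left x h3) with h4 | h4
      · exact absurd h4 t.2
      · exact h4
    · intro ha
      refine ⟨1, ?_⟩
      rw [Ideal.Quotient.eq_zero_iff_mem.2 ha]
      simp only [smul_zero]
  have hz : ∀ a, ψ a = 0 ↔ a ∈ Q := fun a => hker a 1
  have hsur : ∀ w : W, ∃ (a : A.A m) (s : Sg), w = LocalizedModule.mk (Ideal.Quotient.mk Q a) s := by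
    intro w
    induction w using LocalizedModule.induction_on with
    | h x s =>
      obtain ⟨a, rfl⟩ := Ideal.Quotient.mk_surjective x
      exact ⟨a, s, rfl⟩
  have hsm : ∀ (s : Sg) (a : A.A m), Ideal.Quotient.mk Q (algebraMap (RR k m.1) (A.A m) s.1 * a) =
      s • Ideal.Quotient.mk Q a := by
    intro s a
    rw [map_mul]
    change _ = s.1 • Ideal.Quotient.mk Q a
    rw [Algebra.smul_def]
    rfl
  refine ⟨{ S := W
            psi := ψ
            zero := fun {g} hg l hl => (hz _).2 (ht hg l hl)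
            unit := fun f hf => ?_
            surj := fun s => ?_
            pr := fun x y hxy => ?_
            ne := fun h => ?_ }, hz⟩
  · have hf' : f ∈ Sg := fun h => hf ((hz _).2 h)
    refine ⟨⟨ψ (algebraMap (RR k m.1) (A.A m) f),
      LocalizedModule.mk (Ideal.Quotient.mk Q 1) ⟨f, hf'⟩, ?_, ?_⟩, rfl⟩
    · rw [hψ, LocalizedModule.mk_mul_mk, ← map_mul, hsm ⟨f, hf'⟩ 1, one_mul]
      rw [OreLocalization.one_def, LocalizedModule.mk_eq]
      refine ⟨1, ?_⟩
      rw [one_smul, map_one]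
    · rw [hψ, LocalizedModule.mk_mul_mk, ← map_mul, one_mul, mul_one,
        ← mul_one (algebraMap (RR k m.1) (A.A m) f), hsm ⟨f, hf'⟩ 1]
      rw [OreLocalization.one_def, LocalizedModule.mk_eq]
      refine ⟨1, ?_⟩
      rw [one_smul, map_one]
  · obtain ⟨a, t, rfl⟩ := hsur s
    refine ⟨t.1, fun h => t.2 ((hz _).1 h), a, ?_⟩
    rw [hψ, hψ, LocalizedModule.mk_mul_mk, ← map_mul, hsm t a, one_mul, LocalizedModule.mk_eq]
    refine ⟨1, ?_⟩
    rw [one_smul, one_smul]
  · obtain ⟨a, s, rfl⟩ := hsur x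
    obtain ⟨b, t, rfl⟩ := hsur y
    have h3 : ∀ c, a * c * b ∈ Q := by
      intro c
      have h4 := hxy (ψ c)
      rw [hψ, LocalizedModule.mk_mul_mk, LocalizedModule.mk_mul_mk, ← map_mul, ← map_mul,
        hker] at h4
      exact h4
    rcases hp a b h3 with h4 | h4
    · exact Or.inl ((hker a s).2 h4)
    · exact Or.inr ((hker b t).2 h4)
  · exact h1 ((hz 1).1 (by rw [map_one]; exact h))

end Pool.Agent.MP_6e5bed_ag_GP
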