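import Pool.Agent.Lib.MP_6e5bed_ag_GP.Tw

set_option autoImplicit false
set_option linter.unusedVariables false

/-!
# MP_6e5bed_ag, THEOREM G+: the Koszul-Beilinson complex of a bisheaf

For a bisheaf `E` on the product of two copies of the projective space `kb o E` is the complex with
the terms `K_r = ker (Λ^r ⊗ E(-r, 0) → Λ^(r-1) ⊗ E(-r, 1))` (contraction with the `y_l`) and the
differential `∑ x_l ∂_l` (contraction with the `x_l`). It is the tensor product of `E` with the
Beilinson resolution of the diagonal.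
-/

noncomputable section

namespace Pool.Agent.MP_6e5bed_ag_GP

open Pool.Agent.MP_6e5bed_ag_GG
open scoped TensorProduct

universe u

variable {k : Type u} [Field k] {i : Type} [Fintype i] [DecidableEq i] (o : i → ℕ)
  {A A' : CA k i}

private theorem Kb_map {A A' : CA k i} (E : BS A A') {s t : Ch i × Ch i} (h : s ≤ t)
    (a : i → (bs A A').B s) (ω : Finset i → E.E s) (u : Finset i) :
    E.res h (dop (R := (bs A A').B s) (M := E.E s) o a ω u) =
      dop (R := (bs A A').B t) (M := E.E t) o (fun l => (bs A A').r h (a l))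
        (fun v => E.res h (ω v)) u := by
  exact congrFun (dop_map (R := (bs A A').B s) (M := E.E s) (R' := (bs A A').B t)
    (M' := E.E t) o (E.res h).toAddMonoidHom (fun b => (bs A A').r h b)
    (fun b x => E.res_smul h b x) a ω) u

private theorem Kb_zero {R M : Type*} [Ring R] [AddCommGroup M] [Module R M] (a : i → R) :
    dop o a (0 : Finset i → M) = 0 := by
  funext s
  simp [dop]

private theorem Kb_twq (A A' : CA k i) (p q : ℕ) {s t : Ch i × Ch i} (h : s ≤ t) :
    twu A A' p (q + 1) h = twu A A' p q h * crt A A' t (tv h.2) := by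
  unfold twu
  rw [pow_succ, crt_mul, mul_assoc]

private theorem Kb_twp (A A' : CA k i) (p q : ℕ) {s t : Ch i × Ch i} (h : s ≤ t) :
    twu A A' (p + 1) q h = cl1 A A' t (tu h.1) * twu A A' p q h := by
  unfold twu
  rw [pow_succ', cl1_mul, mul_assoc]

/-- The contraction with the coordinates of the second space,
`Λ ⊗ E(-p, q) → Λ ⊗ E(-p, q + 1)`. -/
def iot (p q : ℕ) (E : BS A A') :
    ShH (pi (Finset i) (tw p q E)) (pi (Finset i) (tw p (q + 1) E)) where
  f := fun s =>
    { toFun := fun ω => (dop (R := (bs A A').B s) (M := E.E s) o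
        (fun l => crt A A' s (tt k l (gch_mem s.2))) ω : Finset i → E.E s)
      map_add' := fun ω ω' => dop_add _ _ _ _
      map_smul' := fun b ω => dop_smul _ _ _ (fun l => crt_comm A A' s _ b) _ }
  nat := fun {s t} h ω => by
    refine funext fun u => ?_
    change twu A A' p (q + 1) h • E.res h (dop (R := (bs A A').B s) (M := E.E s) o
      (fun l => crt A A' s (tt k l (gch_mem s.2))) ω u) = dop (R := (bs A A').B t)
        (M := E.E t) o (fun l => crt A A' t (tt k l (gch_mem t.2)))
          (twu A A' p q h • (fun v => E.res h ((ω : Finset i → E.E s) v))) u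
    rw [Kb_map, Kb_twq, mul_smul, dop_smul _ _ _ (fun l => crt_comm A A' t _ _)]
    change twu A A' p q h • (crt A A' t (tv h.2) • dop (R := (bs A A').B t)
      (M := E.E t) o _ _) u = _
    rw [← dop_mul _ _ _ (fun l => (crt_comm A A' t _ _).symm)]
    change _ = twu A A' p q h • dop (R := (bs A A').B t) (M := E.E t) o _ _ u
    congr 2
    refine funext fun l => ?_
    rw [crt_r, ← crt_mul, mul_comm]
    exact congrArg (crt A A' t) (tt_tt l (h.2 (gch_mem s.2)) (gch_mem t.2))

/-- The contraction with the coordinates of the first space,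
`Λ ⊗ E(-(p + 1), q) → Λ ⊗ E(-p, q)`. -/
def dif (p q : ℕ) (E : BS A A') :
    ShH (pi (Finset i) (tw (p + 1) q E)) (pi (Finset i) (tw p q E)) where
  f := fun s =>
    { toFun := fun ω => (dop (R := (bs A A').B s) (M := E.E s) o
        (fun l => cl1 A A' s (tt k l (gch_mem s.1))) ω : Finset i → E.E s)
      map_add' := fun ω ω' => dop_add _ _ _ _
      map_smul' := fun b ω => dop_smul _ _ _ (fun l => cl1_comm A A' s _ b) _ }
  nat := fun {s t} h ω => by
    refine funext fun u => ?_
    change twu A A' p q h • E.res h (dop (R := (bs A A').B s) (M := E.E s) o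
      (fun l => cl1 A A' s (tt k l (gch_mem s.1))) ω u) = dop (R := (bs A A').B t)
        (M := E.E t) o (fun l => cl1 A A' t (tt k l (gch_mem t.1)))
          (twu A A' (p + 1) q h • (fun v => E.res h ((ω : Finset i → E.E s) v))) u
    rw [Kb_map, Kb_twp, mul_smul, dop_smul _ _ _ (fun l => cl1_comm A A' t _ _),
      ← dop_mul _ _ _ (fun l => cl1_comm A A' t _ _),
      dop_smul _ _ _ (fun l => (twu_comm A A' p q h _).symm)]
    change _ = twu A A' p q h • dop (R := (bs A A').B t) (M := E.E t) o _ _ u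
    congr 2
    refine funext fun l => ?_
    rw [cl1_r, ← cl1_mul, mul_comm]
    exact congrArg (cl1 A A' t) (tt_tt l (gch_mem t.1) (h.1 (gch_mem s.1))).symm

/-- The kernel of `Λ^r ⊗ E(-p, q) → Λ^(r-1) ⊗ E(-p, q + 1)`. -/
def Zr (r p q : ℕ) (E : BS A A') : Sub (pi (Finset i) (tw p q E)) :=
  Sub.inf (supp (fun s : Finset i => s.card = r) (tw p q E)) (iot o p q E).ker

theorem mem_Zr {r p q : ℕ} {E : BS A A'} {s : Ch i × Ch i} {ω : Finset i → E.E s} :
    ω ∈ (Zr o r p q E).N s ↔ Crd r ω ∧
      dop (R := (bs A A').B s) (M := E.E s) o (fun l => crt A A' s (tt k l (gch_mem s.2))) ω = 0 :=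
  Iff.rfl

variable {o}

/-- The differential preserves the kernels. -/
theorem dif_mem (ho : Function.Injective o) {r p q : ℕ} {E : BS A A'} {s : Ch i × Ch i}
    {ω : Finset i → E.E s} (h : ω ∈ (Zr o (r + 1) (p + 1) q E).N s) :
    dop (R := (bs A A').B s) (M := E.E s) o (fun l => cl1 A A' s (tt k l (gch_mem s.1))) ω ∈
      (Zr o r p q E).N s := by
  obtain ⟨h1, h2⟩ := (mem_Zr o).1 h
  refine (mem_Zr o).2 ⟨h1.dop o _, ?_⟩
  rw [dop_dop o ho _ _ (fun l l' => crt_comm A A' s _ _), h2, Kb_zero, neg_zero]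

/-- THE KOSZUL-BEILINSON COMPLEX. -/
def kb (ho : Function.Injective o) (E : BS A A') : ShC (bs A A') where
  K := fun r => (Zr o r r 0 E).sh
  d := fun r => ((dif o r 0 E).comp (Zr o (r + 1) (r + 1) 0 E).incl).codRestr (Zr o r r 0 E)
    (fun s ω => dif_mem ho ω.2)
  dd := fun r s ω => Subtype.ext (dop_sq (R := (bs A A').B s) (M := E.E s) o ho _
    (fun l l' => cl1_comm A A' s _ _) _)

/-- the differential -/
theorem kb_d (ho : Function.Injective o) (E : BS A A') (r : ℕ) {s : Ch i × Ch i}
    (ω : ((kb ho E).K (r + 1)).E s) :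
    (((kb ho E).d r).f s ω : (Zr o r r 0 E).N s).1 =
      dop (R := (bs A A').B s) (M := E.E s) o (fun l => cl1 A A' s (tt k l (gch_mem s.1)))
        (ω : (Zr o (r + 1) (r + 1) 0 E).N s).1 := rfl

theorem kb_coh (ho : Function.Injective o) {E : BS A A'} (hE : E.Coh) (r : ℕ) :
    ((kb ho E).K r).Coh :=
  (pi_coh (tw_coh r 0 hE)).sub (bs_noe A A') _

/-- The complex is bounded. -/
theorem kb_zero (ho : Function.Injective o) (E : BS A A') (r : ℕ) (hr : Fintype.card i < r)
    (s : Ch i × Ch i) (x : ((kb ho E).K r).E s) : x = 0 := by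
  refine Subtype.ext (funext fun u => ?_)
  have h1 : Crd r (x : (Zr o r r 0 E).N s).1 := ((mem_Zr o).1 (x : (Zr o r r 0 E).N s).2).1
  exact h1 u (ne_of_lt (lt_of_le_of_lt (Finset.card_le_univ u) hr))

/-- The annihilators of `E` kill the homology. -/
theorem kb_ann (ho : Function.Injective o) (E : BS A A') (r : ℕ) :
    ann E ≤ ann ((kb ho E).H r) := by
  intro m a ha
  refine mem_ann.2 fun c' e => ?_
  obtain ⟨x, hx, rfl⟩ := ShC.cls_surj _ _ e
  rw [ShC.cls_smul]
  refine ((kb ho E).cls_eq_zero r).2 ⟨0, ?_⟩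
  rw [map_zero]
  refine Eq.symm ?_
  refine Subtype.ext (funext fun u => ?_)
  exact mem_ann.1 ha c' ((x : (Zr o r r 0 E).N (m, c')).1 u)

end Pool.Agent.MP_6e5bed_ag_GP
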