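import Pool.Agent.Lib.MP_6e5bed_ag_GP.Kb
import Pool.Agent.Lib.MP_6e5bed_ag_GP.Br
import Pool.Agent.Lib.MP_6e5bed_ag_GG.GC

set_option autoImplicit false
set_option linter.unusedVariables false

/-!
# MP_6e5bed_ag, THEOREM G+: the homology of the Koszul-Beilinson complex on a chart
-/

noncomputable section

namespace Pool.Agent.MP_6e5bed_ag_GP

open Pool.Agent.MP_6e5bed_ag_GG
open scoped TensorProduct

universe u

variable {k : Type u} [Field k] {i : Type} [Fintype i] [DecidableEq i] {o : i → ℕ}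
  {A A' : CA k i}

theorem tt_congr {c : Set i} (l : i) {g g' : i} (h : g = g') (hg : g ∈ c) (hg' : g' ∈ c) :
    tt k l hg = tt k l hg' := by
  subst h
  rfl

private theorem KbH_crd {R M : Type*} [Ring R] [AddCommGroup M] [Module R M] (a : i → R)
    {ω : Finset i → M} (h : Crd 0 ω) : dop o a ω = 0 := by
  funext s
  simp only [dop]
  refine Finset.sum_eq_zero fun l _ => ?_
  rw [h (insert l s) (by simp), smul_zero, smul_zero]

/-- the contraction only depends on the action of the family -/
private theorem KbH_dop {R R' M : Type*} [Ring R] [Ring R'] [AddCommGroup M] [Module R M]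
    [Module R' M] (a : i → R) (a' : i → R') (h : ∀ (l : i) (x : M), a l • x = a' l • x)
    (ω : Finset i → M) : dop o a ω = dop o a' ω := by
  funext s
  simp only [dop]
  exact Finset.sum_congr rfl fun l _ => by rw [h]

/-- the cycles of the Koszul-Beilinson complex -/
private theorem KbH_mem_Z (ho : Function.Injective o) (E : BS A A') (r : ℕ) {p : Ch i × Ch i}
    (x : ((kb ho E).K r).E p) :
    x ∈ ((kb ho E).Z r).N p ↔
      dop (R := (bs A A').B p) (M := E.E p) o (fun l => cl1 A A' p (tt k l (gch_mem p.1)))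
        (x : (Zr o r r 0 E).N p).1 = 0 := by
  cases r with
  | zero =>
    refine ⟨fun _ => ?_, fun _ => Submodule.mem_top⟩
    exact KbH_crd _ ((mem_Zr o).1 (x : (Zr o 0 0 0 E).N p).2).1
  | succ r =>
    refine Iff.trans (ShH.mem_ker (f := (kb ho E).d r)) ?_
    constructor
    · intro h
      exact congrArg (fun z : (Zr o r r 0 E).N p => z.1) h
    · intro h
      exact Subtype.ext h

/-- The sections of the homology bisheaf over `(m, c')` are the homology `Hk` of the sections of
`E`, for every commutative ring `R` which acts on these sections such that the functions of the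
first space act through `φ` and the `y_l / y_{g(c')}` act as the `b l`. -/
theorem kb_hk (ho : Function.Injective o) (E : BS A A') (m c' : Ch i) (R : Type u) [CommRing R]
    [Module R (E.E (m, c'))] (φ : RR k m.1 →+* R)
    (hφ : ∀ (f : RR k m.1) (x : E.E (m, c')), φ f • x = cl1 A A' (m, c') f • x) (b : i → R)
    (hb : ∀ (l : i) (x : E.E (m, c')), b l • x = crt A A' (m, c') (tt k l (gch_mem c')) • x)
    (r : ℕ) :
    ∃ e : Sec ((kb ho E).H r) m c' ≃+ Hk o (E.E (m, c')) (fun l => φ (tt k l (gch_mem m))) b r,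
      ∀ (f : RR k m.1) (x : Sec ((kb ho E).H r) m c'), e (f • x) = φ f • e x := by
  classical
  -- the two forms of the contractions
  have ha : ∀ ω : Finset i → E.E (m, c'),
      dop (R := R) (M := E.E (m, c')) o (fun l => φ (tt k l (gch_mem m))) ω =
        dop (R := (bs A A').B (m, c')) (M := E.E (m, c')) o
          (fun l => cl1 A A' (m, c') (tt k l (gch_mem m))) ω :=
    fun ω => KbH_dop _ _ (fun l x => hφ _ x) ω
  have hb' : ∀ ω : Finset i → E.E (m, c'),
      dop (R := R) (M := E.E (m, c')) o b ω =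
        dop (R := (bs A A').B (m, c')) (M := E.E (m, c')) o
          (fun l => crt A A' (m, c') (tt k l (gch_mem c'))) ω :=
    fun ω => KbH_dop _ _ (fun l x => hb l x) ω
  -- the map from the cycles
  have h1 : ∀ z : Zk (M := E.E (m, c')) o (fun l => φ (tt k l (gch_mem m))) b r,
      z.1 ∈ (Zr o r r 0 E).N (m, c') := by
    intro z
    refine (mem_Zr o).2 ⟨z.2.1.1, ?_⟩
    exact (hb' z.1).symm.trans z.2.1.2
  have h2 : ∀ z : Zk (M := E.E (m, c')) o (fun l => φ (tt k l (gch_mem m))) b r,
      (⟨z.1, h1 z⟩ : (Zr o r r 0 E).N (m, c')) ∈ ((kb ho E).Z r).N (m, c') := by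
    intro z
    refine (KbH_mem_Z ho E r (p := (m, c')) ⟨z.1, h1 z⟩).2 ?_
    exact (ha z.1).symm.trans z.2.2
  let F : Zk (M := E.E (m, c')) o (fun l => φ (tt k l (gch_mem m))) b r →
      Sec ((kb ho E).H r) m c' := fun z => (kb ho E).cls r (p := (m, c')) ⟨z.1, h1 z⟩ (h2 z)
  have Fadd : ∀ z z', F (z + z') = F z + F z' := fun z z' => rfl
  have Fsmul : ∀ (f : RR k m.1) z, F (φ f • z) = f • F z := by
    intro f z
    refine Eq.trans ?_ ((kb ho E).cls_smul r (p := (m, c')) (cl1 A A' (m, c') f) (h2 z)).symm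
    change (kb ho E).cls r (p := (m, c')) _ _ = (kb ho E).cls r (p := (m, c')) _ _
    congr 1
    exact Subtype.ext (funext fun s => hφ f (z.1 s))
  have Fzero : ∀ z, F z = 0 ↔
      z ∈ (Bk (M := E.E (m, c')) o (fun l => φ (tt k l (gch_mem m))) b r).comap
        (Zk (M := E.E (m, c')) o (fun l => φ (tt k l (gch_mem m))) b r).subtype := by
    intro z
    refine Iff.trans ((kb ho E).cls_eq_zero r (p := (m, c')) (hx := h2 z)) ?_
    constructor
    · rintro ⟨y, hy⟩
      have hy1 := (mem_Zr o).1 (y : (Zr o (r + 1) (r + 1) 0 E).N (m, c')).2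
      refine ⟨(y : (Zr o (r + 1) (r + 1) 0 E).N (m, c')).1, ⟨hy1.1, ?_⟩, ?_⟩
      · exact (hb' _).trans hy1.2
      · refine (ha _).trans ?_
        exact congrArg (fun w : (Zr o r r 0 E).N (m, c') => w.1) hy
    · rintro ⟨y, ⟨hy1, hy2⟩, hy3⟩
      have hy4 : y ∈ (Zr o (r + 1) (r + 1) 0 E).N (m, c') :=
        (mem_Zr o).2 ⟨hy1, (hb' y).symm.trans hy2⟩
      refine ⟨(⟨y, hy4⟩ : (Zr o (r + 1) (r + 1) 0 E).N (m, c')), ?_⟩
      exact Subtype.ext ((ha y).symm.trans hy3)
  -- the map from the quotient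
  have Fneg : ∀ z z', F (z - z') = F z - F z' := fun z z' => by
    have h3 := Fadd (z - z') z'
    rw [sub_add_cancel] at h3
    exact (eq_sub_of_add_eq h3.symm)
  let g : Hk o (E.E (m, c')) (fun l => φ (tt k l (gch_mem m))) b r →+
      Sec ((kb ho E).H r) m c' :=
    { toFun := fun y => Quotient.liftOn' y F (fun z z' hz => by
        have h3 := (Fzero (z - z')).2 ((Submodule.quotientRel_def _).1 hz)
        rw [Fneg] at h3
        exact sub_eq_zero.1 h3)
      map_zero' := (Fzero 0).2 (Submodule.zero_mem _)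
      map_add' := fun y y' => by
        obtain ⟨z, rfl⟩ := Submodule.Quotient.mk_surjective _ y
        obtain ⟨z', rfl⟩ := Submodule.Quotient.mk_surjective _ y'
        exact Fadd z z' }
  have hg : ∀ z, g (Submodule.Quotient.mk z) = F z := fun z => rfl
  have hg1 : Function.Injective g := by
    refine (injective_iff_map_eq_zero g).2 fun y hy => ?_
    obtain ⟨z, rfl⟩ := Submodule.Quotient.mk_surjective _ y
    exact (Submodule.Quotient.mk_eq_zero _).2 ((Fzero z).1 hy)
  have hg2 : Function.Surjective g := by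
    intro y
    obtain ⟨x, hx, hy⟩ := (kb ho E).cls_surj r (p := (m, c')) y
    have hx1 := (mem_Zr o).1 (x : (Zr o r r 0 E).N (m, c')).2
    have hx2 := (KbH_mem_Z ho E r (p := (m, c')) x).1 hx
    refine ⟨Submodule.Quotient.mk ⟨(x : (Zr o r r 0 E).N (m, c')).1,
      ⟨hx1.1, (hb' _).trans hx1.2⟩, (ha _).trans hx2⟩, ?_⟩
    exact hy.symm
  refine ⟨(AddEquiv.ofBijective g ⟨hg1, hg2⟩).symm, fun f x => ?_⟩
  obtain ⟨y, rfl⟩ := (AddEquiv.ofBijective g ⟨hg1, hg2⟩).surjective x
  rw [AddEquiv.symm_apply_apply, AddEquiv.symm_apply_eq]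
  obtain ⟨z, rfl⟩ := Submodule.Quotient.mk_surjective _ y
  exact (Fsmul f z).symm

end Pool.Agent.MP_6e5bed_ag_GP
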