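import Mathlib

set_option autoImplicit false

/-!
# MP_6e5bed_ag, THEOREM G+: ranks over `R ⧸ p`
-/

noncomputable section

namespace Pool.Agent.MP_6e5bed_ag_GP

open scoped TensorProduct

universe u v w

section

variable {R : Type u} [CommRing R] (p : Ideal R) (X : Type v) [AddCommGroup X] [Module R X]

/-- The rank of `X ⧸ pX` over the domain `R ⧸ p`; it is used for modules which are killed
by `p` only. -/
def rkp : ℕ := Module.finrank (R ⧸ p) ((R ⧸ p) ⊗[R] X)

variable {X}

theorem rkp_congr {Y : Type w} [AddCommGroup Y] [Module R Y] (e : X ≃ₗ[R] Y) :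
    rkp p X = rkp p Y :=
  LinearEquiv.finrank_eq
    (TensorProduct.AlgebraTensorModule.congr (LinearEquiv.refl (R ⧸ p) (R ⧸ p)) e)

variable (X) in
/-- for a module over `R ⧸ p` it is the rank -/
theorem rkp_eq [Module (R ⧸ p) X] [IsScalarTower R (R ⧸ p) X] :
    rkp p X = Module.finrank (R ⧸ p) X := by
  have hc : TensorProduct.CompatibleSMul R (R ⧸ p) (R ⧸ p) X :=
    TensorProduct.CompatibleSMul.of_algebraMap_surjective _ _ Ideal.Quotient.mk_surjective
  exact (TensorProduct.lidOfCompatibleSMul R (R ⧸ p) X).finrank_eq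

private theorem rk_tors (h : ∀ f ∈ p, ∀ x : X, f • x = 0) :
    Module.IsTorsionBySet R X (p : Set R) := by
  intro x a
  exact h a.1 a.2 x

private theorem rk_tower (h : ∀ f ∈ p, ∀ x : X, f • x = 0) :
    @IsScalarTower R (R ⧸ p) X _ (rk_tors p h).module.toSMul _ :=
  (rk_tors p h).isScalarTower

/-- additivity, for modules which are killed by `p` -/
theorem rkp_add [IsNoetherianRing R] [p.IsPrime] [Module.Finite R X]
    (h : ∀ f ∈ p, ∀ x : X, f • x = 0) (N : Submodule R X) :
    rkp p X = rkp p N + rkp p (X ⧸ N) := by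
  let _ := (rk_tors p h).module
  have : IsScalarTower R (R ⧸ p) X := rk_tower p h
  have : Module.Finite (R ⧸ p) X := Module.Finite.of_restrictScalars_finite R (R ⧸ p) X
  obtain ⟨N', hN'⟩ : ∃ N' : Submodule (R ⧸ p) X, N'.restrictScalars R = N := by
    refine ⟨{ N with smul_mem' := ?_ }, rfl⟩
    intro c x hx
    obtain ⟨r, rfl⟩ := Ideal.Quotient.mk_surjective c
    exact N.smul_mem r hx
  subst hN'
  rw [rkp_congr p (Submodule.restrictScalarsEquiv R (R ⧸ p) X N' |>.restrictScalars R),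
    rkp_congr p (Submodule.Quotient.restrictScalarsEquiv R N'), rkp_eq, rkp_eq, rkp_eq,
    add_comm]
  exact (Submodule.finrank_quotient_add_finrank N').symm

/-- the rank is positive if there is an element which is not torsion -/
theorem rkp_pos [p.IsPrime] [Module.Finite R X] (h : ∀ f ∈ p, ∀ x : X, f • x = 0) (x : X)
    (hx : ∀ f : R, f • x = 0 → f ∈ p) : 0 < rkp p X := by
  let _ := (rk_tors p h).module
  have : IsScalarTower R (R ⧸ p) X := rk_tower p h
  have : Module.Finite (R ⧸ p) X := Module.Finite.of_restrictScalars_finite R (R ⧸ p) X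
  rw [rkp_eq]
  rw [Nat.pos_iff_ne_zero, Ne, Module.finrank_eq_zero_iff]
  intro hz
  obtain ⟨a, ha, hax⟩ := hz x
  obtain ⟨r, rfl⟩ := Ideal.Quotient.mk_surjective a
  exact ha (Ideal.Quotient.eq_zero_iff_mem.2 (hx r hax))

/-- the rank of a torsion module is zero -/
theorem rkp_zero [p.IsPrime] [Module.Finite R X] (h : ∀ f ∈ p, ∀ x : X, f • x = 0)
    (ht : ∀ x : X, ∃ f, f ∉ p ∧ f • x = 0) : rkp p X = 0 := by
  let _ := (rk_tors p h).module
  have : IsScalarTower R (R ⧸ p) X := rk_tower p h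
  have : Module.Finite (R ⧸ p) X := Module.Finite.of_restrictScalars_finite R (R ⧸ p) X
  rw [rkp_eq, Module.finrank_eq_zero_iff]
  intro x
  obtain ⟨f, hf, hfx⟩ := ht x
  exact ⟨Ideal.Quotient.mk p f, fun h0 => hf (Ideal.Quotient.eq_zero_iff_mem.1 h0), hfx⟩

/-- a module of rank zero is torsion -/
theorem tors_of_rkp [p.IsPrime] [Module.Finite R X] (h : ∀ f ∈ p, ∀ x : X, f • x = 0)
    (h0 : rkp p X = 0) (x : X) : ∃ f, f ∉ p ∧ f • x = 0 := by
  let _ := (rk_tors p h).module
  have : IsScalarTower R (R ⧸ p) X := rk_tower p h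
  have : Module.Finite (R ⧸ p) X := Module.Finite.of_restrictScalars_finite R (R ⧸ p) X
  rw [rkp_eq, Module.finrank_eq_zero_iff] at h0
  obtain ⟨a, ha, hax⟩ := h0 x
  obtain ⟨r, rfl⟩ := Ideal.Quotient.mk_surjective a
  exact ⟨r, fun hr => ha (Ideal.Quotient.eq_zero_iff_mem.2 hr), hax⟩

end

end Pool.Agent.MP_6e5bed_ag_GP
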