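import Pool.Agent.Lib.MP_6e5bed_ag_GP.LatM
import Pool.Agent.Lib.MP_6e5bed_ag_GP.KbH
import Pool.Agent.Lib.MP_6e5bed_ag_GP.Ef
import Pool.Agent.Lib.MP_6e5bed_ag_GP.Rk

set_option autoImplicit false
set_option linter.unusedVariables false

/-!
# MP_6e5bed_ag, THEOREM G+: the Euler characteristic of the homology at the generic point
-/

noncomputable section

namespace Pool.Agent.MP_6e5bed_ag_GP

open Pool.Agent.MP_6e5bed_ag_GG MvPolynomial
open scoped TensorProduct

universe u

variable {k : Type u} [Field k] {i : Type} [Fintype i] [DecidableEq i] {A : CA k i} {m : Ch i}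

/-- the order given by an enumeration -/
theorem eF_inj {n : ℕ} (e : i ≃ Fin (n + 1)) :
    Function.Injective (fun l => ((e l : Fin (n + 1)) : ℕ)) :=
  fun _ _ h => e.injective (Fin.ext h)

private theorem LatE_rk {R₀ : Type u} [CommRing R₀] (p : Ideal R₀) {S H : Type u}
    [AddCommGroup S] [Module R₀ S] [AddCommGroup H] [Module (R₀ ⧸ p) H] (e : S ≃+ H)
    (he : ∀ (f : R₀) (x : S), e (f • x) = Ideal.Quotient.mk p f • e x) :
    rkp p S = Module.finrank (R₀ ⧸ p) H := by
  let _ : Module R₀ H := Module.compHom H (Ideal.Quotient.mk p)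
  have : IsScalarTower R₀ (R₀ ⧸ p) H := ⟨fun f d y => by
    change (Ideal.Quotient.mk p f * d) • y = Ideal.Quotient.mk p f • d • y
    rw [mul_smul]⟩
  rw [← rkp_eq p H]
  exact rkp_congr p { e with map_smul' := he }

private theorem LatE_C {D : Type u} [CommRing D] {n : ℕ} {H : Type u} [AddCommGroup H]
    [Module D H] [Module (MvPolynomial (Fin n) D) H] [IsScalarTower D (MvPolynomial (Fin n) D) H]
    (d : D) (y : H) : (C d : MvPolynomial (Fin n) D) • y = d • y := by
  rw [← algebraMap_smul (MvPolynomial (Fin n) D) d y]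
  rfl

private theorem LatE_hn {D : Type u} [CommRing D] {n : ℕ} {M : Type u} [AddCommGroup M]
    [Module D M] [Module (MvPolynomial (Fin n) D) M] [IsScalarTower D (MvPolynomial (Fin n) D) M]
    (T : Fin n → MvPolynomial (Fin n) D) (r : ℕ) (d : D) (y : Hn (oF n) M T r) :
    (C d : MvPolynomial (Fin n) D) • y = d • y :=
  LatE_C d y

/-- the family of the `X_{e l}` -/
private def LatE_b {J : Type} {n : ℕ} (e : J ≃ Fin (n + 1)) (D : Type u) [CommRing D] (l : J) :
    MvPolynomial (Fin n) D :=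
  if h : e l = Fin.last n then 1 else X ((e l).castPred h)

private theorem LatE_b1 {J : Type} {n : ℕ} (e : J ≃ Fin (n + 1)) (D : Type u) [CommRing D]
    {l : J} (h : e l = Fin.last n) : LatE_b e D l = 1 := by
  unfold LatE_b
  rw [dif_pos h]

private theorem LatE_b2 {J : Type} {n : ℕ} (e : J ≃ Fin (n + 1)) (D : Type u) [CommRing D]
    (c : Fin n) : LatE_b e D (e.symm c.castSucc) = X c := by
  have h : e (e.symm c.castSucc) ≠ Fin.last n := by
    rw [Equiv.apply_symm_apply]
    exact (Fin.castSucc_lt_last c).ne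
  unfold LatE_b
  rw [dif_neg h]
  congr 1
  refine Fin.castSucc_injective n ?_
  rw [Fin.castSucc_castPred, Equiv.apply_symm_apply]

/-- the action of the family, `β` is the action of the functions of the second space -/
private theorem LatE_act {J : Type} {n : ℕ} (e : J ≃ Fin (n + 1)) (D : Type u) [CommRing D]
    {M : Type u} [AddCommGroup M] [Module (MvPolynomial (Fin n) D) M] (β : J → M → M)
    (h1 : ∀ l, e l = Fin.last n → ∀ x, β l x = x)
    (h2 : ∀ (c : Fin n) (x : M), (X c : MvPolynomial (Fin n) D) • x = β (e.symm c.castSucc) x)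
    (l : J) (x : M) : LatE_b e D l • x = β l x := by
  by_cases h : e l = Fin.last n
  · rw [LatE_b1 e D h, one_smul, h1 l h]
  · obtain ⟨c, hc⟩ : ∃ c : Fin n, e.symm c.castSucc = l :=
      ⟨(e l).castPred h, by rw [Fin.castSucc_castPred, Equiv.symm_apply_apply]⟩
    subst hc
    rw [LatE_b2]
    exact h2 c x

/-- `f ↦ C (mk f)` -/
private def LatE_p {R₀ : Type u} [CommRing R₀] (p : Ideal R₀) (n : ℕ) :
    R₀ →+* MvPolynomial (Fin n) (R₀ ⧸ p) :=
  (C : (R₀ ⧸ p) →+* MvPolynomial (Fin n) (R₀ ⧸ p)).comp (Ideal.Quotient.mk p)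

private abbrev LatE_R {R₀ : Type u} [CommRing R₀] (p : Ideal R₀) (n : ℕ) :
    CommRing (MvPolynomial (Fin n) (R₀ ⧸ p)) := inferInstance

/-- the algebraic part -/
private theorem LatE_abs {R₀ : Type u} [CommRing R₀] [IsNoetherianRing R₀] (p : Ideal R₀)
    [p.IsPrime] {n : ℕ} {M : Type u} [AddCommGroup M] [Module (R₀ ⧸ p) M]
    [Module (MvPolynomial (Fin n) (R₀ ⧸ p)) M]
    [IsScalarTower (R₀ ⧸ p) (MvPolynomial (Fin n) (R₀ ⧸ p)) M]
    [Module.Finite (MvPolynomial (Fin n) (R₀ ⧸ p)) M] {J : Type} [Fintype J] [DecidableEq J]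
    (e : J ≃ Fin (n + 1)) (γ : J) (he : e γ = Fin.last n) (t : J → R₀) (ht : t γ = 1)
    (S : ℕ → Type u) [∀ r, AddCommGroup (S r)] [∀ r, Module R₀ (S r)]
    (hS : ∀ r, ∃ e' : S r ≃+ Hk (fun l => ((e l : Fin (n + 1)) : ℕ)) M
      (fun l => LatE_p p n (t l)) (LatE_b e (R₀ ⧸ p)) r,
      ∀ (f : R₀) (x : S r), e' (f • x) = LatE_p p n f • e' x)
    (x : M) (hx : ∀ P : MvPolynomial (Fin n) (R₀ ⧸ p), P • x = 0 → P = 0) :
    0 < ∑ r ∈ Finset.range (Fintype.card J + 1), (-1 : ℤ) ^ r * (rkp p (S r) : ℤ) := by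
  have key : ∀ r : ℕ, rkp p (S r) = Module.finrank (R₀ ⧸ p) (Hn (oF n) M
        (fun c : Fin n => (X c - C (Ideal.Quotient.mk p (t (e.symm c.castSucc))) :
            MvPolynomial (Fin n) (R₀ ⧸ p))) r) := by
    intro r
    obtain ⟨e₁, he₁⟩ := hS r
    have h2 := hk_iso (M := M) e γ he
      (fun l => LatE_p p n (t l)) (LatE_b e (R₀ ⧸ p))
      (by
        change LatE_p p n (t γ) = 1
        rw [ht, map_one])
      (LatE_b1 e _ he) r
    have hT : (fun c : Fin n => LatE_b e (R₀ ⧸ p) (e.symm c.castSucc) -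
        LatE_p p n (t (e.symm c.castSucc))) =
        fun c : Fin n => (X c - C (Ideal.Quotient.mk p (t (e.symm c.castSucc))) :
            MvPolynomial (Fin n) (R₀ ⧸ p)) := by
      funext c
      rw [LatE_b2]
      rfl
    rw [hT] at h2
    obtain ⟨e₂⟩ := h2
    refine LatE_rk p (e₁.trans e₂.toAddEquiv) fun f x => ?_
    have h1 := he₁ f x
    change e₂ (e₁ (f • x)) = Ideal.Quotient.mk p f • e₂ (e₁ x)
    rw [h1]
    refine (e₂.map_smul _ _).trans ?_
    exact LatE_hn _ r (Ideal.Quotient.mk p f) _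
  obtain ⟨hf, hpos⟩ := koszul_euler n (R₀ ⧸ p) M
    (fun c => Ideal.Quotient.mk p (t (e.symm c.castSucc))) x hx
  have hcard : Fintype.card J = n + 1 := by
    rw [Fintype.card_congr e, Fintype.card_fin]
  rw [hcard, Finset.sum_range_succ]
  have hlast : rkp p (S (n + 1)) = 0 := by
    rw [key]
    have : Subsingleton (Hn (oF n) M
        (fun c : Fin n => (X c - C (Ideal.Quotient.mk p (t (e.symm c.castSucc))) :
            MvPolynomial (Fin n) (R₀ ⧸ p))) (n + 1)) :=
      subsingleton_of_forall_eq 0 (fun y => Hn_zero M _ (n + 1) (Nat.lt_succ_self n) y)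
    exact Module.finrank_zero_of_subsingleton
  rw [hlast, Nat.cast_zero, mul_zero, add_zero]
  refine lt_of_lt_of_eq hpos (Finset.sum_congr rfl fun r _ => ?_)
  rw [key r]

/-- THE EULER CHARACTERISTIC. The alternating sum of the ranks (over `R_m ⧸ p`) of the sections over
`(m, {g(m)})` of the homology of the Koszul-Beilinson complex of the lattice is positive.
Proof. `lat_poly`, `kb_hk` with `R = D[X_1, …, X_n]`, `φ f = C (mk f)`, `b l = X_{e l}` (`b γ = 1`),
`hk_iso`, `koszul_euler` with `α c = mk (x_l / x_γ)`; `rkp_congr`, `rkp_eq`. -/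
theorem lat_euler (g : GD A m) {n : ℕ} (e : i ≃ Fin (n + 1)) (he : e (gch m) = Fin.last n)
    (hinj : Function.Injective
      (algebraMap (RR k (Ch.sgl (gch m)).1) (A.A (Ch.sgl (gch m))))) :
    0 < ∑ r ∈ Finset.range (Fintype.card i + 1), (-1 : ℤ) ^ r *
      (rkp (pp g) (Sec ((kb (eF_inj e) (blat g)).H r) m (Ch.sgl (gch m))) : ℤ) := by
  obtain ⟨w₁, w₂, w₃, hfin, hD, hX, x, hx⟩ := lat_poly g e he hinj
  refine @LatE_abs (RR k m.1) _ _ (pp g) _ n ((blat g).E (m, Ch.sgl (gch m))) _ w₁ w₂ w₃ hfin i _ _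
    e (gch m) he (fun l => tt k l (gch_mem m)) (tt_self _)
    (fun r => Sec ((kb (eF_inj e) (blat g)).H r) m (Ch.sgl (gch m))) _ _ (fun r => ?_) x hx
  refine @kb_hk k _ i _ _ _ A A (eF_inj e) (blat g) m (Ch.sgl (gch m))
    (MvPolynomial (Fin n) (RR k m.1 ⧸ pp g)) (LatE_R (pp g) n) w₂ (LatE_p (pp g) n)
    (fun f x => ?_) (LatE_b e (RR k m.1 ⧸ pp g)) (fun l x => ?_) r
  · refine Eq.trans ?_ (hD f x)
    exact @LatE_C (RR k m.1 ⧸ pp g) _ n _ _ w₁ w₂ w₃ (Ideal.Quotient.mk (pp g) f) x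
  · have h5 := @LatE_act i n e (RR k m.1 ⧸ pp g) _ ((blat g).E (m, Ch.sgl (gch m))) _ w₂
      (fun l x => crt A A (m, Ch.sgl (gch m)) (tt k l (gch_mem (Ch.sgl (gch m)))) • x)
      (fun l h x => by
        have hl : l = gch (Ch.sgl (gch m)) := by
          rw [gch_sgl]
          exact e.injective (h.trans he.symm)
        have h1 : tt k l (gch_mem (Ch.sgl (gch m))) = 1 := by
          rw [← tt_self (k := k) (gch_mem (Ch.sgl (gch m)))]
          congr 1
        change crt A A (m, Ch.sgl (gch m)) (tt k l (gch_mem (Ch.sgl (gch m)))) • x = x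
        rw [h1, crt_one]
        exact one_smul _ x)
    exact h5 hX l x

end Pool.Agent.MP_6e5bed_ag_GP
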