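import Pool.Agent.Lib.MP_6e5bed_ag_GP.LatD

set_option autoImplicit false
set_option linter.unusedVariables false

/-!
# MP_6e5bed_ag, THEOREM G+: the sections of the lattice over `(m, {g(m)})` as a module over a
polynomial ring
-/

noncomputable section

namespace Pool.Agent.MP_6e5bed_ag_GP

open Pool.Agent.MP_6e5bed_ag_GG MvPolynomial
open scoped TensorProduct

universe u

section abs

variable {k D R M N : Type u} [Field k] [CommRing D] [Algebra k D] [CommRing R] [Algebra k R]
  [AddCommGroup M] [Module k M] [AddCommGroup N] [Module k N]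

private theorem LatM_comm (α : D →ₐ[k] Module.End k M) (β : R →ₐ[k] Module.End k N) (a : D)
    (b : R) : Commute ((Module.End.rTensorAlgHom k M N).comp α a)
      ((Module.End.lTensorAlgHom k N M).comp β b) := by
  refine TensorProduct.ext' fun x y => ?_
  rfl

/-- the action of `D ⊗ R` on `M ⊗ N` -/
def LatM_act (α : D →ₐ[k] Module.End k M) (β : R →ₐ[k] Module.End k N) :
    D ⊗[k] R →ₐ[k] Module.End k (M ⊗[k] N) :=
  Algebra.TensorProduct.lift ((Module.End.rTensorAlgHom k M N).comp α)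
    ((Module.End.lTensorAlgHom k N M).comp β) (LatM_comm α β)

theorem LatM_act_tmul (α : D →ₐ[k] Module.End k M) (β : R →ₐ[k] Module.End k N) (d : D) (r : R)
    (x : M) (y : N) : LatM_act α β (d ⊗ₜ[k] r) (x ⊗ₜ[k] y) = (α d x) ⊗ₜ[k] (β r y) := by
  unfold LatM_act
  rw [Algebra.TensorProduct.lift_tmul]
  rfl

/-- the isomorphism `D[X] ≃ D ⊗ R` for `R ≃ k[X]` -/
def LatM_psi (D : Type u) [CommRing D] [Algebra k D] {n : ℕ} (π : MvPolynomial (Fin n) k →ₐ[k] R)
    (hπ : Function.Bijective π) : MvPolynomial (Fin n) D ≃ₐ[D] D ⊗[k] R :=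
  (algebraTensorAlgEquiv k D).symm.trans
    (Algebra.TensorProduct.congr AlgEquiv.refl (AlgEquiv.ofBijective π hπ))

theorem LatM_psi_X {n : ℕ} (π : MvPolynomial (Fin n) k →ₐ[k] R)
    (hπ : Function.Bijective π) (c : Fin n) :
    LatM_psi D π hπ (X c) = 1 ⊗ₜ[k] π (X c) := by
  unfold LatM_psi
  rw [AlgEquiv.trans_apply, algebraTensorAlgEquiv_symm_X]
  rfl

theorem LatM_psi_C {n : ℕ} (π : MvPolynomial (Fin n) k →ₐ[k] R)
    (hπ : Function.Bijective π) (d : D) :
    LatM_psi D π hπ (algebraMap D (MvPolynomial (Fin n) D) d) = d ⊗ₜ[k] 1 := by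
  rw [AlgEquiv.commutes]
  rfl

theorem LatM_abs (α : D →ₐ[k] Module.End k M) (β : R →ₐ[k] Module.End k N) {n : ℕ}
    (π : MvPolynomial (Fin n) k →ₐ[k] R) (hπ : Function.Bijective π)
    (hM : ∃ (a : ℕ) (v : Fin a → M), ∀ x : M, ∃ c : Fin a → D, x = ∑ j, α (c j) (v j))
    (hN : ∃ (b : ℕ) (w : Fin b → N), ∀ y : N, ∃ c : Fin b → R, y = ∑ j, β (c j) (w j)) :
    ∃ (_ : Module D (M ⊗[k] N)) (_ : Module (MvPolynomial (Fin n) D) (M ⊗[k] N))
      (_ : IsScalarTower D (MvPolynomial (Fin n) D) (M ⊗[k] N)),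
      Module.Finite (MvPolynomial (Fin n) D) (M ⊗[k] N) ∧
      (∀ (d : D) (z : M ⊗[k] N), d • z = LatM_act α β (d ⊗ₜ[k] 1) z) ∧
      (∀ (c : Fin n) (z : M ⊗[k] N),
        (X c : MvPolynomial (Fin n) D) • z = LatM_act α β (1 ⊗ₜ[k] π (X c)) z) ∧
      ∀ (x : M) (y : N), (∀ d, α d x = 0 → d = 0) → (∀ r, β r y = 0 → r = 0) →
        ∀ P : MvPolynomial (Fin n) D, P • (x ⊗ₜ[k] y : M ⊗[k] N) = 0 → P = 0 := by
  let Φ : MvPolynomial (Fin n) D →+* Module.End k (M ⊗[k] N) :=
    (LatM_act α β).toRingHom.comp (LatM_psi D π hπ).toRingEquiv.toRingHom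
  have hΦ : ∀ P, Φ P = LatM_act α β (LatM_psi D π hπ P) := fun P => rfl
  let m1 : Module (MvPolynomial (Fin n) D) (M ⊗[k] N) := Module.compHom (M ⊗[k] N) Φ
  have hm1 : ∀ (P : MvPolynomial (Fin n) D) (z : M ⊗[k] N), P • z = Φ P z := fun P z => rfl
  let m0 : Module D (M ⊗[k] N) :=
    Module.compHom (M ⊗[k] N) (Φ.comp (algebraMap D (MvPolynomial (Fin n) D)))
  have hm0 : ∀ (d : D) (z : M ⊗[k] N), m0.toSMul.smul d z =
      Φ (algebraMap D (MvPolynomial (Fin n) D) d) z := fun d z => rfl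
  refine ⟨m0, m1, ?_, ?_, ?_, ?_, ?_⟩
  · refine ⟨fun d P z => ?_⟩
    change Φ (d • P) z = Φ (algebraMap D (MvPolynomial (Fin n) D) d) (Φ P z)
    rw [Algebra.smul_def, map_mul]
    rfl
  · obtain ⟨a, v, hs⟩ := hM
    obtain ⟨b, w, ht⟩ := hN
    classical
    refine ⟨⟨Finset.univ.image (fun p : Fin a × Fin b => v p.1 ⊗ₜ[k] w p.2), ?_⟩⟩
    rw [Submodule.eq_top_iff']
    intro z
    induction z using TensorProduct.induction_on with
    | zero => exact zero_mem _
    | add x y hx hy => exact add_mem hx hy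
    | tmul x y =>
      obtain ⟨c, hc⟩ := hs x
      obtain ⟨c', hc'⟩ := ht y
      rw [hc, hc', TensorProduct.sum_tmul]
      refine sum_mem fun a' _ => ?_
      rw [TensorProduct.tmul_sum]
      refine sum_mem fun b' _ => ?_
      have h1 : (α (c a') (v a')) ⊗ₜ[k] (β (c' b') (w b')) =
          ((LatM_psi D π hπ).symm (c a' ⊗ₜ[k] c' b')) • (v a' ⊗ₜ[k] w b' : M ⊗[k] N) := by
        rw [hm1, hΦ, AlgEquiv.apply_symm_apply, LatM_act_tmul]
      rw [h1]
      exact Submodule.smul_mem _ _ (Submodule.subset_span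
        (Finset.mem_coe.2 (Finset.mem_image.2 ⟨(a', b'), Finset.mem_univ _, rfl⟩)))
  · intro d z
    change Φ (algebraMap D (MvPolynomial (Fin n) D) d) z = _
    rw [hΦ, LatM_psi_C]
  · intro c z
    rw [hm1, hΦ, LatM_psi_X]
  · intro x y hx hy P hP
    rw [hm1, hΦ] at hP
    have h1 : ∀ u : D ⊗[k] R, LatM_act α β u (x ⊗ₜ[k] y) =
        TensorProduct.map ((LinearMap.applyₗ x).comp α.toLinearMap)
          ((LinearMap.applyₗ y).comp β.toLinearMap) u := by
      intro u
      induction u using TensorProduct.induction_on with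
      | zero => rw [map_zero, map_zero, LinearMap.zero_apply]
      | add u v hu hv => rw [map_add, map_add, LinearMap.add_apply, hu, hv]
      | tmul d r => rw [LatM_act_tmul]; rfl
    rw [h1] at hP
    have h2 : Function.Injective (TensorProduct.map ((LinearMap.applyₗ x).comp α.toLinearMap)
          ((LinearMap.applyₗ y).comp β.toLinearMap)) := by
      refine TensorProduct.map_injective_of_flat_flat _ _ ?_ ?_
      · rw [injective_iff_map_eq_zero]
        exact hx
      · rw [injective_iff_map_eq_zero]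
        exact hy
    have h3 := h2 (hP.trans (map_zero _).symm)
    exact (LatM_psi D π hπ).injective (h3.trans (map_zero _).symm)

end abs

section pol

variable {k : Type u} [Field k] {i : Type} [Fintype i]

/-- the polynomial ring as the coordinate ring of the chart of one index -/
def LatM_pi (k : Type u) [Field k] {i : Type} [Fintype i] {c : Set i} {g : i} (hg : g ∈ c) {n : ℕ}
    (e : i ≃ Fin (n + 1)) : MvPolynomial (Fin n) k →ₐ[k] RR k c :=
  aeval (fun a => tt k (e.symm a.castSucc) hg)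

theorem LatM_pi_X {c : Set i} {g : i} (hg : g ∈ c) {n : ℕ} (e : i ≃ Fin (n + 1)) (a : Fin n) :
    LatM_pi k hg e (X a) = tt k (e.symm a.castSucc) hg := aeval_X _ _

private theorem LatM_pi_surj {c : Set i} {g : i} (hg : g ∈ c) (hc : ∀ g' ∈ c, g' = g) {n : ℕ}
    (e : i ≃ Fin (n + 1)) (he : e g = Fin.last n) : Function.Surjective (LatM_pi k hg e) := by
  have h1 : Algebra.adjoin k (rgen k c) ≤ (LatM_pi k hg e).range := by
    refine Algebra.adjoin_le ?_
    rintro _ ⟨l, g', hg', rfl⟩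
    obtain rfl := hc g' hg'
    by_cases hl : l = g'
    · subst hl
      rw [tt_self]
      exact one_mem _
    · have h2 : e l ≠ Fin.last n := fun h => hl (e.injective (h.trans he.symm))
      obtain ⟨a, ha⟩ := Fin.exists_castSucc_eq.2 h2
      refine ⟨X a, ?_⟩
      refine (LatM_pi_X hg e a).trans ?_
      have h3 : e.symm a.castSucc = l := by rw [ha, e.symm_apply_apply]
      rw [h3]
  rw [rgen_adjoin ⟨g, hg⟩] at h1
  intro x
  exact h1 (Algebra.mem_top (x := x))

/-- the exponents -/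
private def LatM_ep {g : i} {n : ℕ} (e : i ≃ Fin (n + 1)) : (Fin n →₀ ℕ) →+ (i → ℤ) where
  toFun := fun s => ∑ a, (s a : ℤ) • ex (e.symm a.castSucc) g
  map_zero' := by simp
  map_add' := fun s t => by
    rw [← Finset.sum_add_distrib]
    refine Finset.sum_congr rfl fun a _ => ?_
    rw [Finsupp.add_apply, Nat.cast_add, add_smul]

omit [Fintype i] in
private theorem LatM_ep_apply {g : i} {n : ℕ} (e : i ≃ Fin (n + 1)) (he : e g = Fin.last n)
    (s : Fin n →₀ ℕ) (a : Fin n) : LatM_ep (g := g) e s (e.symm a.castSucc) = s a := by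
  classical
  change (∑ b, (s b : ℤ) • ex (e.symm b.castSucc) g) (e.symm a.castSucc) = _
  rw [Finset.sum_apply]
  have h1 : e.symm a.castSucc ≠ g := fun h => by
    have h2 := congrArg e h
    rw [e.apply_symm_apply, he] at h2
    exact (Fin.castSucc_lt_last a).ne h2
  have h2 : ∀ b : Fin n, ((s b : ℤ) • ex (e.symm b.castSucc) g) (e.symm a.castSucc) =
      if a = b then (s b : ℤ) else 0 := by
    intro b
    simp only [ex, Pi.smul_apply, Pi.sub_apply, Pi.single_apply, smul_eq_mul]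
    rw [if_neg h1, sub_zero, mul_ite, mul_one, mul_zero]
    by_cases hab : a = b
    · rw [if_pos (by rw [hab]), if_pos hab]
    · rw [if_neg (fun h => hab (Fin.castSucc_injective n (e.symm.injective h))), if_neg hab]
  rw [Finset.sum_congr rfl fun b _ => h2 b, Finset.sum_ite_eq, if_pos (Finset.mem_univ a)]

omit [Fintype i] in
private theorem LatM_ep_inj {g : i} {n : ℕ} (e : i ≃ Fin (n + 1)) (he : e g = Fin.last n) :
    Function.Injective (LatM_ep (g := g) e) := by
  intro s t h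
  ext a
  have h1 := congrFun h (e.symm a.castSucc)
  rw [LatM_ep_apply e he, LatM_ep_apply e he] at h1
  exact_mod_cast h1

private theorem LatM_pi_inj {c : Set i} {g : i} (hg : g ∈ c) {n : ℕ}
    (e : i ≃ Fin (n + 1)) (he : e g = Fin.last n) : Function.Injective (LatM_pi k hg e) := by
  have h1 : (RR k c).val.comp (LatM_pi k hg e) =
      (AddMonoidAlgebra.mapDomainAlgHom k k (LatM_ep (g := g) e) :
        MvPolynomial (Fin n) k →ₐ[k] Lau k i) := by
    refine MvPolynomial.algHom_ext fun a => ?_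
    rw [AlgHom.comp_apply, LatM_pi_X]
    change mon k (ex (e.symm a.castSucc) g) =
      AddMonoidAlgebra.mapDomain (LatM_ep (g := g) e) (AddMonoidAlgebra.single _ (1 : k))
    rw [AddMonoidAlgebra.mapDomain_single]
    unfold mon
    congr 1
    change _ = ∑ b, ((Finsupp.single a 1 : Fin n →₀ ℕ) b : ℤ) • ex (e.symm b.castSucc) g
    classical
    rw [Finset.sum_eq_single a]
    · rw [Finsupp.single_eq_same, Nat.cast_one, one_smul]
    · intro b _ hb
      rw [Finsupp.single_eq_of_ne hb, Nat.cast_zero, zero_smul]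
    · intro h
      exact absurd (Finset.mem_univ a) h
  have h2 : Function.Injective ((RR k c).val.comp (LatM_pi k hg e)) := by
    rw [h1]
    exact AddMonoidAlgebra.mapDomain_injective (LatM_ep_inj e he)
  intro x y hxy
  exact h2 (congrArg (RR k c).val hxy)

end pol

/-- the functions as elements of the opposite algebra -/
private def LatM_op {k : Type u} [Field k] {i : Type} [Fintype i] (A : CA k i) (c : Ch i) :
    RR k c.1 →ₐ[k] (A.A c)ᵐᵒᵖ where
  toFun := fun r => MulOpposite.op (algebraMap (RR k c.1) (A.A c) r)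
  map_one' := by rw [map_one, MulOpposite.op_one]
  map_mul' := fun r s => by rw [mul_comm, map_mul, MulOpposite.op_mul]
  map_zero' := by rw [map_zero, MulOpposite.op_zero]
  map_add' := fun r s => by rw [map_add, MulOpposite.op_add]
  commutes' := fun r => by
    rw [← IsScalarTower.algebraMap_apply]
    rfl

variable {k : Type u} [Field k] {i : Type} [Fintype i] {A : CA k i} {m : Ch i}

private theorem LatM_kill (g : GD A m) {f : RR k m.1} (hf : f ∈ pp g) (x : (lat g).E m) :
    (algebraMap (RR k m.1) (A.A m) f) • x = 0 := by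
  obtain ⟨a, rfl⟩ := (latS g).proj_surj m x
  have h1 : (algebraMap (RR k m.1) (A.A m) f) • (latS g).proj.f m a =
      (latS g).proj.f m ((algebraMap (RR k m.1) (A.A m) f) * (show A.A m from a) : A.A m) :=
    (map_smul ((latS g).proj.f m) (algebraMap (RR k m.1) (A.A m) f) a).symm
  refine h1.trans ((Sub.proj_eq_zero _).2 ?_)
  intro h
  rw [A.res_id, map_mul]
  have h2 : g.psi (algebraMap (RR k m.1) (A.A m) f) = 0 := hf
  rw [h2, zero_mul]

/-- the action of the functions on the left factor -/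
private def LatM_al (g : GD A m) : (RR k m.1 ⧸ pp g) →ₐ[k] Module.End k ((lat g).E m) :=
  Ideal.Quotient.liftₐ (pp g)
    ((Algebra.lsmul k k ((lat g).E m) : A.A m →ₐ[k] Module.End k ((lat g).E m)).comp
      (IsScalarTower.toAlgHom k (RR k m.1) (A.A m)))
    (fun f hf => LinearMap.ext fun x => LatM_kill g hf x)

private theorem LatM_al_mk (g : GD A m) (f : RR k m.1) (x : (lat g).E m) :
    LatM_al g (Ideal.Quotient.mk (pp g) f) x = (algebraMap (RR k m.1) (A.A m) f) • x := rfl

/-- the action of the functions on the right factor -/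
private def LatM_be (A : CA k i) (c : Ch i) : RR k c.1 →ₐ[k] Module.End k ((rsSelf A).E c) :=
  (Algebra.lsmul k k ((rsSelf A).E c) : (A.A c)ᵐᵒᵖ →ₐ[k] Module.End k ((rsSelf A).E c)).comp
    (LatM_op A c)

private theorem LatM_be_apply (A : CA k i) (c : Ch i) (r : RR k c.1) (y : A.A c) :
    LatM_be A c r y = y * algebraMap (RR k c.1) (A.A c) r := rfl

private theorem LatM_gen {R E : Type*} [CommRing R] [AddCommGroup E] [Module R E]
    [Module.Finite R E] : ∃ (a : ℕ) (v : Fin a → E), ∀ x : E, ∃ c : Fin a → R,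
      x = ∑ j, c j • v j := by
  obtain ⟨a, f, hf⟩ := Module.Finite.exists_fin' R E
  classical
  refine ⟨a, fun j => f (fun l => if j = l then 1 else 0), fun x => ?_⟩
  obtain ⟨c, rfl⟩ := hf x
  exact ⟨c, LinearMap.pi_apply_eq_sum_univ f c⟩

private theorem LatM_hM (g : GD A m) {D : Type u} [CommRing D] [Algebra k D]
    (q : RR k m.1 →ₐ[k] D) (α : D →ₐ[k] Module.End k ((lat g).E m))
    (hα : ∀ (f : RR k m.1) (x : (lat g).E m), α (q f) x = (algebraMap (RR k m.1) (A.A m) f) • x) :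
    ∃ (a : ℕ) (v : Fin a → (lat g).E m),
    ∀ x : (lat g).E m, ∃ c : Fin a → D, x = ∑ j, α (c j) (v j) := by
  have := A.fin m
  obtain ⟨a, v, hv⟩ := LatM_gen (R := RR k m.1) (E := A.A m)
  refine ⟨a, fun j => (latS g).proj.f m (v j), fun x => ?_⟩
  obtain ⟨b, rfl⟩ := (latS g).proj_surj m x
  obtain ⟨c, hc⟩ := hv b
  refine ⟨fun j => q (c j), ?_⟩
  have h1 : (latS g).proj.f m (∑ j, c j • v j : A.A m) =
      ∑ j, (latS g).proj.f m ((algebraMap (RR k m.1) (A.A m) (c j)) * v j : A.A m) := by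
    refine (map_sum ((latS g).proj.f m) (fun j => (c j • v j : A.A m)) Finset.univ).trans ?_
    exact Finset.sum_congr rfl fun j _ =>
      congrArg ((latS g).proj.f m) (Algebra.smul_def (c j) (v j))
  refine (congrArg ((latS g).proj.f m) hc).trans (h1.trans ?_)
  refine Finset.sum_congr rfl fun j _ => ?_
  exact (map_smul ((latS g).proj.f m) (algebraMap (RR k m.1) (A.A m) (c j)) (v j)).trans
    (hα _ _).symm

private theorem LatM_hN (A : CA k i) (c : Ch i) : ∃ (a : ℕ) (v : Fin a → (rsSelf A).E c),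
    ∀ x : (rsSelf A).E c, ∃ r : Fin a → RR k c.1, x = ∑ j, LatM_be A c (r j) (v j) := by
  have := A.fin c
  obtain ⟨a, v, hv⟩ := LatM_gen (R := RR k c.1) (E := A.A c)
  refine ⟨a, v, fun x => ?_⟩
  obtain ⟨r, hr⟩ := hv x
  refine ⟨r, hr.trans ?_⟩
  refine Finset.sum_congr rfl fun j _ => ?_
  exact (Algebra.smul_def (r j) (v j)).trans (Algebra.commutes (r j) (v j))

private theorem LatM_link (g : GD A m) {D : Type u} [CommRing D] [Algebra k D]
    (q : RR k m.1 →ₐ[k] D) (α : D →ₐ[k] Module.End k ((lat g).E m))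
    (hα : ∀ (f : RR k m.1) (x : (lat g).E m), α (q f) x = (algebraMap (RR k m.1) (A.A m) f) • x)
    (c : Ch i) (f : RR k m.1) (r : RR k c.1) (x : (lat g).E m ⊗[k] (rsSelf A).E c) :
    bxact (lat g) (rsSelf A) (m, c) ((algebraMap (RR k m.1) (A.A m) f) ⊗ₜ[k]
      (MulOpposite.op (algebraMap (RR k c.1) (A.A c) r))) x =
      LatM_act α (LatM_be A c) ((q f) ⊗ₜ[k] r) x := by
  induction x using TensorProduct.induction_on with
  | zero => rw [map_zero, map_zero]
  | add x y hx hy => rw [map_add, map_add, hx, hy]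
  | tmul x y =>
    refine (bxact_tmul (lat g) (rsSelf A) (m, c) _ _ x y).trans ?_
    refine Eq.trans ?_ (LatM_act_tmul α (LatM_be A c) _ r x y).symm
    rw [hα]
    rfl

private theorem LatM_main (g : GD A m) {n : ℕ} (e : i ≃ Fin (n + 1)) (he : e (gch m) = Fin.last n)
    (hinj : Function.Injective
      (algebraMap (RR k (Ch.sgl (gch m)).1) (A.A (Ch.sgl (gch m)))))
    {D : Type u} [CommRing D] [Algebra k D]
    (q : RR k m.1 →ₐ[k] D) (hq : Function.Surjective q) (hk : ∀ f ∈ pp g, q f = 0)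
    (α : D →ₐ[k] Module.End k ((lat g).E m))
    (hα : ∀ (f : RR k m.1) (x : (lat g).E m), α (q f) x = (algebraMap (RR k m.1) (A.A m) f) • x) :
    ∃ (_ : Module D ((lat g).E m ⊗[k] (rsSelf A).E (Ch.sgl (gch m))))
      (_ : Module (MvPolynomial (Fin n) D) ((lat g).E m ⊗[k] (rsSelf A).E (Ch.sgl (gch m))))
      (_ : IsScalarTower D (MvPolynomial (Fin n) D)
        ((lat g).E m ⊗[k] (rsSelf A).E (Ch.sgl (gch m)))),
      Module.Finite (MvPolynomial (Fin n) D)
        ((lat g).E m ⊗[k] (rsSelf A).E (Ch.sgl (gch m))) ∧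
      (∀ (f : RR k m.1) (x : (lat g).E m ⊗[k] (rsSelf A).E (Ch.sgl (gch m))),
        q f • x = bxact (lat g) (rsSelf A) (m, (Ch.sgl (gch m)))
          ((algebraMap (RR k m.1) (A.A m) f) ⊗ₜ[k] 1) x) ∧
      (∀ (c : Fin n) (x : (lat g).E m ⊗[k] (rsSelf A).E (Ch.sgl (gch m))),
        (X c : MvPolynomial (Fin n) D) • x =
          bxact (lat g) (rsSelf A) (m, (Ch.sgl (gch m)))
            (1 ⊗ₜ[k] (MulOpposite.op (algebraMap (RR k (Ch.sgl (gch m)).1) (A.A (Ch.sgl (gch m)))
              (tt k (e.symm c.castSucc) (gch_mem (Ch.sgl (gch m))))))) x) ∧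
      ∃ x : (lat g).E m ⊗[k] (rsSelf A).E (Ch.sgl (gch m)),
        ∀ P : MvPolynomial (Fin n) D, P • x = 0 → P = 0 := by
  obtain ⟨m0, m1, tow, hfin, hD, hX, hT⟩ := LatM_abs α
    (LatM_be A (Ch.sgl (gch m))) (LatM_pi k (gch_mem (Ch.sgl (gch m))) e)
    ⟨LatM_pi_inj _ e ((congrArg e (gch_sgl (gch m))).trans he),
      LatM_pi_surj _ (fun g' hg' => (show g' = gch m from hg').trans (gch_sgl (gch m)).symm) e
        ((congrArg e (gch_sgl (gch m))).trans he)⟩
    (LatM_hM g q α hα) (LatM_hN A (Ch.sgl (gch m)))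
  refine ⟨m0, m1, tow, hfin, ?_, ?_, ?_⟩
  · intro f x
    refine (hD _ x).trans ?_
    refine (LatM_link g q α hα (Ch.sgl (gch m)) f 1 x).symm.trans ?_
    rw [map_one, MulOpposite.op_one]
  · intro c x
    refine (hX c x).trans ?_
    rw [LatM_pi_X, ← map_one q]
    refine (LatM_link g q α hα (Ch.sgl (gch m)) 1 _ x).symm.trans ?_
    rw [map_one]
  · refine ⟨((latS g).proj.f m (1 : A.A m)) ⊗ₜ[k] (1 : A.A (Ch.sgl (gch m))), ?_⟩
    refine hT _ _ ?_ ?_
    · intro d hd
      obtain ⟨f, rfl⟩ := hq d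
      refine hk f ?_
      rw [hα] at hd
      have h1 : (latS g).proj.f m ((algebraMap (RR k m.1) (A.A m) f) * 1 : A.A m) = 0 :=
        (map_smul ((latS g).proj.f m) (algebraMap (RR k m.1) (A.A m) f) (1 : A.A m)).trans hd
      have h2 := (Sub.proj_eq_zero _).1 h1 le_rfl
      rw [A.res_id, mul_one] at h2
      exact h2
    · intro r hr
      have h1 : (1 : A.A (Ch.sgl (gch m))) * algebraMap _ _ r = 0 := hr
      rw [one_mul] at h1
      exact hinj (h1.trans (map_zero _).symm)

/-- The sections `(A_m ⧸ ker (A_m → S)) ⊗_k A_{γ}`, `γ = g(m)`, are a finitely generated module over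
`D[X_1, …, X_n]`, `D = R_m ⧸ p`; `D` acts through the left factor, the variable `X_c` acts as
`y_l / y_γ`, `l = e⁻¹ c`, on the right factor; and there is an element which is not torsion.
Proof. The module structure: `MvPolynomial.algebraTensorAlgEquiv : D ⊗ k[X] ≃ D[X]`, and `k[X]` acts
on the right factor through `k[X] → R_{γ}` (`Algebra.TensorProduct.lift` to the endomorphisms as in
`bxact`). Finitely generated: `A_m` over `R_m`, `A_{γ}` over `R_{γ}` (`CA.fin`), and `R_{γ}` is
generated by the `y_l / y_γ` (`rgen_adjoin`, `tt_self`). The element `1 ⊗ 1`: for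
`P = ∑ d_e X^e`, `P (1 ⊗ 1) = ∑ d_e ⊗ y^e`, the `y^e` are linearly independent over `k` in `R_{γ}`
(different monomials), hence in `A_{γ}`, and `D → A_m ⧸ ker` is injective. -/
theorem lat_poly (g : GD A m) {n : ℕ} (e : i ≃ Fin (n + 1)) (he : e (gch m) = Fin.last n)
    (hinj : Function.Injective
      (algebraMap (RR k (Ch.sgl (gch m)).1) (A.A (Ch.sgl (gch m))))) :
    ∃ (_ : Module (RR k m.1 ⧸ pp g) ((blat g).E (m, Ch.sgl (gch m))))
      (_ : Module (MvPolynomial (Fin n) (RR k m.1 ⧸ pp g)) ((blat g).E (m, Ch.sgl (gch m))))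
      (_ : IsScalarTower (RR k m.1 ⧸ pp g) (MvPolynomial (Fin n) (RR k m.1 ⧸ pp g))
        ((blat g).E (m, Ch.sgl (gch m)))),
      Module.Finite (MvPolynomial (Fin n) (RR k m.1 ⧸ pp g)) ((blat g).E (m, Ch.sgl (gch m))) ∧
      (∀ (f : RR k m.1) (x : (blat g).E (m, Ch.sgl (gch m))),
        Ideal.Quotient.mk (pp g) f • x = cl1 A A (m, Ch.sgl (gch m)) f • x) ∧
      (∀ (c : Fin n) (x : (blat g).E (m, Ch.sgl (gch m))),
        (X c : MvPolynomial (Fin n) (RR k m.1 ⧸ pp g)) • x =
          crt A A (m, Ch.sgl (gch m))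
            (tt k (e.symm c.castSucc) (gch_mem (Ch.sgl (gch m)))) • x) ∧
      ∃ x : (blat g).E (m, Ch.sgl (gch m)),
        ∀ P : MvPolynomial (Fin n) (RR k m.1 ⧸ pp g), P • x = 0 → P = 0 := by
  have h0 : ∀ (f : RR k m.1) (x : (lat g).E m), LatM_al g (Ideal.Quotient.mkₐ k (pp g) f) x =
      (algebraMap (RR k m.1) (A.A m) f) • x := fun f x => rfl
  have h1 := @LatM_main k _ i _ A m g n e he hinj (RR k m.1 ⧸ pp g) _ _
    (Ideal.Quotient.mkₐ k (pp g)) Ideal.Quotient.mk_surjective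
    (fun f hf => Ideal.Quotient.eq_zero_iff_mem.2 hf) (LatM_al g) h0
  obtain ⟨m0, m1, tow, hfin, hD, hX, hT⟩ := h1
  refine ⟨m0, m1, tow, hfin, ?_, ?_, ?_⟩
  · exact hD
  · exact hX
  · exact hT

end Pool.Agent.MP_6e5bed_ag_GP
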