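import Pool.Agent.Lib.MP_6e5bed_ag_GG.TDef

set_option autoImplicit false

/-!
# The points of the projective space and the residue condition of THEOREM G+ (MP_6e5bed_ag)
-/

namespace Pool.Agent.MP_6e5bed_ag_Pn

open MvPolynomial

universe u

section

variable {n : ℕ} {k F F' : Type u} [Field k] [Field F] [Algebra k F] [Field F'] [Algebra k F']

variable (k) in
/-- `a` is a point of the projective space of dimension `n` and `F` is its residue field: one of the
homogeneous coordinates `a_0, …, a_n` is `1`, and they generate `F` over `k`; moreover there are two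
algebraically independent elements in `F` (the closure of the point has at least the dimension
two). -/
structure IsPt (a : Fin (n + 1) → F) : Prop where
  one : ∃ j, a j = 1
  gen : IntermediateField.adjoin k (Set.range a) = ⊤
  two : ∃ w : Fin 2 → F, AlgebraicIndependent k w

variable (k) in
/-- The point `b` is a specialisation of the point `a`: it is contained in the closure of `a`. -/
def IsSpc (a : Fin (n + 1) → F) (b : Fin (n + 1) → F') : Prop :=
  ∀ (d : ℕ) (p : MvPolynomial (Fin (n + 1)) k), p.IsHomogeneous d → aeval a p = 0 → aeval b p = 0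

variable (k) {Γ : Type u} [Ring Γ] [Algebra (MvPolynomial (Fin (n + 1)) k) Γ]

/-- `Q` is a simple quotient of the algebra `Γ ⊗ F` (`x_i ↦ a_i`), by the homomorphism `π`. -/
structure IsQuo (a : Fin (n + 1) → F) {Q : Type u} [Ring Q] [Algebra F Q] (π : Γ →+* Q) :
    Prop where
  simple : IsSimpleRing Q
  map : ∀ p : MvPolynomial (Fin (n + 1)) k, π (algebraMap _ Γ p) = algebraMap F Q (aeval a p)
  span : Submodule.span F (Set.range π) = ⊤

variable (Γ)

/-- The algebra `Γ ⊗ F` has at most one maximal two-sided ideal (two simple quotients `π`, `π'` are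
isomorphic as quotients, `e ∘ π = π'`), and the centre of the simple quotient is a purely
inseparable extension of `F`. -/
def ResA (a : Fin (n + 1) → F) : Prop :=
  ∀ (Q Q' : Type u) [Ring Q] [Algebra F Q] [Ring Q'] [Algebra F Q'] (π : Γ →+* Q) (π' : Γ →+* Q'),
    IsQuo k a π → IsQuo k a π' → IsPurelyInseparable F (Subalgebra.center F Q) ∧
      ∃ e : Q ≃ₐ[F] Q', ∀ x, e (π x) = π' x

/-- The centres of all simple quotients of the algebra `Γ ⊗ F` have the property `InProd`. -/
def ResB (a : Fin (n + 1) → F) : Prop :=
  ∀ (Q : Type u) [Ring Q] [Algebra F Q] (π : Γ →+* Q), IsQuo k a π →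
    InProd ((algebraMap F (Subalgebra.center F Q)).comp (algebraMap k F))

end

/-- The residue condition: for every point of the projective space whose closure has at least the
dimension two, either the condition `ResA` holds and `k[x_0, …, x_n]` embeds into `Γ`, or the
condition `ResB` holds for all the points of at least the dimension two in the closure. -/
def CenP (n : ℕ) (k Γ : Type u) [Field k] [Ring Γ] [Algebra (MvPolynomial (Fin (n + 1)) k) Γ] :
    Prop :=
  ∀ (F : Type u) [Field F] [Algebra k F] (a : Fin (n + 1) → F), IsPt k a →
    (ResA k Γ a ∧ Function.Injective (algebraMap (MvPolynomial (Fin (n + 1)) k) Γ)) ∨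
    ∀ (F' : Type u) [Field F'] [Algebra k F'] (b : Fin (n + 1) → F'), IsPt k b → IsSpc k a b →
      ResB k Γ b

end Pool.Agent.MP_6e5bed_ag_Pn
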