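import Pool.Agent.Lib.MP_6e5bed_ag_GP.PExt

set_option autoImplicit false

/-!
# MP_6e5bed_ag, THEOREM G+: base change of the residue condition, conclusion
-/

noncomputable section

namespace Pool.Agent.MP_6e5bed_ag_Pn

open MvPolynomial
open Pool.Agent.MP_6e5bed_ag_GG (AlgC mem_AlgC le_AlgC alg_le AlgC_mono AlgC_AlgC)
open scoped TensorProduct

universe u

section ext

variable {n : ℕ} {k : Type u} [Field k] (K : Type u) [Field K] [Algebra k K]
  {Γ : Type u} [Ring Γ] [Algebra k Γ] [Algebra (MvPolynomial (Fin (n + 1)) k) Γ]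
  [IsScalarTower k (MvPolynomial (Fin (n + 1)) k) Γ]
  {F : Type u} [Field F] [Algebra k F] [Algebra K F] [IsScalarTower k K F]
  {a : Fin (n + 1) → F} {F0 : IntermediateField k F} {a0 : Fin (n + 1) → F0}

/-- Base change of the condition `ResB`. -/
theorem ResB.ext [Algebra.IsAlgebraic k K] (hf : Module.Finite (MvPolynomial (Fin (n + 1)) k) Γ)
    (ha : ∀ i, (a0 i : F) = a i) (hgen : IntermediateField.adjoin K (Set.range a) = ⊤)
    (h : ResB k Γ a0) : ResB K (GK k K Γ) a := by
  intro Q _ _ π hq
  have hι := fun p => pt_map K ha p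
  have _ := hq.simple
  obtain ⟨P, g, hfin, hg0, hg1, hg2, hg3⟩ := exists_form K hf a0 a hι π hq.map hq.span
  obtain ⟨hsim, hcen⟩ := Pool.Agent.MP_6e5bed_ag_PS.cen_bc F0 F Q P hfin hg3
  have h1 := h P g ⟨hsim, hg1, hg2⟩
  -- the centre of `P` is contained in the centre of `Q`
  have hz : ∀ z : Subalgebra.center F0 P, z.1.1 ∈ Subalgebra.center F Q := by
    intro z
    rw [Subalgebra.mem_center_iff]
    intro x
    have hx : x ∈ Submodule.span F (P : Set Q) := by
      rw [hg3]
      exact Submodule.mem_top
    induction hx using Submodule.span_induction with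
    | mem x hx => exact congrArg Subtype.val (Subalgebra.mem_center_iff.1 z.2 ⟨x, hx⟩)
    | zero => rw [mul_zero, zero_mul]
    | add x y _ _ hx hy => rw [mul_add, add_mul, hx, hy]
    | smul s x _ hx => rw [mul_smul_comm, smul_mul_assoc, hx]
  let _ : Field (Subalgebra.center F Q) := center_isField.toField
  let _ : Field (Subalgebra.center F0 P) := center_isField.toField
  let ι : Subalgebra.center F0 P →+* Subalgebra.center F Q :=
    { toFun := fun z => ⟨z.1.1, hz z⟩
      map_one' := rfl
      map_mul' := fun _ _ => rfl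
      map_zero' := rfl
      map_add' := fun _ _ => rfl }
  refine InProd.bc (K := K) ((algebraMap F0 (Subalgebra.center F0 P)).comp (algebraMap k F0))
    ((algebraMap F (Subalgebra.center F Q)).comp (algebraMap K F)) ι (fun x => ?_) ?_ h1
  · refine Subtype.ext ?_
    change (algebraMap F0 Q (algebraMap k F0 x) : Q) = algebraMap F Q (algebraMap K F _)
    rw [IsScalarTower.algebraMap_apply F0 F Q, ← IsScalarTower.algebraMap_apply k K F]
    rfl
  · intro S hS1 hS2 y
    have h2 : ∀ x : F, algebraMap F (Subalgebra.center F Q) x ∈ S := by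
      intro x
      have hx : x ∈ IntermediateField.adjoin K (Set.range a) := by
        rw [hgen]
        trivial
      induction hx using IntermediateField.adjoin_induction with
      | mem x hx =>
        obtain ⟨i, rfl⟩ := hx
        have h3 : algebraMap F (Subalgebra.center F Q) (a i) =
            ι (algebraMap F0 (Subalgebra.center F0 P) (a0 i)) := by
          refine Subtype.ext ?_
          change algebraMap F Q (a i) = algebraMap F0 Q (a0 i)
          rw [IsScalarTower.algebraMap_apply F0 F Q, ← ha]
          rfl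
        rw [h3]
        exact hS2 _
      | algebraMap x => exact hS1 x
      | add x y _ _ hx hy => rw [map_add]; exact add_mem hx hy
      | inv x _ hx => rw [map_inv₀]; exact inv_mem hx
      | mul x y _ _ hx hy => rw [map_mul]; exact mul_mem hx hy
    have key : ∀ y ∈ Submodule.span F {b : Q | b ∈ P ∧ ∀ x, b * x = x * b},
        ∃ hy : y ∈ Subalgebra.center F Q, (⟨y, hy⟩ : Subalgebra.center F Q) ∈ S := by
      intro y hy
      induction hy using Submodule.span_induction with
      | mem b hb =>
        refine ⟨Subalgebra.mem_center_iff.2 fun x => (hb.2 x).symm, ?_⟩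
        exact hS2 ⟨⟨b, hb.1⟩, Subalgebra.mem_center_iff.2 fun x => Subtype.ext (hb.2 x.1).symm⟩
      | zero => exact ⟨zero_mem _, S.zero_mem⟩
      | add x y _ _ hx hy =>
        obtain ⟨hx1, hx2⟩ := hx
        obtain ⟨hy1, hy2⟩ := hy
        exact ⟨add_mem hx1 hy1, S.add_mem hx2 hy2⟩
      | smul c x _ hx =>
        obtain ⟨hx1, hx2⟩ := hx
        refine ⟨(Subalgebra.center F Q).smul_mem hx1 c, ?_⟩
        have h3 : (⟨c • x, (Subalgebra.center F Q).smul_mem hx1 c⟩ : Subalgebra.center F Q) =
            algebraMap F (Subalgebra.center F Q) c * ⟨x, hx1⟩ :=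
          Subtype.ext (Algebra.smul_def c x)
        rw [h3]
        exact S.mul_mem (h2 c) hx2
    obtain ⟨h4, h5⟩ := key y.1 (hcen y.1 fun x => (Subalgebra.mem_center_iff.1 y.2 x).symm)
    exact h5

omit [Algebra K F] [IsScalarTower k K F] in
/-- two algebraically independent elements -/
theorem pair_indep {x y : F} (hx : Transcendental k x)
    (hy : Transcendental (IntermediateField.adjoin k {x}) y) :
    AlgebraicIndependent k ![x, y] := by
  rw [AlgebraicIndependent.iff_transcendental_adjoin_image (1 : Fin 2)]
  have h0 : ∀ j : {j : Fin 2 // j ≠ 1}, j = ⟨0, by decide⟩ := by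
    rintro ⟨j, hj⟩
    fin_cases j
    · rfl
    · exact absurd rfl hj
  let _ : Unique {j : Fin 2 // j ≠ 1} := ⟨⟨⟨0, by decide⟩⟩, h0⟩
  constructor
  · rw [algebraicIndependent_unique_type_iff]
    exact hx
  · have h1 : ![x, y] '' {(1 : Fin 2)}ᶜ = {x} := by
      ext z
      constructor
      · rintro ⟨j, hj, rfl⟩
        have h2 : j = 0 := congrArg Subtype.val (h0 ⟨j, hj⟩)
        rw [h2]
        rfl
      · rintro rfl
        exact ⟨0, by simp, rfl⟩
    rw [h1]
    exact IntermediateField.transcendental_adjoin_iff.1 hy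

omit [Algebra K F] [IsScalarTower k K F] in
/-- If `F` is generated by the elements `a i` and contains two algebraically independent elements,
then two of the elements `a i` are algebraically independent. -/
theorem exists_pair {ι : Type} {a : ι → F} (hgen : IntermediateField.adjoin k (Set.range a) = ⊤)
    {w : Fin 2 → F} (hw : AlgebraicIndependent k w) :
    ∃ i l, AlgebraicIndependent k ![a i, a l] := by
  by_contra hcon
  push Not at hcon
  have key : ∀ N : IntermediateField k F, (∀ i, IsAlgebraic N (a i)) →
      ∀ x : F, IsAlgebraic N x := by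
    intro N hN x
    have h1 : IntermediateField.adjoin k (Set.range a) ≤ AlgC N := by
      rw [IntermediateField.adjoin_le_iff]
      rintro _ ⟨i, rfl⟩
      exact mem_AlgC.2 (hN i)
    rw [hgen] at h1
    exact mem_AlgC.1 (h1 trivial)
  have hw0 : Transcendental k (w 0) := hw.transcendental 0
  have hw1 : Transcendental (IntermediateField.adjoin k {w 0}) (w 1) := by
    have h1 := (AlgebraicIndependent.iff_transcendental_adjoin_image (1 : Fin 2)).1 hw
    have h2 : w '' {(1 : Fin 2)}ᶜ = {w 0} := by
      ext z
      constructor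
      · rintro ⟨j, hj, rfl⟩
        fin_cases j
        · rfl
        · exact absurd rfl hj
      · rintro rfl
        exact ⟨0, by simp, rfl⟩
    have h3 := h1.2
    rw [h2] at h3
    exact IntermediateField.transcendental_adjoin_iff.2 h3
  by_cases h0 : ∀ i, IsAlgebraic k (a i)
  · have h1 := key ⊥ (fun i => (h0 i).tower_top (⊥ : IntermediateField k F)) (w 0)
    refine hw0 (h1.of_ringHom_of_comp_eq (algebraMap k (⊥ : IntermediateField k F)) (RingHom.id F)
      ?_ Function.injective_id rfl)
    rintro ⟨_, y, rfl⟩
    exact ⟨y, rfl⟩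
  · push Not at h0
    obtain ⟨i, hi⟩ := h0
    have h1 : ∀ l, IsAlgebraic (IntermediateField.adjoin k {a i}) (a l) := by
      intro l
      by_contra hl
      exact hcon i l (pair_indep hi hl)
    have h2 := key _ h1
    -- exchange
    have h3 : IsAlgebraic (IntermediateField.adjoin k {w 0}) (a i) := by
      by_contra h4
      have h5 : AlgebraicIndependent k ![w 0, a i] := pair_indep hw0 h4
      have h6 : AlgebraicIndependent k ![a i, w 0] := by
        have h7 := h5.comp ![1, 0] (by
          intro x y hxy
          fin_cases x <;> fin_cases y <;> simp_all)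
        convert h7 using 1
        funext j
        fin_cases j <;> rfl
      have h8 := (AlgebraicIndependent.iff_transcendental_adjoin_image (1 : Fin 2)).1 h6
      have h9 : ![a i, w 0] '' {(1 : Fin 2)}ᶜ = {a i} := by
        ext z
        constructor
        · rintro ⟨j, hj, rfl⟩
          fin_cases j
          · rfl
          · exact absurd rfl hj
        · rintro rfl
          exact ⟨0, by simp, rfl⟩
      have h10 := h8.2
      rw [h9] at h10
      exact (IntermediateField.transcendental_adjoin_iff.2 h10) (h2 (w 0))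
    refine hw1 (AlgC_AlgC ?_)
    refine alg_le ?_ (h2 (w 1))
    rw [IntermediateField.adjoin_le_iff, Set.singleton_subset_iff]
    exact mem_AlgC.2 h3

/-- the point over the smaller field -/
theorem IsPt.down [Algebra.IsAlgebraic k K] (h : IsPt K a) (ha : ∀ i, (a0 i : F) = a i)
    (hF : F0 = IntermediateField.adjoin k (Set.range a)) : IsPt k a0 := by
  obtain ⟨j, hj⟩ := h.one
  refine ⟨⟨j, Subtype.ext ((ha j).trans hj)⟩, ?_, ?_⟩
  · subst hF
    rw [eq_top_iff]
    rintro ⟨y, hy⟩ -
    have key : ∀ (y : F) (hy : y ∈ IntermediateField.adjoin k (Set.range a)),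
        (⟨y, hy⟩ : IntermediateField.adjoin k (Set.range a)) ∈
          IntermediateField.adjoin k (Set.range a0) := by
      intro y hy
      induction hy using IntermediateField.adjoin_induction with
      | mem x hx =>
        obtain ⟨z, rfl⟩ := hx
        exact IntermediateField.subset_adjoin _ _ ⟨z, Subtype.ext (ha z)⟩
      | algebraMap x => exact (IntermediateField.adjoin k (Set.range a0)).algebraMap_mem x
      | add x y hx hy ihx ihy => exact add_mem ihx ihy
      | inv x hx ih => exact inv_mem ih
      | mul x y hx hy ihx ihy => exact mul_mem ihx ihy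
    exact key y hy
  · obtain ⟨w, hw⟩ := h.two
    obtain ⟨i, l, hil⟩ := exists_pair h.gen hw
    have h1 : AlgebraicIndependent k ![a i, a l] := hil.restrictScalars (algebraMap k K).injective
    refine ⟨![a0 i, a0 l], ?_⟩
    have h2 : (![a i, a l] : Fin 2 → F) = F0.val ∘ ![a0 i, a0 l] := by
      funext j
      fin_cases j
      · exact (ha i).symm
      · exact (ha l).symm
    rw [h2, AlgHom.algebraicIndependent_iff _ F0.val.injective] at h1
    exact h1

/-- The base change of an injective structure map is injective. -/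
theorem GK.algebraMap_inj
    (h : Function.Injective (algebraMap (MvPolynomial (Fin (n + 1)) k) Γ)) :
    Function.Injective (algebraMap (MvPolynomial (Fin (n + 1)) K) (GK k K Γ)) := by
  let L : MvPolynomial (Fin (n + 1)) k →ₗ[k] Γ :=
    (IsScalarTower.toAlgHom k (MvPolynomial (Fin (n + 1)) k) Γ).toLinearMap
  have hL : Function.Injective (L.lTensor K) :=
    Module.Flat.lTensor_preserves_injective_linearMap L h
  let e := MvPolynomial.algebraTensorAlgEquiv (σ := Fin (n + 1)) k K
  have key : ∀ z : K ⊗[k] MvPolynomial (Fin (n + 1)) k,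
      algebraMap (MvPolynomial (Fin (n + 1)) K) (GK k K Γ) (e z) = (L.lTensor K z : K ⊗[k] Γ) := by
    intro z
    induction z using TensorProduct.induction_on with
    | zero => rw [map_zero, map_zero, map_zero]; rfl
    | add x y hx hy => rw [map_add, map_add, map_add, hx, hy]; rfl
    | tmul c p =>
      rw [MvPolynomial.algebraTensorAlgEquiv_tmul, Algebra.smul_def, map_mul,
        ← IsScalarTower.algebraMap_apply, GK.algebraMap_map]
      change (c ⊗ₜ[k] (1 : Γ)) * ((1 : K) ⊗ₜ[k] (algebraMap _ Γ p)) = (c ⊗ₜ[k] (L p) : K ⊗[k] Γ)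
      rw [Algebra.TensorProduct.tmul_mul_tmul, mul_one, one_mul]
      rfl
  rw [injective_iff_map_eq_zero]
  intro q hq
  obtain ⟨z, rfl⟩ := e.surjective q
  have h1 : L.lTensor K z = 0 := (key z).symm.trans hq
  have h2 : z = 0 := (map_eq_zero_iff (L.lTensor K) hL).1 h1
  rw [h2, map_zero]

/-- THE RESIDUE CONDITION PASSES TO ALGEBRAIC EXTENSIONS OF THE BASE FIELD. -/
theorem CenP.ext [Algebra.IsAlgebraic k K] (hf : Module.Finite (MvPolynomial (Fin (n + 1)) k) Γ)
    (hc : CenP n k Γ) : CenP n K (GK k K Γ) := by
  intro F _ _ a ha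
  let _ : Algebra k F := ((algebraMap K F).comp (algebraMap k K)).toAlgebra
  have htow : IsScalarTower k K F := IsScalarTower.of_algebraMap_eq fun _ => rfl
  let F0 : IntermediateField k F := IntermediateField.adjoin k (Set.range a)
  let a0 : Fin (n + 1) → F0 := fun i => ⟨a i, IntermediateField.subset_adjoin _ _ ⟨i, rfl⟩⟩
  have ha0 : ∀ i, (a0 i : F) = a i := fun i => rfl
  rcases hc F0 a0 (ha.down K ha0 rfl) with ⟨h1, h2⟩ | h1
  · refine Or.inl ⟨h1.ext K hf ha0, ?_⟩
    exact GK.algebraMap_inj K h2
  · refine Or.inr ?_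
    intro F' _ _ b hb hs
    let _ : Algebra k F' := ((algebraMap K F').comp (algebraMap k K)).toAlgebra
    have htow' : IsScalarTower k K F' := IsScalarTower.of_algebraMap_eq fun _ => rfl
    let F1 : IntermediateField k F' := IntermediateField.adjoin k (Set.range b)
    let b0 : Fin (n + 1) → F1 := fun i => ⟨b i, IntermediateField.subset_adjoin _ _ ⟨i, rfl⟩⟩
    have hb0 : ∀ i, (b0 i : F') = b i := fun i => rfl
    refine (h1 F1 b0 (hb.down K hb0 rfl) ?_).ext K hf hb0 hb.gen
    intro d p hp h3
    have h4 : aeval a (MvPolynomial.map (algebraMap k K) p) = 0 := by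
      rw [← pt_map K ha0, h3, map_zero]
    have h5 := hs d _ (hp.map _) h4
    rw [← pt_map K hb0] at h5
    exact (map_eq_zero_iff _ (algebraMap F1 F').injective).1 h5

end ext

end Pool.Agent.MP_6e5bed_ag_Pn
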