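import Pool.Agent.Lib.MP_6e5bed_ag_GG.TFb
import Pool.Agent.Lib.MP_6e5bed_ag_GP.PDef

set_option autoImplicit false

/-!
# MP_6e5bed_ag, THEOREM G+: base change of the residue condition
-/

noncomputable section

namespace Pool.Agent.MP_6e5bed_ag_Pn

open MvPolynomial
open Pool.Agent.MP_6e5bed_ag_GG (AlgC mem_AlgC le_AlgC alg_le AlgC_mono AlgC_AlgC)
open scoped TensorProduct

universe u

section cen

/-- The centre is spanned by the centre of a simple form. -/
theorem cen_form (K K' : Type u) [Field K] [Field K'] [Algebra K K'] (Q : Type u) [Ring Q]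
    [Algebra K Q] [Algebra K' Q] [IsScalarTower K K' Q]
    (P : Subalgebra K Q) [FiniteDimensional K P] [IsSimpleRing P]
    (hsp : Submodule.span K' (P : Set Q) = ⊤) (z : Q) (hz : ∀ x, z * x = x * z) :
    z ∈ Submodule.span K' {a : Q | a ∈ P ∧ ∀ x, a * x = x * a} := by
  obtain ⟨n, p, q, h1, h2⟩ := Pool.Agent.MP_6e5bed_ag_PS.exists_cproj K P
  have h4 : ∑ i, (p i : Q) * (q i : Q) = 1 := by
    have := congrArg (Subtype.val) h1
    simpa only [AddSubmonoidClass.coe_finsetSum, MulMemClass.coe_mul, OneMemClass.coe_one]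
      using this
  have h3 : z = ∑ i, (p i : Q) * z * (q i : Q) := by
    have h5 : ∑ i, (p i : Q) * z * (q i : Q) = z * ∑ i, (p i : Q) * (q i : Q) := by
      rw [Finset.mul_sum]
      refine Finset.sum_congr rfl fun i _ => ?_
      rw [← hz, mul_assoc]
    rw [h5, h4, mul_one]
  rw [h3]
  have hq : z ∈ Submodule.span K' (P : Set Q) := by
    rw [hsp]
    exact Submodule.mem_top
  clear hz h3
  induction hq using Submodule.span_induction with
  | mem a ha =>
    have h5 : ∀ x ∈ P, (∑ i, (p i : Q) * a * (q i : Q)) * x =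
        x * ∑ i, (p i : Q) * a * (q i : Q) := by
      intro x hx
      have := congrArg (Subtype.val) (h2 ⟨a, ha⟩ ⟨x, hx⟩)
      simpa only [AddSubmonoidClass.coe_finsetSum, MulMemClass.coe_mul] using this
    refine Submodule.subset_span ⟨P.sum_mem fun i _ => P.mul_mem (P.mul_mem (p i).2 ha) (q i).2,
      fun x => ?_⟩
    have hx : x ∈ Submodule.span K' (P : Set Q) := by
      rw [hsp]
      exact Submodule.mem_top
    induction hx using Submodule.span_induction with
    | mem x hx => exact h5 x hx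
    | zero => rw [mul_zero, zero_mul]
    | add x y _ _ hx hy => rw [mul_add, add_mul, hx, hy]
    | smul s x _ hx => rw [mul_smul_comm, smul_mul_assoc, hx]
  | zero =>
    have : ∑ i, (p i : Q) * 0 * (q i : Q) = 0 :=
      Finset.sum_eq_zero fun i _ => by rw [mul_zero, zero_mul]
    rw [this]
    exact Submodule.zero_mem _
  | add x y _ _ hx hy =>
    have : ∑ i, (p i : Q) * (x + y) * (q i : Q) =
        ∑ i, (p i : Q) * x * (q i : Q) + ∑ i, (p i : Q) * y * (q i : Q) := by
      rw [← Finset.sum_add_distrib]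
      refine Finset.sum_congr rfl fun i _ => ?_
      rw [mul_add, add_mul]
    rw [this]
    exact Submodule.add_mem _ hx hy
  | smul s x _ hx =>
    have : ∑ i, (p i : Q) * (s • x) * (q i : Q) = s • ∑ i, (p i : Q) * x * (q i : Q) := by
      rw [Finset.smul_sum]
      refine Finset.sum_congr rfl fun i _ => ?_
      rw [mul_smul_comm, smul_mul_assoc]
    rw [this]
    exact Submodule.smul_mem _ _ hx

/-- The elements of the span of central elements some powers of which are scalars. -/
theorem pi_span {F Q : Type u} [Field F] [Ring Q] [Nontrivial Q] [Algebra F Q] (T : Set Q)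
    (hT : ∀ b ∈ T, (∀ x, b * x = x * b) ∧
      ∃ (m : ℕ) (c : F), b ^ (ringExpChar F ^ m) = algebraMap F Q c) :
    ∀ y ∈ Submodule.span F T, (∀ x, y * x = x * y) ∧
      ∃ (m : ℕ) (c : F), y ^ (ringExpChar F ^ m) = algebraMap F Q c := by
  have hE : ExpChar Q (ringExpChar F) :=
    expChar_of_injective_algebraMap (algebraMap F Q).injective _
  intro y hy
  induction hy using Submodule.span_induction with
  | mem b hb => exact hT b hb
  | zero =>
    refine ⟨fun x => by rw [zero_mul, mul_zero], 0, 0, ?_⟩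
    rw [pow_zero, pow_one, map_zero]
  | add x y _ _ hx hy =>
    obtain ⟨hx1, m, c, hx2⟩ := hx
    obtain ⟨hy1, l, d, hy2⟩ := hy
    refine ⟨fun z => by rw [add_mul, mul_add, hx1, hy1], m + l,
      c ^ (ringExpChar F ^ l) + d ^ (ringExpChar F ^ m), ?_⟩
    rw [add_pow_expChar_pow_of_commute _ _ (hx1 y), map_add, map_pow, map_pow, ← hx2, ← hy2,
      ← pow_mul, ← pow_mul, ← pow_add, ← pow_add, add_comm l m]
  | smul s x _ hx =>
    obtain ⟨hx1, m, c, hx2⟩ := hx
    refine ⟨fun z => by rw [smul_mul_assoc, mul_smul_comm, hx1], m,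
      s ^ (ringExpChar F ^ m) * c, ?_⟩
    rw [Algebra.smul_def, (show Commute (algebraMap F Q s) x from Algebra.commutes s x).mul_pow, hx2, map_mul, map_pow]

theorem center_isField {F Q : Type u} [Field F] [Ring Q] [Algebra F Q] [IsSimpleRing Q] :
    IsField (Subalgebra.center F Q) := by
  have h := IsSimpleRing.isField_center Q
  refine ⟨⟨0, 1, zero_ne_one⟩, mul_comm, fun {a} ha => ?_⟩
  have h1 : (⟨a.1, a.2⟩ : Subring.center Q) ≠ 0 := fun h => ha (Subtype.ext (congrArg Subtype.val h))
  obtain ⟨b, hb⟩ := h.mul_inv_cancel h1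
  exact ⟨⟨b.1, b.2⟩, Subtype.ext (congrArg Subtype.val hb)⟩

/-- purely inseparable centres -/
theorem pi_center_iff {F Q : Type u} [Field F] [Ring Q] [Algebra F Q] [IsSimpleRing Q] :
    IsPurelyInseparable F (Subalgebra.center F Q) ↔ ∀ z : Q, (∀ x, z * x = x * z) →
      ∃ (m : ℕ) (c : F), z ^ (ringExpChar F ^ m) = algebraMap F Q c := by
  have hD : IsDomain (Subalgebra.center F Q) := center_isField.isDomain
  rw [isPurelyInseparable_iff_pow_mem F (ringExpChar F)]
  constructor
  · intro h z hz
    obtain ⟨m, c, hc⟩ := h ⟨z, Subalgebra.mem_center_iff.2 fun x => (hz x).symm⟩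
    exact ⟨m, c, (congrArg Subtype.val hc).symm⟩
  · rintro h ⟨z, hz⟩
    obtain ⟨m, c, hc⟩ := h z fun x => (Subalgebra.mem_center_iff.1 hz x).symm
    exact ⟨m, c, Subtype.ext hc.symm⟩

end cen

section form

/-- The algebra spanned by the image of a homomorphism. -/
theorem exists_spanAlg {F A Q : Type u} [Field F] [Ring A] [Ring Q] [Algebra F Q] (f : A →+* Q) :
    ∃ P : Subalgebra F Q, ∀ x, x ∈ P ↔ x ∈ Submodule.span F (Set.range f) := by
  have hmul : ∀ x y, x ∈ Submodule.span F (Set.range f) →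
      y ∈ Submodule.span F (Set.range f) → x * y ∈ Submodule.span F (Set.range f) := by
    intro x y hx hy
    have h1 : x * y ∈ Submodule.span F (Set.range f) * Submodule.span F (Set.range f) :=
      Submodule.mul_mem_mul hx hy
    rw [Submodule.span_mul_span] at h1
    refine Submodule.span_mono ?_ h1
    rintro _ ⟨_, ⟨a, rfl⟩, _, ⟨b, rfl⟩, rfl⟩
    exact ⟨a * b, map_mul f a b⟩
  exact ⟨(Submodule.span F (Set.range f)).toSubalgebra (Submodule.subset_span ⟨1, map_one f⟩) hmul,
    fun x => Iff.rfl⟩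

variable {n : ℕ} {k : Type u} [Field k] (K : Type u) [Field K] [Algebra k K]
  {Γ : Type u} [Ring Γ] [Algebra k Γ] [Algebra (MvPolynomial (Fin (n + 1)) k) Γ]
  [IsScalarTower k (MvPolynomial (Fin (n + 1)) k) Γ]

/-- The `F₀`-form of a quotient. -/
theorem exists_form (hf : Module.Finite (MvPolynomial (Fin (n + 1)) k) Γ)
    {F0 F Q : Type u} [Field F0] [Algebra k F0] [Field F] [Algebra K F] [Ring Q] [Algebra F Q]
    [Algebra F0 F] [Algebra F0 Q] [IsScalarTower F0 F Q]
    (a0 : Fin (n + 1) → F0) (a : Fin (n + 1) → F)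
    (hι : ∀ p : MvPolynomial (Fin (n + 1)) k, algebraMap F0 F (aeval a0 p) =
      aeval a (MvPolynomial.map (algebraMap k K) p))
    (π : GK k K Γ →+* Q)
    (hπ : ∀ p : MvPolynomial (Fin (n + 1)) K, π (algebraMap _ _ p) = algebraMap F Q (aeval a p))
    (hs : Submodule.span F (Set.range π) = ⊤) :
    ∃ (P : Subalgebra F0 Q) (g : Γ →+* P), FiniteDimensional F0 P ∧
      (∀ x, (g x : Q) = π (GK.inc K Γ x)) ∧
      (∀ p : MvPolynomial (Fin (n + 1)) k, g (algebraMap _ Γ p) = algebraMap F0 P (aeval a0 p)) ∧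
      Submodule.span F0 (Set.range g) = ⊤ ∧
      Submodule.span F (P : Set Q) = ⊤ := by
  let f : Γ →+* Q := π.comp (GK.inc K Γ).toRingHom
  have hfa : ∀ a, f a = π (GK.inc K Γ a) := fun a => rfl
  have hfp : ∀ p : MvPolynomial (Fin (n + 1)) k, f (algebraMap _ Γ p) =
      algebraMap F0 Q (aeval a0 p) := by
    intro p
    rw [hfa, ← GK.algebraMap_map, hπ, ← hι, ← IsScalarTower.algebraMap_apply]
  obtain ⟨P, hPm⟩ := exists_spanAlg (F := F0) f
  obtain ⟨S, hS⟩ := hf.fg_top
  have hle : Submodule.span F0 (Set.range f) ≤ Submodule.span F0 (f '' (S : Set Γ)) := by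
    rw [Submodule.span_le]
    rintro _ ⟨a, rfl⟩
    have ha : a ∈ Submodule.span (MvPolynomial (Fin (n + 1)) k) (S : Set Γ) := by
      rw [hS]
      exact Submodule.mem_top
    induction ha using Submodule.span_induction with
    | mem a ha => exact Submodule.subset_span ⟨a, ha, rfl⟩
    | zero => rw [map_zero]; exact Submodule.zero_mem _
    | add a b _ _ ha hb => rw [map_add]; exact Submodule.add_mem _ ha hb
    | smul p a _ ha =>
      rw [Algebra.smul_def, map_mul, hfp, ← Algebra.smul_def]
      exact Submodule.smul_mem _ _ ha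
  have hfin : FiniteDimensional F0 P := by
    have h2 : FiniteDimensional F0 (Submodule.span F0 (f '' (S : Set Γ))) :=
      FiniteDimensional.span_of_finite _ (S.finite_toSet.image f)
    have h3 : FiniteDimensional F0 (Subalgebra.toSubmodule P) :=
      Submodule.finiteDimensional_of_le (fun x hx => hle ((hPm x).1 hx))
    exact (Subalgebra.finiteDimensional_toSubmodule (S := P)).1 h3
  have hsp : Submodule.span F (P : Set Q) = ⊤ := by
    rw [eq_top_iff, ← hs, Submodule.span_le]
    rintro _ ⟨z, rfl⟩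
    change π z ∈ Submodule.span F (P : Set Q)
    have key : ∀ z : K ⊗[k] Γ, π (z : GK k K Γ) ∈ Submodule.span F (P : Set Q) := by
      intro z
      induction z using TensorProduct.induction_on with
      | zero =>
        have h1 : π ((0 : K ⊗[k] Γ) : GK k K Γ) = 0 := map_zero π
        rw [h1]
        exact Submodule.zero_mem _
      | add x y hx hy =>
        have h1 : π ((x + y : K ⊗[k] Γ) : GK k K Γ) = π (x : GK k K Γ) + π (y : GK k K Γ) :=
          map_add π _ _
        rw [h1]
        exact Submodule.add_mem _ hx hy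
      | tmul c a' =>
        have h1 : ((c ⊗ₜ[k] a' : K ⊗[k] Γ) : GK k K Γ) =
            algebraMap (MvPolynomial (Fin (n + 1)) K) (GK k K Γ) (C c) * GK.inc K Γ a' := by
          have h2 : algebraMap (MvPolynomial (Fin (n + 1)) K) (GK k K Γ) (C c) =
              algebraMap K (GK k K Γ) c := by
            rw [← MvPolynomial.algebraMap_eq, ← IsScalarTower.algebraMap_apply]
          rw [h2]
          change (c ⊗ₜ[k] a' : K ⊗[k] Γ) = (c ⊗ₜ[k] (1 : Γ)) * ((1 : K) ⊗ₜ[k] a')
          rw [Algebra.TensorProduct.tmul_mul_tmul, mul_one, one_mul]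
        have h3 : π ((c ⊗ₜ[k] a' : K ⊗[k] Γ) : GK k K Γ) =
            algebraMap F Q (aeval a (C c)) * f a' := by
          have h4 : π ((c ⊗ₜ[k] a' : K ⊗[k] Γ) : GK k K Γ) =
              π (algebraMap (MvPolynomial (Fin (n + 1)) K) (GK k K Γ) (C c) * GK.inc K Γ a') :=
            congrArg π h1
          refine h4.trans ((map_mul π _ _).trans ?_)
          rw [hπ, hfa]
        rw [h3, ← Algebra.smul_def]
        exact Submodule.smul_mem _ _ (Submodule.subset_span
          ((hPm _).2 (Submodule.subset_span ⟨a', rfl⟩)))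
    exact key z
  let g : Γ →+* P := f.codRestrict P fun a => (hPm _).2 (Submodule.subset_span ⟨a, rfl⟩)
  have hgs : Submodule.span F0 (Set.range g) = ⊤ := by
    rw [eq_top_iff]
    rintro ⟨x, hx⟩ -
    have key : ∀ (x : Q) (hx : x ∈ Submodule.span F0 (Set.range f)),
        (⟨x, (hPm x).2 hx⟩ : P) ∈ Submodule.span F0 (Set.range g) := by
      intro x hx
      induction hx using Submodule.span_induction with
      | mem x hx =>
        obtain ⟨a, rfl⟩ := hx
        exact Submodule.subset_span ⟨a, rfl⟩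
      | zero => exact Submodule.zero_mem _
      | add x y hx hy ihx ihy => exact Submodule.add_mem _ ihx ihy
      | smul s x hx ih => exact Submodule.smul_mem _ s ih
    exact key x ((hPm x).1 hx)
  exact ⟨P, g, hfin, fun x => rfl, fun p => Subtype.ext (hfp p), hgs, hsp⟩

/-- Two homomorphisms to simple algebras with the same image spans are isomorphic or independent. -/
theorem iso_or_top {F A Q Q' : Type u} [Field F] [Ring A] [Ring Q] [Ring Q'] [Algebra F Q]
    [Algebra F Q'] [IsSimpleRing Q] [IsSimpleRing Q'] (π : A →+* Q) (π' : A →+* Q')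
    (h : Submodule.span F (Set.range π) = ⊤) (h' : Submodule.span F (Set.range π') = ⊤) :
    (∃ e : Q ≃ₐ[F] Q', ∀ x, e (π x) = π' x) ∨
      Submodule.span F (Set.range (π.prod π')) = ⊤ := by
  obtain ⟨D, hD⟩ := exists_spanAlg (F := F) (π.prod π')
  have hρ : ∀ x, (π x, π' x) ∈ D := fun x => (hD _).2 (Submodule.subset_span ⟨x, rfl⟩)
  have hs1 : ∀ q : Q, ∃ q', (q, q') ∈ D := by
    intro q
    have hq : q ∈ Submodule.span F (Set.range π) := by
      rw [h]
      exact Submodule.mem_top
    induction hq using Submodule.span_induction with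
    | mem x hx =>
      obtain ⟨a, rfl⟩ := hx
      exact ⟨_, hρ a⟩
    | zero => exact ⟨0, D.zero_mem⟩
    | add x y _ _ hx hy =>
      obtain ⟨x', hx⟩ := hx
      obtain ⟨y', hy⟩ := hy
      exact ⟨x' + y', D.add_mem hx hy⟩
    | smul s x _ hx =>
      obtain ⟨x', hx⟩ := hx
      exact ⟨s • x', D.smul_mem hx s⟩
  have hs2 : ∀ q' : Q', ∃ q, (q, q') ∈ D := by
    intro q'
    have hq : q' ∈ Submodule.span F (Set.range π') := by
      rw [h']
      exact Submodule.mem_top
    induction hq using Submodule.span_induction with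
    | mem x hx =>
      obtain ⟨a, rfl⟩ := hx
      exact ⟨_, hρ a⟩
    | zero => exact ⟨0, D.zero_mem⟩
    | add x y _ _ hx hy =>
      obtain ⟨x', hx⟩ := hx
      obtain ⟨y', hy⟩ := hy
      exact ⟨x' + y', D.add_mem hx hy⟩
    | smul s x _ hx =>
      obtain ⟨x', hx⟩ := hx
      exact ⟨s • x', D.smul_mem hx s⟩
  by_cases h01 : ((0, 1) : Q × Q') ∈ D
  · refine Or.inr ?_
    have h10 : ((1, 0) : Q × Q') ∈ D := by
      have h1 : ((1, 0) : Q × Q') = 1 - (0, 1) := by
        refine Prod.ext ?_ ?_
        · change (1 : Q) = 1 - 0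
          rw [sub_zero]
        · change (0 : Q') = 1 - 1
          rw [sub_self]
      rw [h1]
      exact D.sub_mem D.one_mem h01
    rw [eq_top_iff]
    rintro ⟨x, y⟩ -
    obtain ⟨y', hy'⟩ := hs1 x
    obtain ⟨x', hx'⟩ := hs2 y
    rw [← hD]
    have h2 : ((x, y) : Q × Q') = (x, y') * (1, 0) + (x', y) * (0, 1) := by
      refine Prod.ext ?_ ?_
      · change x = x * 1 + x' * 0
        rw [mul_one, mul_zero, add_zero]
      · change y = y' * 0 + y * 1
        rw [mul_one, mul_zero, zero_add]
    rw [h2]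
    exact D.add_mem (D.mul_mem hy' h10) (D.mul_mem hx' h01)
  · refine Or.inl ?_
    -- the kernels are zero
    have hk2 : ∀ y : Q', ((0, y) : Q × Q') ∈ D → y = 0 := by
      let I : TwoSidedIdeal Q' := TwoSidedIdeal.mk' {y | ((0, y) : Q × Q') ∈ D} D.zero_mem
        (fun {x y} hx hy => by
          have h1 := D.add_mem hx hy
          have h2 : ((0, x) : Q × Q') + (0, y) = (0, x + y) := Prod.ext (add_zero 0) rfl
          rw [h2] at h1
          exact h1)
        (fun {x} hx => by
          have h1 := D.neg_mem hx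
          have h2 : -((0, x) : Q × Q') = (0, -x) := Prod.ext neg_zero rfl
          rw [h2] at h1
          exact h1)
        (fun {x y} hy => by
          obtain ⟨q, hq⟩ := hs2 x
          have h1 := D.mul_mem hq hy
          have h2 : ((q, x) : Q × Q') * (0, y) = (0, x * y) := Prod.ext (mul_zero q) rfl
          rw [h2] at h1
          exact h1)
        (fun {x y} hx => by
          obtain ⟨q, hq⟩ := hs2 y
          have h1 := D.mul_mem hx hq
          have h2 : ((0, x) : Q × Q') * (q, y) = (0, x * y) := Prod.ext (zero_mul q) rfl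
          rw [h2] at h1
          exact h1)
      have hI : ∀ y, y ∈ I ↔ ((0, y) : Q × Q') ∈ D := fun y => by
        rw [TwoSidedIdeal.mem_mk']
        exact Iff.rfl
      rcases eq_bot_or_eq_top I with h1 | h1
      · intro y hy
        have h2 := (hI y).2 hy
        rw [h1] at h2
        exact (TwoSidedIdeal.mem_bot _).1 h2
      · exact absurd ((hI 1).1 (h1 ▸ TwoSidedIdeal.mem_top _)) h01
    have h10 : ((1, 0) : Q × Q') ∉ D := by
      intro h1
      apply h01
      have h2 : ((0, 1) : Q × Q') = 1 - (1, 0) := by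
        refine Prod.ext ?_ ?_
        · change (0 : Q) = 1 - 1
          rw [sub_self]
        · change (1 : Q') = 1 - 0
          rw [sub_zero]
      rw [h2]
      exact D.sub_mem D.one_mem h1
    have hk1 : ∀ x : Q, ((x, 0) : Q × Q') ∈ D → x = 0 := by
      let I : TwoSidedIdeal Q := TwoSidedIdeal.mk' {x | ((x, 0) : Q × Q') ∈ D} D.zero_mem
        (fun {x y} hx hy => by
          have h1 := D.add_mem hx hy
          have h2 : ((x, 0) : Q × Q') + (y, 0) = (x + y, 0) := Prod.ext rfl (add_zero 0)
          rw [h2] at h1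
          exact h1)
        (fun {x} hx => by
          have h1 := D.neg_mem hx
          have h2 : -((x, 0) : Q × Q') = (-x, 0) := Prod.ext rfl neg_zero
          rw [h2] at h1
          exact h1)
        (fun {x y} hy => by
          obtain ⟨q, hq⟩ := hs1 x
          have h1 := D.mul_mem hq hy
          have h2 : ((x, q) : Q × Q') * (y, 0) = (x * y, 0) := Prod.ext rfl (mul_zero q)
          rw [h2] at h1
          exact h1)
        (fun {x y} hx => by
          obtain ⟨q, hq⟩ := hs1 y
          have h1 := D.mul_mem hx hq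
          have h2 : ((x, 0) : Q × Q') * (y, q) = (x * y, 0) := Prod.ext rfl (zero_mul q)
          rw [h2] at h1
          exact h1)
      have hI : ∀ y, y ∈ I ↔ ((y, 0) : Q × Q') ∈ D := fun y => by
        rw [TwoSidedIdeal.mem_mk']
        exact Iff.rfl
      rcases eq_bot_or_eq_top I with h1 | h1
      · intro y hy
        have h2 := (hI y).2 hy
        rw [h1] at h2
        exact (TwoSidedIdeal.mem_bot _).1 h2
      · exact absurd ((hI 1).1 (h1 ▸ TwoSidedIdeal.mem_top _)) h10
    let p1 : D →ₐ[F] Q := (AlgHom.fst F Q Q').comp D.val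
    let p2 : D →ₐ[F] Q' := (AlgHom.snd F Q Q').comp D.val
    have hp1 : Function.Bijective p1 := by
      refine ⟨(injective_iff_map_eq_zero p1).2 ?_, fun q => ?_⟩
      · rintro ⟨⟨x, y⟩, hxy⟩ hx
        have h1 : x = 0 := hx
        subst h1
        have h2 := hk2 y hxy
        subst h2
        rfl
      · obtain ⟨q', hq'⟩ := hs1 q
        exact ⟨⟨_, hq'⟩, rfl⟩
    have hp2 : Function.Bijective p2 := by
      refine ⟨(injective_iff_map_eq_zero p2).2 ?_, fun q => ?_⟩
      · rintro ⟨⟨x, y⟩, hxy⟩ hy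
        have h1 : y = 0 := hy
        subst h1
        have h2 := hk1 x hxy
        subst h2
        rfl
      · obtain ⟨q', hq'⟩ := hs2 q
        exact ⟨⟨_, hq'⟩, rfl⟩
    refine ⟨(AlgEquiv.ofBijective p1 hp1).symm.trans (AlgEquiv.ofBijective p2 hp2), fun x => ?_⟩
    have h3 : (AlgEquiv.ofBijective p1 hp1).symm (π x) = ⟨_, hρ x⟩ := by
      rw [AlgEquiv.symm_apply_eq]
      rfl
    rw [AlgEquiv.trans_apply, h3]
    rfl

end form

section ext

variable {n : ℕ} {k : Type u} [Field k] (K : Type u) [Field K] [Algebra k K]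
  {Γ : Type u} [Ring Γ] [Algebra k Γ] [Algebra (MvPolynomial (Fin (n + 1)) k) Γ]
  [IsScalarTower k (MvPolynomial (Fin (n + 1)) k) Γ]
  {F : Type u} [Field F] [Algebra k F] [Algebra K F] [IsScalarTower k K F]
  {a : Fin (n + 1) → F} {F0 : IntermediateField k F} {a0 : Fin (n + 1) → F0}

theorem pt_map (ha : ∀ i, (a0 i : F) = a i) (p : MvPolynomial (Fin (n + 1)) k) :
    algebraMap F0 F (aeval a0 p) = aeval a (MvPolynomial.map (algebraMap k K) p) := by
  rw [MvPolynomial.aeval_map_algebraMap]
  have h1 : (F0.val.comp (aeval a0)) = aeval a := by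
    refine MvPolynomial.algHom_ext fun i => ?_
    rw [AlgHom.comp_apply, aeval_X, aeval_X]
    exact ha i
  exact DFunLike.congr_fun h1 p

/-- Base change of the condition `ResA`. -/
theorem ResA.ext (hf : Module.Finite (MvPolynomial (Fin (n + 1)) k) Γ)
    (ha : ∀ i, (a0 i : F) = a i) (h : ResA k Γ a0) : ResA K (GK k K Γ) a := by
  intro Q Q' _ _ _ _ π π' hq hq'
  have hι := fun p => pt_map K ha p
  have _ := hq.simple
  have _ := hq'.simple
  obtain ⟨P, g, hfin, hg0, hg1, hg2, hg3⟩ := exists_form K hf a0 a hι π hq.map hq.span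
  obtain ⟨P', g', hfin', hg0', hg1', hg2', hg3'⟩ := exists_form K hf a0 a hι π' hq'.map hq'.span
  obtain ⟨hsim, -⟩ := Pool.Agent.MP_6e5bed_ag_PS.cen_bc F0 F Q P hfin hg3
  obtain ⟨hsim', -⟩ := Pool.Agent.MP_6e5bed_ag_PS.cen_bc F0 F Q' P' hfin' hg3'
  obtain ⟨hpi, e0, he0⟩ := h P P' g g' ⟨hsim, hg1, hg2⟩ ⟨hsim', hg1', hg2'⟩
  rw [pi_center_iff] at hpi
  have hchar : ringExpChar F = ringExpChar F0 := by
    have h1 : ExpChar F (ringExpChar F0) :=
      expChar_of_injective_algebraMap (algebraMap F0 F).injective _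
    exact ringExpChar.eq F (ringExpChar F0)
  refine ⟨?_, ?_⟩
  · rw [pi_center_iff]
    intro z hz
    refine (pi_span {b : Q | b ∈ P ∧ ∀ x, b * x = x * b} (fun b hb => ⟨hb.2, ?_⟩) z
      (cen_form F0 F Q P hg3 z hz)).2
    obtain ⟨m, c, hc⟩ := hpi ⟨b, hb.1⟩ fun x => Subtype.ext (hb.2 x)
    refine ⟨m, c, ?_⟩
    rw [hchar]
    have h1 := congrArg Subtype.val hc
    exact h1.trans (IsScalarTower.algebraMap_apply F0 F Q c)
  · rcases iso_or_top π π' hq.span hq'.span with h1 | h1
    · exact h1
    exfalso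
    have hρ : ∀ p : MvPolynomial (Fin (n + 1)) K, (π.prod π') (algebraMap _ _ p) =
        algebraMap F (Q × Q') (aeval a p) := fun p => Prod.ext (hq.map p) (hq'.map p)
    obtain ⟨R, r, hR, hr0, hr1, hr2, hr3⟩ := exists_form K hf a0 a hι (π.prod π') hρ h1
    let φ : P →ₐ[F0] Q × Q' := AlgHom.prod P.val (P'.val.comp e0.toAlgHom)
    have hφ : ∀ x : P, φ x = ((x : Q), ((e0 x : P') : Q')) := fun x => rfl
    have hφi : Function.Injective φ := fun x y hxy => by
      rw [hφ, hφ] at hxy
      exact Subtype.ext (congrArg Prod.fst hxy)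
    let e1 : P ≃ₐ[F0] φ.range := AlgEquiv.ofInjective φ hφi
    have hfR : FiniteDimensional F0 φ.range := Module.Finite.equiv e1.toLinearEquiv
    have hsR : IsSimpleRing φ.range := IsSimpleRing.of_ringEquiv e1.toRingEquiv inferInstance
    have hRφ : ∀ y ∈ R, y ∈ φ.range := by
      rintro y hy
      have h2 : (⟨y, hy⟩ : R) ∈ Submodule.span F0 (Set.range r) := by
        rw [hr2]
        exact Submodule.mem_top
      have key : ∀ z ∈ Submodule.span F0 (Set.range r), (z : Q × Q') ∈ φ.range := by
        intro z hz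
        induction hz using Submodule.span_induction with
        | mem z hz =>
          obtain ⟨x, rfl⟩ := hz
          refine ⟨g x, ?_⟩
          change φ (g x) = _
          rw [hφ, he0, hr0, hg0, hg0']
          rfl
        | zero => exact φ.range.zero_mem
        | add x y _ _ hx hy => exact φ.range.add_mem hx hy
        | smul s x _ hx => exact φ.range.smul_mem hx s
      exact key _ h2
    have hsp : Submodule.span F (φ.range : Set (Q × Q')) = ⊤ := by
      rw [eq_top_iff, ← hr3]
      exact Submodule.span_mono hRφ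
    have h2 := cen_form F0 F (Q × Q') φ.range hsp (1, 0) fun x => by
      refine Prod.ext ?_ ?_
      · change 1 * x.1 = x.1 * 1
        rw [one_mul, mul_one]
      · change 0 * x.2 = x.2 * 0
        rw [zero_mul, mul_zero]
    have h3 := (pi_span {b : Q × Q' | b ∈ φ.range ∧ ∀ x, b * x = x * b}
      (fun b hb => ⟨hb.2, ?_⟩) _ h2).2
    · obtain ⟨m, c, hc⟩ := h3
      have h4 : (1 : Q) ^ (ringExpChar F ^ m) = algebraMap F Q c := congrArg Prod.fst hc
      have h5 : (0 : Q') ^ (ringExpChar F ^ m) = algebraMap F Q' c := congrArg Prod.snd hc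
      rw [one_pow] at h4
      have h6 : ringExpChar F ^ m ≠ 0 := pow_ne_zero _ (expChar_pos F (ringExpChar F)).ne'
      rw [zero_pow h6] at h5
      have h7 : c = 0 := (map_eq_zero_iff _ (algebraMap F Q').injective).1 h5.symm
      rw [h7, map_zero] at h4
      exact one_ne_zero h4
    · obtain ⟨⟨x, hx⟩, hc⟩ := hb
      have hx' : φ x = b := hx
      obtain ⟨m, c, hm⟩ := hpi x fun y => hφi (by
        rw [map_mul, map_mul, hx']
        exact hc (φ y))
      refine ⟨m, c, ?_⟩
      rw [hchar, ← hx', ← map_pow, hm, AlgHom.commutes]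
      exact IsScalarTower.algebraMap_apply F0 F (Q × Q') c

end ext

end Pool.Agent.MP_6e5bed_ag_Pn
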