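import Pool.Agent.Lib.MP_6e5bed_ag_GG.TFin
import Pool.Agent.Lib.MP_6e5bed_ag_GP.PHp
import Pool.Agent.Lib.MP_6e5bed_ag_GP.PInj

set_option autoImplicit false
set_option linter.unusedVariables false
set_option linter.unusedSectionVars false

/-!
# MP_6e5bed_ag, THEOREM G+: the theorem over an arbitrary field from the core theorem
-/

noncomputable section

namespace Pool.Agent.MP_6e5bed_ag_GP

open CategoryTheory MonoidalCategory MvPolynomial Pool.Agent.MP_6e5bed_ag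
  Pool.Agent.MP_6e5bed_ag_Pn Pool.Agent.MP_6e5bed_ag_NC Pool.Agent.MP_6e5bed_ag_GG
open Pool.Agent.MP_6e5bed_ag_PN hiding Ch
open Pool.Agent.MP_6e5bed_ag_SP (DG Rep RA repOf SmPr NCMot IsBc)
open scoped TensorProduct

universe u

section

variable {ν : ℕ} {k Γ : Type u} [Field k] [Ring Γ] [Algebra k Γ]
  [Algebra (MvPolynomial (Fin (ν + 1)) k) Γ] [IsScalarTower k (MvPolynomial (Fin (ν + 1)) k) Γ]
  {𝒢 : ℕ → Submodule k Γ} {i : Type} [Fintype i] [DecidableEq i]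
  {B : Finset (Fin (ν + 1)) → Type u} [∀ I, Ring (B I)] [∀ I, Algebra k (B I)]
  {r : ∀ I J : Finset (Fin (ν + 1)), I ⊆ J → B I →ₐ[k] B J}
  {q : ∀ I : Finset (Fin (ν + 1)), ℕ → Γ → B I}

/-- THE CONDITION HP FOR THE SHEAF OF `Γ`. -/
theorem hp_caOf (h : IsGr ν 𝒢) (hq : IsSec 𝒢 r q) (σ : i ≃ Fin (ν + 1)) (hc : CenP ν k Γ) :
    HP (caOf h hq σ) := by
  refine hp_of_cenP σ (caOf h hq σ) (fun m j hj => ⟨(deh h hq σ hj).toRingHom, fun y => ?_,
    fun p => deh_algebraMap h hq σ hj p⟩) (fun hi c => rho_inj h hq σ c.1 hi) hc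
  obtain ⟨l, a, ha, rfl⟩ := hq.surj _ y
  refine ⟨⟨mon k (eu σ m.1 j l), mon_mem (isEx_eu σ hj l)⟩, a, ?_, ?_⟩
  · exact IsUnit.of_mul_eq_one _ ((mul_comm _ _).trans (mon_eu σ hj l))
  · exact (q_mul_eu h hq σ hj ha).symm

end

variable {ν : ℕ} {k Γ : Type u} [Field k] [Ring Γ] [Algebra k Γ]
  [Algebra (MvPolynomial (Fin (ν + 1)) k) Γ] [IsScalarTower k (MvPolynomial (Fin (ν + 1)) k) Γ]
  {𝒢 : ℕ → Submodule k Γ}

/-- The final theorem, given the core theorem and the Kimura-finiteness of the motives of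
curves over an algebraic closure. -/
theorem kf_rgamP (h : IsGr ν 𝒢) (hc : CenP ν k Γ) {T : Type u} [Ring T] [Algebra k T] {X : DG k T}
    (hX : IsRGam ν 𝒢 X) (hs : SmPr X)
    {C : Type (u + 1)} [Category.{u + 1} C] [MonoidalCategory C]
    [SymmetricCategory C] [Preadditive C] [MonoidalPreadditive C] [Linear ℚ C] (H : NCMot k C)
    (K : Type u) [Field K] [Algebra k K] [IsAlgClosed K] [Algebra.IsAlgebraic k K] (hM : CorP K)
    (hC : ∀ W : SP K, IsCurve W.alg → KimuraFinite (U W)) : KimuraFinite (H.U X hs) := by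
  obtain ⟨B, _, _, r, q, e, hq, he⟩ := hX
  obtain ⟨σ, hσ⟩ := exists_dec (ν := ν) (nodup_LL (Fin (ν + 1))) mem_LL
  have hg := GK.isGr K h
  have hqK := hq.bc K h
  obtain ⟨E', hE'⟩ := exists_cechD hg hqK σ hσ mem_LL
  obtain ⟨e', he'⟩ := cechD_of hE'
  let T' : DGA K := TT (caOf hg hqK σ)
  let _ : Algebra k (RA T') := Algebra.compHom _ (algebraMap k K)
  have _ : IsScalarTower k K (RA T') := IsScalarTower.of_algebraMap_eq (fun _ => rfl)
  let j : ∀ I, B I →ₐ[k] K ⊗[k] B I := fun I => Algebra.TensorProduct.includeRight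
  have hj : ∀ I, IsBaseChange K (j I).toLinearMap := fun I => TensorProduct.isBaseChange k (B I) K
  obtain ⟨i, hi⟩ := cech_bc (X := X) (X' := DG.of T') he he' j hj
    (fun I J hIJ b => Algebra.TensorProduct.map_tmul _ _ _ _)
  have hs' := hi.smPr hs
  rw [← MP_6e5bed_ag_SP.kimuraFinite_bc H (MP_6e5bed_ag_SP.nchowMot K) hs hs' hi,
    (MP_6e5bed_ag_SP.nchowMot K).kimuraFinite_iff hs' (MP_6e5bed_ag_SP.spOf _ hs') (repOf _)]
  obtain ⟨_, h1⟩ := hM (caOf hg hqK σ) (hp_caOf hg hqK σ (hc.ext K h.fin))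
    (MP_6e5bed_ag_SP.spOf _ hs').smooth hC
  exact h1

end Pool.Agent.MP_6e5bed_ag_GP
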