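import Pool.Agent.Lib.MP_6e5bed_ag_GG.TFc
import Pool.Agent.Lib.MP_6e5bed_ag_GP.PExB
import Pool.Agent.Lib.MP_6e5bed_ag_GP.PHd

set_option autoImplicit false
set_option linter.unusedSectionVars false

/-!
# MP_6e5bed_ag, THEOREM G+: generic data and simple quotients of the residue algebras
-/

noncomputable section

namespace Pool.Agent.MP_6e5bed_ag_GP

open MvPolynomial
open Pool.Agent.MP_6e5bed_ag_Pn Pool.Agent.MP_6e5bed_ag_GG

universe u

variable {n : ℕ} {k : Type u} [Field k] {i : Type} [Fintype i]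

/-! ### The residue field of a prime ideal -/

section field

variable {c : Set i} (P : Ideal (RR k c)) [P.IsPrime]

/-- the residue field -/
abbrev RF : Type u := P.ResidueField

/-- the values of functions in the residue field -/
def toF : RR k c →ₐ[k] RF P := IsScalarTower.toAlgHom k (RR k c) (RF P)

theorem toF_eq_zero (f : RR k c) : toF P f = 0 ↔ f ∈ P := Ideal.algebraMap_residueField_eq_zero

theorem toF_div (x : RF P) : ∃ f h : RR k c, h ∉ P ∧ x = toF P f / toF P h := by
  obtain ⟨r, s, hs, hx⟩ := IsFractionRing.div_surjective (A := RR k c ⧸ P) x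
  obtain ⟨f, rfl⟩ := Ideal.Quotient.mk_surjective r
  obtain ⟨h, rfl⟩ := Ideal.Quotient.mk_surjective s
  refine ⟨f, h, fun hh => ?_, hx.symm⟩
  have h1 : Ideal.Quotient.mk P h = 0 := Ideal.Quotient.eq_zero_iff_mem.2 hh
  exact nonZeroDivisors.ne_zero hs h1

/-- The residue field is generated by the values of the coordinates. -/
theorem toF_gen (σ : i ≃ Fin (n + 1)) {j : i} (hj : j ∈ c) :
    IntermediateField.adjoin k (Set.range fun x => toF P (tt k (σ.symm x) hj)) = ⊤ := by
  obtain ⟨F, hF⟩ : ∃ F : IntermediateField k (RF P), F =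
      IntermediateField.adjoin k (Set.range fun x => toF P (tt k (σ.symm x) hj)) := ⟨_, rfl⟩
  have ha : ∀ l : i, toF P (tt k l hj) ∈ F := fun l => by
    rw [hF]
    refine IntermediateField.subset_adjoin _ _ ⟨σ l, ?_⟩
    change toF P (tt k (σ.symm (σ l)) hj) = _
    rw [Equiv.symm_apply_apply]
  have hφF : ∀ f, toF P f ∈ F := by
    intro f
    induction f using RR_ind with
    | hm e he =>
      have key : ∀ e : i → ℤ, (he : IsEx c 0 e) → toF P ⟨mon k e, mon_mem he⟩ ∈ F := by
        intro e he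
        refine IsEx.ind (P := fun e => ∀ he : IsEx c 0 e, toF P ⟨mon k e, mon_mem he⟩ ∈ F) ?_ ?_
          he he
        · intro h0
          have h1 : (⟨mon k 0, mon_mem h0⟩ : RR k c) = 1 := rfl
          rw [h1, map_one]
          exact F.one_mem
        · intro e l g' hg' he ih he'
          have h1 : (⟨mon k (e + ex l g'), mon_mem he'⟩ : RR k c) =
              ⟨mon k e, mon_mem he⟩ * tt k l hg' := Subtype.ext (mon_mul _ _).symm
          have h2 : tt k l hg' = (tt k l hj : RR k c) * tt k j hg' := by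
            refine Subtype.ext ?_
            change mon k (ex l g') = mon k (ex l j) * mon k (ex j g')
            rw [mon_mul]
            congr 1
            unfold ex
            abel
          have h3 : toF P (tt k j hg') = (toF P (tt k g' hj))⁻¹ := by
            refine eq_inv_of_mul_eq_one_left ?_
            rw [← map_mul, tt_mul, map_one]
          rw [h1, map_mul, h2, map_mul, h3]
          exact F.mul_mem (ih he) (F.mul_mem (ha l) (F.inv_mem (ha g')))
      exact key e he
    | h0 => rw [map_zero]; exact F.zero_mem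
    | ha f g hf hg => rw [map_add]; exact F.add_mem hf hg
    | hs s f hf => rw [map_smul]; exact F.smul_mem hf
  rw [← hF, eq_top_iff]
  intro x _
  obtain ⟨f, h, _, rfl⟩ := toF_div P x
  exact F.div_mem (hφF f) (hφF h)

/-- the coordinates of the point -/
def ptF (σ : i ≃ Fin (n + 1)) {j : i} (hj : j ∈ c) (x : Fin (n + 1)) : RF P :=
  toF P (tt k (σ.symm x) hj)

theorem ptF_one (σ : i ≃ Fin (n + 1)) {j : i} (hj : j ∈ c) : ptF P σ hj (σ j) = 1 := by
  have h1 : tt k (σ.symm (σ j)) hj = (1 : RR k c) := by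
    refine Subtype.ext ?_
    change mon k (ex (σ.symm (σ j)) j) = 1
    rw [Equiv.symm_apply_apply, ex_self]
    rfl
  unfold ptF
  rw [h1, map_one]

theorem aeval_ptF (σ : i ≃ Fin (n + 1)) {j : i} (hj : j ∈ c) (p : MvPolynomial (Fin (n + 1)) k) :
    aeval (ptF P σ hj) p = toF P (aeval (fun x => tt k (σ.symm x) hj) p) := by
  have h1 : aeval (ptF P σ hj) = (toF P).comp (aeval (fun x => tt k (σ.symm x) hj)) := by
    refine MvPolynomial.algHom_ext fun l => ?_
    rw [AlgHom.comp_apply, aeval_X, aeval_X]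
    rfl
  rw [h1]
  rfl

theorem isPt_ptF (σ : i ≃ Fin (n + 1)) {j : i} (hj : j ∈ c) {w : Fin 2 → RF P}
    (hw : AlgebraicIndependent k w) : IsPt k (ptF P σ hj) :=
  ⟨⟨σ j, ptF_one P σ hj⟩, toF_gen P σ hj, w, hw⟩

/-- A homogeneous polynomial, dehomogenised with respect to two variables. -/
theorem aeval_tt_homog (σ : i ≃ Fin (n + 1)) {j j' : i} (hj : j ∈ c) (hj' : j' ∈ c)
    {d : ℕ} {p : MvPolynomial (Fin (n + 1)) k} (hp : p.IsHomogeneous d) :
    aeval (fun x => tt k (σ.symm x) hj') p =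
      (tt k j hj' : RR k c) ^ d * aeval (fun x => tt k (σ.symm x) hj) p := by
  have h1 : (fun x => (tt k (σ.symm x) hj' : RR k c)) =
      fun x => tt k j hj' * tt k (σ.symm x) hj := by
    funext x
    refine Subtype.ext ?_
    change mon k (ex (σ.symm x) j') = mon k (ex j j') * mon k (ex (σ.symm x) j)
    rw [mon_mul]
    congr 1
    unfold ex
    abel
  rw [h1, MvPolynomial.aeval_def, MvPolynomial.aeval_def, MvPolynomial.eval₂_eq,
    MvPolynomial.eval₂_eq, Finset.mul_sum]
  refine Finset.sum_congr rfl fun e he => ?_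
  have h2 : ∑ x ∈ e.support, e x = d := by
    have h3 := hp (MvPolynomial.mem_support_iff.1 he)
    rw [Finsupp.weight_apply, Finsupp.sum] at h3
    simpa using h3
  have h4 : ∏ x ∈ e.support, (tt k j hj' * tt k (σ.symm x) hj : RR k c) ^ e x =
      (tt k j hj') ^ d * ∏ x ∈ e.support, (tt k (σ.symm x) hj) ^ e x := by
    rw [← h2, ← Finset.prod_pow_eq_pow_sum, ← Finset.prod_mul_distrib]
    exact Finset.prod_congr rfl fun x _ => mul_pow _ _ _
  rw [h4]
  ring

end field

/-! ### Generic data -/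

section gd

variable {A : CA k i} {m : Ch i} (g : GD A m)

/-- the prime ideal of the functions which vanish at the point -/
def PI : Ideal (RR k m.1) where
  carrier := {f | g.fn f = 0}
  zero_mem' := by
    change g.psi (algebraMap _ _ 0) = 0
    rw [map_zero, map_zero]
  add_mem' := fun {a b} ha hb => by
    change g.psi (algebraMap _ _ (a + b)) = 0
    rw [map_add, map_add]
    change g.fn a + g.fn b = 0
    rw [show g.fn a = 0 from ha, show g.fn b = 0 from hb, add_zero]
  smul_mem' := fun a b hb => by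
    change g.fn (a * b) = 0
    rw [g.fn_mul, show g.fn b = 0 from hb, mul_zero]

theorem mem_PI (f : RR k m.1) : f ∈ PI g ↔ g.fn f = 0 := Iff.rfl

instance PI_prime : (PI g).IsPrime := by
  refine Ideal.isPrime_iff.2 ⟨fun h => ?_, fun {a b} hab => ?_⟩
  · have h1 : (1 : RR k m.1) ∈ PI g := by rw [h]; trivial
    rw [mem_PI, g.fn_one] at h1
    exact g.ne h1
  · rw [mem_PI, g.fn_mul] at hab
    have h1 : ∀ z, g.fn a * z * g.fn b = 0 := fun z => by
      rw [g.fn_comm, mul_assoc, hab, mul_zero]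
    exact g.pr _ _ h1

/-- The residue field acts on the generic data. -/
theorem exists_psiF (P : Ideal (RR k m.1)) [P.IsPrime] (hP : ∀ f, f ∈ P ↔ g.fn f = 0) :
    ∃ ψ : RF P →ₐ[k] g.S, (∀ f, ψ (toF P f) = g.fn f) ∧ ∀ x s, ψ x * s = s * ψ x := by
  let φ : RR k m.1 →ₐ[k] Subalgebra.center k g.S :=
    (g.psi.comp (IsScalarTower.toAlgHom k (RR k m.1) (A.A m))).codRestrict _ fun f =>
      Subalgebra.mem_center_iff.2 fun s => (g.fn_comm f s).symm
  have hφ : ∀ f, (φ f : g.S) = g.fn f := fun f => rfl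
  have hu : P.primeCompl ≤ (IsUnit.submonoid (Subalgebra.center k g.S)).comap φ := by
    intro f hf
    change IsUnit (φ f)
    have h1 : φ f ≠ 0 := fun h0 => hf ((hP f).2 (congrArg Subtype.val h0))
    obtain ⟨b, hb⟩ := (center_isField (F := k) (Q := g.S)).mul_inv_cancel h1
    exact IsUnit.of_mul_eq_one _ hb
  let ψ1 : RF P →ₐ[k] Subalgebra.center k g.S :=
    Ideal.ResidueField.liftₐ P φ (fun f hf => Subtype.ext ((hP f).1 hf)) hu
  have hψF : ∀ f, ψ1 (toF P f) = φ f := fun f =>
    Ideal.ResidueField.liftₐ_algebraMap P φ (fun f hf => Subtype.ext ((hP f).1 hf)) hu f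
  refine ⟨(Subalgebra.center k g.S).val.comp ψ1, fun f => ?_, fun x s => ?_⟩
  · change ((ψ1 (toF P f) : Subalgebra.center k g.S) : g.S) = g.fn f
    rw [hψF, hφ]
  · exact (Subalgebra.mem_center_iff.1 (ψ1 x).2 s).symm

/-- The property `InProd` depends only on the image of the scalars. -/
theorem inProd_center {k F Q : Type u} [Field k] [Field F] [Algebra k F] [Ring Q] [Algebra F Q]
    [Algebra k Q] [IsScalarTower k F Q]
    (h : InProd ((algebraMap F (Subalgebra.center F Q)).comp (algebraMap k F))) :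
    InProd (algebraMap k (Subalgebra.center k Q)) := by
  obtain ⟨M, hM1, hM2, m, t, φ, hφ, halg, ht, hg⟩ := h
  have hc : ∀ z : Subalgebra.center k Q, z.1 ∈ Subalgebra.center F Q := fun z =>
    Subalgebra.mem_center_iff.2 (Subalgebra.mem_center_iff.1 z.2)
  let e : Subalgebra.center k Q →+* Subalgebra.center F Q :=
    { toFun := fun z => ⟨z.1, hc z⟩
      map_one' := rfl
      map_mul' := fun _ _ => rfl
      map_zero' := rfl
      map_add' := fun _ _ => rfl }
  have he : Function.Surjective e := fun z =>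
    ⟨⟨z.1, Subalgebra.mem_center_iff.2 (Subalgebra.mem_center_iff.1 z.2)⟩, rfl⟩
  refine ⟨M, hM1, hM2, m, t, φ.comp e, fun x => ?_, fun x => ?_, ht, hg⟩
  · rw [← hφ x]
    refine congrArg φ (Subtype.ext ?_)
    exact IsScalarTower.algebraMap_apply k F Q x
  · have h1 : φ.range ≤ (φ.comp e).range := by
      rintro _ ⟨z, rfl⟩
      obtain ⟨w, rfl⟩ := he z
      exact ⟨w, rfl⟩
    exact (halg x).ringHom_of_comp_eq (Subring.inclusion h1) (RingHom.id M)
      (Set.inclusion_injective h1) rfl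

variable {Γ : Type u} [Ring Γ] [Algebra (MvPolynomial (Fin (n + 1)) k) Γ]

/-- The generic data are a simple quotient of the residue algebra. -/
theorem isQuo_gd (σ : i ≃ Fin (n + 1)) {j : i} (hj : j ∈ m.1) (δ : Γ →+* A.A m)
    (hδ1 : ∀ y : A.A m, ∃ (u : RR k m.1) (γ : Γ), IsUnit u ∧ δ γ = u • y)
    (hδ2 : ∀ p : MvPolynomial (Fin (n + 1)) k, δ (algebraMap _ Γ p) =
      algebraMap (RR k m.1) (A.A m) (aeval (fun x => tt k (σ.symm x) hj) p))
    (P : Ideal (RR k m.1)) [P.IsPrime] [Algebra (RF P) g.S]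
    (hψ : ∀ f, algebraMap (RF P) g.S (toF P f) = g.fn f) :
    IsQuo k (ptF P σ hj) (g.psi.toRingHom.comp δ) := by
  let π : Γ →+* g.S := g.psi.toRingHom.comp δ
  have hπ : ∀ x, π x = g.psi (δ x) := fun x => rfl
  refine ⟨inferInstance, fun p => ?_, ?_⟩
  · change π (algebraMap _ Γ p) = _
    rw [hπ, hδ2, aeval_ptF, hψ]
    rfl
  · change Submodule.span (RF P) (Set.range π) = ⊤
    rw [eq_top_iff]
    intro s _
    obtain ⟨f, hf, x, hx⟩ := g.surj s
    obtain ⟨u, γ, hu, hy⟩ := hδ1 x
    have h1 : π γ = g.fn u * (g.fn f * s) := by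
      rw [hπ, hy, Algebra.smul_def, map_mul, hx]
      rfl
    have h2 : g.fn (u * f) ≠ 0 := by
      intro h0
      obtain ⟨v, hv⟩ := hu.exists_left_inv
      apply hf
      change g.fn f = 0
      have h3 : g.fn f = g.fn v * g.fn (u * f) := by
        rw [← g.fn_mul, ← mul_assoc, hv, one_mul]
      rw [h3, h0, mul_zero]
    have h3 : toF P (u * f) ≠ 0 := fun h0 => h2 (by rw [← hψ, h0, map_zero])
    have h4 : s = (toF P (u * f))⁻¹ • π γ := by
      have h5 : π γ = toF P (u * f) • s := by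
        rw [h1, ← mul_assoc, ← g.fn_mul, Algebra.smul_def, hψ]
      rw [h5, inv_smul_smul₀ h3]
    rw [h4]
    exact Submodule.smul_mem _ _ (Submodule.subset_span ⟨γ, rfl⟩)

/-- From `ResB` to `InProd` for the generic data. -/
theorem inProd_gd (σ : i ≃ Fin (n + 1)) {j : i} (hj : j ∈ m.1) (δ : Γ →+* A.A m)
    (hδ1 : ∀ y : A.A m, ∃ (u : RR k m.1) (γ : Γ), IsUnit u ∧ δ γ = u • y)
    (hδ2 : ∀ p : MvPolynomial (Fin (n + 1)) k, δ (algebraMap _ Γ p) =
      algebraMap (RR k m.1) (A.A m) (aeval (fun x => tt k (σ.symm x) hj) p))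
    (h : ResB k Γ (ptF (PI g) σ hj)) : InProd (algebraMap k (Subalgebra.center k g.S)) := by
  obtain ⟨ψ, hψ1, hψ2⟩ := exists_psiF g (PI g) (mem_PI g)
  let _ : Algebra (RF (PI g)) g.S := ψ.toRingHom.toAlgebra' hψ2
  have htow : IsScalarTower k (RF (PI g)) g.S :=
    IsScalarTower.of_algebraMap_eq fun c => (ψ.commutes c).symm
  exact inProd_center (h g.S _ (isQuo_gd g σ hj δ hδ1 hδ2 (PI g) hψ1))

/-- From `ResA` to `Uni` for the generic data. -/
theorem uni_gd (σ : i ≃ Fin (n + 1)) {j : i} (hj : j ∈ m.1) (δ : Γ →+* A.A m)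
    (hδ1 : ∀ y : A.A m, ∃ (u : RR k m.1) (γ : Γ), IsUnit u ∧ δ γ = u • y)
    (hδ2 : ∀ p : MvPolynomial (Fin (n + 1)) k, δ (algebraMap _ Γ p) =
      algebraMap (RR k m.1) (A.A m) (aeval (fun x => tt k (σ.symm x) hj) p))
    (h : ResA k Γ (ptF (PI g) σ hj)) : Uni g := by
  obtain ⟨ψ, hψ1, hψ2⟩ := exists_psiF g (PI g) (mem_PI g)
  let _ : Algebra (RF (PI g)) g.S := ψ.toRingHom.toAlgebra' hψ2
  have hq := isQuo_gd g σ hj δ hδ1 hδ2 (PI g) hψ1
  refine ⟨fun z hz => ?_, fun g' hg' a => ?_⟩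
  · obtain ⟨hpi, -⟩ := h g.S g.S _ _ hq hq
    obtain ⟨e, x, hx⟩ := pi_center_iff.1 hpi z hz
    obtain ⟨f, h1, hh, rfl⟩ := toF_div (PI g) x
    have hchar : ringExpChar (RF (PI g)) = ringExpChar k := by
      have h2 : ExpChar (RF (PI g)) (ringExpChar k) :=
        expChar_of_injective_algebraMap (algebraMap k (RF (PI g))).injective _
      exact ringExpChar.eq (RF (PI g)) (ringExpChar k)
    refine ⟨e, f, h1, fun h0 => hh h0, ?_⟩
    rw [← hchar, hx, ← hψ1, ← hψ1 f]
    change ψ _ * ψ _ = ψ _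
    rw [← map_mul, mul_div_cancel₀]
    exact fun h0 => hh ((toF_eq_zero _ _).1 h0)
  · obtain ⟨ψ', hψ1', hψ2'⟩ := exists_psiF g' (PI g) (fun f => (mem_PI g f).trans (hg' f).symm)
    let _ : Algebra (RF (PI g)) g'.S := ψ'.toRingHom.toAlgebra' hψ2'
    have hq' := isQuo_gd g' σ hj δ hδ1 hδ2 (PI g) hψ1'
    obtain ⟨-, e, he⟩ := h g.S g'.S _ _ hq hq'
    obtain ⟨u, γ, ⟨u, rfl⟩, hγ⟩ := hδ1 a
    have key : ∀ (g : GD A m), g.psi a = 0 ↔ g.psi (δ γ) = 0 := by
      intro g
      rw [hγ, Algebra.smul_def, map_mul]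
      constructor
      · intro h0
        rw [h0, mul_zero]
      · intro h0
        have h1 : g.fn (↑u⁻¹ : RR k m.1) * (g.fn u * g.psi a) = g.psi a := by
          rw [← mul_assoc, ← g.fn_mul, Units.inv_mul, g.fn_one, one_mul]
        rw [← h1]
        change g.fn _ * (g.psi (algebraMap _ _ _) * g.psi a) = 0
        rw [h0, mul_zero]
    rw [key g, key g']
    have h2 : e (g.psi (δ γ)) = g'.psi (δ γ) := he γ
    rw [← h2]
    exact map_eq_zero_iff e e.injective

end gd

end Pool.Agent.MP_6e5bed_ag_GP
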