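import Pool.Agent.Lib.MP_6e5bed_ag_GP.Rk

set_option autoImplicit false
set_option linter.unusedVariables false

/-!
# MP_6e5bed_ag, THEOREM G+: comparison of ranks
-/

noncomputable section

namespace Pool.Agent.MP_6e5bed_ag_GP

open scoped TensorProduct

private theorem Rk2_range {R : Type*} [CommRing R] [IsNoetherianRing R] (p : Ideal R) [p.IsPrime]
    {X Z : Type*} [AddCommGroup X] [Module R X] [AddCommGroup Z] [Module R Z] [Module.Finite R X]
    (hX : ∀ f ∈ p, ∀ x : X, f • x = 0) (φ : X →ₗ[R] Z)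
    (k₁ : ∀ x, φ x = 0 → ∃ f, f ∉ p ∧ f • x = 0) : rkp p X = rkp p (LinearMap.range φ) := by
  have h0 : rkp p (LinearMap.ker φ) = 0 := by
    refine rkp_zero p (fun f hf x => Subtype.ext ?_) (fun x => ?_)
    · exact hX f hf x.1
    · obtain ⟨f, hf, h⟩ := k₁ x.1 x.2
      exact ⟨f, hf, Subtype.ext h⟩
  rw [rkp_add p hX (LinearMap.ker φ), h0, zero_add]
  exact rkp_congr p φ.quotKerEquivRange

private theorem Rk2_inf {R : Type*} [CommRing R] [IsNoetherianRing R] (p : Ideal R) [p.IsPrime]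
    {Z : Type*} [AddCommGroup Z] [Module R Z] (U V : Submodule R Z) [Module.Finite R U]
    (hU : ∀ f ∈ p, ∀ x : U, f • x = 0) (hs : ∀ z ∈ U, ∃ f, f ∉ p ∧ f • z ∈ V) :
    rkp p U = rkp p (U ⊓ V : Submodule R Z) := by
  have h0 : rkp p (U ⧸ Submodule.comap U.subtype (U ⊓ V)) = 0 := by
    refine rkp_zero p (fun f hf x => ?_) (fun x => ?_)
    · obtain ⟨x, rfl⟩ := Submodule.Quotient.mk_surjective _ x
      rw [← Submodule.Quotient.mk_smul, hU f hf x, Submodule.Quotient.mk_zero]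
    · obtain ⟨x, rfl⟩ := Submodule.Quotient.mk_surjective _ x
      obtain ⟨f, hf, h⟩ := hs x.1 x.2
      refine ⟨f, hf, ?_⟩
      rw [← Submodule.Quotient.mk_smul, Submodule.Quotient.mk_eq_zero]
      exact ⟨U.smul_mem f x.2, h⟩
  rw [rkp_add p hU (Submodule.comap U.subtype (U ⊓ V)), h0, add_zero]
  exact rkp_congr p (Submodule.comapSubtypeEquivOfLe inf_le_left)

/-- Modules `X`, `Y` with maps to a third module whose kernels and cokernels are torsion have the same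
rank. (`W = φ X ∩ ψ Y`: `rkp X = rkp (ker φ) + rkp (range φ) = rkp (range φ)` and
`rkp (range φ) = rkp W + rkp (range φ ⧸ W) = rkp W`, by `rkp_add`, `rkp_zero`, `rkp_congr`.) -/
theorem rkp_cmp {R : Type*} [CommRing R] [IsNoetherianRing R] (p : Ideal R) [p.IsPrime]
    {X Y Z : Type*} [AddCommGroup X] [Module R X] [AddCommGroup Y] [Module R Y]
    [AddCommGroup Z] [Module R Z] [Module.Finite R X] [Module.Finite R Y]
    (hX : ∀ f ∈ p, ∀ x : X, f • x = 0) (hY : ∀ f ∈ p, ∀ y : Y, f • y = 0)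
    (φ : X →ₗ[R] Z) (ψ : Y →ₗ[R] Z)
    (k₁ : ∀ x, φ x = 0 → ∃ f, f ∉ p ∧ f • x = 0) (k₂ : ∀ y, ψ y = 0 → ∃ f, f ∉ p ∧ f • y = 0)
    (s₁ : ∀ z, ∃ f, f ∉ p ∧ ∃ x, φ x = f • z) (s₂ : ∀ z, ∃ f, f ∉ p ∧ ∃ y, ψ y = f • z) :
    rkp p X = rkp p Y := by
  have a1 : rkp p (LinearMap.range φ) = rkp p (LinearMap.range φ ⊓ LinearMap.range ψ :
      Submodule R Z) := by
    refine Rk2_inf p _ _ (fun f hf x => Subtype.ext ?_) (fun z hz => ?_)
    · obtain ⟨x, hx⟩ := x.2
      have h := congrArg φ (hX f hf x)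
      rw [map_smul, hx, map_zero] at h
      exact h
    · obtain ⟨f, hf, y, hy⟩ := s₂ z
      exact ⟨f, hf, y, hy⟩
  have a2 : rkp p (LinearMap.range ψ) = rkp p (LinearMap.range ψ ⊓ LinearMap.range φ :
      Submodule R Z) := by
    refine Rk2_inf p _ _ (fun f hf x => Subtype.ext ?_) (fun z hz => ?_)
    · obtain ⟨y, hy⟩ := x.2
      have h := congrArg ψ (hY f hf y)
      rw [map_smul, hy, map_zero] at h
      exact h
    · obtain ⟨f, hf, x, hx⟩ := s₁ z
      exact ⟨f, hf, x, hx⟩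
  rw [Rk2_range p hX φ k₁, Rk2_range p hY ψ k₂, a1, a2, inf_comm]

end Pool.Agent.MP_6e5bed_ag_GP
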