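import Pool.Agent.Lib.MP_6e5bed_ag_GP.GdQ
import Pool.Agent.Lib.MP_6e5bed_ag_GP.PHd
import Pool.Agent.Lib.MP_6e5bed_ag_GG.GE

set_option autoImplicit false
set_option linter.unusedVariables false

/-!
# MP_6e5bed_ag, THEOREM G+: minimal bimodules at the generic point, the right annihilator
-/

noncomputable section

namespace Pool.Agent.MP_6e5bed_ag_GP

open Pool.Agent.MP_6e5bed_ag_GG
open scoped TensorProduct

universe u

variable {k : Type u} [Field k] {i : Type} [Fintype i] {A : CA k i} {m : Ch i}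

/-- An `A_m`-bimodule which lives at the generic point of `g`: the left action factors through `psi`,
the functions `f`, `fn f ≠ 0`, are bijective, the functions act in the same way from the left and from
the right, and it is finitely generated over `S`. -/
structure GBi (g : GD A m) where
  U : Type u
  [grp : AddCommGroup U]
  [mod : Module k U]
  lam : A.A m →ₐ[k] Module.End k U
  rho : (A.A m)ᵐᵒᵖ →ₐ[k] Module.End k U
  comm : ∀ a b x, lam a (rho b x) = rho b (lam a x)
  zero : ∀ a, g.psi a = 0 → lam a = 0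
  bij : ∀ f : RR k m.1, g.fn f ≠ 0 →
    Function.Bijective (lam (algebraMap (RR k m.1) (A.A m) f))
  cen : ∀ (f : RR k m.1) (x : U), lam (algebraMap (RR k m.1) (A.A m) f) x =
    rho (MulOpposite.op (algebraMap (RR k m.1) (A.A m) f)) x
  fin : ∃ (n : ℕ) (y : Fin n → U), ∀ x : U, ∃ f : RR k m.1, g.fn f ≠ 0 ∧
    ∃ c : Fin n → A.A m, lam (algebraMap (RR k m.1) (A.A m) f) x = ∑ t, lam (c t) (y t)

attribute [instance] GBi.grp GBi.mod

namespace GBi

variable {g : GD A m} (B : GBi g)

/-- the sub-bimodules -/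
structure Stb (V : Submodule k B.U) : Prop where
  l : ∀ a, ∀ x ∈ V, B.lam a x ∈ V
  r : ∀ b, ∀ x ∈ V, B.rho b x ∈ V
  div : ∀ f : RR k m.1, g.fn f ≠ 0 → ∀ x, B.lam (algebraMap (RR k m.1) (A.A m) f) x ∈ V → x ∈ V

/-- `U` is a module over `S` by `gd_lift` and finitely generated, and `S` is Artinian (finite over
the field `fieldC`, `GG/GE.lean`); sub-bimodules are submodules over `S`: there is a minimal
one. -/
theorem exists_min (hU : ∃ x : B.U, x ≠ 0) : ∃ V : Submodule k B.U, V ≠ ⊥ ∧ B.Stb V ∧
    ∀ V' ≤ V, V' ≠ ⊥ → B.Stb V' → V' = V := by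
  classical
  obtain ⟨σ, hσ⟩ := gd_lift g (B.lam : A.A m →+* Module.End k B.U) B.zero
    (fun f hf => (Module.End.isUnit_iff _).2 (B.bij f hf))
  have hσ' : ∀ a, σ (g.psi a) = B.lam a := hσ
  let _ : Module g.S B.U := Module.compHom B.U σ
  have hsm : ∀ (s : g.S) (x : B.U), s • x = σ s x := fun s x => rfl
  have hk : ∀ (c : k) (x : B.U), c • x = (algebraMap k g.S c) • x := by
    intro c x
    rw [hsm, ← g.psi.commutes c, hσ', AlgHom.commutes]
    rfl
  have hfn : ∀ (f : RR k m.1) (s : g.S) (a : A.A m), g.psi a = g.fn f * s → ∀ x : B.U,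
      B.lam (algebraMap (RR k m.1) (A.A m) f) (s • x) = B.lam a x := by
    intro f s a ha x
    rw [← hσ' a, ha, map_mul, hsm]
    change _ = σ (g.psi (algebraMap (RR k m.1) (A.A m) f)) (σ s x)
    rw [hσ']
  have hfin : Module.Finite g.S B.U := by
    obtain ⟨n, y, hy⟩ := B.fin
    refine ⟨Finset.univ.image y, ?_⟩
    rw [Finset.coe_image, Finset.coe_univ, Set.image_univ, eq_top_iff]
    intro x _
    obtain ⟨f, hf, c, hc⟩ := hy x
    obtain ⟨v, hv⟩ := (g.unit f hf).exists_left_inv
    have e : x = ∑ t, (v * g.psi (c t)) • y t := by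
      have e1 : (g.fn f) • x = ∑ t, g.psi (c t) • y t := by
        rw [hsm]
        change σ (g.psi (algebraMap (RR k m.1) (A.A m) f)) x = _
        rw [hσ', hc]
        refine Finset.sum_congr rfl fun t _ => ?_
        rw [hsm, hσ']
      have e2 := congrArg (fun z => v • z) e1
      simp only [smul_smul, Finset.smul_sum] at e2
      rw [← e2]
      change x = (v * g.psi (algebraMap (RR k m.1) (A.A m) f)) • x
      rw [hv, one_smul]
    rw [e]
    exact Submodule.sum_mem _ fun t _ => Submodule.smul_mem _ _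
      (Submodule.subset_span ⟨t, rfl⟩)
  have hart : IsArtinianRing g.S := by
    let _ := g.fieldC
    have : IsArtinian (Subalgebra.center k g.S) g.S := inferInstance
    exact isArtinian_of_tower (Subalgebra.center k g.S) this
  have hartU : IsArtinian g.S B.U := inferInstance
  -- sub-bimodules which are submodules over `S`
  let T : Set (Submodule g.S B.U) := {N | N ≠ ⊥ ∧ ∀ b, ∀ x ∈ N, B.rho b x ∈ N}
  have hT : (⊤ : Submodule g.S B.U) ∈ T := by
    refine ⟨fun h => ?_, fun b x _ => Submodule.mem_top⟩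
    obtain ⟨x, hx⟩ := hU
    exact hx ((Submodule.mem_bot g.S).1 (h ▸ Submodule.mem_top))
  obtain ⟨N, hN, hmin⟩ := WellFounded.has_min (wellFounded_lt (α := Submodule g.S B.U)) T ⟨_, hT⟩
  let V : Submodule k B.U :=
    { carrier := {x | x ∈ N}
      zero_mem' := N.zero_mem
      add_mem' := fun h h' => N.add_mem h h'
      smul_mem' := fun c x h => by
        change c • x ∈ N
        rw [hk]
        exact N.smul_mem _ h }
  have hVN : ∀ x, x ∈ V ↔ x ∈ N := fun x => Iff.rfl
  refine ⟨V, ?_, ⟨?_, ?_, ?_⟩, ?_⟩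
  · intro h
    refine hN.1 ((Submodule.eq_bot_iff _).2 fun x hx => ?_)
    exact (Submodule.eq_bot_iff _).1 h x ((hVN x).2 hx)
  · intro a x hx
    rw [hVN] at hx ⊢
    rw [← hσ']
    exact N.smul_mem (g.psi a) hx
  · intro b x hx
    exact hN.2 b x hx
  · intro f hf x hx
    rw [hVN] at hx ⊢
    obtain ⟨v, hv⟩ := (g.unit f hf).exists_left_inv
    have e : x = v • (B.lam (algebraMap (RR k m.1) (A.A m) f) x) := by
      rw [← hσ']
      change x = v • (g.psi (algebraMap (RR k m.1) (A.A m) f) • x)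
      rw [smul_smul, hv, one_smul]
    rw [e]
    exact N.smul_mem _ hx
  · intro V' hV' hne hst
    let N' : Submodule g.S B.U :=
      { carrier := {x | x ∈ V'}
        zero_mem' := V'.zero_mem
        add_mem' := fun h h' => V'.add_mem h h'
        smul_mem' := fun s x h => by
          obtain ⟨f, hf, a, ha⟩ := g.surj s
          refine hst.div f hf _ ?_
          rw [hfn f s a ha]
          exact hst.l a x h }
    have hN' : N' ∈ T := by
      refine ⟨fun h => hne ((Submodule.eq_bot_iff _).2 fun x hx => ?_), fun b x hx => ?_⟩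
      · exact (Submodule.eq_bot_iff _).1 h x hx
      · exact hst.r b x hx
    have hle : N' ≤ N := fun x hx => hV' hx
    have heq : N' = N := by
      by_contra hne'
      exact hmin N' hN' (lt_of_le_of_ne hle hne')
    refine le_antisymm hV' fun x hx => ?_
    have hx' : x ∈ N := hx
    rw [← heq] at hx'
    exact hx'

/-- The right annihilator of a minimal sub-bimodule is the kernel of `psi`. It is a two-sided ideal
`Q`, a function `f` is in `Q` iff `fn f = 0`, and it is prime: if `a x b ∈ Q` for all `x` and `a ∉ Q`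
then the sub-bimodule generated by `V a` is `V`, and `V b = 0`. `Q` contains the `x_l / x_γ`,
`l ∉ m`, as `g.zero` and `cen`. So `gd_of_prime` gives generic data `g'` with kernel `Q`, and
`Uni.uniq`. -/
theorem rho_zero (hu : Uni g) {V : Submodule k B.U} (h0 : V ≠ ⊥) (hs : B.Stb V)
    (hm : ∀ V' ≤ V, V' ≠ ⊥ → B.Stb V' → V' = V) (a : A.A m) (ha : g.psi a = 0) :
    ∀ x ∈ V, B.rho (MulOpposite.op a) x = 0 := by
  have hmul : ∀ (b c : A.A m) (x : B.U), B.rho (MulOpposite.op (b * c)) x =
      B.rho (MulOpposite.op c) (B.rho (MulOpposite.op b) x) := by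
    intro b c x
    rw [MulOpposite.op_mul, map_mul]
    rfl
  let Q : Ideal (A.A m) :=
    { carrier := {b | ∀ x ∈ V, B.rho (MulOpposite.op b) x = 0}
      zero_mem' := fun x _ => by
        rw [MulOpposite.op_zero, map_zero]
        rfl
      add_mem' := fun {b c} hb hc x hx => by
        rw [MulOpposite.op_add, map_add, LinearMap.add_apply, hb x hx, hc x hx, add_zero]
      smul_mem' := fun c b hb x hx => by
        rw [smul_eq_mul, hmul]
        exact hb _ (hs.r _ x hx) }
  have hQ : ∀ b, b ∈ Q ↔ ∀ x ∈ V, B.rho (MulOpposite.op b) x = 0 := fun b => Iff.rfl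
  obtain ⟨x0, hx0, hx0'⟩ := Submodule.exists_mem_ne_zero_of_ne_bot h0
  have h1 : (1 : A.A m) ∉ Q := by
    intro h
    have h3 := (hQ 1).1 h x0 hx0
    rw [MulOpposite.op_one, map_one] at h3
    exact hx0' h3
  have hfQ : ∀ f : RR k m.1, algebraMap (RR k m.1) (A.A m) f ∈ Q ↔ g.fn f = 0 := by
    intro f
    constructor
    · intro h
      by_contra hf
      have h3 := (hQ _).1 h x0 hx0
      rw [← B.cen] at h3
      exact hx0' ((B.bij f hf).1 (by rw [h3, map_zero]))
    · intro hf
      refine (hQ _).2 fun x _ => ?_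
      rw [← B.cen, B.zero _ hf]
      rfl
  have hp : ∀ b c : A.A m, (∀ x, b * x * c ∈ Q) → b ∈ Q ∨ c ∈ Q := by
    intro b c hbc
    by_cases hb : b ∈ Q
    · exact Or.inl hb
    refine Or.inr ?_
    rw [hQ] at hb
    push Not at hb
    obtain ⟨v, hv, hv'⟩ := hb
    let V' : Submodule k B.U :=
      { carrier := {x | x ∈ V ∧ ∀ d, B.rho (MulOpposite.op (d * c)) x = 0}
        zero_mem' := ⟨V.zero_mem, fun d => map_zero _⟩
        add_mem' := fun {x y} hx hy => ⟨V.add_mem hx.1 hy.1, fun d => by
          rw [map_add, hx.2 d, hy.2 d, add_zero]⟩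
        smul_mem' := fun r x hx => ⟨V.smul_mem r hx.1, fun d => by
          rw [map_smul, hx.2 d, smul_zero]⟩ }
    have hV' : ∀ x, x ∈ V' ↔ x ∈ V ∧ ∀ d, B.rho (MulOpposite.op (d * c)) x = 0 :=
      fun x => Iff.rfl
    have hle : V' ≤ V := fun x hx => hx.1
    have hmem : B.rho (MulOpposite.op b) v ∈ V' := by
      refine (hV' _).2 ⟨hs.r _ v hv, fun d => ?_⟩
      rw [← hmul, ← mul_assoc]
      exact (hQ _).1 (hbc d) v hv
    have hne : V' ≠ ⊥ := by
      intro h
      rw [h] at hmem
      exact hv' ((Submodule.mem_bot k).1 hmem)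
    have hst : B.Stb V' := by
      refine ⟨fun e x hx => ?_, fun e x hx => ?_, fun f hf x hx => ?_⟩
      · rw [hV'] at hx ⊢
        refine ⟨hs.l e x hx.1, fun d => ?_⟩
        rw [← B.comm, hx.2 d, map_zero]
      · rw [hV'] at hx ⊢
        refine ⟨hs.r e x hx.1, fun d => ?_⟩
        have h3 := hmul e.unop (d * c) x
        rw [MulOpposite.op_unop, ← mul_assoc] at h3
        rw [← h3]
        exact hx.2 (e.unop * d)
      · rw [hV'] at hx ⊢
        refine ⟨hs.div f hf x hx.1, fun d => ?_⟩
        have h3 := hx.2 d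
        rw [← B.comm] at h3
        exact (B.bij f hf).1 (by rw [h3, map_zero])
    have heq := hm V' hle hne hst
    refine (hQ c).2 fun x hx => ?_
    rw [← heq] at hx
    have h3 := ((hV' x).1 hx).2 1
    rwa [one_mul] at h3
  obtain ⟨g', hg'⟩ := gd_of_prime Q
    (fun b hb c => (hQ _).2 fun x hx => by rw [hmul, (hQ b).1 hb x hx, map_zero]) h1 hp
    (fun {γ} hγ l hl => (hfQ _).2 (g.zero hγ l hl))
  have huu := hu.uniq g' (fun f => by
    rw [← hfQ f, ← hg']
    rfl)
  exact (hQ a).1 ((hg' a).1 ((huu a).2 ha))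

end GBi

end Pool.Agent.MP_6e5bed_ag_GP
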