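import Pool.Agent.Lib.MP_6e5bed_ag_GP.Gbf

set_option autoImplicit false
set_option linter.unusedVariables false

/-!
# MP_6e5bed_ag, THEOREM G+: the bisheaf of a bimodule at the generic point
-/

noncomputable section

namespace Pool.Agent.MP_6e5bed_ag_GP

open Pool.Agent.MP_6e5bed_ag_GG
open scoped TensorProduct

universe u

variable {k : Type u} [Field k] {i : Type} [Fintype i] {A : CA k i} {m : Ch i} {g : GD A m}

/-- the action of `A_m ⊗ A_mᵒᵖ` -/
def GBi.act (B : GBi g) : bsB A A (m, m) →ₐ[k] Module.End k B.U :=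
  Algebra.TensorProduct.lift B.lam B.rho (fun a b => LinearMap.ext fun x => B.comm a b x)

theorem GBi.act_tmul (B : GBi g) (a : A.A m) (b : (A.A m)ᵐᵒᵖ) (x : B.U) :
    B.act (a ⊗ₜ[k] b) x = B.lam a (B.rho b x) := by
  unfold GBi.act
  rw [Algebra.TensorProduct.lift_tmul]
  rfl

/-- the sections -/
def ZcE (B : GBi g) (p : Ch i × Ch i) : Type u := PLift (p ≤ (m, m)) → B.U

instance (B : GBi g) (p : Ch i × Ch i) : AddCommGroup (ZcE B p) :=
  inferInstanceAs (AddCommGroup (PLift (p ≤ (m, m)) → B.U))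

instance (B : GBi g) (p : Ch i × Ch i) : Module k (ZcE B p) :=
  inferInstanceAs (Module k (PLift (p ≤ (m, m)) → B.U))

instance (B : GBi g) (p : Ch i × Ch i) : Module (bsB A A p) (ZcE B p) where
  smul b x := fun h => B.act (bsr A A h.down b) (x h)
  one_smul := fun x => funext fun h => by
    change B.act (bsr A A h.down 1) (x h) = x h
    rw [map_one, map_one]
    rfl
  mul_smul := fun a b x => funext fun h => by
    change B.act (bsr A A h.down (a * b)) (x h) = _
    rw [map_mul, map_mul]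
    rfl
  smul_zero := fun a => funext fun h => map_zero _
  smul_add := fun a x y => funext fun h => map_add _ _ _
  add_smul := fun a b x => funext fun h => by
    change B.act (bsr A A h.down (a + b)) (x h) = _
    rw [map_add, map_add]
    rfl
  zero_smul := fun x => funext fun h => by
    change B.act (bsr A A h.down 0) (x h) = _
    rw [map_zero, map_zero]
    rfl

theorem ZcE_smul (B : GBi g) {p : Ch i × Ch i} (b : bsB A A p) (x : ZcE B p)
    (h : PLift (p ≤ (m, m))) : (b • x) h = B.act (bsr A A h.down b) (x h) := rfl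

theorem ZcE_ext {B : GBi g} {p : Ch i × Ch i} {x y : ZcE B p}
    (h : ∀ hp : p ≤ (m, m), x ⟨hp⟩ = y ⟨hp⟩) : x = y := funext fun hp => h hp.down

instance (B : GBi g) (p : Ch i × Ch i) : IsScalarTower k (bsB A A p) (ZcE B p) where
  smul_assoc := fun c b x => ZcE_ext fun h => by
    change B.act (bsr A A h (c • b)) (x ⟨h⟩) = c • B.act (bsr A A h b) (x ⟨h⟩)
    rw [map_smul, map_smul]
    rfl

private theorem zc_left (B : GBi g) {p : Ch i × Ch i} (h : p ≤ (m, m)) {γ : i}
    (hγ : γ ∈ p.1.1) {l : i} (hl : l ∉ m.1) (y : B.U) :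
    B.act (bsr A A h (algebraMap (RR k p.1.1) (A.A p.1) (tt k l hγ) ⊗ₜ[k] 1)) y = 0 := by
  rw [bsr_tmul, MulOpposite.unop_one, map_one, MulOpposite.op_one, GBi.act_tmul, A.res_R,
    rinc_tt, B.zero _ (g.zero (h.1 hγ) l hl)]
  rfl

private theorem zc_right (B : GBi g) {p : Ch i × Ch i} (h : p ≤ (m, m)) {γ : i}
    (hγ : γ ∈ p.2.1) {l : i} (hl : l ∉ m.1) (y : B.U) :
    B.act (bsr A A h (1 ⊗ₜ[k] MulOpposite.op (algebraMap (RR k p.2.1) (A.A p.2)
      (tt k l hγ)))) y = 0 := by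
  rw [bsr_tmul, map_one, MulOpposite.unop_op, GBi.act_tmul, map_one, Module.End.one_apply,
    A.res_R, rinc_tt, ← B.cen, B.zero _ (g.zero (h.2 hγ) l hl)]
  rfl

/-- THE BISHEAF OF A BIMODULE AT THE GENERIC POINT: `U` on the pairs of charts `≤ (m, m)`, zero
otherwise. (As `Zs` in `GG/GA.lean`: for `Loc p q t` and `q ≤ (m, m)` the restriction is bijective;
for `p ≤ (m, m)` and not `q ≤ (m, m)` the element `t` is `x_l / x_g` with `l ∉ m` and acts as zero
by `B.zero`, `g.zero`, `B.cen`.) -/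
def Zc (B : GBi g) : BS A A where
  E := ZcE B
  mod := fun p => inferInstanceAs (Module (bsB A A p) (ZcE B p))
  tow := fun p => inferInstanceAs (IsScalarTower k (bsB A A p) (ZcE B p))
  res := fun {p q} h =>
    { toFun := fun x hq => x ⟨h.trans hq.down⟩
      map_add' := fun _ _ => rfl
      map_smul' := fun _ _ => rfl }
  res_smul := fun {p q} h b x => ZcE_ext fun hq => by
    change B.act (bsr A A _ b) (x _) = B.act (bsr A A hq (bsr A A h b)) (x _)
    congr 2
    exact ((bs A A).r_r h hq b).symm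
  res_id := fun h x => rfl
  res_res := fun h h' x => rfl
  surj := by
    intro p q t h y
    obtain ⟨h0, h1⟩ := h
    by_cases hq : q ≤ (m, m)
    · refine ⟨0, fun _ => (y : ZcE B q) ⟨hq⟩, ZcE_ext fun h' => ?_⟩
      rw [pow_zero, one_smul]
      rfl
    · exact ⟨0, 0, ZcE_ext fun h' => absurd h' hq⟩
  inj := by
    intro p q t h x hx
    obtain ⟨h0, h1⟩ := h
    by_cases hq : q ≤ (m, m)
    · refine ⟨0, ZcE_ext fun h' => ?_⟩
      rw [pow_zero, one_smul]
      exact congrFun hx ⟨hq⟩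
    · refine ⟨1, ZcE_ext fun h' => ?_⟩
      rw [pow_one]
      rcases h1 with ⟨l, γ, hγ, h2, h3, rfl⟩ | ⟨l, γ, hγ, h2, h3, rfl⟩
      · have hl : l ∉ m.1 := fun hl => hq ⟨fun z hz => by
          rcases h2 hz with rfl | hz
          · exact hl
          · exact h'.1 hz, h3.trans h'.2⟩
        exact zc_left B h' hγ hl ((x : ZcE B p) ⟨h'⟩)
      · have hl : l ∉ m.1 := fun hl => hq ⟨h3.trans h'.1, fun z hz => by
          rcases h2 hz with rfl | hz
          · exact hl
          · exact h'.2 hz⟩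
        exact zc_right B h' hγ hl ((x : ZcE B p) ⟨h'⟩)

theorem Zc_res (B : GBi g) {p q : Ch i × Ch i} (h : p ≤ q) (x : (Zc B).E p)
    (hq : PLift (q ≤ (m, m))) : (Zc B).res h x hq = (x : ZcE B p) ⟨h.trans hq.down⟩ := rfl

theorem Zc_cl1 (B : GBi g) {p : Ch i × Ch i} (f : RR k p.1.1) (x : (Zc B).E p)
    (h : p ≤ (m, m)) : (cl1 A A p f • x : ZcE B p) ⟨h⟩ =
      B.lam (algebraMap (RR k m.1) (A.A m) (rinc h.1 f)) ((x : ZcE B p) ⟨h⟩) := by
  have h1 : (cl1 A A p f • x : ZcE B p) ⟨h⟩ =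
      B.act (bsr A A h (cl1 A A p f)) ((x : ZcE B p) ⟨h⟩) := rfl
  have h2 : bsr A A h (cl1 A A p f) =
      (algebraMap (RR k m.1) (A.A m) (rinc h.1 f) ⊗ₜ[k] 1 : bsB A A (m, m)) := cl1_r A A h f
  rw [h1, h2, GBi.act_tmul, map_one]
  rfl

theorem Zc_crt (B : GBi g) {p : Ch i × Ch i} (f : RR k p.2.1) (x : (Zc B).E p)
    (h : p ≤ (m, m)) : (crt A A p f • x : ZcE B p) ⟨h⟩ =
      B.rho (MulOpposite.op (algebraMap (RR k m.1) (A.A m) (rinc h.2 f)))
        ((x : ZcE B p) ⟨h⟩) := by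
  have h1 : (crt A A p f • x : ZcE B p) ⟨h⟩ =
      B.act (bsr A A h (crt A A p f)) ((x : ZcE B p) ⟨h⟩) := rfl
  have h2 : bsr A A h (crt A A p f) =
      (1 ⊗ₜ[k] MulOpposite.op (algebraMap (RR k m.1) (A.A m) (rinc h.2 f)) :
        bsB A A (m, m)) := crt_r A A h f
  rw [h1, h2, GBi.act_tmul, map_one]
  rfl

theorem zc_cen (B : GBi g) : Cen (Zc B) := by
  intro p γ hγ l hl n x
  refine ZcE_ext fun h => ?_
  have e1 := Zc_cl1 B (tt k n hγ) x h
  have e2 := Zc_cl1 B (tt k l hγ) (crt A A p (tt k n hl) • x) h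
  have e3 := Zc_crt B (tt k n hl) x h
  refine e1.trans (Eq.trans ?_ e2.symm)
  rw [e3, ← B.cen, ← Module.End.mul_apply, ← map_mul, ← map_mul, rinc_tt, rinc_tt, rinc_tt,
    mul_comm (tt k l _), tt_tt]

/-- the annihilators of the bisheaf of `U` contain the elements which `psi` kills -/
theorem ann_zc (B : GBi g) {c : Ch i} {a : A.A c} (ha : ∀ h : c ≤ m, g.psi (A.res h a) = 0) :
    a ∈ ann (Zc B) c := by
  rw [mem_ann]
  intro c' e
  refine ZcE_ext fun h => ?_
  have h1 : (lo A A (c, c') a • e : ZcE B (c, c')) ⟨h⟩ =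
      B.act (bsr A A h (lo A A (c, c') a)) ((e : ZcE B (c, c')) ⟨h⟩) := rfl
  have h2 : bsr A A h (lo A A (c, c') a) =
      (A.res h.1 a ⊗ₜ[k] 1 : bsB A A (m, m)) := lo_r A A h a
  refine h1.trans ?_
  rw [h2, GBi.act_tmul, map_one, B.zero _ (ha h.1)]
  rfl

private theorem zc_act_map {B B' : GBi g} (j : B.U →ₗ[k] B'.U)
    (h1 : ∀ a x, j (B.lam a x) = B'.lam a (j x)) (h2 : ∀ b x, j (B.rho b x) = B'.rho b (j x))
    (b : bsB A A (m, m)) (y : B.U) : j (B.act b y) = B'.act b (j y) := by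
  induction b using TensorProduct.induction_on with
  | zero => rw [map_zero, map_zero, LinearMap.zero_apply, LinearMap.zero_apply, map_zero]
  | tmul a b => rw [GBi.act_tmul, GBi.act_tmul, h1, h2]
  | add x y hx hy =>
    rw [map_add, map_add, LinearMap.add_apply, LinearMap.add_apply, map_add, hx, hy]

/-- functoriality -/
def Zc.map {B B' : GBi g} (j : B.U →ₗ[k] B'.U) (h1 : ∀ a x, j (B.lam a x) = B'.lam a (j x))
    (h2 : ∀ b x, j (B.rho b x) = B'.rho b (j x)) : ShH (Zc B) (Zc B') where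
  f := fun p =>
    { toFun := fun x h => j ((x : ZcE B p) h)
      map_add' := fun x y => funext fun h => map_add j _ _
      map_smul' := by
        intro b x
        refine ZcE_ext fun h => ?_
        exact zc_act_map j h1 h2 (bsr A A h b) ((x : ZcE B p) ⟨h⟩) }
  nat := fun _ _ => rfl

theorem Zc.map_apply {B B' : GBi g} (j : B.U →ₗ[k] B'.U)
    (h1 : ∀ a x, j (B.lam a x) = B'.lam a (j x)) (h2 : ∀ b x, j (B.rho b x) = B'.rho b (j x))
    {p : Ch i × Ch i} (x : (Zc B).E p) (h : PLift (p ≤ (m, m))) :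
    (((Zc.map j h1 h2).f p x : (Zc B').E p) : ZcE B' p) h = j ((x : ZcE B p) h) := rfl

end Pool.Agent.MP_6e5bed_ag_GP
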