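import Pool.Agent.Lib.MP_6e5bed_ag_GP.Zc
import Pool.Agent.Lib.MP_6e5bed_ag_GG.Dgc

set_option autoImplicit false
set_option linter.unusedVariables false

/-!
# MP_6e5bed_ag, THEOREM G+: the standard bisheaf at the generic point
-/

noncomputable section

namespace Pool.Agent.MP_6e5bed_ag_GP

open Pool.Agent.MP_6e5bed_ag_GG
open scoped TensorProduct

universe u

variable {k : Type u} [Field k] {i : Type} [Fintype i] {A : CA k i} {m : Ch i}

private theorem ZcD_un {p : Ch i × Ch i} (h : p ≤ (m, m)) : un p ≤ m := Ch.sup_le h.1 h.2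

private def ZcD_h (g : GD A m) {p : Ch i × Ch i} (h : p ≤ (m, m)) : A.A (un p) →ₐ[k] g.S :=
  g.psi.comp (A.res (ZcD_un h))

private theorem ZcD_h_apply (g : GD A m) {p : Ch i × Ch i} (h : p ≤ (m, m)) (x : A.A (un p)) :
    ZcD_h g h x = g.psi (A.res (ZcD_un h) x) := rfl

private theorem ZcD_tmul (g : GD A m) {p : Ch i × Ch i} (h : p ≤ (m, m)) (a : A.A p.1)
    (b : (A.A p.2)ᵐᵒᵖ) (x : DgE A p) :
    ZcD_h g h (DgE.of A ((a ⊗ₜ[k] b : bsB A A p) • x)) =
      (GBi.self g).act (bsr A A h (a ⊗ₜ[k] b)) (ZcD_h g h (DgE.of A x) : g.S) := by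
  rw [DgE_tmul, bsr_tmul, GBi.act_tmul, GBi.self_rho, GBi.self_lam, map_mul, map_mul]
  rw [ZcD_h_apply g h (A.res (le_un1 p) a), ZcD_h_apply g h (A.res (le_un2 p) b.unop),
    A.res_res, A.res_res]
  exact mul_assoc _ _ _

private theorem ZcD_smul (g : GD A m) {p : Ch i × Ch i} (h : p ≤ (m, m)) (b : bsB A A p)
    (x : DgE A p) :
    ZcD_h g h (DgE.of A (b • x)) =
      (GBi.self g).act (bsr A A h b) (ZcD_h g h (DgE.of A x) : g.S) := by
  induction b using TensorProduct.induction_on with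
  | zero =>
    have h0 : (0 : bsB A A p) = (0 : A.A p.1) ⊗ₜ[k] (1 : (A.A p.2)ᵐᵒᵖ) :=
      (TensorProduct.zero_tmul _ _).symm
    rw [h0]
    exact ZcD_tmul g h 0 1 x
  | tmul a b => exact ZcD_tmul g h a b x
  | add a b ha hb =>
    rw [add_smul, map_add, map_add, LinearMap.add_apply, ← ha, ← hb]
    exact map_add (ZcD_h g h) _ _

private theorem ZcD_nat (g : GD A m) {p q : Ch i × Ch i} (h : p ≤ q) (hq : q ≤ (m, m))
    (x : DgE A p) : ZcD_h g (h.trans hq) (DgE.of A x) = ZcD_h g hq (DgE.of A (dgr A h x)) := by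
  rw [dgr_of, ZcD_h_apply, ZcD_h_apply, A.res_res]

private def ZcD_f (g : GD A m) (p : Ch i × Ch i) : DgE A p → ZcE (GBi.self g) p :=
  fun x h => (ZcD_h g h.down (DgE.of A x) : g.S)

private theorem ZcD_f_add (g : GD A m) (p : Ch i × Ch i) (x y : DgE A p) :
    ZcD_f g p (x + y) = ZcD_f g p x + ZcD_f g p y :=
  funext fun h => map_add (ZcD_h g h.down) _ _

private theorem ZcD_f_smul (g : GD A m) (p : Ch i × Ch i) (b : bsB A A p) (x : DgE A p) :
    ZcD_f g p (b • x) = b • ZcD_f g p x :=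
  funext fun h => ZcD_smul g h.down b x

/-- the map `A_{c ∪ c'} → S` -/
def dgZ (g : GD A m) : ShH (dgS A) (Zc (GBi.self g)) where
  f := fun p =>
    { toFun := fun x h =>
        (g.psi (A.res (Ch.sup_le h.down.1 h.down.2) (DgE.of A (p := p) x)) : g.S)
      map_add' := ZcD_f_add g p
      map_smul' := ZcD_f_smul g p }
  nat := fun {p q} h x => funext fun hq => ZcD_nat g h hq.down x

theorem dgZ_apply (g : GD A m) {p : Ch i × Ch i} (x : (dgS A).E p) (h : PLift (p ≤ (m, m))) :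
    (((dgZ g).f p x : (Zc (GBi.self g)).E p) : ZcE (GBi.self g) p) h =
      (g.psi (A.res (Ch.sup_le h.down.1 h.down.2) (DgE.of A (p := p) x)) : g.S) := rfl

/-- THE STANDARD BISHEAF at the generic point: the image of the diagonal in the bisheaf of `S`. -/
def T0 (g : GD A m) : BS A A := (dgZ g).range.sh

theorem T0_coh (g : GD A m) : (T0 g).Coh :=
  ((dgS_coh A).quot _).of_surj (dgZ g).quotKer (fun p => ((dgZ g).quotKer_bij p).2)

theorem T0_cen (g : GD A m) : Cen (T0 g) := (zc_cen _).sub _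

/-- the inclusion in the bisheaf of `S` -/
def T0i (g : GD A m) : ShH (T0 g) (Zc (GBi.self g)) := (dgZ g).range.incl

theorem T0i_inj (g : GD A m) : (T0i g).Inj := Sub.incl_inj _

private def ZcD_mk (g : GD A m) (p : Ch i × Ch i) (x : DgE A p) : (T0 g).E p :=
  (⟨(dgZ g).f p x, x, rfl⟩ : (dgZ g).range.N p)

private theorem ZcD_mk_incl (g : GD A m) (p : Ch i × Ch i) (x : DgE A p) :
    (T0i g).f p (ZcD_mk g p x) = (dgZ g).f p x := rfl

private def ZcD_in (c' : Ch i) (a : A.A m) : DgE A (m, c') := A.res (le_un1 (m, c')) a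

private theorem ZcD_in_apply (g : GD A m) (c' : Ch i) (h : ((m, c') : Ch i × Ch i) ≤ (m, m))
    (a : A.A m) : (((dgZ g).f (m, c') (ZcD_in c' a) : (Zc (GBi.self g)).E (m, c')) :
      ZcE (GBi.self g) (m, c')) ⟨h⟩ = (g.psi a : g.S) := by
  change g.psi (A.res (ZcD_un h) (A.res (le_un1 (m, c')) a)) = g.psi a
  rw [A.res_res, A.res_id]

private theorem ZcD_rinc {c : Ch i} (h : c ≤ c) (f : RR k c.1) : rinc h f = f := rfl

private theorem ZcD_cl (g : GD A m) (c' : Ch i) (f : RR k m.1)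
    (z : (Zc (GBi.self g)).E (m, c')) (h : ((m, c') : Ch i × Ch i) ≤ (m, m)) :
    (cl1 A A (m, c') f • z : ZcE (GBi.self g) (m, c')) ⟨h⟩ =
      (GBi.self g).lam (algebraMap (RR k m.1) (A.A m) (rinc h.1 f))
        ((z : ZcE (GBi.self g) (m, c')) ⟨h⟩) := by
  exact Zc_cl1 (GBi.self g) (p := (m, c')) f z h

/-- The inclusion is surjective up to functions (`g.surj`, and `m.sup c' = m` for `c' ≤ m`). -/
theorem T0i_surj (g : GD A m) (c' : Ch i) (z : (Zc (GBi.self g)).E (m, c')) :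
    ∃ f : RR k m.1, g.fn f ≠ 0 ∧ ∃ x, (T0i g).f (m, c') x = cl1 A A (m, c') f • z := by
  by_cases hc : ((m, c') : Ch i × Ch i) ≤ (m, m)
  · obtain ⟨f, hf, a, ha⟩ := g.surj ((z : ZcE (GBi.self g) (m, c')) ⟨hc⟩)
    refine ⟨f, hf, ZcD_mk g (m, c') (ZcD_in c' a), ?_⟩
    rw [ZcD_mk_incl]
    refine ZcE_ext fun h => ?_
    refine Eq.trans ?_ (ZcD_cl g c' f z h).symm
    refine Eq.trans (ZcD_in_apply g c' h a) ?_
    rw [ZcD_rinc]
    exact ha
  · refine ⟨1, ?_, 0, ?_⟩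
    · rw [g.fn_one]
      exact g.ne
    · exact ZcE_ext fun h => absurd h hc

private theorem ZcD_res {E : BS A A} {c : Ch i} (h : c ≤ m) {a : A.A c} (ha : a ∈ ann E c) :
    A.res h a ∈ ann E m := by
  rw [mem_ann]
  intro c' e
  obtain ⟨u, y, hu, hy⟩ := E.gen1 h e
  have h2 := E.res_lo (p := (c, c')) (q := (m, c')) ⟨h, le_rfl⟩ a y
  rw [mem_ann.1 ha c' y, map_zero, hy] at h2
  have h3 : cl1 A A (m, c') u • lo A A (m, c') (A.res h a) • e = 0 := by
    rw [← mul_smul, cl1_comm, mul_smul]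
    exact h2.symm
  exact E.unit_smul (p := (m, c')) (u := u) hu (x := lo A A (m, c') (A.res h a) • e) h3

/-- the annihilators of a reduced bisheaf kill the standard bisheaf -/
theorem ann_T0 {E : BS A A} (hR : Red E m) : ann E ≤ ann (T0 hR.gd) := by
  intro c a ha
  have h1 : a ∈ ann (Zc (GBi.self hR.gd)) c :=
    ann_zc (GBi.self hR.gd) (fun h => (hR.gd_psi _).2 (ZcD_res h ha))
  exact ann_sub (Zc (GBi.self hR.gd)) (dgZ hR.gd).range c h1

/-- the element `1` is not torsion -/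
theorem T0_one (g : GD A m) : ∃ x : Sec (T0 g) m m, ∀ f : RR k m.1, f • x = 0 → g.fn f = 0 := by
  refine ⟨ZcD_mk g (m, m) (ZcD_in m 1), fun f hf => ?_⟩
  have h0 : ((m, m) : Ch i × Ch i) ≤ (m, m) := le_rfl
  have h1 : (T0i g).f (m, m) (cl1 A A (m, m) f • ZcD_mk g (m, m) (ZcD_in m 1)) = 0 :=
    (congrArg ((T0i g).f (m, m)) hf).trans (map_zero _)
  rw [map_smul, ZcD_mk_incl] at h1
  have h2 : (cl1 A A (m, m) f • (dgZ g).f (m, m) (ZcD_in m 1) : ZcE (GBi.self g) (m, m))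
      ⟨h0⟩ = 0 := congrFun h1 (PLift.up h0)
  rw [ZcD_cl, ZcD_in_apply, ZcD_rinc, map_one] at h2
  refine Eq.trans ?_ h2
  exact (mul_one _).symm

end Pool.Agent.MP_6e5bed_ag_GP
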