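import Pool.Agent.Lib.MP_6e5bed_ag_GP.ZcD
import Pool.Agent.Lib.MP_6e5bed_ag_GP.Rk2

set_option autoImplicit false
set_option linter.unusedVariables false

/-!
# MP_6e5bed_ag, THEOREM G+: central bisheaves at the generic point
-/

noncomputable section

namespace Pool.Agent.MP_6e5bed_ag_GP

open Pool.Agent.MP_6e5bed_ag_GG
open scoped TensorProduct

universe u

variable {k : Type u} [Field k] {i : Type} [Fintype i] {A : CA k i} {m : Ch i}

section

variable {E : BS A A} (hR : Red E m) {F : BS A A}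

include hR in
/-- A central bisheaf `F` with `ann E ≤ ann F` has no sections over `(m, c')` if `c'` is not
contained in `m`: for `l ∈ c'`, `l ∉ m`, `γ ∈ m` the function `x_l / x_γ` is invertible on the
sections (`Cen.inv`) and kills them (`Red.tt_mem`). -/
theorem sec_zero (hc : Cen F) (ha : ann E ≤ ann F) {c' : Ch i} (h : ¬ c' ≤ m)
    (x : F.E (m, c')) : x = 0 := by
  obtain ⟨l, hl, hlm⟩ := Set.not_subset.1 (show ¬ c'.1 ⊆ m.1 from h)
  have h1 := hc.inv (m, c') (gch_mem m) hl x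
  have h2 : cl1 A A (m, c') (tt k l (gch_mem m)) •
      crt A A (m, c') (tt k (gch m) hl) • x = 0 :=
    mem_ann.1 (ha m (hR.tt_mem (gch_mem m) l hlm)) c' _
  exact h1.symm.trans h2

private theorem ZcF_act (hF : F.Coh) (hc : Cen F) (ha : ann E ≤ ann F) (b : bsB A A (m, m))
    (v : LV F m hR.sg m) :
    (GBi.of hR hF hc ha).act b v = LV.act F m hR.sg m b v := by
  induction b using TensorProduct.induction_on with
  | zero =>
    rw [map_zero, LinearMap.zero_apply]
    exact (LinearMap.congr_fun (map_zero (LV.act F m hR.sg m)) v).symm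
  | tmul a b =>
    rw [GBi.act_tmul]
    change gbl F m hR.sg (lo A A (m, m) a) (gbl F m hR.sg (ro A A (m, m) b) v) =
      gbl F m hR.sg (a ⊗ₜ[k] b) v
    rw [← Module.End.mul_apply, ← map_mul]
    congr 2
    exact lo_mul_ro A A (m, m) a b
  | add x y hx hy =>
    rw [map_add, LinearMap.add_apply, hx, hy]
    exact (LinearMap.congr_fun (map_add (LV.act F m hR.sg m) x y) v).symm

/-- The map from a central bisheaf to the bisheaf of its bimodule at the generic point. -/
def toZ (hF : F.Coh) (hc : Cen F) (ha : ann E ≤ ann F) : ShH F (Zc (GBi.of hR hF hc ha)) where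
  f := fun p =>
    { toFun := fun x h =>
        (LV.ι F m hR.sg m (F.res (p := p) (q := (m, m)) h.down x) : LV F m hR.sg m)
      map_add' := fun x y => funext fun h => by
        have e : F.res (p := p) (q := (m, m)) h.down (x + y) =
            F.res (p := p) (q := (m, m)) h.down x + F.res (p := p) (q := (m, m)) h.down y :=
          map_add _ _ _
        exact (congrArg (LV.ι F m hR.sg m) e).trans (map_add (LV.ι F m hR.sg m) _ _)
      map_smul' := fun b x => funext fun h => by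
        have e : F.res (p := p) (q := (m, m)) h.down (b • x) =
            (bs A A).r (p := p) (q := (m, m)) h.down b •
              F.res (p := p) (q := (m, m)) h.down x := F.res_smul _ _ _
        refine (congrArg (LV.ι F m hR.sg m) e).trans ?_
        refine Eq.trans ?_ (ZcF_act hR hF hc ha (bsr A A h.down b) _).symm
        exact (LV.act_ι (bsr A A h.down b)
          (show Sec F m m from F.res (p := p) (q := (m, m)) h.down x)).symm }
  nat := fun {p q} h x => funext fun hq => by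
    have e : F.res (p := q) (q := (m, m)) hq.down (F.res h x) =
        F.res (p := p) (q := (m, m)) (h.trans hq.down) x := F.res_res _ _ _
    exact (congrArg (LV.ι F m hR.sg m) e).symm

theorem toZ_apply (hF : F.Coh) (hc : Cen F) (ha : ann E ≤ ann F) {p : Ch i × Ch i} (x : F.E p)
    (h : PLift (p ≤ (m, m))) :
    (((toZ hR hF hc ha).f p x : (Zc (GBi.of hR hF hc ha)).E p) :
      ZcE (GBi.of hR hF hc ha) p) h =
      (LV.ι F m hR.sg m (F.res (p := p) (q := (m, m)) h.down x) : LV F m hR.sg m) := rfl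

/-- the kernel is torsion (`sec_zero`, `Cen.eqv`, `LV.ι_zero`) -/
theorem toZ_ker (hF : F.Coh) (hc : Cen F) (ha : ann E ≤ ann F) {c' : Ch i} (x : F.E (m, c'))
    (hx : (toZ hR hF hc ha).f (m, c') x = 0) :
    ∃ f : RR k m.1, algebraMap _ (A.A m) f ∉ ann E m ∧ cl1 A A (m, c') f • x = 0 := by
  by_cases h : c' ≤ m
  · have h1 : LV.ι F m hR.sg m (F.res (p := (m, c')) (q := (m, m)) ⟨le_rfl, h⟩ x) = 0 :=
      congrFun hx ⟨⟨le_rfl, h⟩⟩
    obtain ⟨s, hs, h2⟩ := LV.ι_zero.1 h1
    refine ⟨s, hR.mem_sg.1 hs, ?_⟩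
    have h3 : hc.eqv h (s • (show Sec F m c' from x)) = 0 := by
      rw [map_smul]
      exact h2
    exact (hc.eqv h).map_eq_zero_iff.1 h3
  · refine ⟨1, hR.mem_sg.1 hR.sg.one_mem, ?_⟩
    rw [sec_zero hR hc ha h x, smul_zero]

/-- the cokernel is torsion (`Cen.eqv`, `LV.surj`) -/
theorem toZ_surj (hF : F.Coh) (hc : Cen F) (ha : ann E ≤ ann F) {c' : Ch i}
    (z : (Zc (GBi.of hR hF hc ha)).E (m, c')) :
    ∃ f : RR k m.1, algebraMap _ (A.A m) f ∉ ann E m ∧
      ∃ x, (toZ hR hF hc ha).f (m, c') x = cl1 A A (m, c') f • z := by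
  by_cases h : c' ≤ m
  · have h0 : ((m, c') : Ch i × Ch i) ≤ (m, m) := ⟨le_rfl, h⟩
    obtain ⟨s, hs, x, hx⟩ := LV.surj
      (show LV F m hR.sg m from (z : ZcE (GBi.of hR hF hc ha) (m, c')) ⟨h0⟩)
    obtain ⟨y, rfl⟩ := (hc.eqv h).surjective x
    refine ⟨s, hR.mem_sg.1 hs, y, ZcE_ext fun h' => ?_⟩
    refine Eq.trans ?_ (Zc_cl1 (GBi.of hR hF hc ha) (p := (m, c')) s z h').symm
    refine hx.symm.trans ?_
    exact (LV.act_cl1 s (show LV F m hR.sg m from
      (z : ZcE (GBi.of hR hF hc ha) (m, c')) ⟨h0⟩)).symm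
  · refine ⟨1, hR.mem_sg.1 hR.sg.one_mem, 0, ZcE_ext fun h' => absurd h'.2 h⟩

end

/-! ### Ranks -/

/-- the rank of a bisheaf at the point of `g` -/
def rkF (g : GD A m) (F : BS A A) : ℕ := rkp (pp g) (Sec F m m)

theorem rkF_kill {E : BS A A} (hR : Red E m) {F : BS A A} (ha : ann E ≤ ann F) (c' : Ch i)
    (f : RR k m.1) (hf : f ∈ pp hR.gd) (x : Sec F m c') : f • x = 0 :=
  mem_ann.1 (ha m ((hR.gd_psi _).1 hf)) c' x

/-- additivity of the rank: `rkp_add`; `Sec N.quot m m` is the quotient by `Sec N.sh m m` -/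
theorem rkF_add {E : BS A A} (hR : Red E m) {F : BS A A} (hF : F.Coh) (hc : Cen F)
    (ha : ann E ≤ ann F) (N : Sub F) :
    rkF hR.gd F = rkF hR.gd N.sh + rkF hR.gd N.quot := by
  have := sec_fin hF hc m
  obtain ⟨π, hπ⟩ : ∃ π : Sec F m m →ₗ[RR k m.1] Sec N.quot m m,
      ∀ x, π x = (N.N (m, m)).mkQ (show F.E (m, m) from x) :=
    ⟨{ toFun := fun x => (N.N (m, m)).mkQ (show F.E (m, m) from x)
       map_add' := fun x y => map_add (N.N (m, m)).mkQ _ _
       map_smul' := fun f x => map_smul (N.N (m, m)).mkQ (cl1 A A (m, m) f)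
        (show F.E (m, m) from x) }, fun _ => rfl⟩
  have hs : Function.Surjective π := fun y => by
    obtain ⟨x, hx⟩ := (N.N (m, m)).mkQ_surjective y
    exact ⟨x, (hπ x).trans hx⟩
  have hk : ∀ x : Sec F m m, x ∈ LinearMap.ker π ↔ (show F.E (m, m) from x) ∈ N.N (m, m) := by
    intro x
    rw [LinearMap.mem_ker, hπ]
    exact Submodule.Quotient.mk_eq_zero _
  have e1 : rkF hR.gd N.quot = rkp (pp hR.gd) (Sec F m m ⧸ LinearMap.ker π) :=
    (rkp_congr (pp hR.gd) (π.quotKerEquivOfSurjective hs)).symm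
  have e2 : rkF hR.gd N.sh = rkp (pp hR.gd) (LinearMap.ker π) := by
    refine rkp_congr (pp hR.gd) ?_
    exact
      { toFun := fun x => ⟨(show (N.N (m, m) : Type _) from x).1,
          (hk _).2 (show (N.N (m, m) : Type _) from x).2⟩
        invFun := fun x => (⟨x.1, (hk _).1 x.2⟩ : (N.N (m, m) : Type _))
        left_inv := fun x => rfl
        right_inv := fun x => rfl
        map_add' := fun x y => rfl
        map_smul' := fun f x => rfl }
  rw [e1, e2]
  exact rkp_add (pp hR.gd) (fun f hf x => rkF_kill hR ha m f hf x) (LinearMap.ker π)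

/-- the rank of the standard bisheaf is positive (`rkp_pos`, `T0_one`) -/
theorem rkF_T0 {E : BS A A} (hR : Red E m) : 0 < rkF hR.gd (T0 hR.gd) := by
  have := sec_fin (T0_coh hR.gd) (T0_cen hR.gd) m
  obtain ⟨x, hx⟩ := T0_one hR.gd
  exact rkp_pos (pp hR.gd) (rkF_kill hR (ann_T0 hR) m) x (fun f hf => hx f hf)

/-- a central bisheaf of rank zero is torsion (`tors_of_rkp`, `sec_zero`, `Cen.eqv`) -/
theorem rkF_zero {E : BS A A} (hR : Red E m) {F : BS A A} (hF : F.Coh) (hc : Cen F)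
    (ha : ann E ≤ ann F) (h0 : rkF hR.gd F = 0) (c' : Ch i) (x : F.E (m, c')) :
    ∃ f : RR k m.1, algebraMap _ (A.A m) f ∉ ann E m ∧ cl1 A A (m, c') f • x = 0 := by
  have := sec_fin hF hc m
  by_cases h : c' ≤ m
  · obtain ⟨f, hf, h1⟩ := tors_of_rkp (pp hR.gd) (fun f hf x => rkF_kill hR ha m f hf x) h0
      (hc.eqv h (show Sec F m c' from x))
    refine ⟨f, (hR.gd_fn f).1 hf, ?_⟩
    rw [← map_smul] at h1
    exact (hc.eqv h).map_eq_zero_iff.1 h1
  · refine ⟨1, hR.mem_sg.1 hR.sg.one_mem, ?_⟩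
    rw [sec_zero hR hc ha h x, smul_zero]

end Pool.Agent.MP_6e5bed_ag_GP
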